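import Mathlib

set_option autoImplicit false

/-!
Multiplicities of the roots along a tower of compositions with a rational function `P / Q` of degree `d`
without exceptional points: they grow at most like `(d ^ 3 - 1) ^ j` in `3 j` steps.
-/

namespace Pool.Agent.H422.SK

open Polynomial

variable {W : Type} [Field W]

/-- Three different totally ramified points. -/
lemma no_three [CharZero W] {d : ℕ} (hd : 2 ≤ d) {a b c u v w : W} (hab : a ≠ b) (hac : a ≠ c)
    (hbc : b ≠ c)
    (h : C u * (X - C a) ^ d + C v * (X - C b) ^ d = C w * (X - C c) ^ d) : w = 0 := by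
  obtain ⟨e, rfl⟩ : ∃ e, d = e + 1 := ⟨d - 1, by omega⟩
  have he : 1 ≤ e := by omega
  have h1 := congrArg derivative h
  simp only [derivative_add, derivative_mul, derivative_C, derivative_pow, derivative_sub,
    derivative_X, zero_mul, zero_add, sub_zero, mul_one, Nat.cast_add, Nat.cast_one,
    Nat.add_sub_cancel] at h1
  have hne : (C ((e : W) + 1) : W[X]) ≠ 0 := by
    rw [Ne, C_eq_zero]
    exact_mod_cast Nat.succ_ne_zero e
  have hcast : ((e : W[X]) + 1) = C ((e : W) + 1) := by simp
  have h2 : C u * (X - C a) ^ e + C v * (X - C b) ^ e = C w * (X - C c) ^ e := by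
    apply mul_left_cancel₀ hne
    have h1' := h1
    simp only [map_add, map_natCast, map_one] at h1' ⊢
    linear_combination h1'
  have h3 : C (u * (c - a)) * (X - C a) ^ e + C (v * (c - b)) * (X - C b) ^ e = 0 := by
    have := h
    rw [pow_succ, pow_succ, pow_succ] at this
    simp only [map_mul, map_sub]
    linear_combination this - (X - C c) * h2
  have hv : v = 0 := by
    have h4 := congrArg (eval a) h3
    simp only [eval_add, eval_mul, eval_C, eval_pow, eval_sub, eval_X, sub_self,
      zero_pow (by omega : e ≠ 0), mul_zero, zero_add, eval_zero] at h4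
    rcases mul_eq_zero.1 h4 with h5 | h5
    · rcases mul_eq_zero.1 h5 with h6 | h6
      · exact h6
      · exact absurd (sub_eq_zero.1 h6).symm hbc
    · exact absurd (sub_eq_zero.1 (pow_eq_zero_iff (by omega) |>.1 h5)) hab
  have hu : u = 0 := by
    have h4 := congrArg (eval b) h3
    simp only [eval_add, eval_mul, eval_C, eval_pow, eval_sub, eval_X, sub_self,
      zero_pow (by omega : e ≠ 0), mul_zero, add_zero, eval_zero] at h4
    rcases mul_eq_zero.1 h4 with h5 | h5
    · rcases mul_eq_zero.1 h5 with h6 | h6
      · exact h6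
      · exact absurd (sub_eq_zero.1 h6).symm hac
    · exact absurd (sub_eq_zero.1 (pow_eq_zero_iff (by omega) |>.1 h5)).symm hab
  rw [hu, hv] at h
  simp only [map_zero, zero_mul, zero_add] at h
  have h5 := congrArg (eval (c + 1)) h
  simpa using h5.symm

/-- A tower of polynomials: `b (m + 1)` is the composition of the form `b m` of degree `N d ^ m` with
the pair `(P, Q)`. -/
structure Tower (d N : ℕ) (P Q : W[X]) (b : ℕ → W[X]) : Prop where
  hP : P.natDegree ≤ d
  hQ : Q.natDegree ≤ d
  cop : ∀ α, P.eval α = 0 → Q.eval α = 0 → False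
  ne : ∀ m, b m ≠ 0
  deg : ∀ m, (b m).natDegree = N * d ^ m
  card : ∀ m, Multiset.card (b m).roots = N * d ^ m
  step : ∀ m, b (m + 1) = C (b m).leadingCoeff * ((b m).roots.map fun β => P - C β * Q).prod

variable {d N : ℕ} {P Q : W[X]} {b : ℕ → W[X]}

lemma Tower.deg_le (h : Tower d N P Q b) (β : W) :
    (P - C β * Q).natDegree ≤ d := by
  refine (natDegree_sub_le _ _).trans (max_le h.hP ?_)
  exact (natDegree_C_mul_le _ _).trans h.hQ

lemma Tower.fac_ne (h : Tower d N P Q b) (m : ℕ) {β : W} (hβ : β ∈ (b m).roots) :
    P - C β * Q ≠ 0 := by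
  intro h0
  apply h.ne (m + 1)
  rw [h.step m, Multiset.prod_eq_zero, mul_zero]
  exact Multiset.mem_map.2 ⟨β, hβ, h0⟩

lemma Tower.fac_deg (h : Tower d N P Q b) (m : ℕ) {β : W} (hβ : β ∈ (b m).roots) :
    (P - C β * Q).natDegree = d := by
  classical
  have h1 := h.deg (m + 1)
  rw [h.step m, natDegree_C_mul (leadingCoeff_ne_zero.2 (h.ne m)),
    natDegree_multiset_prod _ (by
      intro h0
      obtain ⟨β', hβ', h0'⟩ := Multiset.mem_map.1 h0
      exact h.fac_ne m hβ' h0'), Multiset.map_map] at h1
  obtain ⟨t, ht⟩ := Multiset.exists_cons_of_mem hβ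
  rw [ht, Multiset.map_cons, Multiset.sum_cons] at h1
  have hc := h.card m
  rw [ht, Multiset.card_cons] at hc
  have h2 : (Multiset.map (natDegree ∘ fun β => P - C β * Q) t).sum ≤ Multiset.card t * d := by
    have := Multiset.sum_le_card_nsmul (Multiset.map (natDegree ∘ fun β => P - C β * Q) t) d (by
      intro x hx
      obtain ⟨γ, -, rfl⟩ := Multiset.mem_map.1 hx
      exact h.deg_le γ)
    rw [Multiset.card_map, smul_eq_mul] at this
    exact this
  have h3 : N * d ^ (m + 1) = (Multiset.card t + 1) * d := by rw [hc, pow_succ, mul_assoc]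
  rw [h3, add_mul, one_mul] at h1
  have h4 := h.deg_le β
  have h5 : (natDegree ∘ fun β => P - C β * Q) β = (P - C β * Q).natDegree := rfl
  rw [h5] at h1
  omega

/-- the chain rule -/
lemma Tower.chain [DecidableEq W] (h : Tower d N P Q b) (m : ℕ) {α : W}
    (hα : α ∈ (b (m + 1)).roots) :
    ∃ β ∈ (b m).roots, (P - C β * Q).eval α = 0 ∧
      (b (m + 1)).roots.count α = (P - C β * Q).roots.count α * (b m).roots.count β := by
  have h0 : (0 : W[X]) ∉ (b m).roots.map fun β => P - C β * Q := by
    intro h0
    obtain ⟨β', hβ', h0'⟩ := Multiset.mem_map.1 h0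
    exact h.fac_ne m hβ' h0'
  have h1 : (b (m + 1)).roots = (b m).roots.bind fun β => (P - C β * Q).roots := by
    rw [h.step m, roots_C_mul _ (leadingCoeff_ne_zero.2 (h.ne m)), roots_multiset_prod _ h0,
      Multiset.bind_map]
  rw [h1, Multiset.mem_bind] at hα
  obtain ⟨β, hβ, hαβ⟩ := hα
  have hev : (P - C β * Q).eval α = 0 := (mem_roots (h.fac_ne m hβ)).1 hαβ
  have hQα : Q.eval α ≠ 0 := by
    intro hq
    apply h.cop α _ hq
    simpa [hq] using hev
  refine ⟨β, hβ, hev, ?_⟩
  rw [h1, Multiset.count_bind]
  have h2 : ∀ γ ∈ (b m).roots, Multiset.count α (P - C γ * Q).roots =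
      if γ = β then Multiset.count α (P - C β * Q).roots else 0 := by
    intro γ hγ
    by_cases hγβ : γ = β
    · rw [if_pos hγβ, hγβ]
    · rw [if_neg hγβ, Multiset.count_eq_zero]
      intro hmem
      have h3 : (P - C γ * Q).eval α = 0 := (mem_roots (h.fac_ne m hγ)).1 hmem
      apply hγβ
      simp only [eval_sub, eval_mul, eval_C] at h3 hev
      exact mul_right_cancel₀ hQα (by linear_combination hev - h3)
  rw [Multiset.map_congr rfl h2]
  have h4 : ∀ s : Multiset W, (s.map fun γ => if γ = β then
      Multiset.count α (P - C β * Q).roots else 0).sum =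
      Multiset.count α (P - C β * Q).roots * Multiset.count β s := by
    intro s
    induction s using Multiset.induction_on with
    | empty => simp
    | cons x s ih =>
      rw [Multiset.map_cons, Multiset.sum_cons, ih]
      by_cases hx : x = β
      · subst hx
        rw [if_pos rfl, Multiset.count_cons_self]
        ring
      · rw [if_neg hx, Multiset.count_cons_of_ne (Ne.symm hx), zero_add]
  exact h4 _

/-- No exceptional points. -/
structure NoExc (d : ℕ) (P Q : W[X]) : Prop where
  one : ∀ α c : W, P - C α * Q = C c * (X - C α) ^ d → False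
  two : ∀ α β c c' : W, P - C β * Q = C c * (X - C α) ^ d → P - C α * Q = C c' * (X - C β) ^ d →
    False

lemma full_count [DecidableEq W] {R : W[X]} {n : ℕ} (hR : R.natDegree = n) {α : W}
    (h : R.roots.count α = n) : R = C R.leadingCoeff * (X - C α) ^ n := by
  by_cases hR0 : R = 0
  · rw [hR0]; simp
  have h1 : (X - C α) ^ n ∣ R := by
    rw [← h, count_roots]
    exact pow_rootMultiplicity_dvd R α
  obtain ⟨S, hS⟩ := h1
  have hS0 : S ≠ 0 := by
    rintro rfl
    exact hR0 (by rw [hS, mul_zero])
  have h2 : R.natDegree = n + S.natDegree := by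
    rw [hS, natDegree_mul (pow_ne_zero _ (X_sub_C_ne_zero α)) hS0, natDegree_pow,
      natDegree_X_sub_C, mul_one]
  have h3 : S.natDegree = 0 := by omega
  rw [eq_C_of_natDegree_eq_zero h3] at hS
  have h4 : R.leadingCoeff = S.coeff 0 := by
    rw [hS, leadingCoeff_mul, leadingCoeff_C, ((monic_X_sub_C α).pow n).leadingCoeff, one_mul]
  rw [h4, mul_comm]
  exact hS

theorem Tower.mult [CharZero W] [DecidableEq W] (h : Tower d N P Q b) (hd : 2 ≤ d)
    (hE : NoExc d P Q) (j : ℕ) (α : W) :
    (b (3 * j)).roots.count α ≤ N * (d ^ 3 - 1) ^ j := by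
  induction j generalizing α with
  | zero =>
    refine (Multiset.count_le_card _ _).trans ?_
    rw [h.card]
    simp
  | succ j ih =>
    by_cases hα : α ∈ (b (3 * (j + 1))).roots
    swap
    · rw [Multiset.count_eq_zero_of_notMem hα]
      exact Nat.zero_le _
    rw [show 3 * (j + 1) = (3 * j + 1 + 1) + 1 by ring] at hα ⊢
    obtain ⟨β, hβ, hβ1, e1⟩ := h.chain _ hα
    obtain ⟨γ, hγ, hγ1, e2⟩ := h.chain _ hβ
    obtain ⟨δ, hδ, hδ1, e3⟩ := h.chain _ hγ
    have dβ := h.fac_deg _ hβ
    have dγ := h.fac_deg _ hγ
    have dδ := h.fac_deg _ hδ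
    have l1 : (P - C β * Q).roots.count α ≤ d := by
      rw [← dβ]
      exact (Multiset.count_le_card _ _).trans (card_roots' _)
    have l2 : (P - C γ * Q).roots.count β ≤ d := by
      rw [← dγ]
      exact (Multiset.count_le_card _ _).trans (card_roots' _)
    have l3 : (P - C δ * Q).roots.count γ ≤ d := by
      rw [← dδ]
      exact (Multiset.count_le_card _ _).trans (card_roots' _)
    have hlt : (P - C β * Q).roots.count α * (P - C γ * Q).roots.count β *
        (P - C δ * Q).roots.count γ < d ^ 3 := by
      have hle : (P - C β * Q).roots.count α * (P - C γ * Q).roots.count β *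
          (P - C δ * Q).roots.count γ ≤ d * d * d := Nat.mul_le_mul (Nat.mul_le_mul l1 l2) l3
      rw [show d ^ 3 = d * d * d by ring]
      refine lt_of_le_of_ne hle fun heq => ?_
      have hd0 : 0 < d := by omega
      have q1 : (P - C β * Q).roots.count α = d := by
        by_contra hne
        have hlt' := lt_of_le_of_ne l1 hne
        have : (P - C β * Q).roots.count α * (P - C γ * Q).roots.count β *
          (P - C δ * Q).roots.count γ < d * d * d := by
          calc _ ≤ (P - C β * Q).roots.count α * d * d :=
                Nat.mul_le_mul (Nat.mul_le_mul le_rfl l2) l3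
            _ < d * d * d := by
                apply Nat.mul_lt_mul_of_pos_right _ hd0
                exact Nat.mul_lt_mul_of_pos_right hlt' hd0
        omega
      have q2 : (P - C γ * Q).roots.count β = d := by
        by_contra hne
        have hlt' := lt_of_le_of_ne l2 hne
        have : (P - C β * Q).roots.count α * (P - C γ * Q).roots.count β *
          (P - C δ * Q).roots.count γ < d * d * d := by
          calc _ ≤ d * (P - C γ * Q).roots.count β * d :=
                Nat.mul_le_mul (Nat.mul_le_mul l1 le_rfl) l3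
            _ < d * d * d := by
                apply Nat.mul_lt_mul_of_pos_right _ hd0
                exact Nat.mul_lt_mul_of_pos_left hlt' hd0
        omega
      have q3 : (P - C δ * Q).roots.count γ = d := by
        by_contra hne
        have hlt' := lt_of_le_of_ne l3 hne
        have : (P - C β * Q).roots.count α * (P - C γ * Q).roots.count β *
          (P - C δ * Q).roots.count γ < d * d * d := by
          calc _ ≤ d * d * (P - C δ * Q).roots.count γ :=
                Nat.mul_le_mul (Nat.mul_le_mul l1 l2) le_rfl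
            _ < d * d * d := Nat.mul_lt_mul_of_pos_left hlt' (Nat.mul_pos hd0 hd0)
        omega
      have r1 := full_count dβ q1
      have r2 := full_count dγ q2
      have r3 := full_count dδ q3
      set c1 := (P - C β * Q).leadingCoeff
      set c2 := (P - C γ * Q).leadingCoeff
      set c3 := (P - C δ * Q).leadingCoeff with hc3
      by_cases hβα : β = α
      · rw [hβα] at r1
        exact hE.one α _ r1
      by_cases hγβ : γ = β
      · rw [hγβ] at r2
        exact hE.one β _ r2
      by_cases hγα : γ = α
      · rw [hγα] at r2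
        exact hE.two α β _ _ r1 r2
      have hc30 : c3 ≠ 0 := leadingCoeff_ne_zero.2 (h.fac_ne _ hδ)
      have key : C ((δ - γ) * c1) * (X - C α) ^ d + C ((β - δ) * c2) * (X - C β) ^ d =
          C ((β - γ) * c3) * (X - C γ) ^ d := by
        simp only [map_mul, map_sub]
        linear_combination (-(C δ - C γ)) * r1 + (-(C β - C δ)) * r2 + (C β - C γ) * r3
      have h9 := no_three hd (Ne.symm hβα) (Ne.symm hγα) (Ne.symm hγβ) key
      rcases mul_eq_zero.1 h9 with h10 | h10
      · exact hγβ (sub_eq_zero.1 h10).symm
      · exact hc30 h10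
    rw [e1, e2, e3]
    have h5 := ih δ
    calc _ = ((P - C β * Q).roots.count α * (P - C γ * Q).roots.count β *
          (P - C δ * Q).roots.count γ) * (b (3 * j)).roots.count δ := by ring
      _ ≤ (d ^ 3 - 1) * (N * (d ^ 3 - 1) ^ j) := Nat.mul_le_mul (by omega) h5
      _ = N * (d ^ 3 - 1) ^ (j + 1) := by ring

end Pool.Agent.H422.SK
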