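import Mathlib
import Pool.Graph.R_pool_sql_team_seeded_3997aac3.Q170.HG.Grow
import Pool.Agent.H422.SK.Mult

set_option autoImplicit false

/-!
The tower of polynomials of a binary form and an endomorphism of the line.
-/

namespace Pool.Agent.H422.SK

open MvPolynomial
open Pool.Agent.Q170.HG (pt IsEndo)

variable {k : Type} [Field k]

/-- The self-map of `R ^ n` given by a system of polynomials over `k`. -/
noncomputable def ev {R : Type} [CommRing R] [Algebra k R] {n m : ℕ} (g : Fin m → MvPolynomial (Fin n) k)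
    (x : Fin n → R) : Fin m → R := fun i => aeval x (g i)

lemma ev_eq_pt {n : ℕ} (g : Fin n → MvPolynomial (Fin n) k) : (ev g : (Fin n → k) → Fin n → k) = pt g := by
  funext x i
  rw [ev, pt, aeval_eq_eval]

lemma aeval_smul_hom {R : Type} [CommRing R] [Algebra k R] {n M : ℕ} {p : MvPolynomial (Fin n) k}
    (hp : p.IsHomogeneous M) (c : R) (x : Fin n → R) : aeval (c • x) p = c ^ M * aeval x p := by
  rw [aeval_def, eval₂_eq', aeval_def, eval₂_eq', Finset.mul_sum]
  refine Finset.sum_congr rfl fun s hs => ?_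
  have h1 : ∑ i, s i = M := by
    have := hp (mem_support_iff.1 hs)
    rw [Finsupp.weight_apply, Finsupp.sum_fintype _ _ (by simp)] at this
    simpa using this
  simp only [Pi.smul_apply, smul_eq_mul, mul_pow, Finset.prod_mul_distrib]
  rw [Finset.prod_pow_eq_pow_sum, h1]
  ring

lemma ev_smul {R : Type} [CommRing R] [Algebra k R] {n d : ℕ} {g : Fin n → MvPolynomial (Fin n) k}
    (hg : ∀ i, (g i).IsHomogeneous d) (c : R) (x : Fin n → R) (m : ℕ) :
    (ev g)^[m] (c • x) = c ^ d ^ m • (ev g)^[m] x := by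
  induction m with
  | zero => simp
  | succ m ih =>
    rw [Function.iterate_succ_apply', Function.iterate_succ_apply', ih]
    funext i
    show aeval (c ^ d ^ m • (ev g)^[m] x) (g i) = c ^ d ^ (m + 1) * aeval ((ev g)^[m] x) (g i)
    rw [aeval_smul_hom (hg i), ← pow_mul, ← pow_succ]

lemma ev_map {R S : Type} [CommRing R] [Algebra k R] [CommRing S] [Algebra k S] (f : R →ₐ[k] S)
    {n : ℕ} (g : Fin n → MvPolynomial (Fin n) k) (x : Fin n → R) (m : ℕ) :
    (fun i => f ((ev g)^[m] x i)) = (ev g)^[m] fun i => f (x i) := by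
  induction m generalizing x with
  | zero => rfl
  | succ m ih =>
    rw [Function.iterate_succ_apply, Function.iterate_succ_apply, ih]
    congr 1
    funext i
    exact comp_aeval_apply x f (g i)

/-- the top coefficient -/
lemma top_coeff {n M D : ℕ} {p : MvPolynomial (Fin n) k} (hp : p.IsHomogeneous M)
    (y : Fin n → Polynomial k) (hy : ∀ i, (y i).natDegree ≤ D) :
    (aeval y p).natDegree ≤ M * D ∧ (aeval y p).coeff (M * D) = eval (fun i => (y i).coeff D) p := by
  have key : ∀ s : Fin n →₀ ℕ, ∑ i, s i = M →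
      (∏ i, y i ^ s i).natDegree ≤ M * D ∧
        (∏ i, y i ^ s i).coeff (M * D) = ∏ i, (y i).coeff D ^ s i := by
    intro s hs
    have h1 : ∀ t : Finset (Fin n), (∏ i ∈ t, y i ^ s i).natDegree ≤ (∑ i ∈ t, s i) * D ∧
        (∏ i ∈ t, y i ^ s i).coeff ((∑ i ∈ t, s i) * D) = ∏ i ∈ t, (y i).coeff D ^ s i := by
      intro t
      induction t using Finset.induction_on with
      | empty => simp
      | insert a t ha ih =>
        rw [Finset.prod_insert ha, Finset.sum_insert ha, Finset.prod_insert ha, add_mul]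
        have h2 : (y a ^ s a).natDegree ≤ s a * D :=
          Polynomial.natDegree_pow_le.trans (Nat.mul_le_mul le_rfl (hy a))
        refine ⟨Polynomial.natDegree_mul_le.trans (Nat.add_le_add h2 ih.1), ?_⟩
        rw [Polynomial.coeff_mul_add_eq_of_natDegree_le h2 ih.1, ih.2,
          Polynomial.coeff_pow_of_natDegree_le (hy a)]
    have := h1 Finset.univ
    rwa [hs] at this
  have hs : ∀ s ∈ p.support, ∑ i, s i = M := by
    intro s hs
    have := hp (mem_support_iff.1 hs)
    rw [Finsupp.weight_apply, Finsupp.sum_fintype _ _ (by simp)] at this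
    simpa using this
  rw [aeval_def, eval₂_eq', eval_eq']
  constructor
  · refine Polynomial.natDegree_sum_le_of_forall_le _ _ fun s hs' => ?_
    refine (Polynomial.natDegree_C_mul_le _ _).trans (key s (hs s hs')).1
  · rw [Polynomial.finsetSum_coeff]
    refine Finset.sum_congr rfl fun s hs' => ?_
    have h3 : (algebraMap k (Polynomial k)) (coeff s p) = Polynomial.C (coeff s p) := rfl
    rw [h3, Polynomial.coeff_C_mul, (key s (hs s hs')).2]

variable {d N : ℕ} {g : Fin 2 → MvPolynomial (Fin 2) k} {B : MvPolynomial (Fin 2) k}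

/-- the line `T w + w'` -/
noncomputable def ln (w w' : Fin 2 → k) : Fin 2 → Polynomial k :=
  fun i => Polynomial.C (w' i) + Polynomial.X * Polynomial.C (w i)

/-- the polynomials of the tower, over `k` -/
noncomputable def bk (g : Fin 2 → MvPolynomial (Fin 2) k) (B : MvPolynomial (Fin 2) k)
    (w w' : Fin 2 → k) (m : ℕ) : Polynomial k := aeval ((ev g)^[m] (ln w w')) B

lemma ln_deg (w w' : Fin 2 → k) (i : Fin 2) : (ln w w' i).natDegree ≤ 1 := by
  unfold ln
  refine (Polynomial.natDegree_add_le _ _).trans (max_le (by simp) ?_)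
  rw [mul_comm]
  exact (Polynomial.natDegree_C_mul_le _ _).trans Polynomial.natDegree_X_le

lemma ln_coeff (w w' : Fin 2 → k) (i : Fin 2) : (ln w w' i).coeff 1 = w i := by
  unfold ln
  rw [Polynomial.coeff_add, mul_comm, Polynomial.coeff_C_mul, Polynomial.coeff_X_one,
    Polynomial.coeff_C_of_ne_zero one_ne_zero, zero_add, mul_one]

lemma it_deg (hg : ∀ i, (g i).IsHomogeneous d) (w w' : Fin 2 → k) (m : ℕ) :
    (∀ i, ((ev g)^[m] (ln w w') i).natDegree ≤ d ^ m) ∧
      (fun i => ((ev g)^[m] (ln w w') i).coeff (d ^ m)) = (ev g)^[m] w := by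
  induction m with
  | zero =>
    refine ⟨fun i => ?_, ?_⟩
    · simpa using ln_deg w w' i
    · funext i
      simpa using ln_coeff w w' i
  | succ m ih =>
    rw [Function.iterate_succ_apply', Function.iterate_succ_apply']
    refine ⟨fun i => ?_, ?_⟩
    · have := (top_coeff (hg i) _ ih.1).1
      rw [pow_succ, mul_comm]
      exact this
    · funext i
      have := (top_coeff (hg i) _ ih.1).2
      rw [pow_succ, mul_comm]
      refine this.trans ?_
      rw [ih.2, ev, aeval_eq_eval]

lemma bk_deg (hg : ∀ i, (g i).IsHomogeneous d) (hB : B.IsHomogeneous N) (w w' : Fin 2 → k) (m : ℕ)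
    (hw : eval ((ev g)^[m] w) B ≠ 0) :
    (bk g B w w' m).natDegree = N * d ^ m ∧ (bk g B w w' m).leadingCoeff = eval ((ev g)^[m] w) B := by
  have h1 := top_coeff hB _ (it_deg hg w w' m).1
  rw [(it_deg hg w w' m).2] at h1
  have h2 : (bk g B w w' m).natDegree = N * d ^ m := by
    apply le_antisymm h1.1
    apply Polynomial.le_natDegree_of_ne_zero
    show (aeval ((ev g)^[m] (ln w w')) B).coeff _ ≠ 0
    rw [h1.2]
    exact hw
  refine ⟨h2, ?_⟩
  rw [Polynomial.leadingCoeff, h2]
  exact h1.2

lemma ev_ln {R : Type} [CommRing R] [Algebra k R] (w w' : Fin 2 → k) (τ : R) (m : ℕ) :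
    (fun i => Polynomial.aeval τ ((ev g)^[m] (ln w w') i)) =
      (ev g)^[m] fun i => τ * algebraMap k R (w i) + algebraMap k R (w' i) := by
  rw [ev_map]
  congr 1
  funext i
  simp only [ln, map_add, map_mul, Polynomial.aeval_C, Polynomial.aeval_X]
  ring

lemma bk_eval {R : Type} [CommRing R] [Algebra k R] (w w' : Fin 2 → k) (τ : R) (m : ℕ) :
    Polynomial.aeval τ (bk g B w w' m) =
      aeval ((ev g)^[m] fun i => τ * algebraMap k R (w i) + algebraMap k R (w' i)) B := by
  rw [bk, ← ev_ln w w' τ m]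
  exact comp_aeval_apply _ (Polynomial.aeval τ) B

/-- the coordinates in the basis `w, w'` -/
noncomputable def cu {R : Type} [CommRing R] [Algebra k R] (w w' : Fin 2 → k) (x : Fin 2 → R) : R :=
  algebraMap k R (w 0 * w' 1 - w 1 * w' 0)⁻¹ * (x 0 * algebraMap k R (w' 1) - x 1 * algebraMap k R (w' 0))

noncomputable def cl {R : Type} [CommRing R] [Algebra k R] (w w' : Fin 2 → k) (x : Fin 2 → R) : R :=
  algebraMap k R (w 0 * w' 1 - w 1 * w' 0)⁻¹ * (x 1 * algebraMap k R (w 0) - x 0 * algebraMap k R (w 1))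

lemma coords {R : Type} [CommRing R] [Algebra k R] {w w' : Fin 2 → k}
    (hw : w 0 * w' 1 - w 1 * w' 0 ≠ 0) (x : Fin 2 → R) (i : Fin 2) :
    x i = cu w w' x * algebraMap k R (w i) + cl w w' x * algebraMap k R (w' i) := by
  have h1 : algebraMap k R (w 0 * w' 1 - w 1 * w' 0)⁻¹ *
      (algebraMap k R (w 0) * algebraMap k R (w' 1) - algebraMap k R (w 1) * algebraMap k R (w' 0)) = 1 := by
    rw [← map_mul, ← map_mul, ← map_sub, ← map_mul, inv_mul_cancel₀ hw, map_one]
  unfold cu cl
  fin_cases i
  · simp only [Fin.zero_eta, Fin.isValue]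
    linear_combination (-(x 0)) * h1
  · simp only [Fin.mk_one, Fin.isValue]
    linear_combination (-(x 1)) * h1

/-- the pair `(P, Q)` -/
noncomputable def PP (g : Fin 2 → MvPolynomial (Fin 2) k) (w w' : Fin 2 → k) : Polynomial k :=
  cu w w' (ev g (ln w w'))

noncomputable def QQ (g : Fin 2 → MvPolynomial (Fin 2) k) (w w' : Fin 2 → k) : Polynomial k :=
  cl w w' (ev g (ln w w'))

lemma cu_map {R S : Type} [CommRing R] [Algebra k R] [CommRing S] [Algebra k S] (f : R →ₐ[k] S)
    (w w' : Fin 2 → k) (x : Fin 2 → R) : f (cu w w' x) = cu w w' fun i => f (x i) := by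
  simp [cu]

lemma cl_map {R S : Type} [CommRing R] [Algebra k R] [CommRing S] [Algebra k S] (f : R →ₐ[k] S)
    (w w' : Fin 2 → k) (x : Fin 2 → R) : f (cl w w' x) = cl w w' fun i => f (x i) := by
  simp [cl]

lemma PQ_eval {R : Type} [CommRing R] [Algebra k R] {w w' : Fin 2 → k}
    (hw : w 0 * w' 1 - w 1 * w' 0 ≠ 0) (τ : R) :
    (ev g fun i => τ * algebraMap k R (w i) + algebraMap k R (w' i)) =
      fun i => Polynomial.aeval τ (PP g w w') * algebraMap k R (w i) +
        Polynomial.aeval τ (QQ g w w') * algebraMap k R (w' i) := by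
  have h1 := ev_ln (g := g) (R := R) w w' τ 1
  simp only [Function.iterate_one] at h1
  rw [← h1]
  funext i
  have h2 := congrArg (Polynomial.aeval τ) (coords hw (ev g (ln w w')) i)
  rw [h2, map_add, map_mul, map_mul]
  have e : ∀ y : k, Polynomial.aeval τ (algebraMap k (Polynomial k) y) = algebraMap k R y := by
    intro y
    exact Polynomial.aeval_C τ y
  rw [e, e]
  rfl

lemma PQ_deg (hg : ∀ i, (g i).IsHomogeneous d) (w w' : Fin 2 → k) :
    (PP g w w').natDegree ≤ d ∧ (QQ g w w').natDegree ≤ d := by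
  have h1 := (it_deg hg w w' 1).1
  simp only [Function.iterate_one, pow_one] at h1
  have h2 : ∀ (i : Fin 2) (c : k), (ev g (ln w w') i * algebraMap k (Polynomial k) c).natDegree ≤ d := by
    intro i c
    rw [mul_comm]
    exact (Polynomial.natDegree_C_mul_le _ _).trans (h1 i)
  unfold PP QQ cu cl
  constructor
  · refine (Polynomial.natDegree_C_mul_le _ _).trans ?_
    exact (Polynomial.natDegree_sub_le _ _).trans (max_le (h2 _ _) (h2 _ _))
  · refine (Polynomial.natDegree_C_mul_le _ _).trans ?_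
    exact (Polynomial.natDegree_sub_le _ _).trans (max_le (h2 _ _) (h2 _ _))

/-- the top coefficients of `P`, `Q` are the coordinates of the image of `w` -/
lemma PQ_top (hg : ∀ i, (g i).IsHomogeneous d) (w w' : Fin 2 → k) :
    (PP g w w').coeff d = cu w w' (ev g w) ∧ (QQ g w w').coeff d = cl w w' (ev g w) := by
  have h1 := (it_deg hg w w' 1).2
  simp only [Function.iterate_one, pow_one] at h1
  rw [← h1]
  unfold PP QQ cu cl
  constructor
  · rw [show (algebraMap k (Polynomial k)) (w 0 * w' 1 - w 1 * w' 0)⁻¹ =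
      Polynomial.C (w 0 * w' 1 - w 1 * w' 0)⁻¹ from rfl, Polynomial.coeff_C_mul, Polynomial.coeff_sub]
    rw [show (algebraMap k (Polynomial k)) (w' 1) = Polynomial.C (w' 1) from rfl,
      show (algebraMap k (Polynomial k)) (w' 0) = Polynomial.C (w' 0) from rfl,
      Polynomial.coeff_mul_C, Polynomial.coeff_mul_C]
    rfl
  · rw [show (algebraMap k (Polynomial k)) (w 0 * w' 1 - w 1 * w' 0)⁻¹ =
      Polynomial.C (w 0 * w' 1 - w 1 * w' 0)⁻¹ from rfl, Polynomial.coeff_C_mul, Polynomial.coeff_sub]
    rw [show (algebraMap k (Polynomial k)) (w 1) = Polynomial.C (w 1) from rfl,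
      show (algebraMap k (Polynomial k)) (w 0) = Polynomial.C (w 0) from rfl,
      Polynomial.coeff_mul_C, Polynomial.coeff_mul_C]
    rfl

end Pool.Agent.H422.SK
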