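import Mathlib
import Pool.Agent.H422.SK.Base

set_option autoImplicit false
set_option linter.unusedSectionVars false

/-!
On a closed set of dimension at most one any two rational functions are algebraically dependent.
-/

namespace Pool.Agent.H422.SK

open MvPolynomial

section dep

variable {L E : Type} [Field L] [Field E] [Algebra L E]

open AlgebraicIndependent in
/-- two elements of a field generated by pairwise dependent elements are dependent -/
lemma dep {n : ℕ} (s : Fin n → E)
    (hdep : ∀ i j, ∃ P : MvPolynomial (Fin 2) L, P ≠ 0 ∧ aeval ![s i, s j] P = 0)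
    (t u : E) (ht : IsAlgebraic (Algebra.adjoin L (Set.range s)) t)
    (hu : IsAlgebraic (Algebra.adjoin L (Set.range s)) u) :
    ∃ P : MvPolynomial (Fin 2) L, P ≠ 0 ∧ aeval ![t, u] P = 0 := by
  by_contra hcon
  push Not at hcon
  have hind : AlgebraicIndependent L ![t, u] := by
    rw [algebraicIndependent_iff]
    intro p hp
    by_contra h0
    exact hcon p h0 hp
  have hpair : ∀ a b : E, a ∈ Set.range s → b ∈ Set.range s → ¬ (a ≠ b ∧
      AlgebraicIndepOn L id ({a, b} : Set E)) := by
    rintro a b ⟨i, rfl⟩ ⟨j, rfl⟩ ⟨hne, h⟩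
    obtain ⟨P, hP, h0⟩ := hdep i j
    have h1 : AlgebraicIndependent L ![s i, s j] := by
      have e : (![s i, s j] : Fin 2 → E) = (fun x : ({s i, s j} : Set E) => id x.1) ∘
          ![⟨s i, Or.inl rfl⟩, ⟨s j, Or.inr rfl⟩] := by
        funext a
        fin_cases a <;> rfl
      rw [e]
      apply AlgebraicIndependent.comp h
      intro a b hab
      have hab' := congrArg Subtype.val hab
      fin_cases a <;> fin_cases b
      · rfl
      · exact absurd hab' hne
      · exact absurd hab'.symm hne
      · rfl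
    exact hP ((algebraicIndependent_iff.1 h1) P h0)
  have hrk : (matroid L E).eRk (Set.range s) ≤ 1 := by
    rw [Matroid.eRk_le_iff]
    intro I hI hInd
    by_contra hlt
    push Not at hlt
    obtain ⟨a, b, ha, hb, hne⟩ := Set.one_lt_encard_iff.1 hlt
    apply hpair a b (hI ha) (hI hb)
    refine ⟨hne, ?_⟩
    rw [← matroid_indep_iff]
    exact hInd.subset (Set.insert_subset ha (Set.singleton_subset_iff.2 hb))
  have hcl : ({t, u} : Set E) ⊆ (matroid L E).closure (Set.range s) := by
    rw [matroid_closure_eq]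
    intro a ha
    rcases ha with rfl | ha
    · exact ht
    · rw [Set.mem_singleton_iff.1 ha]
      exact hu
  have hne : t ≠ u := by
    have := hind.injective.ne (show (0 : Fin 2) ≠ 1 by decide)
    simpa using this
  have hI : (matroid L E).Indep ({t, u} : Set E) := by
    rw [matroid_indep_iff]
    have e : (fun x : ({t, u} : Set E) => (id x.1 : E)) ∘ (![⟨t, Or.inl rfl⟩, ⟨u, Or.inr rfl⟩] :
        Fin 2 → ({t, u} : Set E)) = ![t, u] := by
      funext a
      fin_cases a <;> rfl
    have hbij : Function.Bijective (![⟨t, Or.inl rfl⟩, ⟨u, Or.inr rfl⟩] :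
        Fin 2 → ({t, u} : Set E)) := by
      constructor
      · intro a b hab
        have hab' := congrArg Subtype.val hab
        fin_cases a <;> fin_cases b
        · rfl
        · exact absurd hab' hne
        · exact absurd hab'.symm hne
        · rfl
      · rintro ⟨a, rfl | ha⟩
        · exact ⟨0, rfl⟩
        · refine ⟨1, ?_⟩
          apply Subtype.ext
          exact (Set.mem_singleton_iff.1 ha).symm
    rw [AlgebraicIndepOn, ← algebraicIndependent_equiv (Equiv.ofBijective _ hbij)]
    change AlgebraicIndependent L ((fun x : ({t, u} : Set E) => (id x.1 : E)) ∘ _)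
    rw [Equiv.coe_ofBijective, e]
    exact hind
  have h1 := hI.encard_le_eRk_of_subset hcl
  rw [Matroid.eRk_closure_eq, Set.encard_pair hne] at h1
  have h2 := h1.trans hrk
  exact absurd h2 (by decide)

end dep

section hom3

variable {L : Type} [Field L]

/-- the homogenised polynomial -/
lemma hom3 (P : MvPolynomial (Fin 2) L) : ∃ (D : ℕ) (H : MvPolynomial (Fin 3) L),
    ∀ (A : Type) [Field A] [Algebra L A] (x y z : A), z ≠ 0 →
      aeval ![x, y, z] H = z ^ D * aeval ![x / z, y / z] P := by
  classical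
  refine ⟨P.totalDegree, ∑ μ ∈ P.support, C (coeff μ P) * X 0 ^ μ 0 * X 1 ^ μ 1 *
    X 2 ^ (P.totalDegree - μ 0 - μ 1), fun A _ _ x y z hz => ?_⟩
  have h1 : aeval ![x / z, y / z] P = ∑ μ ∈ P.support, algebraMap L A (coeff μ P) *
      (x / z) ^ μ 0 * (y / z) ^ μ 1 := by
    rw [aeval_def, eval₂_eq']
    refine Finset.sum_congr rfl fun μ _ => ?_
    rw [Fin.prod_univ_two]
    simp only [Matrix.cons_val_zero, Matrix.cons_val_one]
    ring
  rw [h1, map_sum, Finset.mul_sum]
  refine Finset.sum_congr rfl fun μ hμ => ?_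
  have h2 : μ 0 + μ 1 ≤ P.totalDegree := by
    have h3 := le_totalDegree hμ
    rwa [Finsupp.sum_fintype _ _ (fun _ => rfl), Fin.sum_univ_two] at h3
  simp only [map_mul, map_pow, aeval_X, algHom_C]
  change algebraMap L A (coeff μ P) * x ^ μ 0 * y ^ μ 1 * z ^ (P.totalDegree - μ 0 - μ 1) = _
  have h4 : z ^ P.totalDegree = z ^ (P.totalDegree - μ 0 - μ 1) * z ^ μ 0 * z ^ μ 1 := by
    rw [← pow_add, ← pow_add]
    congr 1
    omega
  rw [h4, div_pow, div_pow]
  field_simp

/-- polynomials in two variables -/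
lemma to_poly [Infinite L] (P : MvPolynomial (Fin 2) L) (hP : P ≠ 0) :
    ∃ Q : Polynomial (Polynomial L), Q ≠ 0 ∧ ∀ a b : L, Q.evalEval a b = eval ![a, b] P := by
  have key : ∀ a b : L, (aeval ![Polynomial.C Polynomial.X, (Polynomial.X : Polynomial (Polynomial L))] P).evalEval
      a b = eval ![a, b] P := by
    intro a b
    have h1 : ∀ Q : Polynomial (Polynomial L), Q.evalEval a b = Polynomial.evalEvalRingHom a b Q :=
      fun Q => rfl
    rw [h1, aeval_def, MvPolynomial.hom_eval₂]
    have h2 : (Polynomial.evalEvalRingHom a b).comp (algebraMap L (Polynomial (Polynomial L))) =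
        RingHom.id L := by
      ext c
      simp
    rw [h2]
    have h3 : (fun i => Polynomial.evalEvalRingHom a b
        (![Polynomial.C Polynomial.X, (Polynomial.X : Polynomial (Polynomial L))] i)) = ![a, b] := by
      funext i
      fin_cases i
      · simp
      · simp
    rw [h3]
    rfl
  refine ⟨_, ?_, key⟩
  intro h0
  apply hP
  apply MvPolynomial.funext
  intro x
  have h1 := key (x 0) (x 1)
  rw [h0] at h1
  have h2 : ![x 0, x 1] = x := by
    funext i
    fin_cases i <;> rfl
  rw [h2] at h1
  rw [← h1, map_zero]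
  simp [Polynomial.evalEval]

end hom3

section relation

variable {L : Type} [Field L]

/-- **Two rational functions on a set of dimension at most one are dependent.** -/
theorem relation {n m : ℕ} (V : Set (Fin n → L))
    (hV : ∀ i j l, ∃ P : MvPolynomial (Fin 2) L, P ≠ 0 ∧
      ∀ x ∈ V, x l ≠ 0 → eval ![x i / x l, x j / x l] P = 0)
    {a b c : MvPolynomial (Fin n) L} (hm : 1 ≤ m) (ha : a.IsHomogeneous m) (hb : b.IsHomogeneous m)
    (hc : c.IsHomogeneous m) :
    ∃ P : MvPolynomial (Fin 2) L, P ≠ 0 ∧ ∀ x ∈ V, eval x a ≠ 0 →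
      eval ![eval x b / eval x a, eval x c / eval x a] P = 0 := by
  classical
  -- the vanishing ideal
  set I : Ideal (MvPolynomial (Fin n) L) :=
    { carrier := {f | ∀ x ∈ V, eval x f = 0}
      add_mem' := fun {f g} hf hg x hx => by rw [map_add, hf x hx, hg x hx, add_zero]
      zero_mem' := fun x _ => map_zero _
      smul_mem' := fun f g hg x hx => by rw [smul_eq_mul, map_mul, hg x hx, mul_zero] } with hI
  have hmem : ∀ f, f ∈ I ↔ ∀ x ∈ V, eval x f = 0 := fun f => Iff.rfl
  have hrad : I.IsRadical := by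
    intro f hf
    obtain ⟨N, hN⟩ := hf
    intro x hx
    have := (hmem _).1 hN x hx
    rw [map_pow] at this
    exact eq_zero_of_pow_eq_zero this
  have hfin : I.minimalPrimes.Finite := Ideal.finite_minimalPrimes_of_isNoetherianRing _ I
  have hinf : sInf I.minimalPrimes = I := by rw [Ideal.sInf_minimalPrimes, hrad.radical]
  -- the relation modulo a prime
  have hprime : ∀ p ∈ I.minimalPrimes, ∃ P : MvPolynomial (Fin 2) L, P ≠ 0 ∧
      (a ∈ p ∨ ∃ (D : ℕ) (H : MvPolynomial (Fin 3) L), aeval ![b, c, a] H ∈ p ∧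
        ∀ x y z : L, z ≠ 0 → eval ![x, y, z] H = z ^ D * eval ![x / z, y / z] P) := by
    intro p hp
    have hpp : p.IsPrime := hp.1.1
    have hIp : I ≤ p := hp.1.2
    by_cases hap : a ∈ p
    · exact ⟨1, one_ne_zero, Or.inl hap⟩
    set E := FractionRing (MvPolynomial (Fin n) L ⧸ p)
    let ι : MvPolynomial (Fin n) L →ₐ[L] E :=
      (IsScalarTower.toAlgHom L (MvPolynomial (Fin n) L ⧸ p) E).comp (Ideal.Quotient.mkₐ L p)
    have hι : ∀ f, ι f = 0 ↔ f ∈ p := by
      intro f
      have h1 : ι f = algebraMap (MvPolynomial (Fin n) L ⧸ p) E (Ideal.Quotient.mk p f) := rfl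
      rw [h1, ← Ideal.Quotient.eq_zero_iff_mem]
      constructor
      · intro h
        exact (IsFractionRing.injective (MvPolynomial (Fin n) L ⧸ p) E) (by rw [h, map_zero])
      · intro h
        rw [h, map_zero]
    set ξ : Fin n → E := fun i => ι (X i) with hξ
    have hιa : ∀ f, ι f = aeval ξ f := by
      intro f
      have h1 : ι = aeval ξ := by
        apply MvPolynomial.algHom_ext
        intro i
        rw [aeval_X]
      rw [h1]
    have hιa0 : ι a ≠ 0 := fun h => hap ((hι a).1 h)
    obtain ⟨l, hl⟩ : ∃ l, ξ l ≠ 0 := by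
      by_contra hcon
      push Not at hcon
      apply hιa0
      have h1 : ξ = (0 : E) • ξ := by
        funext i
        rw [Pi.smul_apply, hcon i, smul_zero]
      rw [hιa, h1, aeval_smul_hom ha, zero_pow (by omega), zero_mul]
    set s : Fin n → E := fun i => ξ i / ξ l with hs
    have hξs : ξ = ξ l • s := by
      funext i
      rw [Pi.smul_apply, hs, smul_eq_mul, mul_div_cancel₀ _ hl]
    have hdep : ∀ i j, ∃ P : MvPolynomial (Fin 2) L, P ≠ 0 ∧ aeval ![s i, s j] P = 0 := by
      intro i j
      obtain ⟨P, hP, hPV⟩ := hV i j l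
      refine ⟨P, hP, ?_⟩
      obtain ⟨D, H, hH⟩ := hom3 P
      have h1 : X l * aeval ![X i, X j, X l] H ∈ I := by
        intro x hx
        rw [map_mul, eval_X]
        by_cases hxl : x l = 0
        · rw [hxl, zero_mul]
        · have h2 : eval x (aeval ![X i, X j, X l] H) = aeval ![x i, x j, x l] H := by
            rw [← aeval_eq_eval, ← AlgHom.comp_apply, comp_aeval]
            congr 2
            funext q
            fin_cases q <;> simp [aeval_X]
          rw [h2, hH L _ _ _ hxl, aeval_eq_eval, hPV x hx hxl, mul_zero, mul_zero]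
      have h2 := (hι _).2 (hIp h1)
      rw [map_mul] at h2
      have h3 := (mul_eq_zero.1 h2).resolve_left hl
      have h4 : ι (aeval ![X i, X j, X l] H) = aeval ![ξ i, ξ j, ξ l] H := by
        rw [← AlgHom.comp_apply, comp_aeval]
        congr 2
        funext q
        fin_cases q <;> rfl
      rw [h4, hH E _ _ _ hl] at h3
      exact (mul_eq_zero.1 h3).resolve_left (pow_ne_zero _ hl)
    have hadj : ∀ f : MvPolynomial (Fin n) L, aeval s f ∈ Algebra.adjoin L (Set.range s) := by
      intro f
      rw [Algebra.adjoin_range_eq_range_aeval]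
      exact ⟨f, rfl⟩
    have halg : ∀ f : MvPolynomial (Fin n) L, f.IsHomogeneous m →
        IsAlgebraic (Algebra.adjoin L (Set.range s)) (ι f / ι a) := by
      intro f hf
      have h1 : ι f / ι a = aeval s f * (aeval s a)⁻¹ := by
        rw [hιa f, hιa a, hξs, aeval_smul_hom hf, aeval_smul_hom ha]
        rw [mul_div_mul_left _ _ (pow_ne_zero _ hl), div_eq_mul_inv]
      rw [h1]
      apply IsAlgebraic.mul
      · exact isAlgebraic_algebraMap (⟨_, hadj f⟩ : Algebra.adjoin L (Set.range s))
      · apply IsAlgebraic.inv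
        exact isAlgebraic_algebraMap (⟨_, hadj a⟩ : Algebra.adjoin L (Set.range s))
    obtain ⟨P, hP, hP0⟩ := dep s hdep (ι b / ι a) (ι c / ι a) (halg b hb) (halg c hc)
    obtain ⟨D, H, hH⟩ := hom3 P
    refine ⟨P, hP, Or.inr ⟨D, H, ?_, fun x y z hz => ?_⟩⟩
    · rw [← hι]
      have h4 : ι (aeval ![b, c, a] H) = aeval ![ι b, ι c, ι a] H := by
        rw [← AlgHom.comp_apply, comp_aeval]
        congr 2
        funext q
        fin_cases q <;> rfl
      rw [h4, hH E _ _ _ hιa0, hP0, mul_zero]
    · have := hH L x y z hz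
      rwa [aeval_eq_eval, aeval_eq_eval] at this
  choose! P hP0 hP using hprime
  refine ⟨∏ p ∈ hfin.toFinset, P p, Finset.prod_ne_zero_iff.2 fun p hp =>
    hP0 p (hfin.mem_toFinset.1 hp), fun x hx hax => ?_⟩
  rw [map_prod]
  by_contra hne
  rw [Finset.prod_eq_zero_iff] at hne
  push Not at hne
  -- an element of the intersection of the primes which does not vanish at `x`
  have hel : ∀ p ∈ hfin.toFinset, ∃ f ∈ p, eval x f ≠ 0 := by
    intro p hp
    rcases hP p (hfin.mem_toFinset.1 hp) with h | ⟨D, H, h1, h2⟩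
    · exact ⟨a, h, hax⟩
    · refine ⟨_, h1, ?_⟩
      have h3 : eval x (aeval ![b, c, a] H) = eval ![eval x b, eval x c, eval x a] H := by
        rw [← aeval_eq_eval, ← AlgHom.comp_apply, comp_aeval, ← aeval_eq_eval]
        congr 2
        funext q
        fin_cases q <;> simp [aeval_eq_eval]
      rw [h3, h2 _ _ _ hax]
      exact mul_ne_zero (pow_ne_zero _ hax) (hne p hp)
  choose! f hfp hfx using hel
  have h1 : ∏ p ∈ hfin.toFinset, f p ∈ I := by
    have hinf' : ∀ y, y ∈ sInf I.minimalPrimes → y ∈ I := fun y hy => hinf ▸ hy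
    apply hinf'
    rw [Submodule.mem_sInf]
    intro p hp
    exact Ideal.mem_of_dvd _ (Finset.dvd_prod_of_mem f (hfin.mem_toFinset.2 hp))
      (hfp p (hfin.mem_toFinset.2 hp))
  have h2 := (hmem _).1 h1 x hx
  rw [map_prod, Finset.prod_eq_zero_iff] at h2
  obtain ⟨p, hp, h3⟩ := h2
  exact hfx p hp h3

end relation

end Pool.Agent.H422.SK
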