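import Mathlib
import Pool.Agent.H422.SK.Base

set_option autoImplicit false

/-!
The tower over the algebraic closure; the multiplicities of the roots.
-/

namespace Pool.Agent.H422.SK

open MvPolynomial
open Pool.Agent.Q170.HG (pt IsEndo)

variable {k : Type} [Field k]

/-- No exceptional points: no point of the line over the algebraic closure is totally invariant under
the second iterate. -/
def NoExcept (d : ℕ) (g : Fin 2 → MvPolynomial (Fin 2) k) : Prop :=
  ∀ (u : Fin 2 → AlgebraicClosure k) (c : AlgebraicClosure k), u ≠ 0 →
    (∀ x : Fin 2 → AlgebraicClosure k,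
      u 0 * (ev g)^[2] x 0 + u 1 * (ev g)^[2] x 1 = c * (u 0 * x 0 + u 1 * x 1) ^ d ^ 2) → False

variable {d N : ℕ} {g : Fin 2 → MvPolynomial (Fin 2) k} {B : MvPolynomial (Fin 2) k}

lemma ln_ne {w w' : Fin 2 → k} (hw : w 0 * w' 1 - w 1 * w' 0 ≠ 0) {R : Type} [Field R] [Algebra k R]
    (μ lam : R) (h : ∀ i, μ * algebraMap k R (w i) + lam * algebraMap k R (w' i) = 0) :
    μ = 0 ∧ lam = 0 := by
  have h0 := h 0
  have h1 := h 1
  have hD : algebraMap k R (w 0) * algebraMap k R (w' 1) - algebraMap k R (w 1) * algebraMap k R (w' 0) ≠ 0 := by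
    rw [← map_mul, ← map_mul, ← map_sub]
    exact (map_ne_zero _).2 hw
  constructor
  · have : μ * (algebraMap k R (w 0) * algebraMap k R (w' 1) - algebraMap k R (w 1) * algebraMap k R (w' 0)) = 0 := by
      linear_combination algebraMap k R (w' 1) * h0 - algebraMap k R (w' 0) * h1
    exact (mul_eq_zero.1 this).resolve_right hD
  · have : lam * (algebraMap k R (w 0) * algebraMap k R (w' 1) - algebraMap k R (w 1) * algebraMap k R (w' 0)) = 0 := by
      linear_combination (-algebraMap k R (w 1)) * h0 + algebraMap k R (w 0) * h1
    exact (mul_eq_zero.1 this).resolve_right hD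

lemma cop_aux (hg : IsEndo d g) {w w' : Fin 2 → k} (hw : w 0 * w' 1 - w 1 * w' 0 ≠ 0)
    (α : AlgebraicClosure k) (h1 : Polynomial.aeval α (PP g w w') = 0)
    (h2 : Polynomial.aeval α (QQ g w w') = 0) : False := by
  have h3 := PQ_eval (g := g) hw α
  rw [h1, h2] at h3
  have h4 := hg.2 _ fun i => (congrFun h3 i).trans (by simp)
  have h5 := (ln_ne hw α 1 fun i => by
    have := congrFun h4 i
    simpa using this).2
  exact one_ne_zero h5

/-- the form `B ∘ φ^m` on `μ w + λ w'` -/
lemma form_eval (hg : ∀ i, (g i).IsHomogeneous d) (hB : B.IsHomogeneous N) (w w' : Fin 2 → k)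
    {R : Type} [Field R] [Algebra k R] (μ lam : R) (hl : lam ≠ 0) (m : ℕ) :
    aeval ((ev g)^[m] fun i => μ * algebraMap k R (w i) + lam * algebraMap k R (w' i)) B =
      lam ^ (N * d ^ m) * Polynomial.aeval (μ / lam) (bk g B w w' m) := by
  have h1 : (fun i => μ * algebraMap k R (w i) + lam * algebraMap k R (w' i)) =
      lam • fun i => (μ / lam) * algebraMap k R (w i) + algebraMap k R (w' i) := by
    funext i
    simp only [Pi.smul_apply, smul_eq_mul]
    field_simp
  rw [h1, ev_smul hg, aeval_smul_hom hB, bk_eval, ← pow_mul]
  congr 2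
  ring

lemma ev_alg {R : Type} [Field R] [Algebra k R] (w : Fin 2 → k) (m : ℕ) :
    ((ev g)^[m] fun i => algebraMap k R (w i)) = fun i => algebraMap k R ((ev g)^[m] w i) := by
  have := ev_map (Algebra.ofId k R) g w m
  exact this.symm

lemma aeval_alg {R : Type} [Field R] [Algebra k R] (x : Fin 2 → k) (B : MvPolynomial (Fin 2) k) :
    aeval (fun i => algebraMap k R (x i)) B = algebraMap k R (eval x B) := by
  have := comp_aeval_apply x (Algebra.ofId k R) B
  rw [aeval_eq_eval] at this
  exact this.symm

/-- the tower -/
theorem tower [CharZero k] (hg : IsEndo d g) (hB : B.IsHomogeneous N) {w w' : Fin 2 → k}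
    (hw : w 0 * w' 1 - w 1 * w' 0 ≠ 0) (hBw : ∀ m, eval ((ev g)^[m] w) B ≠ 0) :
    Tower d N ((PP g w w').map (algebraMap k (AlgebraicClosure k)))
      ((QQ g w w').map (algebraMap k (AlgebraicClosure k)))
      (fun m => (bk g B w w' m).map (algebraMap k (AlgebraicClosure k))) := by
  have hd1 := PQ_deg hg.1 w w'
  have hdeg := fun m => bk_deg hg.1 hB w w' m (hBw m)
  have hcard : ∀ m, Multiset.card ((bk g B w w' m).map (algebraMap k (AlgebraicClosure k))).roots =
      N * d ^ m := by
    intro m
    rw [← (hdeg m).1, ← Polynomial.natDegree_map (algebraMap k (AlgebraicClosure k))]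
    exact (IsAlgClosed.splits _).natDegree_eq_card_roots.symm
  refine ⟨?_, ?_, ?_, ?_, ?_, hcard, ?_⟩
  · rw [Polynomial.natDegree_map]; exact hd1.1
  · rw [Polynomial.natDegree_map]; exact hd1.2
  · intro α h1 h2
    rw [Polynomial.eval_map_algebraMap] at h1 h2
    exact cop_aux hg hw α h1 h2
  · intro m h0
    rw [Polynomial.map_eq_zero] at h0
    apply hBw m
    rw [← (hdeg m).2, h0, Polynomial.leadingCoeff_zero]
  · intro m
    rw [Polynomial.natDegree_map]
    exact (hdeg m).1
  · intro m
    apply Polynomial.funext
    intro τ
    rw [Polynomial.leadingCoeff_map, (hdeg m).2]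
    have hprod : ∀ s : Multiset (AlgebraicClosure k), (Multiset.map (fun β =>
        (PP g w w').map (algebraMap k (AlgebraicClosure k)) -
          Polynomial.C β * (QQ g w w').map (algebraMap k (AlgebraicClosure k))) s).prod.eval τ =
        (s.map fun β => Polynomial.aeval τ (PP g w w') - β * Polynomial.aeval τ (QQ g w w')).prod := by
      intro s
      induction s using Multiset.induction_on with
      | empty => simp
      | cons a s ih =>
        rw [Multiset.map_cons, Multiset.prod_cons, Polynomial.eval_mul, ih, Multiset.map_cons,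
          Multiset.prod_cons]
        simp [Polynomial.eval_map_algebraMap]
    rw [Polynomial.eval_mul, Polynomial.eval_C, hprod, Polynomial.eval_map_algebraMap, bk_eval,
      Function.iterate_succ_apply, PQ_eval hw τ]
    set p := Polynomial.aeval τ (PP g w w') with hp
    set q := Polynomial.aeval τ (QQ g w w') with hq
    by_cases hq0 : q = 0
    · rw [hq0]
      simp only [zero_mul, add_zero, mul_zero, sub_zero]
      have h1 : (fun i => p * algebraMap k (AlgebraicClosure k) (w i)) =
          p • fun i => algebraMap k (AlgebraicClosure k) (w i) := rfl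
      rw [h1, ev_smul hg.1, aeval_smul_hom hB, ev_alg, aeval_alg, ← pow_mul, Multiset.map_const',
        Multiset.prod_replicate, hcard, mul_comm, mul_comm (d ^ m) N]
    · rw [form_eval hg.1 hB w w' p q hq0 m]
      have h2 : (bk g B w w' m).map (algebraMap k (AlgebraicClosure k)) =
          Polynomial.C (algebraMap k (AlgebraicClosure k) (eval ((ev g)^[m] w) B)) *
          (((bk g B w w' m).map (algebraMap k (AlgebraicClosure k))).roots.map
            fun a => Polynomial.X - Polynomial.C a).prod := by
        have := (IsAlgClosed.splits ((bk g B w w' m).map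
          (algebraMap k (AlgebraicClosure k)))).eq_prod_roots
        rw [Polynomial.leadingCoeff_map, (hdeg m).2] at this
        exact this
      have h3 : Polynomial.aeval (p / q) (bk g B w w' m) =
          algebraMap k (AlgebraicClosure k) (eval ((ev g)^[m] w) B) *
          (((bk g B w w' m).map (algebraMap k (AlgebraicClosure k))).roots.map
            fun a => p / q - a).prod := by
        rw [← Polynomial.eval_map_algebraMap, h2, Polynomial.eval_mul, Polynomial.eval_C,
          Polynomial.roots_C_mul _ ((map_ne_zero _).2 (hBw m)), Polynomial.roots_multiset_prod_X_sub_C]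
        congr 1
        have h4 : ∀ s : Multiset (AlgebraicClosure k), (Multiset.map (fun a =>
            Polynomial.X - Polynomial.C a) s).prod.eval (p / q) = (s.map fun a => p / q - a).prod := by
          intro s
          induction s using Multiset.induction_on with
          | empty => simp
          | cons a s ih => simp [ih]
        exact h4 _
      rw [h3, ← hcard m]
      have h5 : ∀ s : Multiset (AlgebraicClosure k), (s.map fun β => p - β * q).prod =
          q ^ Multiset.card s * (s.map fun a => p / q - a).prod := by
        intro s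
        induction s using Multiset.induction_on with
        | empty => simp
        | cons a s ih =>
          have h6 : p - a * q = q * (p / q - a) := by field_simp
          rw [Multiset.map_cons, Multiset.prod_cons, ih, Multiset.map_cons, Multiset.prod_cons,
            Multiset.card_cons, h6, pow_succ]
          ring
      rw [h5]
      ring

/-- a totally ramified point in terms of forms -/
lemma tot_ram (hg : ∀ i, (g i).IsHomogeneous d) {w w' : Fin 2 → k}
    (hw : w 0 * w' 1 - w 1 * w' 0 ≠ 0) {α β c : AlgebraicClosure k}
    (h : (PP g w w').map (algebraMap k (AlgebraicClosure k)) -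
      Polynomial.C β * (QQ g w w').map (algebraMap k (AlgebraicClosure k)) =
      Polynomial.C c * (Polynomial.X - Polynomial.C α) ^ d) (x : Fin 2 → AlgebraicClosure k) :
    cu w w' (ev g x) - β * cl w w' (ev g x) = c * (cu w w' x - α * cl w w' x) ^ d := by
  have hcu : ∀ a b : AlgebraicClosure k, cu w w' (fun i => a * algebraMap k (AlgebraicClosure k) (w i) +
      b * algebraMap k (AlgebraicClosure k) (w' i)) = a := by
    intro a b
    have hD : algebraMap k (AlgebraicClosure k) (w 0 * w' 1 - w 1 * w' 0)⁻¹ *
      (algebraMap k _ (w 0) * algebraMap k _ (w' 1) - algebraMap k _ (w 1) * algebraMap k _ (w' 0)) = 1 := by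
      rw [← map_mul, ← map_mul, ← map_sub, ← map_mul, inv_mul_cancel₀ hw, map_one]
    unfold cu
    linear_combination a * hD
  have hcl : ∀ a b : AlgebraicClosure k, cl w w' (fun i => a * algebraMap k (AlgebraicClosure k) (w i) +
      b * algebraMap k (AlgebraicClosure k) (w' i)) = b := by
    intro a b
    have hD : algebraMap k (AlgebraicClosure k) (w 0 * w' 1 - w 1 * w' 0)⁻¹ *
      (algebraMap k _ (w 0) * algebraMap k _ (w' 1) - algebraMap k _ (w 1) * algebraMap k _ (w' 0)) = 1 := by
      rw [← map_mul, ← map_mul, ← map_sub, ← map_mul, inv_mul_cancel₀ hw, map_one]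
    unfold cl
    linear_combination b * hD
  have hx : x = fun i => cu w w' x * algebraMap k (AlgebraicClosure k) (w i) +
      cl w w' x * algebraMap k (AlgebraicClosure k) (w' i) := funext fun i => coords hw x i
  set μ := cu w w' x with hμ
  set lam := cl w w' x with hlam
  by_cases hl : lam = 0
  · -- the point `w`
    rw [hl] at hx ⊢
    have h1 : x = μ • fun i => algebraMap k (AlgebraicClosure k) (w i) := by
      rw [hx]; funext i; simp
    have h2 : ev g x = μ ^ d • fun i => algebraMap k (AlgebraicClosure k) (ev g w i) := by
      rw [h1]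
      have := ev_smul hg μ (fun i => algebraMap k (AlgebraicClosure k) (w i)) 1
      rw [Function.iterate_one, pow_one] at this
      rw [this]
      congr 1
      have h3 := ev_alg (g := g) (R := AlgebraicClosure k) w 1
      simpa only [Function.iterate_one] using h3
    have h4 := PQ_top hg w w'
    have h5 := congrArg (fun p => Polynomial.coeff p d) h
    simp only [Polynomial.coeff_sub, Polynomial.coeff_map, Polynomial.coeff_C_mul] at h5
    rw [h4.1, h4.2] at h5
    have h6 : ((Polynomial.X - Polynomial.C α) ^ d).coeff d = 1 := by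
      have h7 := (Polynomial.monic_X_sub_C α).pow d
      have h8 : ((Polynomial.X - Polynomial.C α) ^ d).natDegree = d := by
        rw [Polynomial.natDegree_pow, Polynomial.natDegree_X_sub_C, mul_one]
      have := h7.coeff_natDegree
      rwa [h8] at this
    rw [h6, mul_one] at h5
    have h9 : cu w w' (ev g x) = μ ^ d * algebraMap k _ (cu w w' (ev g w)) := by
      rw [h2]
      have := cu_map (Algebra.ofId k (AlgebraicClosure k)) w w' (ev g w)
      have h10 : algebraMap k (AlgebraicClosure k) (cu w w' (ev g w)) =
        cu w w' fun i => algebraMap k (AlgebraicClosure k) (ev g w i) := this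
      rw [h10]
      unfold cu
      simp only [Pi.smul_apply, smul_eq_mul]
      ring
    have h9' : cl w w' (ev g x) = μ ^ d * algebraMap k _ (cl w w' (ev g w)) := by
      rw [h2]
      have := cl_map (Algebra.ofId k (AlgebraicClosure k)) w w' (ev g w)
      have h10 : algebraMap k (AlgebraicClosure k) (cl w w' (ev g w)) =
        cl w w' fun i => algebraMap k (AlgebraicClosure k) (ev g w i) := this
      rw [h10]
      unfold cl
      simp only [Pi.smul_apply, smul_eq_mul]
      ring
    rw [h9, h9', mul_zero, sub_zero]
    linear_combination μ ^ d * h5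
  · have h1 : x = lam • fun i => (μ / lam) * algebraMap k (AlgebraicClosure k) (w i) +
        algebraMap k (AlgebraicClosure k) (w' i) := by
      rw [hx]
      funext i
      simp only [Pi.smul_apply, smul_eq_mul]
      field_simp
    have h2 : ev g x = fun i => (lam ^ d * Polynomial.aeval (μ / lam) (PP g w w')) *
        algebraMap k (AlgebraicClosure k) (w i) + (lam ^ d * Polynomial.aeval (μ / lam) (QQ g w w')) *
        algebraMap k (AlgebraicClosure k) (w' i) := by
      rw [h1]
      have := ev_smul hg lam (fun i => (μ / lam) * algebraMap k (AlgebraicClosure k) (w i) +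
        algebraMap k (AlgebraicClosure k) (w' i)) 1
      rw [Function.iterate_one, pow_one] at this
      rw [this, PQ_eval hw]
      funext i
      simp only [Pi.smul_apply, smul_eq_mul]
      ring
    rw [h2, hcu, hcl]
    have h3 := congrArg (Polynomial.eval (μ / lam)) h
    simp only [Polynomial.eval_sub, Polynomial.eval_mul, Polynomial.eval_C, Polynomial.eval_pow,
      Polynomial.eval_X, Polynomial.eval_map_algebraMap] at h3
    have h4 : (μ - α * lam) ^ d = lam ^ d * (μ / lam - α) ^ d := by
      rw [← mul_pow]
      congr 1
      field_simp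
    rw [h4]
    linear_combination lam ^ d * h3

lemma noExc (hg : ∀ i, (g i).IsHomogeneous d) {w w' : Fin 2 → k}
    (hw : w 0 * w' 1 - w 1 * w' 0 ≠ 0) (hE : NoExcept d g) :
    NoExc d ((PP g w w').map (algebraMap k (AlgebraicClosure k)))
      ((QQ g w w').map (algebraMap k (AlgebraicClosure k))) := by
  -- the linear form `cu - α cl`
  have key : ∀ α c : AlgebraicClosure k, (∀ x : Fin 2 → AlgebraicClosure k,
      cu w w' ((ev g)^[2] x) - α * cl w w' ((ev g)^[2] x) =
        c * (cu w w' x - α * cl w w' x) ^ d ^ 2) → False := by
    intro α c h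
    set D := algebraMap k (AlgebraicClosure k) (w 0 * w' 1 - w 1 * w' 0)⁻¹ with hD
    have hD0 : D ≠ 0 := (map_ne_zero _).2 (inv_ne_zero hw)
    refine hE ![D * (algebraMap k _ (w' 1) + α * algebraMap k _ (w 1)),
      -(D * (algebraMap k _ (w' 0) + α * algebraMap k _ (w 0)))] c ?_ ?_
    · intro h0
      have e0 := congrFun h0 0
      have e1 := congrFun h0 1
      simp only [Matrix.cons_val_zero, Matrix.cons_val_one, Pi.zero_apply, neg_eq_zero] at e0 e1
      have e0' := (mul_eq_zero.1 e0).resolve_left hD0
      have e1' := (mul_eq_zero.1 e1).resolve_left hD0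
      have := (ln_ne hw α 1 (R := AlgebraicClosure k) fun i => by
        fin_cases i
        · simp only [Fin.zero_eta, Fin.isValue]
          linear_combination e1'
        · simp only [Fin.mk_one, Fin.isValue]
          linear_combination e0').2
      exact one_ne_zero this
    · intro x
      have hx := h x
      unfold cu cl at hx
      rw [← hD] at hx
      simp only [Matrix.cons_val_zero, Matrix.cons_val_one]
      have e : ∀ y : Fin 2 → AlgebraicClosure k,
          D * (algebraMap k _ (w' 1) + α * algebraMap k _ (w 1)) * y 0 +
          -(D * (algebraMap k _ (w' 0) + α * algebraMap k _ (w 0))) * y 1 =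
          D * (y 0 * algebraMap k _ (w' 1) - y 1 * algebraMap k _ (w' 0)) -
          α * (D * (y 1 * algebraMap k _ (w 0) - y 0 * algebraMap k _ (w 1))) := by
        intro y
        ring
      rw [e, e]
      exact hx
  constructor
  · intro α c h
    refine key α (c * c ^ d) fun x => ?_
    rw [Function.iterate_succ_apply', Function.iterate_one, tot_ram hg hw h, tot_ram hg hw h, mul_pow,
      ← pow_mul]
    ring
  · intro α β c c' h1 h2
    refine key α (c' * c ^ d) fun x => ?_
    rw [Function.iterate_succ_apply', Function.iterate_one, tot_ram hg hw h2, tot_ram hg hw h1, mul_pow,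
      ← pow_mul]
    ring

/-- The multiplicities of the roots. -/
theorem mult_bound [CharZero k] (hg : IsEndo d g) (hd : 2 ≤ d) (hB : B.IsHomogeneous N)
    {w w' : Fin 2 → k} (hw : w 0 * w' 1 - w 1 * w' 0 ≠ 0) (hBw : ∀ m, eval ((ev g)^[m] w) B ≠ 0)
    (hE : NoExcept d g) (M : Type) [Field M] [Algebra k M] [Algebra.IsAlgebraic k M] (j : ℕ)
    [DecidableEq M] (α : M) :
    ((bk g B w w' (3 * j)).map (algebraMap k M)).roots.count α ≤ N * (d ^ 3 - 1) ^ j := by
  classical
  have h1 := (tower hg hB hw hBw).mult hd (noExc hg.1 hw hE) j
  let ι : M →ₐ[k] AlgebraicClosure k := IsAlgClosed.lift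
  have h2 := h1 (ι α)
  rw [Polynomial.count_roots] at h2 ⊢
  have h3 : (bk g B w w' (3 * j)).map (algebraMap k (AlgebraicClosure k)) =
      ((bk g B w w' (3 * j)).map (algebraMap k M)).map (ι : M →+* AlgebraicClosure k) := by
    rw [Polynomial.map_map]
    congr 1
    exact (ι.comp_algebraMap).symm
  have h4 : Polynomial.rootMultiplicity α ((bk g B w w' (3 * j)).map (algebraMap k M)) =
      Polynomial.rootMultiplicity (ι α) ((bk g B w w' (3 * j)).map
        (algebraMap k (AlgebraicClosure k))) := by
    rw [h3]
    exact Polynomial.eq_rootMultiplicity_map ι.injective α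
  rw [h4]
  exact h2

end Pool.Agent.H422.SK
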