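import Mathlib
import Pool.Graph.R_seed8.R405.SchP
import Pool.Graph.R_seed8.R405.Big
import Pool.Agent.H422.SK.Tow

set_option autoImplicit false

/-!
Roth's theorem for the linear forms `cu - α cl`.
-/

namespace Pool.Agent.H422.SK

open MvPolynomial NumberField Height Module
open Pool.Agent.Q170.HG (pt IsEndo)
open Pool.Agent.W180.OP (Pl av wt nrm le_nrm nrm_pos nrm_nonneg wt_nonneg exists_nrm abv_mv cs cs_nonneg)
open Pool.Agent.R405 (Good exists_good exists_big sch)

variable {k : Type} [Field k] [NumberField k]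

lemma wt_pos (v : Pl k) : 0 < wt v := by
  cases v with
  | inl w => exact Nat.cast_pos.2 w.mult_pos
  | inr v => exact one_pos

variable {M : Type} [Field M] [NumberField M] [Algebra k M]

/-- the value of the linear form `cu - α cl` -/
noncomputable def Lf (w w' : Fin 2 → k) (α : M) (x : Fin 2 → k) : M :=
  cu w w' (fun i => algebraMap k M (x i)) - α * cl w w' (fun i => algebraMap k M (x i))

lemma cu_alg (w w' x : Fin 2 → k) : cu w w' (fun i => algebraMap k M (x i)) = algebraMap k M (cu w w' x) :=
  (cu_map (Algebra.ofId k M) w w' x).symm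

lemma cl_alg (w w' x : Fin 2 → k) : cl w w' (fun i => algebraMap k M (x i)) = algebraMap k M (cl w w' x) :=
  (cl_map (Algebra.ofId k M) w w' x).symm

theorem roth [IsGalois ℚ M] (hi : ∃ z : M, z ^ 2 = -1) (v : Pl k) (f : AbsoluteValue M ℝ)
    (hf : Good v f) {w w' : Fin 2 → k} (hw : w 0 * w' 1 - w 1 * w' 0 ≠ 0) (α : M) :
    ∃ (Z : Finset (Fin 2 → M)) (C : ℝ), 0 ≤ C ∧ (∀ z ∈ Z, z ≠ 0) ∧ ∀ x : Fin 2 → k, x ≠ 0 →
      (∀ z ∈ Z, ∑ j, z j * algebraMap k M (x j) ≠ 0) →
      Real.log (nrm (av v) x) - Real.log (f (Lf w w' α x)) ≤ (3 * logHeight x + C) / wt v := by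
  classical
  set D : M := algebraMap k M (w 0 * w' 1 - w 1 * w' 0)⁻¹ with hD
  have hD0 : D ≠ 0 := (map_ne_zero _).2 (inv_ne_zero hw)
  have hD1 : D * (algebraMap k M (w 0) * algebraMap k M (w' 1) -
      algebraMap k M (w 1) * algebraMap k M (w' 0)) = 1 := by
    rw [hD, ← map_mul, ← map_mul, ← map_sub, ← map_mul, inv_mul_cancel₀ hw, map_one]
  set r1 : Fin 2 → M := ![D * (algebraMap k M (w' 1) + α * algebraMap k M (w 1)),
    -(D * (algebraMap k M (w' 0) + α * algebraMap k M (w 0)))] with hr1
  set r2 : Fin 2 → M := ![-(D * algebraMap k M (w 1)), D * algebraMap k M (w 0)] with hr2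
  have hdet : (Matrix.of ![r1, r2]).det ≠ 0 := by
    rw [Matrix.det_fin_two]
    simp only [Matrix.of_apply, Matrix.cons_val_zero, Matrix.cons_val_one, hr1, hr2]
    have : D * (algebraMap k M (w' 1) + α * algebraMap k M (w 1)) * (D * algebraMap k M (w 0)) -
      -(D * (algebraMap k M (w' 0) + α * algebraMap k M (w 0))) * -(D * algebraMap k M (w 1)) = D := by
      linear_combination D * hD1
    rw [this]
    exact hD0
  obtain ⟨Z, C, hZ, hC⟩ := sch (k := k) hi (n := 2) (by norm_num) {v} (fun _ => f)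
    (fun v' hv' => by rw [Finset.mem_singleton.1 hv']; exact hf) (fun _ => ![r1, r2])
    (fun _ _ => hdet) 1 one_pos
  set s : ℝ := f (r2 0) + f (r2 1) with hs
  have hr20 : r2 ≠ 0 := by
    intro h0
    apply hdet
    rw [Matrix.det_fin_two]
    simp [h0]
  have hs0 : 0 < s := by
    rcases Function.ne_iff.1 hr20 with ⟨i, hi'⟩
    have hi'' : r2 i ≠ 0 := hi'
    fin_cases i
    · exact add_pos_of_pos_of_nonneg (f.pos_iff.2 hi'') (f.nonneg _)
    · exact add_pos_of_nonneg_of_pos (f.nonneg _) (f.pos_iff.2 hi'')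
  refine ⟨insert r2 Z, |C| + wt v * |Real.log s|, by
    have := wt_nonneg v
    positivity, ?_, fun x hx hZx => ?_⟩
  · intro z hz
    rcases Finset.mem_insert.1 hz with rfl | hz
    · exact hr20
    · exact hZ z hz
  · have h1 := hC x fun z hz => hZx z (Finset.mem_insert_of_mem hz)
    have h2 := hZx r2 (Finset.mem_insert_self _ _)
    rw [Finset.sum_singleton, Fin.sum_univ_two] at h1
    simp only [Matrix.cons_val_zero, Matrix.cons_val_one] at h1
    have e1 : ∑ j, r1 j * algebraMap k M (x j) = Lf w w' α x := by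
      rw [Fin.sum_univ_two, Lf, cu, cl, ← hD]
      simp only [hr1, Matrix.cons_val_zero, Matrix.cons_val_one]
      ring
    rw [e1] at h1
    have hn := nrm_pos (av v) hx
    have h3 : Real.log (f (∑ j, r2 j * algebraMap k M (x j))) ≤ Real.log s + Real.log (nrm (av v) x) := by
      rw [← Real.log_mul hs0.ne' hn.ne']
      apply Real.log_le_log (f.pos_iff.2 h2)
      rw [Fin.sum_univ_two]
      refine (f.add_le _ _).trans ?_
      rw [map_mul, map_mul, hf.ext, hf.ext, hs, add_mul]
      exact add_le_add (mul_le_mul_of_nonneg_left (le_nrm _ _ _) (f.nonneg _))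
        (mul_le_mul_of_nonneg_left (le_nrm _ _ _) (f.nonneg _))
    have hw0 := wt_pos v
    rw [le_div_iff₀ hw0]
    have h4 := le_abs_self (Real.log s)
    have h5 := le_abs_self C
    have h6 : wt v * (Real.log (nrm (av v) x) - Real.log (f (∑ j, r2 j * algebraMap k M (x j)))) ≥
        - (wt v * |Real.log s|) := by
      rw [ge_iff_le, ← mul_neg]
      apply mul_le_mul_of_nonneg_left _ hw0.le
      linarith
    push_cast at h1
    nlinarith

/-- two of the forms are not small at the same point -/
lemma sep (v : Pl k) (f : AbsoluteValue M ℝ) (hf : Good v f) {w w' : Fin 2 → k}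
    (hw : w 0 * w' 1 - w 1 * w' 0 ≠ 0) {α β : M} (hαβ : α ≠ β) :
    ∃ C : ℝ, 0 ≤ C ∧ ∀ x : Fin 2 → k, nrm (av v) x ≤ C * max (f (Lf w w' α x)) (f (Lf w w' β x)) := by
  have hab : 0 < f (β - α) := f.pos_iff.2 (sub_ne_zero.2 (Ne.symm hαβ))
  set A : ℝ := 2 / f (β - α) with hA
  have hA0 : 0 ≤ A := by positivity
  set W : ℝ := av v (w 0) + av v (w 1) with hW
  set W' : ℝ := av v (w' 0) + av v (w' 1) with hW'
  have hW0 : 0 ≤ W := add_nonneg ((av v).nonneg _) ((av v).nonneg _)
  have hW'0 : 0 ≤ W' := add_nonneg ((av v).nonneg _) ((av v).nonneg _)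
  refine ⟨(1 + f α * A) * W + A * W', by
    have := f.nonneg α
    positivity, fun x => ?_⟩
  set m := max (f (Lf w w' α x)) (f (Lf w w' β x)) with hm
  have hm0 : 0 ≤ m := (f.nonneg _).trans (le_max_left _ _)
  have hl : av v (cl w w' x) ≤ A * m := by
    have h1 : (β - α) * algebraMap k M (cl w w' x) = Lf w w' α x - Lf w w' β x := by
      simp only [Lf, cl_alg]
      ring
    have h2 : f (β - α) * av v (cl w w' x) ≤ 2 * m := by
      rw [← hf.ext, ← map_mul, h1, sub_eq_add_neg]
      refine (f.add_le _ _).trans ?_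
      rw [f.map_neg]
      have := le_max_left (f (Lf w w' α x)) (f (Lf w w' β x))
      have := le_max_right (f (Lf w w' α x)) (f (Lf w w' β x))
      linarith
    rw [hA, div_mul_eq_mul_div, le_div_iff₀ hab]
    linarith
  have hu : av v (cu w w' x) ≤ (1 + f α * A) * m := by
    have h1 : algebraMap k M (cu w w' x) = Lf w w' α x + α * algebraMap k M (cl w w' x) := by
      simp only [Lf, cl_alg, cu_alg]
      ring
    rw [← hf.ext, h1]
    refine (f.add_le _ _).trans ?_
    rw [map_mul, hf.ext, add_mul, one_mul, mul_assoc]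
    exact add_le_add (le_max_left _ _) (mul_le_mul_of_nonneg_left hl (f.nonneg _))
  obtain ⟨i, hi⟩ := exists_nrm (av v) (by norm_num : 0 < 2) x
  rw [← hi]
  have hco := coords (R := k) hw x i
  simp only [Algebra.algebraMap_self, RingHom.id_apply] at hco
  have hwi : av v (w i) ≤ W ∧ av v (w' i) ≤ W' := by
    fin_cases i
    · exact ⟨le_add_of_nonneg_right ((av v).nonneg _), le_add_of_nonneg_right ((av v).nonneg _)⟩
    · exact ⟨le_add_of_nonneg_left ((av v).nonneg _), le_add_of_nonneg_left ((av v).nonneg _)⟩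
  calc av v (x i) = av v (cu w w' x * w i + cl w w' x * w' i) := by rw [← hco]
    _ ≤ av v (cu w w' x) * av v (w i) + av v (cl w w' x) * av v (w' i) := by
      rw [← map_mul, ← map_mul]
      exact (av v).add_le _ _
    _ ≤ ((1 + f α * A) * m) * W + (A * m) * W' := by
      have := f.nonneg α
      apply add_le_add
      · exact mul_le_mul hu hwi.1 ((av v).nonneg _) (by positivity)
      · exact mul_le_mul hl hwi.2 ((av v).nonneg _) (by positivity)
    _ = ((1 + f α * A) * W + A * W') * m := by ring

/-- a number field over which a polynomial splits -/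
theorem exists_split (p : Polynomial k) : ∃ (M : Type) (_ : Field M) (_ : NumberField M)
    (_ : Algebra k M), IsGalois ℚ M ∧ (∃ z : M, z ^ 2 = -1) ∧ Algebra.IsAlgebraic k M ∧
      (p.map (algebraMap k M)).Splits := by
  have : FiniteDimensional ℚ p.SplittingField := FiniteDimensional.trans ℚ k p.SplittingField
  have : CharZero p.SplittingField := charZero_of_injective_algebraMap
    (algebraMap k p.SplittingField).injective
  have : NumberField p.SplittingField := ⟨⟩
  obtain ⟨M, hM1, hM2, hi, ⟨φ⟩⟩ := exists_big p.SplittingField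
  have hM : NumberField M := ⟨⟩
  let inst : Algebra k M := (φ.comp (algebraMap k p.SplittingField)).toAlgebra
  refine ⟨M, inferInstance, hM, inst, hM2, hi, ?_, ?_⟩
  · have : IsScalarTower ℚ k M := inferInstance
    exact Algebra.IsAlgebraic.tower_top (K := ℚ) k
  · have h1 : (p.map (algebraMap k M)) = (p.map (algebraMap k p.SplittingField)).map φ := by
      rw [Polynomial.map_map]
      rfl
    rw [h1]
    exact (Polynomial.SplittingField.splits p).map φ

end Pool.Agent.H422.SK
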