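import Mathlib
import Pool.Agent.H422.SK.Roth

set_option autoImplicit false
set_option linter.unusedSectionVars false

/-!
Silverman's theorem: a binary form is not small at the points of a wandering orbit of an endomorphism
of the line without exceptional points.
-/

namespace Pool.Agent.H422.SK

open MvPolynomial NumberField Height Module
open Pool.Agent.Q170.HG (pt IsEndo iter_ne)
open Pool.Agent.W180.OP (Pl av wt nrm le_nrm nrm_pos nrm_nonneg wt_nonneg exists_nrm abv_mv cs cs_nonneg)
open Pool.Agent.R405 (Good exists_good exists_big sch)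

variable {k : Type} [Field k]

/-- The orbit of the point is infinite. -/
def Wander {n : ℕ} (g : Fin n → MvPolynomial (Fin n) k) (x : Fin n → k) : Prop :=
  ∀ i j : ℕ, i ≠ j → ∀ c : k, (pt g)^[i] x ≠ c • (pt g)^[j] x

lemma exists_compl {w : Fin 2 → k} (hw : w ≠ 0) : ∃ w' : Fin 2 → k, w 0 * w' 1 - w 1 * w' 0 ≠ 0 := by
  by_cases h0 : w 0 = 0
  · refine ⟨![1, 0], ?_⟩
    have h1 : w 1 ≠ 0 := by
      intro h1
      apply hw
      funext i
      fin_cases i
      · exact h0
      · exact h1
    simpa [h0] using h1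
  · exact ⟨![0, 1], by simpa using h0⟩

variable {d N : ℕ} {g : Fin 2 → MvPolynomial (Fin 2) k} {B : MvPolynomial (Fin 2) k}

lemma cl_ne {w w' : Fin 2 → k} (hw : w 0 * w' 1 - w 1 * w' 0 ≠ 0) {y : Fin 2 → k}
    (hy : ∀ c : k, y ≠ c • w) : cl w w' y ≠ 0 := by
  intro h0
  apply hy (cu w w' y)
  funext i
  have := coords (R := k) hw y i
  simp only [Algebra.algebraMap_self, RingHom.id_apply] at this
  rw [this, h0]
  simp

/-- a form does not vanish far out on the orbit -/
theorem eventually_ne [CharZero k] (hB : B.IsHomogeneous N) (hB0 : B ≠ 0)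
    {x : Fin 2 → k} (hx : ∀ n, (pt g)^[n] x ≠ 0) (hwan : Wander g x) :
    ∃ n0, ∀ n ≥ n0, eval ((pt g)^[n] x) B ≠ 0 := by
  classical
  obtain ⟨w, hw⟩ : ∃ w : Fin 2 → k, eval w B ≠ 0 := by
    by_contra hcon
    push Not at hcon
    exact hB0 (MvPolynomial.funext fun w => by rw [hcon w, map_zero])
  by_cases hw0 : w = 0
  · -- then `N = 0` and `B` is constant
    have hN : N = 0 := by
      by_contra hN
      apply hw
      have h1 := aeval_smul_hom hB (0 : k) w
      rw [zero_smul, aeval_eq_eval, zero_pow hN, zero_mul] at h1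
      rw [hw0]
      exact h1
    refine ⟨0, fun n _ => ?_⟩
    subst hN
    have h2 : B = C (coeff 0 B) := by
      rw [← totalDegree_eq_zero_iff_eq_C]
      exact le_antisymm hB.totalDegree_le (Nat.zero_le _)
    rw [h2, eval_C]
    rw [h2, eval_C] at hw
    exact hw
  obtain ⟨w', hww⟩ := exists_compl hw0
  set b := bk g B w w' 0 with hb
  have hb0 : b ≠ 0 := by
    intro h0
    have h1 : (bk g B w w' 0) = aeval (ln w w') B := rfl
    have h2 := top_coeff hB (ln w w') (ln_deg w w')
    rw [← h1, ← hb, h0] at h2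
    apply hw
    have h3 : (fun i => (ln w w' i).coeff 1) = w := funext fun i => ln_coeff w w' i
    rw [h3] at h2
    simpa using h2.2.symm
  have key : ∀ n, eval ((pt g)^[n] x) B = 0 → cl w w' ((pt g)^[n] x) ≠ 0 ∧
      cu w w' ((pt g)^[n] x) / cl w w' ((pt g)^[n] x) ∈ b.roots.toFinset := by
    intro n hn
    set y := (pt g)^[n] x with hy
    have hco : y = fun i => cu w w' y * algebraMap k k (w i) + cl w w' y * algebraMap k k (w' i) :=
      funext fun i => coords hww y i
    have hcl : cl w w' y ≠ 0 := by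
      intro h0
      rw [h0] at hco
      have h1 : y = cu w w' y • w := by
        funext i
        have := congrFun hco i
        simp only [Algebra.algebraMap_self, RingHom.id_apply, zero_mul, add_zero] at this
        rw [Pi.smul_apply, smul_eq_mul]
        exact this
      have h2 := aeval_smul_hom hB (cu w w' y) w
      rw [← h1, aeval_eq_eval, hn] at h2
      have h3 : cu w w' y ≠ 0 := by
        intro h4
        apply hx n
        rw [← hy, h1, h4, zero_smul]
      rcases mul_eq_zero.1 h2.symm with h4 | h4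
      · exact pow_ne_zero _ h3 h4
      · exact hw h4
    refine ⟨hcl, ?_⟩
    rw [Multiset.mem_toFinset, Polynomial.mem_roots hb0, Polynomial.IsRoot.def]
    have h1 : aeval (fun i => cu w w' y * algebraMap k k (w i) + cl w w' y * algebraMap k k (w' i)) B =
        cl w w' y ^ N * Polynomial.aeval (cu w w' y / cl w w' y) (bk g B w w' 0) := by
      have e : (fun i => cu w w' y * algebraMap k k (w i) + cl w w' y * algebraMap k k (w' i)) =
        cl w w' y • fun i => (cu w w' y / cl w w' y) * algebraMap k k (w i) + algebraMap k k (w' i) := by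
        funext i
        simp only [Pi.smul_apply, smul_eq_mul]
        field_simp
      rw [e, aeval_smul_hom hB, bk_eval]
      rfl
    rw [← hco, aeval_eq_eval, hn] at h1
    have h2 := (mul_eq_zero.1 h1.symm).resolve_left (pow_ne_zero _ hcl)
    rwa [Polynomial.coe_aeval_eq_eval] at h2
  have hfin : {n | eval ((pt g)^[n] x) B = 0}.Finite := by
    apply Set.Finite.of_injOn (f := fun n => cu w w' ((pt g)^[n] x) / cl w w' ((pt g)^[n] x))
      (t := (b.roots.toFinset : Set k)) (fun n hn => (key n hn).2)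
    · intro n hn m hm he
      by_contra hnm
      obtain ⟨h1, -⟩ := key n hn
      obtain ⟨h2, -⟩ := key m hm
      have he' : cu w w' ((pt g)^[n] x) / cl w w' ((pt g)^[n] x) =
        cu w w' ((pt g)^[m] x) / cl w w' ((pt g)^[m] x) := he
      apply hwan n m hnm (cl w w' ((pt g)^[n] x) / cl w w' ((pt g)^[m] x))
      funext i
      have c1 := coords (R := k) hww ((pt g)^[n] x) i
      have c2 := coords (R := k) hww ((pt g)^[m] x) i
      rw [Pi.smul_apply, smul_eq_mul, c1, c2]
      rw [div_eq_div_iff h1 h2] at he'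
      rw [div_mul_eq_mul_div, eq_div_iff h2]
      linear_combination (algebraMap k k (w i)) * he'
    · exact Finset.finite_toSet _
  obtain ⟨n0, hn0⟩ := hfin.bddAbove
  exact ⟨n0 + 1, fun n hn h0 => by have := hn0 (show n ∈ {n | eval ((pt g)^[n] x) B = 0} from h0); omega⟩

section nf

variable [NumberField k]

/-- heights along an orbit -/
lemma height_upper {n : ℕ} {g : Fin n → MvPolynomial (Fin n) k} (hg : ∀ i, (g i).IsHomogeneous d)
    (hd : 2 ≤ d) (x : Fin n → k) :
    ∃ H : ℝ, 0 ≤ H ∧ ∀ j, logHeight ((pt g)^[j] x) ≤ H * d ^ j := by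
  obtain ⟨C, hC⟩ := logHeight_eval_le' hg
  refine ⟨logHeight x + |C|, add_nonneg (logHeight_nonneg x) (abs_nonneg _), fun j => ?_⟩
  have h1 : logHeight ((pt g)^[j] x) + |C| ≤ (logHeight x + |C|) * d ^ j := by
    induction j with
    | zero => simp
    | succ j ih =>
      rw [Function.iterate_succ_apply']
      have h2 := hC ((pt g)^[j] x)
      have h3 : logHeight (pt g ((pt g)^[j] x)) = logHeight fun i => eval ((pt g)^[j] x) (g i) := rfl
      rw [h3]
      have hd' : (2 : ℝ) ≤ d := by exact_mod_cast hd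
      have h4 := mul_le_mul_of_nonneg_left ih (by linarith : (0 : ℝ) ≤ d)
      rw [pow_succ]
      have h5 := le_abs_self C
      have h6 := abs_nonneg C
      nlinarith
  linarith [abs_nonneg C]

/-- the norm of the iterates -/
lemma norm_upper {n : ℕ} (hn : 0 < n) {g : Fin n → MvPolynomial (Fin n) k} (hg : IsEndo d g)
    (f : AbsoluteValue k ℝ) (m : ℕ) :
    ∃ C : ℝ, 0 ≤ C ∧ ∀ y : Fin n → k, y ≠ 0 →
      Real.log (nrm f ((pt g)^[m] y)) ≤ C + d ^ m * Real.log (nrm f y) := by
  induction m with
  | zero => exact ⟨0, le_rfl, fun y _ => by simp⟩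
  | succ m ih =>
    obtain ⟨C, hC0, hC⟩ := ih
    set A : ℝ := 1 + ∑ i, cs f (g i) with hA
    have hA1 : 1 ≤ A := le_add_of_nonneg_right (Finset.sum_nonneg fun i _ => cs_nonneg _ _)
    have hA0 : 0 < A := by linarith
    refine ⟨Real.log A + d * C, by
      have := Real.log_nonneg hA1
      positivity, fun y hy => ?_⟩
    rw [Function.iterate_succ_apply']
    set z := (pt g)^[m] y with hz
    have hz0 : z ≠ 0 := iter_ne hg hy m
    have hz1 : pt g z ≠ 0 := by
      have := iter_ne hg hy (m + 1)
      rwa [Function.iterate_succ_apply'] at this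
    have hzn := nrm_pos f hz0
    obtain ⟨i, hi⟩ := exists_nrm f hn (pt g z)
    have h1 : nrm f (pt g z) ≤ A * nrm f z ^ d := by
      rw [← hi]
      refine (abv_mv f (g i) (hg.1 i) z).trans ?_
      apply mul_le_mul_of_nonneg_right _ (pow_nonneg hzn.le _)
      have := Finset.single_le_sum (f := fun i => cs f (g i)) (fun i _ => cs_nonneg _ _)
        (Finset.mem_univ i)
      linarith
    have h2 := Real.log_le_log (nrm_pos f hz1) h1
    rw [Real.log_mul hA0.ne' (pow_pos hzn _).ne', Real.log_pow] at h2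
    have h3 := hC y hy
    have h4 := mul_le_mul_of_nonneg_left h3 (Nat.cast_nonneg d : (0 : ℝ) ≤ d)
    rw [pow_succ]
    nlinarith

/-- **Silverman's theorem** -/
theorem silverman (hg : IsEndo d g) (hd : 2 ≤ d) (hE : NoExcept d g) (hB : B.IsHomogeneous N)
    (hB0 : B ≠ 0) {x : Fin 2 → k} (hx : x ≠ 0) (hwan : Wander g x) (v : Pl k) (c : ℝ) (hc : 0 < c) :
    ∃ n0, ∀ n ≥ n0, eval ((pt g)^[n] x) B ≠ 0 ∧
      N * Real.log (nrm (av v) ((pt g)^[n] x)) - c * d ^ n ≤
        Real.log (av v (eval ((pt g)^[n] x) B)) := by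
  classical
  have hxn : ∀ n, (pt g)^[n] x ≠ 0 := iter_ne hg hx
  obtain ⟨n1, hn1⟩ := eventually_ne (g := g) hB hB0 hxn hwan
  obtain ⟨H, hH0, hH⟩ := height_upper hg.1 hd x
  set w := (pt g)^[n1] x with hwdef
  obtain ⟨w', hw⟩ := exists_compl (hxn n1)
  have hBw : ∀ m, eval ((ev g)^[m] w) B ≠ 0 := by
    intro m
    rw [ev_eq_pt, hwdef, ← Function.iterate_add_apply]
    exact hn1 _ (by omega)
  have hwt := wt_pos v
  have hd0 : (0 : ℝ) < d := by
    have : 0 < d := by omega
    exact_mod_cast this
  -- the number of steps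
  obtain ⟨j, hj⟩ : ∃ j : ℕ, N * 3 * H / wt v * (((d ^ 3 - 1 : ℕ) : ℝ) / d ^ 3) ^ j < c / 2 := by
    have h1 : (((d ^ 3 - 1 : ℕ) : ℝ) / d ^ 3) < 1 := by
      rw [div_lt_one (by positivity)]
      have h2 : d ^ 3 - 1 < d ^ 3 := Nat.sub_lt (pow_pos (by omega) 3) one_pos
      exact_mod_cast h2
    have h2 : 0 ≤ (((d ^ 3 - 1 : ℕ) : ℝ) / d ^ 3) := by positivity
    have h3 := (tendsto_pow_atTop_nhds_zero_of_lt_one h2 h1).const_mul (N * 3 * H / wt v)
    rw [mul_zero] at h3
    exact ((h3.eventually (gt_mem_nhds (by positivity : (0 : ℝ) < c / 2))).exists)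
  set m := 3 * j with hm
  obtain ⟨M, _, _, _, hM1, hi, hM2, hspl⟩ := exists_split (bk g B w w' m)
  obtain ⟨f, hf⟩ := exists_good (K := M) v
  set A : Multiset M := ((bk g B w w' m).map (algebraMap k M)).roots with hAdef
  have hcardA : Multiset.card A = N * d ^ m := by
    rw [← (bk_deg hg.1 hB w w' m (hBw m)).1, ← Polynomial.natDegree_map (algebraMap k M)]
    exact hspl.natDegree_eq_card_roots.symm
  have hcount : ∀ α, A.count α ≤ N * (d ^ 3 - 1) ^ j := fun α =>
    mult_bound hg hd hB hw hBw hE M j α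
  set lc : k := eval ((ev g)^[m] w) B with hlc
  -- factorisation
  have hfac : ∀ y : Fin 2 → k, cl w w' y ≠ 0 →
      algebraMap k M (eval ((pt g)^[m] y) B) = algebraMap k M lc * (A.map fun α => Lf w w' α y).prod := by
    intro y hy
    have h1 : (fun i => algebraMap k M (y i)) = fun i => algebraMap k M (cu w w' y) * algebraMap k M (w i) +
        algebraMap k M (cl w w' y) * algebraMap k M (w' i) := by
      funext i
      have := coords (R := k) hw y i
      simp only [Algebra.algebraMap_self, RingHom.id_apply] at this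
      rw [← map_mul, ← map_mul, ← map_add, ← this]
    have hcl : algebraMap k M (cl w w' y) ≠ 0 := (map_ne_zero _).2 hy
    rw [← ev_eq_pt, ← aeval_alg, ← ev_alg, h1, form_eval hg.1 hB w w' _ _ hcl m]
    have h2 := hspl.eq_prod_roots
    rw [Polynomial.leadingCoeff_map, (bk_deg hg.1 hB w w' m (hBw m)).2, ← hAdef] at h2
    rw [← Polynomial.eval_map_algebraMap, h2, Polynomial.eval_mul, Polynomial.eval_C]
    have h4 : ∀ s : Multiset M, (Multiset.map (fun a => Polynomial.X - Polynomial.C a) s).prod.eval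
        (algebraMap k M (cu w w' y) / algebraMap k M (cl w w' y)) * algebraMap k M (cl w w' y) ^
          Multiset.card s = (s.map fun α => Lf w w' α y).prod := by
      intro s
      induction s using Multiset.induction_on with
      | empty => simp
      | cons a s ih =>
        rw [Multiset.map_cons, Multiset.prod_cons, Polynomial.eval_mul, Multiset.card_cons,
          Multiset.map_cons, Multiset.prod_cons, ← ih, pow_succ]
        have h5 : Lf w w' a y = (algebraMap k M (cu w w' y) / algebraMap k M (cl w w' y) - a) *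
            algebraMap k M (cl w w' y) := by
          rw [Lf, cu_alg, cl_alg]
          field_simp
        rw [h5]
        simp only [Polynomial.eval_sub, Polynomial.eval_X, Polynomial.eval_C]
        ring
    rw [← h4, hcardA]
    ring
  -- constants
  have hroth : ∀ α : M, ∃ (Z : Finset (Fin 2 → M)) (C : ℝ), 0 ≤ C ∧ (∀ z ∈ Z, z ≠ 0) ∧
      ∀ x : Fin 2 → k, x ≠ 0 → (∀ z ∈ Z, ∑ j, z j * algebraMap k M (x j) ≠ 0) →
      Real.log (nrm (av v) x) - Real.log (f (Lf w w' α x)) ≤ (3 * logHeight x + C) / wt v :=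
    fun α => roth hi v f hf hw α
  choose Z C1 hC10 hZ hR using hroth
  have hsep : ∀ α β : M, ∃ C : ℝ, 0 ≤ C ∧ (α ≠ β → ∀ x : Fin 2 → k, nrm (av v) x ≤
      C * max (f (Lf w w' α x)) (f (Lf w w' β x))) := by
    intro α β
    by_cases h : α = β
    · exact ⟨0, le_rfl, fun h' => absurd h h'⟩
    · obtain ⟨C, hC0, hC⟩ := sep v f hf hw h
      exact ⟨C, hC0, fun _ => hC⟩
  choose C2 hC20 hS using hsep
  set R1 : ℝ := ∑ α ∈ A.toFinset, C1 α with hR1
  set R2 : ℝ := 1 + ∑ α ∈ A.toFinset, ∑ β ∈ A.toFinset, C2 α β with hR2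
  have hR10 : 0 ≤ R1 := Finset.sum_nonneg fun α _ => hC10 α
  have hR21 : 1 ≤ R2 := le_add_of_nonneg_right (Finset.sum_nonneg fun α _ =>
    Finset.sum_nonneg fun β _ => hC20 α β)
  have hR2le : ∀ α ∈ A.toFinset, ∀ β ∈ A.toFinset, C2 α β ≤ R2 := by
    intro α hα β hβ
    have h1 := Finset.single_le_sum (f := fun β => C2 α β) (fun β _ => hC20 α β) hβ
    have h2 := Finset.single_le_sum (f := fun α => ∑ β ∈ A.toFinset, C2 α β)
      (fun α _ => Finset.sum_nonneg fun β _ => hC20 α β) hα
    linarith
  obtain ⟨C3, hC30, hC3⟩ := norm_upper (by norm_num : 0 < 2) hg (av v) m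
  -- the excluded points
  have hexc : ∃ n2, ∀ n ≥ n2, ∀ α ∈ A.toFinset, ∀ z ∈ Z α,
      ∑ i, z i * algebraMap k M ((pt g)^[n] x i) ≠ 0 := by
    have hone : ∀ z : Fin 2 → M, z ≠ 0 → ∃ n2, ∀ n ≥ n2,
        ∑ i, z i * algebraMap k M ((pt g)^[n] x i) ≠ 0 := by
      intro z hz
      by_contra hcon
      push Not at hcon
      obtain ⟨a, ha1, ha⟩ := hcon 0
      obtain ⟨b, hb1, hb⟩ := hcon (a + 1)
      rw [Fin.sum_univ_two] at ha hb
      -- two points on the same line through the origin
      have hdet : algebraMap k M ((pt g)^[a] x 0 * (pt g)^[b] x 1 - (pt g)^[a] x 1 * (pt g)^[b] x 0) = 0 := by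
        rw [map_sub, map_mul, map_mul]
        obtain ⟨i, hi'⟩ := Function.ne_iff.1 hz
        have hi'' : z i ≠ 0 := hi'
        fin_cases i
        · apply (mul_eq_zero.1 (?_ : z 0 * _ = 0)).resolve_left hi''
          linear_combination algebraMap k M ((pt g)^[b] x 1) * ha - algebraMap k M ((pt g)^[a] x 1) * hb
        · apply (mul_eq_zero.1 (?_ : z 1 * _ = 0)).resolve_left hi''
          linear_combination algebraMap k M ((pt g)^[a] x 0) * hb - algebraMap k M ((pt g)^[b] x 0) * ha
      have hdet' : (pt g)^[a] x 0 * (pt g)^[b] x 1 - (pt g)^[a] x 1 * (pt g)^[b] x 0 = 0 :=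
        (map_eq_zero _).1 hdet
      obtain ⟨i, hi'⟩ := Function.ne_iff.1 (hxn b)
      have hi'' : (pt g)^[b] x i ≠ 0 := hi'
      apply hwan a b (by omega) ((pt g)^[a] x i / (pt g)^[b] x i)
      funext l
      rw [Pi.smul_apply, smul_eq_mul, div_mul_eq_mul_div, eq_div_iff hi'']
      fin_cases i <;> fin_cases l
      · rfl
      · simp only [Fin.zero_eta, Fin.mk_one, Fin.isValue]
        linear_combination -hdet'
      · simp only [Fin.zero_eta, Fin.mk_one, Fin.isValue]
        linear_combination hdet'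
      · rfl
    choose! e he using hone
    refine ⟨∑ α ∈ A.toFinset, ∑ z ∈ Z α, e z, fun n hn α hα z hz => he z (hZ α z hz) n ?_⟩
    refine le_trans ?_ hn
    have h1 := Finset.single_le_sum (f := fun z => e z) (fun z _ => Nat.zero_le _) hz
    have h2 := Finset.single_le_sum (f := fun α => ∑ z ∈ Z α, e z) (fun α _ => Nat.zero_le _) hα
    exact h1.trans h2
  obtain ⟨n2, hn2⟩ := hexc
  set E : ℝ := ((N * (d ^ 3 - 1) ^ j : ℕ) : ℝ) with hEdef
  have hE0 : 0 ≤ E := Nat.cast_nonneg _
  set C4 : ℝ := |Real.log (av v lc)| + (N * d ^ m : ℕ) * Real.log R2 + N * C3 + E * (R1 / wt v) with hC4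
  -- large n
  obtain ⟨n3, hn3⟩ : ∃ n3 : ℕ, ∀ n ≥ n3, C4 ≤ c / 2 * d ^ n := by
    have h1 : Filter.Tendsto (fun n : ℕ => c / 2 * (d : ℝ) ^ n) Filter.atTop Filter.atTop := by
      apply Filter.Tendsto.const_mul_atTop (by positivity)
      apply tendsto_pow_atTop_atTop_of_one_lt
      have : 1 < d := by omega
      exact_mod_cast this
    exact Filter.eventually_atTop.1 (h1.eventually_ge_atTop C4)
  refine ⟨n1 + n2 + n3 + m + 1, fun n hn => ⟨hn1 n (by omega), ?_⟩⟩
  obtain ⟨q, rfl⟩ : ∃ q, n = m + q := ⟨n - m, by omega⟩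
  set y := (pt g)^[q] x with hy
  have hy0 : y ≠ 0 := hxn q
  have hcl : cl w w' y ≠ 0 := cl_ne hw fun c' => hwan q n1 (by omega) c'
  have hxy : (pt g)^[m + q] x = (pt g)^[m] y := by rw [Function.iterate_add_apply]
  have hBy := hn1 (m + q) (by omega)
  rw [hxy] at hBy ⊢
  have hfacy := hfac y hcl
  have hprod0 : (A.map fun α => Lf w w' α y).prod ≠ 0 := by
    intro h0
    rw [h0, mul_zero] at hfacy
    exact hBy ((map_eq_zero _).1 hfacy)
  have hL0 : ∀ α ∈ A, Lf w w' α y ≠ 0 := by
    intro α hα h0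
    apply hprod0
    apply Multiset.prod_eq_zero
    exact Multiset.mem_map.2 ⟨α, hα, h0⟩
  have hny := nrm_pos (av v) hy0
  set δ : ℝ := (3 * logHeight y + R1) / wt v with hδ
  have hδ0 : 0 ≤ δ := div_nonneg (add_nonneg (mul_nonneg (by norm_num) (logHeight_nonneg _)) hR10) hwt.le
  have hlogR2 := Real.log_nonneg hR21
  -- the smallest form
  obtain ⟨α₀, hα₀⟩ : ∃ α₀ : M, ∀ α ∈ A, Real.log (nrm (av v) y) - Real.log R2 -
      (if α = α₀ then δ else 0) ≤ Real.log (f (Lf w w' α y)) := by
    by_cases hne : A.toFinset.Nonempty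
    · obtain ⟨α₀, h1, h2⟩ := Finset.exists_min_image A.toFinset (fun α => f (Lf w w' α y)) hne
      refine ⟨α₀, fun α hα => ?_⟩
      have hα' := Multiset.mem_toFinset.2 hα
      by_cases heq : α = α₀
      · subst heq
        rw [if_pos rfl]
        have h3 := hR α y hy0 (hn2 q (by omega) α hα')
        have h4 : (3 * logHeight y + C1 α) / wt v ≤ δ := by
          rw [hδ]
          apply div_le_div_of_nonneg_right _ hwt.le
          have := Finset.single_le_sum (f := fun α => C1 α) (fun α _ => hC10 α) hα'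
          linarith
        linarith
      · rw [if_neg heq, sub_zero]
        have h3 := hS α α₀ heq y
        have h4 : max (f (Lf w w' α y)) (f (Lf w w' α₀ y)) = f (Lf w w' α y) := max_eq_left (h2 α hα')
        rw [h4] at h3
        have hfp : 0 < f (Lf w w' α y) := f.pos_iff.2 (hL0 α hα)
        have h5 : nrm (av v) y ≤ R2 * f (Lf w w' α y) :=
          h3.trans (mul_le_mul_of_nonneg_right (hR2le α hα' α₀ h1) hfp.le)
        have h6 := Real.log_le_log hny h5
        rw [Real.log_mul (by linarith) hfp.ne'] at h6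
        linarith
    · refine ⟨0, fun α hα => ?_⟩
      exact absurd ⟨α, Multiset.mem_toFinset.2 hα⟩ hne
  have hsum : (Multiset.card A : ℝ) * (Real.log (nrm (av v) y) - Real.log R2) - A.count α₀ * δ ≤
      Real.log (f (A.map fun α => Lf w w' α y).prod) := by
    have h1 : ∀ s : Multiset M, (∀ α ∈ s, α ∈ A) →
        (Multiset.card s : ℝ) * (Real.log (nrm (av v) y) - Real.log R2) - s.count α₀ * δ ≤
        Real.log (f (s.map fun α => Lf w w' α y).prod) := by
      intro s
      induction s using Multiset.induction_on with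
      | empty => intro _; simp
      | cons a s ih =>
        intro hs
        have h2 := ih fun α hα => hs α (Multiset.mem_cons_of_mem hα)
        have h3 := hα₀ a (hs a (Multiset.mem_cons_self a s))
        have h4 : (s.map fun α => Lf w w' α y).prod ≠ 0 := by
          intro h0
          obtain ⟨α, hα, h5⟩ := Multiset.mem_map.1 (Multiset.prod_eq_zero_iff.1 h0)
          exact hL0 α (hs α (Multiset.mem_cons_of_mem hα)) h5
        rw [Multiset.map_cons, Multiset.prod_cons, map_mul, Real.log_mul
          (f.pos_iff.2 (hL0 a (hs a (Multiset.mem_cons_self a s)))).ne' (f.pos_iff.2 h4).ne',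
          Multiset.card_cons]
        by_cases ha : a = α₀
        · subst ha
          rw [if_pos rfl] at h3
          rw [Multiset.count_cons_self]
          push_cast
          linarith
        · rw [if_neg ha] at h3
          rw [Multiset.count_cons_of_ne (Ne.symm ha)]
          push_cast
          linarith
    exact h1 A fun _ h => h
  -- conclusion
  have hlogB : Real.log (av v (eval ((pt g)^[m] y) B)) = Real.log (av v lc) +
      Real.log (f (A.map fun α => Lf w w' α y).prod) := by
    rw [← hf.ext, hfacy, map_mul, hf.ext, Real.log_mul ((av v).pos_iff.2 (hBw m)).ne'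
      (f.pos_iff.2 hprod0).ne']
  rw [hlogB]
  have hc3 := hC3 y hy0
  have hH' := hH q
  rw [← hy] at hH'
  have hcnt : (A.count α₀ : ℝ) * δ ≤ E * δ := by
    apply mul_le_mul_of_nonneg_right _ hδ0
    rw [hEdef]
    exact Nat.cast_le.2 (hcount α₀)
  have hEδ : E * δ ≤ E * (R1 / wt v) + c / 2 * d ^ (m + q) := by
    have h1 : δ ≤ R1 / wt v + 3 * H / wt v * d ^ q := by
      rw [hδ, add_div, add_comm]
      apply add_le_add le_rfl
      rw [div_mul_eq_mul_div]
      apply div_le_div_of_nonneg_right _ hwt.le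
      nlinarith
    have h2 := mul_le_mul_of_nonneg_left h1 hE0
    have h3 : E * (3 * H / wt v * d ^ q) ≤ c / 2 * d ^ (m + q) := by
      have h4 : E * (3 * H / wt v * d ^ q) =
          (N * 3 * H / wt v * (((d ^ 3 - 1 : ℕ) : ℝ) / d ^ 3) ^ j) * (d ^ (m + q)) := by
        rw [hEdef, pow_add, hm, pow_mul]
        push_cast
        rw [div_pow]
        field_simp
      rw [h4]
      exact mul_le_mul_of_nonneg_right hj.le (by positivity)
    rw [mul_add] at h2
    linarith
  have h7 := hn3 (m + q) (by omega)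
  have h8 := neg_abs_le (Real.log (av v lc))
  rw [hcardA] at hsum
  have h9 : (N : ℝ) * Real.log (nrm (av v) ((pt g)^[m] y)) ≤ N * C3 + (N * d ^ m : ℕ) *
      Real.log (nrm (av v) y) := by
    have := mul_le_mul_of_nonneg_left hc3 (Nat.cast_nonneg N : (0 : ℝ) ≤ N)
    push_cast
    linarith
  push_cast at hsum h9 hC4 ⊢
  linarith

end nf

end Pool.Agent.H422.SK
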