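import Mathlib
import Pool.Agent.H422.SK.Silv

set_option autoImplicit false
set_option linter.unusedSectionVars false

/-!
A polynomial relation between the base point and a fast growing function is impossible.
-/

namespace Pool.Agent.H422.SK

open MvPolynomial NumberField Height Module
open Pool.Agent.Q170.HG (pt IsEndo iter_ne)
open Pool.Agent.W180.OP (Pl av wt nrm le_nrm nrm_pos nrm_nonneg wt_nonneg exists_nrm abv_mv cs cs_nonneg)

variable {k : Type} [Field k]

section engine

variable [NumberField k] {d : ℕ} {g : Fin 2 → MvPolynomial (Fin 2) k}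

theorem engine_up (hg : IsEndo d g) (hd : 2 ≤ d) (hE : NoExcept d g) {x : Fin 2 → k} (hx : x ≠ 0)
    (hwan : Wander g x) (v : Pl k) (r J D : ℕ) (A : ℕ → MvPolynomial (Fin 2) k)
    (hA : ∀ j ≤ J, (A j).IsHomogeneous (D - r * j)) (hJ : r * J ≤ D) (hAJ : A J ≠ 0)
    (c : ℝ) (hc : 0 < c) :
    ∃ n0, ∀ n ≥ n0, ∀ y : k, y ≠ 0 →
      r * Real.log (nrm (av v) ((pt g)^[n] x)) + c * d ^ n ≤ Real.log (av v y) →
      ∑ j ∈ Finset.range (J + 1), eval ((pt g)^[n] x) (A j) * y ^ j ≠ 0 := by
  classical
  obtain ⟨n1, hn1⟩ := silverman hg hd hE (hA J le_rfl) hAJ hx hwan v (c / 2) (by positivity)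
  set S : ℝ := 1 + ∑ j ∈ Finset.range J, cs (av v) (A j) with hS
  have hS1 : 1 ≤ S := le_add_of_nonneg_right (Finset.sum_nonneg fun _ _ => cs_nonneg _ _)
  have hS0 : 0 < S := by linarith
  obtain ⟨n2, hn2⟩ : ∃ n2 : ℕ, ∀ n ≥ n2, Real.log S + 1 ≤ c / 2 * d ^ n := by
    have h1 : Filter.Tendsto (fun n : ℕ => c / 2 * (d : ℝ) ^ n) Filter.atTop Filter.atTop := by
      apply Filter.Tendsto.const_mul_atTop (by positivity)
      apply tendsto_pow_atTop_atTop_of_one_lt
      have : 1 < d := by omega
      exact_mod_cast this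
    exact Filter.eventually_atTop.1 (h1.eventually_ge_atTop (Real.log S + 1))
  refine ⟨n1 + n2, fun n hn y hy hlog hsum => ?_⟩
  obtain ⟨h1, h2⟩ := hn1 n (by omega)
  have h3 := hn2 n (by omega)
  set z := (pt g)^[n] x with hz
  have hz0 : z ≠ 0 := iter_ne hg hx n
  have hzn := nrm_pos (av v) hz0
  have hyp : 0 < av v y := (av v).pos_iff.2 hy
  set E : ℝ := Real.exp (c * d ^ n) with hE'
  have hE0 : 0 < E := Real.exp_pos _
  have hd0 : (0 : ℝ) ≤ d := Nat.cast_nonneg d
  have hE1 : 1 ≤ E := by
    rw [hE']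
    exact Real.one_le_exp (by positivity)
  -- `‖z‖ ^ r * E ≤ |y|`
  have h4 : nrm (av v) z ^ r * E ≤ av v y := by
    have e1 : Real.log (nrm (av v) z ^ r * E) ≤ Real.log (av v y) := by
      rw [Real.log_mul (pow_pos hzn _).ne' hE0.ne', Real.log_pow, hE', Real.log_exp]
      exact hlog
    exact (Real.log_le_log_iff (by positivity) hyp).1 e1
  rw [Finset.sum_range_succ] at hsum
  have h5 : eval z (A J) * y ^ J = - ∑ j ∈ Finset.range J, eval z (A j) * y ^ j := by
    linear_combination hsum
  have h6 : av v (eval z (A J)) * av v y ^ J ≤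
      ∑ j ∈ Finset.range J, av v (eval z (A j)) * av v y ^ j := by
    rw [← map_pow, ← map_mul, h5, (av v).map_neg]
    refine ((av v).sum_le _ _).trans (le_of_eq ?_)
    exact Finset.sum_congr rfl fun j _ => by rw [map_mul, map_pow]
  have h7 : ∀ j ∈ Finset.range J, av v (eval z (A j)) * av v y ^ j ≤
      cs (av v) (A j) * (nrm (av v) z ^ (D - r * J) * (av v y ^ J * E⁻¹)) := by
    intro j hj
    have hj' := Finset.mem_range.1 hj
    have e1 := abv_mv (av v) (A j) (hA j hj'.le) z
    have e2 : nrm (av v) z ^ (D - r * j) * av v y ^ j ≤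
        nrm (av v) z ^ (D - r * J) * (av v y ^ J * E⁻¹) := by
      obtain ⟨q, rfl⟩ : ∃ q, J = j + (q + 1) := ⟨J - j - 1, by omega⟩
      have e3 : D - r * j = (D - r * (j + (q + 1))) + r * (q + 1) := by
        have : r * (j + (q + 1)) = r * j + r * (q + 1) := by ring
        omega
      rw [e3, pow_add, pow_add (av v y), mul_assoc]
      apply mul_le_mul_of_nonneg_left _ (pow_nonneg hzn.le _)
      have e4 : nrm (av v) z ^ (r * (q + 1)) ≤ av v y ^ (q + 1) * E⁻¹ := by
        rw [← div_eq_mul_inv, le_div_iff₀ hE0, pow_mul]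
        have e5 : (nrm (av v) z ^ r * E) ^ (q + 1) ≤ av v y ^ (q + 1) :=
          pow_le_pow_left₀ (by positivity) h4 _
        refine le_trans ?_ e5
        rw [mul_pow]
        apply mul_le_mul_of_nonneg_left _ (by positivity)
        exact le_self_pow₀ hE1 (by omega)
      calc nrm (av v) z ^ (r * (q + 1)) * av v y ^ j ≤ (av v y ^ (q + 1) * E⁻¹) * av v y ^ j :=
            mul_le_mul_of_nonneg_right e4 (pow_nonneg hyp.le _)
        _ = av v y ^ j * av v y ^ (q + 1) * E⁻¹ := by ring
    calc av v (eval z (A j)) * av v y ^ j ≤ (cs (av v) (A j) * nrm (av v) z ^ (D - r * j)) * av v y ^ j :=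
          mul_le_mul_of_nonneg_right e1 (pow_nonneg hyp.le _)
      _ = cs (av v) (A j) * (nrm (av v) z ^ (D - r * j) * av v y ^ j) := by ring
      _ ≤ _ := mul_le_mul_of_nonneg_left e2 (cs_nonneg _ _)
  have h8 : av v (eval z (A J)) * av v y ^ J ≤ (S * nrm (av v) z ^ (D - r * J) * E⁻¹) * av v y ^ J := by
    refine h6.trans ((Finset.sum_le_sum h7).trans ?_)
    rw [← Finset.sum_mul]
    have e1 : ∑ j ∈ Finset.range J, cs (av v) (A j) ≤ S := by rw [hS]; linarith
    have e2 : 0 ≤ nrm (av v) z ^ (D - r * J) * (av v y ^ J * E⁻¹) := by positivity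
    refine (mul_le_mul_of_nonneg_right e1 e2).trans (le_of_eq (by ring))
  have h9 : av v (eval z (A J)) ≤ S * nrm (av v) z ^ (D - r * J) * E⁻¹ :=
    le_of_mul_le_mul_right h8 (pow_pos hyp _)
  have h10 := Real.log_le_log ((av v).pos_iff.2 h1) h9
  rw [Real.log_mul (by positivity) (by positivity), Real.log_mul hS0.ne' (by positivity),
    Real.log_pow, Real.log_inv, hE', Real.log_exp] at h10
  linarith

end engine

section relation

open Polynomial in
/-- a relation over a larger field gives one over the field of the points -/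
lemma descend {L : Type} [Field L] [Algebra k L] (Q : Polynomial (Polynomial L)) (hQ : Q ≠ 0) :
    ∃ Q' : Polynomial (Polynomial k), Q' ≠ 0 ∧ ∀ t u : k,
      Q.evalEval (algebraMap k L t) (algebraMap k L u) = 0 → Q'.evalEval t u = 0 := by
  classical
  obtain ⟨j, hj⟩ : ∃ j, Q.coeff j ≠ 0 := by
    by_contra hcon
    push Not at hcon
    exact hQ (Polynomial.ext fun j => by rw [hcon j, Polynomial.coeff_zero])
  obtain ⟨i, hi⟩ : ∃ i, (Q.coeff j).coeff i ≠ 0 := by
    by_contra hcon
    push Not at hcon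
    exact hj (Polynomial.ext fun i => by rw [hcon i, Polynomial.coeff_zero])
  obtain ⟨φ, hφ⟩ : ∃ φ : L →ₗ[k] k, φ ((Q.coeff j).coeff i) ≠ 0 := by
    by_contra hcon
    push Not at hcon
    exact hi ((Module.forall_dual_apply_eq_zero_iff k _).1 hcon)
  set q' : ℕ → Polynomial k := fun j => ∑ i ∈ (Q.coeff j).support,
    Polynomial.monomial i (φ ((Q.coeff j).coeff i)) with hq'
  set Q' : Polynomial (Polynomial k) := ∑ j ∈ Q.support, Polynomial.monomial j (q' j) with hQ'
  have hqc : ∀ j i, (q' j).coeff i = φ ((Q.coeff j).coeff i) := by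
    intro j i
    rw [hq', Polynomial.finsetSum_coeff]
    simp only [Polynomial.coeff_monomial]
    rw [Finset.sum_ite_eq']
    split_ifs with h
    · rfl
    · rw [Polynomial.notMem_support_iff.1 h, map_zero]
  have hQc : ∀ j, Q'.coeff j = q' j := by
    intro j
    rw [hQ', Polynomial.finsetSum_coeff]
    simp only [Polynomial.coeff_monomial]
    rw [Finset.sum_ite_eq']
    split_ifs with h
    · rfl
    · apply Polynomial.ext
      intro i
      rw [hqc, Polynomial.notMem_support_iff.1 h, Polynomial.coeff_zero, Polynomial.coeff_zero, map_zero]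
  refine ⟨Q', ?_, fun t u h0 => ?_⟩
  · intro h0
    apply hφ
    rw [← hqc, ← hQc, h0, Polynomial.coeff_zero, Polynomial.coeff_zero]
  · have h1 : φ (Q.evalEval (algebraMap k L t) (algebraMap k L u)) = Q'.evalEval t u := by
      rw [Polynomial.evalEval, Polynomial.evalEval, hQ', Polynomial.eval_finsetSum,
        Polynomial.eval_finsetSum, Polynomial.eval_eq_sum (p := Q), Polynomial.sum,
        Polynomial.eval_finsetSum, map_sum]
      refine Finset.sum_congr rfl fun j _ => ?_
      rw [Polynomial.eval_monomial, Polynomial.eval_mul, Polynomial.eval_mul, Polynomial.eval_pow,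
        Polynomial.eval_pow, Polynomial.eval_C, Polynomial.eval_C, hq', Polynomial.eval_finsetSum,
        Polynomial.eval_eq_sum (p := Q.coeff j), Polynomial.sum, Finset.sum_mul, Finset.sum_mul, map_sum]
      refine Finset.sum_congr rfl fun i _ => ?_
      rw [Polynomial.eval_monomial]
      have e1 : (Q.coeff j).coeff i * algebraMap k L t ^ i * algebraMap k L u ^ j =
          (t ^ i * u ^ j) • (Q.coeff j).coeff i := by
        rw [Algebra.smul_def, map_mul, map_pow, map_pow]
        ring
      rw [e1, map_smul, smul_eq_mul]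
      ring
    rw [← h1, h0, map_zero]

/-- the forms of a relation -/
lemma forms (Q : Polynomial (Polynomial k)) (hQ : Q ≠ 0) (r : ℕ) :
    ∃ (J D : ℕ) (A : ℕ → MvPolynomial (Fin 2) k), (∀ j ≤ J, (A j).IsHomogeneous (D - r * j)) ∧
      r * J ≤ D ∧ A J ≠ 0 ∧ ∀ (x : Fin 2 → k) (y : k), x 0 ≠ 0 →
        ∑ j ∈ Finset.range (J + 1), eval x (A j) * y ^ j =
          x 0 ^ D * Q.evalEval (x 1 / x 0) (y / x 0 ^ r) := by
  classical
  set J := Q.natDegree with hJ
  set M := ∑ j ∈ Finset.range (J + 1), (Q.coeff j).natDegree with hM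
  set D := r * J + M with hD
  set A : ℕ → MvPolynomial (Fin 2) k := fun j => ∑ i ∈ Finset.range (M + 1),
    MvPolynomial.C ((Q.coeff j).coeff i) * X 1 ^ i * X 0 ^ (D - r * j - i) with hA
  have hdeg : ∀ j ≤ J, (Q.coeff j).natDegree ≤ M := by
    intro j hj
    exact Finset.single_le_sum (f := fun j => (Q.coeff j).natDegree) (fun _ _ => Nat.zero_le _)
      (Finset.mem_range.2 (by omega))
  have hrj : ∀ j ≤ J, r * j ≤ r * J := fun j hj => Nat.mul_le_mul_left r hj
  have hev : ∀ j ≤ J, ∀ x : Fin 2 → k, x 0 ≠ 0 → eval x (A j) =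
      x 0 ^ (D - r * j) * (Q.coeff j).eval (x 1 / x 0) := by
    intro j hj x hx
    rw [hA, map_sum, Polynomial.eval_eq_sum_range' (n := M + 1) (by have := hdeg j hj; omega),
      Finset.mul_sum]
    refine Finset.sum_congr rfl fun i hi => ?_
    have hi' := Finset.mem_range.1 hi
    rw [map_mul, map_mul, map_pow, map_pow, eval_C, eval_X, eval_X]
    have h1 := hrj j hj
    have h2 : x 0 ^ (D - r * j) = x 0 ^ (D - r * j - i) * x 0 ^ i := by
      rw [← pow_add]
      congr 1
      omega
    rw [h2, div_pow]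
    field_simp
  refine ⟨J, D, A, ?_, by omega, ?_, ?_⟩
  · intro j hj
    rw [hA]
    apply IsHomogeneous.sum
    intro i hi
    have hi' := Finset.mem_range.1 hi
    have h1 := hrj j hj
    have h2 := ((isHomogeneous_C (Fin 2) ((Q.coeff j).coeff i)).mul
      ((isHomogeneous_X k (1 : Fin 2)).pow i)).mul ((isHomogeneous_X k (0 : Fin 2)).pow (D - r * j - i))
    convert h2 using 1
    omega
  · intro h0
    have hlc : Q.coeff J ≠ 0 := by
      rw [hJ]
      exact Polynomial.leadingCoeff_ne_zero.2 hQ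
    apply hlc
    apply Polynomial.ext
    intro i
    rw [Polynomial.coeff_zero]
    by_cases hi : i ≤ M
    · have h1 := congrArg (coeff (Finsupp.single 1 i + Finsupp.single 0 (D - r * J - i))) h0
      rw [coeff_zero, hA, coeff_sum] at h1
      have h2 : ∀ i' ∈ Finset.range (M + 1), i' ≠ i →
          coeff (Finsupp.single 1 i + Finsupp.single 0 (D - r * J - i))
          (MvPolynomial.C ((Q.coeff J).coeff i') * (X 1 : MvPolynomial (Fin 2) k) ^ i' *
            X 0 ^ (D - r * J - i')) = 0 := by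
        intro i' _ hne
        rw [X_pow_eq_monomial, X_pow_eq_monomial, C_mul_monomial, monomial_mul, coeff_monomial, if_neg]
        intro h3
        apply hne
        have h4 := DFunLike.congr_fun h3 (1 : Fin 2)
        simpa using h4
      rw [Finset.sum_eq_single i h2 (fun h => absurd (Finset.mem_range.2 (by omega)) h),
        X_pow_eq_monomial, X_pow_eq_monomial, C_mul_monomial, monomial_mul, coeff_monomial,
        if_pos rfl] at h1
      simpa using h1
    · exact Polynomial.coeff_eq_zero_of_natDegree_lt (by have := hdeg J le_rfl; omega)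
  · intro x y hx
    rw [Polynomial.evalEval, Polynomial.eval_eq_sum_range (p := Q), Polynomial.eval_finsetSum,
      Finset.mul_sum]
    refine Finset.sum_congr rfl fun j hj => ?_
    have hj' : j ≤ J := by have := Finset.mem_range.1 hj; omega
    have h1 := hrj j hj'
    rw [hev j hj' x hx, Polynomial.eval_mul, Polynomial.eval_pow, Polynomial.eval_C, div_pow]
    have h2 : x 0 ^ D = x 0 ^ (D - r * j) * (x 0 ^ r) ^ j := by
      rw [← pow_mul, ← pow_add]
      congr 1
      omega
    rw [h2]
    field_simp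

end relation

section engine2

variable [NumberField k] {d : ℕ} {g : Fin 2 → MvPolynomial (Fin 2) k}

/-- far out on the orbit of the base, the relation does not hold if the other function is large -/
theorem engine (hg : IsEndo d g) (hd : 2 ≤ d) (hE : NoExcept d g) {x : Fin 2 → k} (hx : x ≠ 0)
    (hwan : Wander g x) (v : Pl k) (r : ℕ) {L : Type} [Field L] [Algebra k L]
    (Q : Polynomial (Polynomial L)) (hQ : Q ≠ 0) (c : ℝ) (hc : 0 < c) :
    ∃ n0, ∀ n ≥ n0, ∀ y : k, y ≠ 0 →
      r * Real.log (nrm (av v) ((pt g)^[n] x)) + c * d ^ n ≤ Real.log (av v y) →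
      (pt g)^[n] x 0 ≠ 0 ∧ Q.evalEval (algebraMap k L ((pt g)^[n] x 1 / (pt g)^[n] x 0))
        (algebraMap k L (y / (pt g)^[n] x 0 ^ r)) ≠ 0 := by
  obtain ⟨Q', hQ', hdes⟩ := descend (k := k) Q hQ
  obtain ⟨J, D, A, hA, hJ, hAJ, hrel⟩ := forms Q' hQ' r
  obtain ⟨n1, hn1⟩ := engine_up hg hd hE hx hwan v r J D A hA hJ hAJ c hc
  obtain ⟨n2, hn2⟩ := eventually_ne (g := g) (isHomogeneous_X k (0 : Fin 2)) (X_ne_zero 0)
    (iter_ne hg hx) hwan
  refine ⟨n1 + n2, fun n hn y hy hlog => ?_⟩
  have h1 := hn2 n (by omega)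
  rw [eval_X] at h1
  refine ⟨h1, fun h0 => ?_⟩
  have h2 := hdes _ _ h0
  have h3 := hn1 n (by omega) y hy hlog
  rw [hrel _ y h1, h2, mul_zero] at h3
  exact h3 rfl

end engine2

end Pool.Agent.H422.SK
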