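import Mathlib
import Pool.Agent.H422.SK.Eng
import Pool.Graph.R_pool_sql_team_seeded_3dad9d7b.NH28.HtSum

set_option autoImplicit false
set_option linter.unusedSectionVars false

/-!
Orbits near the base locus of an invariant pencil.
-/

namespace Pool.Agent.H422.SK

open MvPolynomial NumberField Height Module IsDedekindDomain
open Pool.Agent.Q170.HG (pt IsEndo iter_ne cert)
open Pool.Agent.W180.OP (Pl av wt fv nrm le_nrm nrm_pos nrm_nonneg wt_nonneg exists_nrm abv_mv cs cs_nonneg
  fv_support_finite nrm_le)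
open Pool.Agent.NH28 (height_sum nrm_support)

variable {k : Type} [Field k] [NumberField k]

lemma fv_na (v : HeightOneSpectrum (𝓞 k)) : IsNonarchimedean (fv v) := fun a b =>
  FinitePlace.add_le (FinitePlace.mk v) a b

lemma na_sum {f : AbsoluteValue k ℝ} (hf : IsNonarchimedean f) {ι : Type} (s : Finset ι) (a : ι → k)
    {B : ℝ} (hB : 0 ≤ B) (h : ∀ i ∈ s, f (a i) ≤ B) : f (∑ i ∈ s, a i) ≤ B := by
  classical
  induction s using Finset.induction_on with
  | empty => simpa using hB
  | insert i s hi ih =>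
    rw [Finset.sum_insert hi]
    refine (hf _ _).trans (max_le (h i (Finset.mem_insert_self _ _)) (ih fun j hj => h j ?_))
    exact Finset.mem_insert_of_mem hj

lemma abv_na {f : AbsoluteValue k ℝ} (hf : IsNonarchimedean f) {n d : ℕ} {F : MvPolynomial (Fin n) k}
    (hF : F.IsHomogeneous d) (h1 : ∀ μ, f (coeff μ F) ≤ 1) (x : Fin n → k) :
    f (eval x F) ≤ nrm f x ^ d := by
  rw [MvPolynomial.eval_eq]
  apply na_sum hf _ _ (pow_nonneg (nrm_nonneg _ _) _)
  intro m hm
  rw [map_mul, map_prod]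
  have h2 : m.degree = d := by
    have := hF (MvPolynomial.mem_support_iff.1 hm)
    exact (DFunLike.congr_fun (Finsupp.degree_eq_weight_one (σ := Fin n) (R := ℕ)) m).trans this
  have h3 : ∑ i ∈ m.support, m i = d := by rw [← h2]; rfl
  rw [← h3, ← Finset.prod_pow_eq_pow_sum]
  have h4 : ∏ i ∈ m.support, f (x i ^ m i) ≤ ∏ i ∈ m.support, nrm f x ^ m i := by
    refine Finset.prod_le_prod (fun i _ => f.nonneg _) fun i _ => ?_
    rw [map_pow]
    exact pow_le_pow_left₀ (f.nonneg _) (le_nrm f x i) _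
  calc f (coeff m F) * ∏ i ∈ m.support, f (x i ^ m i) ≤ 1 * ∏ i ∈ m.support, nrm f x ^ m i :=
        mul_le_mul (h1 m) h4 (Finset.prod_nonneg fun i _ => f.nonneg _) zero_le_one
    _ = _ := one_mul _

/-- the finite places at which some coefficient is not integral -/
lemma bad_finite {n : ℕ} (F : MvPolynomial (Fin n) k) :
    {v : HeightOneSpectrum (𝓞 k) | ¬ ∀ μ, fv v (coeff μ F) ≤ 1}.Finite := by
  classical
  have h1 : (⋃ μ : {μ // μ ∈ F.support},
      {v : HeightOneSpectrum (𝓞 k) | fv v (coeff μ.1 F) ≠ 1}).Finite :=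
    Set.finite_iUnion fun μ => fv_support_finite (MvPolynomial.mem_support_iff.1 μ.2)
  refine h1.subset fun v hv => ?_
  obtain ⟨μ, hμ⟩ := not_forall.1 hv
  have hμ0 : coeff μ F ≠ 0 := by
    intro h0
    apply hμ
    rw [h0, map_zero]
    exact zero_le_one
  exact Set.mem_iUnion.2 ⟨⟨μ, MvPolynomial.mem_support_iff.2 hμ0⟩, fun h => hμ h.le⟩

lemma fin_pos {n : ℕ} {x : Fin n → k} (hx : x ≠ 0) : 0 < n := Pool.Agent.NH28.fin_pos_of_ne hx

/-- upper bound for the norm of the image, with no loss at almost all places -/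
theorem upp {n n' d : ℕ} {G : Fin n' → MvPolynomial (Fin n) k} (hG : ∀ i, (G i).IsHomogeneous d) :
    ∃ C : Pl k → ℝ, (∀ v, 0 ≤ C v) ∧ {v | C v ≠ 0}.Finite ∧ ∀ v x, x ≠ 0 →
      (fun i => eval x (G i)) ≠ 0 →
      Real.log (nrm (av v) fun i => eval x (G i)) ≤ d * Real.log (nrm (av v) x) + C v := by
  classical
  set bad : Set (Pl k) := Set.range Sum.inl ∪
    Sum.inr '' (⋃ i, {v : HeightOneSpectrum (𝓞 k) | ¬ ∀ μ, fv v (coeff μ (G i)) ≤ 1}) with hbad
  have hbf : bad.Finite := (Set.finite_range _).union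
    ((Set.finite_iUnion fun i => bad_finite (G i)).image _)
  set S : Pl k → ℝ := fun v => 1 + ∑ i, cs (av v) (G i) with hS
  have hS1 : ∀ v, 1 ≤ S v := fun v =>
    le_add_of_nonneg_right (Finset.sum_nonneg fun _ _ => cs_nonneg _ _)
  refine ⟨fun v => if v ∈ bad then Real.log (S v) else 0, fun v => ?_, ?_, fun v x hx hx' => ?_⟩
  · dsimp only
    split_ifs
    · exact Real.log_nonneg (hS1 v)
    · exact le_rfl
  · refine hbf.subset fun v hv => ?_
    by_contra h
    exact hv (if_neg h)
  · have hxn := nrm_pos (av v) hx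
    have hn' := fin_pos hx'
    obtain ⟨i, hi⟩ := exists_nrm (av v) hn' fun i => eval x (G i)
    have hp := nrm_pos (av v) hx'
    dsimp only
    split_ifs with h
    · have h1 : nrm (av v) (fun i => eval x (G i)) ≤ S v * nrm (av v) x ^ d := by
        rw [← hi]
        refine (abv_mv _ _ (hG i) x).trans (mul_le_mul_of_nonneg_right ?_ (pow_nonneg hxn.le _))
        have := Finset.single_le_sum (f := fun i => cs (av v) (G i)) (fun _ _ => cs_nonneg _ _)
          (Finset.mem_univ i)
        rw [hS]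
        dsimp only
        linarith
      have h2 := Real.log_le_log hp h1
      rw [Real.log_mul (by have := hS1 v; positivity) (pow_pos hxn _).ne', Real.log_pow] at h2
      linarith
    · cases v with
      | inl w => exact absurd (Or.inl ⟨w, rfl⟩) h
      | inr v =>
        have hco : ∀ i μ, fv v (coeff μ (G i)) ≤ 1 := by
          intro i
          by_contra hc
          exact h (Or.inr ⟨v, Set.mem_iUnion.2 ⟨i, hc⟩, rfl⟩)
        have h1 : nrm (fv v) (fun i => eval x (G i)) ≤ nrm (fv v) x ^ d := by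
          have hi' : fv v (eval x (G i)) = nrm (fv v) (fun i => eval x (G i)) := hi
          rw [← hi']
          exact abv_na (fv_na v) (hG i) (hco i) x
        have h2 := Real.log_le_log hp h1
        rw [Real.log_pow] at h2
        rw [add_zero]
        exact h2

/-- lower bound for the norm of the image, with no loss at almost all places -/
theorem low {n d : ℕ} {F : Fin n → MvPolynomial (Fin n) k} (hF : IsEndo d F) :
    ∃ C : Pl k → ℝ, (∀ v, 0 ≤ C v) ∧ {v | C v ≠ 0}.Finite ∧ ∀ v x, x ≠ 0 →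
      d * Real.log (nrm (av v) x) - C v ≤ Real.log (nrm (av v) (pt F x)) := by
  classical
  obtain ⟨M, q, hq, hqF⟩ := cert hF
  set bad : Set (Pl k) := Set.range Sum.inl ∪
    Sum.inr '' (⋃ a, {v : HeightOneSpectrum (𝓞 k) | ¬ ∀ μ, fv v (coeff μ (q a)) ≤ 1}) with hbad
  have hbf : bad.Finite := (Set.finite_range _).union
    ((Set.finite_iUnion fun i => bad_finite (q i)).image _)
  set S : Pl k → ℝ := fun v => 1 + ∑ a, ∑ b, cs (av v) (q (a, b)) with hS
  have hS1 : ∀ v, 1 ≤ S v := fun v =>
    le_add_of_nonneg_right (Finset.sum_nonneg fun _ _ => Finset.sum_nonneg fun _ _ => cs_nonneg _ _)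
  refine ⟨fun v => if v ∈ bad then Real.log (S v) else 0, fun v => ?_, ?_, fun v x hx => ?_⟩
  · dsimp only
    split_ifs
    · exact Real.log_nonneg (hS1 v)
    · exact le_rfl
  · refine hbf.subset fun v hv => ?_
    by_contra h
    exact hv (if_neg h)
  · have hxn := nrm_pos (av v) hx
    have hn := fin_pos hx
    have hp := nrm_pos (av v) (iter_ne hF hx 1)
    rw [Function.iterate_one] at hp
    obtain ⟨a, ha⟩ := exists_nrm (av v) hn x
    have hid : x a ^ (M + d) = ∑ j, eval x (q (a, j)) * eval x (F j) := by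
      have h2 := congrArg (eval x) (hqF a)
      rw [map_sum, map_pow, eval_X] at h2
      rw [← h2]
      exact Finset.sum_congr rfl fun j _ => map_mul _ _ _
    have key : ∀ T : ℝ, 0 < T → (av v (∑ j, eval x (q (a, j)) * eval x (F j)) ≤
        T * (nrm (av v) x ^ M * nrm (av v) (pt F x))) →
        d * Real.log (nrm (av v) x) - Real.log T ≤ Real.log (nrm (av v) (pt F x)) := by
      intro T hT h1
      rw [← hid, map_pow, ha, pow_add] at h1
      have h2 : nrm (av v) x ^ d ≤ T * nrm (av v) (pt F x) := by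
        apply le_of_mul_le_mul_left _ (pow_pos hxn M)
        calc nrm (av v) x ^ M * nrm (av v) x ^ d ≤ T * (nrm (av v) x ^ M * nrm (av v) (pt F x)) := h1
          _ = nrm (av v) x ^ M * (T * nrm (av v) (pt F x)) := by ring
      have h3 := Real.log_le_log (pow_pos hxn _) h2
      rw [Real.log_pow, Real.log_mul hT.ne' hp.ne'] at h3
      linarith
    dsimp only
    split_ifs with h
    · apply key (S v) (by have := hS1 v; linarith)
      refine ((av v).sum_le _ _).trans ?_
      have h1 : ∀ j ∈ Finset.univ, av v (eval x (q (a, j)) * eval x (F j)) ≤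
          cs (av v) (q (a, j)) * (nrm (av v) x ^ M * nrm (av v) (pt F x)) := by
        intro j _
        rw [map_mul, ← mul_assoc]
        exact mul_le_mul (abv_mv _ _ (hq _) x) (le_nrm (av v) (pt F x) j) ((av v).nonneg _)
          (mul_nonneg (cs_nonneg _ _) (pow_nonneg hxn.le _))
      refine (Finset.sum_le_sum h1).trans ?_
      rw [← Finset.sum_mul]
      apply mul_le_mul_of_nonneg_right _ (by positivity)
      have := Finset.single_le_sum (f := fun a => ∑ b, cs (av v) (q (a, b)))
        (fun _ _ => Finset.sum_nonneg fun _ _ => cs_nonneg _ _) (Finset.mem_univ a)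
      rw [hS]
      dsimp only at this ⊢
      linarith
    · cases v with
      | inl w => exact absurd (Or.inl ⟨w, rfl⟩) h
      | inr v =>
        have hco : ∀ i μ, fv v (coeff μ (q i)) ≤ 1 := by
          intro i
          by_contra hc
          exact h (Or.inr ⟨v, Set.mem_iUnion.2 ⟨i, hc⟩, rfl⟩)
        have h1 := key 1 one_pos ?_
        · rwa [Real.log_one] at h1
        · rw [one_mul]
          have hB : 0 ≤ nrm (av (Sum.inr v)) x ^ M * nrm (av (Sum.inr v)) (pt F x) := by positivity
          refine na_sum (fv_na v) _ _ hB fun j _ => ?_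
          rw [map_mul]
          exact mul_le_mul (abv_na (fv_na v) (hq _) (hco _) x) (le_nrm (fv v) (pt F x) j)
            ((fv v).nonneg _) (pow_nonneg (nrm_nonneg _ _) _)

section pencil

variable {n d m : ℕ} {F : Fin n → MvPolynomial (Fin n) k} {g : Fin 2 → MvPolynomial (Fin 2) k}
  {A : Fin 2 → MvPolynomial (Fin n) k}

/-- the value of the pencil -/
noncomputable def ab (A : Fin 2 → MvPolynomial (Fin n) k) (x : Fin n → k) : Fin 2 → k :=
  fun i => eval x (A i)

lemma ab_pt (hA : ∀ i, bind₁ F (A i) = bind₁ A (g i)) (x : Fin n → k) :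
    ab A (pt F x) = pt g (ab A x) := by
  funext i
  have h1 := congrArg (eval x) (hA i)
  have h2 : ∀ {σ : Type} (B : σ → MvPolynomial (Fin n) k) (P : MvPolynomial σ k),
      eval x (bind₁ B P) = eval (fun i => eval x (B i)) P := by
    intro σ B P
    rw [← aeval_eq_eval, ← aeval_eq_eval, aeval_bind₁]
  rw [h2, h2] at h1
  exact h1

lemma ab_iter (hA : ∀ i, bind₁ F (A i) = bind₁ A (g i)) (x : Fin n → k) (j : ℕ) :
    ab A ((pt F)^[j] x) = (pt g)^[j] (ab A x) := by
  induction j with
  | zero => rfl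
  | succ j ih => rw [Function.iterate_succ_apply', Function.iterate_succ_apply', ab_pt hA, ih]

/-- the proximity to the base locus of the pencil -/
noncomputable def rho (m : ℕ) (A : Fin 2 → MvPolynomial (Fin n) k) (v : Pl k) (x : Fin n → k) : ℝ :=
  m * Real.log (nrm (av v) x) - Real.log (nrm (av v) (ab A x))

theorem rho_step (hF : IsEndo d F) (hg : IsEndo d g) (m : ℕ)
    (hA : ∀ i, bind₁ F (A i) = bind₁ A (g i)) :
    ∃ C : Pl k → ℝ, (∀ v, 0 ≤ C v) ∧ {v | C v ≠ 0}.Finite ∧ ∀ v x, x ≠ 0 → ab A x ≠ 0 →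
      d * rho m A v x - C v ≤ rho m A v (pt F x) := by
  obtain ⟨C1, hC1, hf1, h1⟩ := low hF
  obtain ⟨C2, hC2, hf2, h2⟩ := upp hg.1
  refine ⟨fun v => m * C1 v + C2 v, fun v => ?_, ?_, fun v x hx hx' => ?_⟩
  · have := hC1 v
    have := hC2 v
    positivity
  · refine (hf1.union hf2).subset fun v hv => ?_
    by_contra hc
    rw [Set.mem_union, not_or] at hc
    have e1 : C1 v = 0 := not_not.1 hc.1
    have e2 : C2 v = 0 := not_not.1 hc.2
    apply hv
    dsimp only
    rw [e1, e2, mul_zero, add_zero]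
  · have e1 := h1 v x hx
    have hne : pt g (ab A x) ≠ 0 := by
      have := iter_ne hg hx' 1
      rwa [Function.iterate_one] at this
    have e2 := h2 v (ab A x) hx' hne
    have e3 := mul_le_mul_of_nonneg_left e1 (Nat.cast_nonneg m : (0 : ℝ) ≤ m)
    rw [rho, rho, ab_pt hA]
    have e4 : (fun i => eval (ab A x) (g i)) = pt g (ab A x) := rfl
    rw [e4] at e2
    dsimp only
    linarith

/-- points close to the base locus, in the global sense, escape to it at some place -/
theorem escape (hF : IsEndo d F) (hd : 2 ≤ d) (hg : IsEndo d g) (m : ℕ)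
    (hA : ∀ i, bind₁ F (A i) = bind₁ A (g i)) :
    ∃ B : ℝ, ∀ x : Fin n → k, x ≠ 0 → ab A x ≠ 0 →
      (∃ j, B < m * logHeight ((pt F)^[j] x) - logHeight ((pt g)^[j] (ab A x))) →
      ∃ (v : Pl k) (c : ℝ) (n1 : ℕ), 0 < c ∧ ∀ j ≥ n1, c * d ^ j ≤ rho m A v ((pt F)^[j] x) := by
  classical
  obtain ⟨C, hC0, hCf, hC⟩ := rho_step hF hg m hA
  have hd' : (2 : ℝ) ≤ d := by exact_mod_cast hd
  have hd0 : (0 : ℝ) < d := by linarith
  -- once escaping, always escaping
  have hgrow : ∀ v x, x ≠ 0 → ab A x ≠ 0 → ∀ s : ℝ, 0 ≤ s → C v + s ≤ rho m A v x →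
      ∀ j : ℕ, C v + s * (d : ℝ) ^ j ≤ rho m A v ((pt F)^[j] x) := by
    intro v x hx hx' s hs hxs j
    induction j with
    | zero => simpa using hxs
    | succ j ih =>
      rw [Function.iterate_succ_apply']
      refine le_trans ?_ (hC v _ (iter_ne hF hx j) (by rw [ab_iter hA]; exact iter_ne hg hx' j))
      have h1 := mul_le_mul_of_nonneg_left ih hd0.le
      have h2 := hC0 v
      rw [pow_succ]
      nlinarith
  set D : Pl k → ℝ := fun v => if C v = 0 then 0 else C v + 1 with hD
  have hD0 : ∀ v, 0 ≤ D v := by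
    intro v
    rw [hD]
    dsimp only
    split_ifs
    · exact le_rfl
    · linarith [hC0 v]
  have hDf : {v | D v ≠ 0}.Finite := by
    refine hCf.subset fun v hv => ?_
    intro h0
    exact hv (if_pos h0)
  have hTf : {v : HeightOneSpectrum (𝓞 k) | D (Sum.inr v) ≠ 0}.Finite :=
    hDf.preimage (Sum.inr_injective.injOn)
  set B : ℝ := ∑ w : InfinitePlace k, (w.mult : ℝ) * D (Sum.inl w) +
    ∑ v ∈ hTf.toFinset, D (Sum.inr v) with hB
  -- the local dichotomy
  have hloc : ∀ x : Fin n → k, x ≠ 0 → ab A x ≠ 0 → ∀ v, D v < rho m A v x →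
      ∃ (c : ℝ) (n1 : ℕ), 0 < c ∧ ∀ j ≥ n1, c * d ^ j ≤ rho m A v ((pt F)^[j] x) := by
    intro x hx hx' v hv
    have hs : 0 < rho m A v x - C v := by
      rw [hD] at hv
      dsimp only at hv
      split_ifs at hv with h
      · rw [h]
        linarith
      · linarith
    refine ⟨rho m A v x - C v, 0, hs, fun j _ => ?_⟩
    have := hgrow v x hx hx' _ hs.le (by linarith) j
    linarith [hC0 v]
  have hglob : ∀ x : Fin n → k, x ≠ 0 → ab A x ≠ 0 → B < m * logHeight x - logHeight (ab A x) →
      ∃ v, D v < rho m A v x := by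
    intro x hx hx' hlt
    by_contra hcon
    push Not at hcon
    set T : Finset (HeightOneSpectrum (𝓞 k)) := hTf.toFinset ∪ ((nrm_support hx).toFinset ∪
      (nrm_support hx').toFinset) with hT
    have e1 := height_sum hx T fun v hv => by
      rw [hT]
      simp only [Finset.mem_union, Set.Finite.mem_toFinset, Set.mem_ofPred_eq]
      exact Or.inr (Or.inl hv)
    have e2 := height_sum hx' T fun v hv => by
      rw [hT]
      simp only [Finset.mem_union, Set.Finite.mem_toFinset, Set.mem_ofPred_eq]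
      exact Or.inr (Or.inr hv)
    have e3 : m * logHeight x - logHeight (ab A x) =
        ∑ w : InfinitePlace k, (w.mult : ℝ) * rho m A (Sum.inl w) x +
          ∑ v ∈ T, rho m A (Sum.inr v) x := by
      rw [e1, e2]
      simp only [rho, av]
      rw [mul_add, Finset.mul_sum, Finset.mul_sum]
      have f1 : ∑ w : InfinitePlace k, (w.mult : ℝ) * (m * Real.log (nrm w.1 x) -
          Real.log (nrm w.1 (ab A x))) = ∑ w : InfinitePlace k, (m : ℝ) * (w.mult * Real.log (nrm w.1 x)) -
          ∑ w : InfinitePlace k, (w.mult : ℝ) * Real.log (nrm w.1 (ab A x)) := by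
        rw [← Finset.sum_sub_distrib]
        exact Finset.sum_congr rfl fun w _ => by ring
      rw [f1, Finset.sum_sub_distrib]
      ring
    have e4 : ∑ w : InfinitePlace k, (w.mult : ℝ) * rho m A (Sum.inl w) x ≤
        ∑ w : InfinitePlace k, (w.mult : ℝ) * D (Sum.inl w) :=
      Finset.sum_le_sum fun w _ => mul_le_mul_of_nonneg_left (hcon _) (Nat.cast_nonneg _)
    have e5 : ∑ v ∈ T, rho m A (Sum.inr v) x ≤ ∑ v ∈ T, D (Sum.inr v) :=
      Finset.sum_le_sum fun v _ => hcon _
    have e6 : ∑ v ∈ T, D (Sum.inr v) = ∑ v ∈ hTf.toFinset, D (Sum.inr v) := by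
      symm
      apply Finset.sum_subset (by rw [hT]; exact Finset.subset_union_left)
      intro v _ hv
      by_contra hc
      exact hv ((Set.Finite.mem_toFinset _).2 hc)
    rw [hB] at hlt
    linarith
  refine ⟨B, fun x hx hx' ⟨j0, hj0⟩ => ?_⟩
  have hx0 := iter_ne hF hx j0
  have hx0' : ab A ((pt F)^[j0] x) ≠ 0 := by rw [ab_iter hA]; exact iter_ne hg hx' j0
  rw [← ab_iter hA] at hj0
  obtain ⟨v, hv⟩ := hglob _ hx0 hx0' hj0
  obtain ⟨c, n1, hc, h1⟩ := hloc _ hx0 hx0' v hv
  refine ⟨v, c / d ^ j0, j0 + n1, by positivity, fun j hj => ?_⟩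
  obtain ⟨q, rfl⟩ : ∃ q, j = q + j0 := ⟨j - j0, by omega⟩
  have h2 := h1 q (by omega)
  rw [← Function.iterate_add_apply] at h2
  refine le_trans (le_of_eq ?_) h2
  rw [pow_add]
  field_simp

end pencil

end Pool.Agent.H422.SK
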