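import Mathlib
import Pool.Agent.H422.SK.Esc
import Pool.Agent.H422.SK.Curve

set_option autoImplicit false
set_option linter.unusedSectionVars false

/-!
Dynamical Mordell-Lang for curves and endomorphisms which preserve a fibration over the line.
-/

namespace Pool.Agent.H422.SK

open MvPolynomial NumberField Height Module
open Pool.Agent.Q170.HG (pt IsEndo iter_ne cert nf nf_spec nf_height northcott)
open Pool.Agent.W180.OP (Pl av wt fv nrm le_nrm nrm_pos nrm_nonneg wt_nonneg exists_nrm abv_mv cs cs_nonneg)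

variable {k : Type} [Field k] [NumberField k]

/-- dimension at most one -/
def CurveLike {n : ℕ} {L : Type} [Field L] (V : Set (Fin n → L)) : Prop :=
  ∀ i j l, ∃ P : MvPolynomial (Fin 2) L, P ≠ 0 ∧
    ∀ x ∈ V, x l ≠ 0 → eval ![x i / x l, x j / x l] P = 0

section

variable {n d m : ℕ} {F : Fin n → MvPolynomial (Fin n) k} {g : Fin 2 → MvPolynomial (Fin 2) k}
  {A : Fin 2 → MvPolynomial (Fin n) k}

lemma pt_zero (hg : ∀ i, (g i).IsHomogeneous d) (hd : 2 ≤ d) : pt g 0 = 0 := by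
  funext i
  have h1 := aeval_smul_hom (hg i) (0 : k) 0
  rw [zero_smul, zero_pow (by omega), zero_mul, aeval_eq_eval] at h1
  exact h1

lemma wander_ne (hg : ∀ i, (g i).IsHomogeneous d) (hd : 2 ≤ d) {x : Fin 2 → k} (hx : Wander g x) :
    x ≠ 0 := by
  rintro rfl
  apply hx 1 0 one_ne_zero 0
  rw [Function.iterate_one, pt_zero hg hd, zero_smul]

lemma iter_smul' (hg : ∀ i, (g i).IsHomogeneous d) (c : k) (x : Fin 2 → k) (j : ℕ) :
    (pt g)^[j] (c • x) = c ^ (d ^ j) • (pt g)^[j] x := by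
  induction j with
  | zero => simp
  | succ j ih =>
    rw [Function.iterate_succ_apply', Function.iterate_succ_apply', ih]
    funext i
    have h1 := aeval_smul_hom (hg i) (c ^ d ^ j) ((pt g)^[j] x)
    rw [aeval_eq_eval, aeval_eq_eval] at h1
    rw [Pi.smul_apply, smul_eq_mul, pow_succ, pow_mul]
    exact h1

lemma wander_smul (hg : ∀ i, (g i).IsHomogeneous d) {x : Fin 2 → k} (hx : Wander g x) {c : k}
    (hc : c ≠ 0) : Wander g (c • x) := by
  intro i j hij c' h
  rw [iter_smul' hg, iter_smul' hg, smul_smul] at h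
  apply hx i j hij ((c ^ d ^ i)⁻¹ * (c' * c ^ d ^ j))
  rw [mul_smul, ← h, inv_smul_smul₀ (pow_ne_zero _ hc)]

/-- a curve meets an orbit which escapes to the base locus at some place finitely often -/
theorem esc_finite (hd : 2 ≤ d) (hg : IsEndo d g) (hE : NoExcept d g)
    (hm : 1 ≤ m) (hAh : ∀ i, (A i).IsHomogeneous m)
    {x : ℕ → Fin n → k} (hx : ∀ j, x j ≠ 0) {z : Fin 2 → k} (hz : Wander g z)
    (hzx : ∀ j, ab A (x j) = (pt g)^[j] z)
    {v : Pl k} {c : ℝ} {n1 : ℕ} (hc : 0 < c) (hesc : ∀ j ≥ n1, c * d ^ j ≤ rho m A v (x j))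
    {L : Type} [Field L] [Algebra k L] {V : Set (Fin n → L)} (hV : CurveLike V) :
    {j | (fun i => algebraMap k L (x j i)) ∈ V}.Finite := by
  classical
  have : CharZero L := charZero_of_injective_algebraMap (algebraMap k L).injective
  have hz0 : z ≠ 0 := wander_ne hg.1 hd hz
  set AL : Fin 2 → MvPolynomial (Fin n) L := fun i => map (algebraMap k L) (A i) with hAL
  have hALh : ∀ i, (AL i).IsHomogeneous m := fun i => (hAh i).map _
  have hALe : ∀ i (y : Fin n → k), eval (fun i => algebraMap k L (y i)) (AL i) =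
      algebraMap k L (eval y (A i)) := by
    intro i y
    rw [hAL, eval_map]
    exact (eval₂_comp (algebraMap k L) y (A i)).symm
  have hrel : ∀ i : Fin n, ∃ Q : Polynomial (Polynomial L), Q ≠ 0 ∧ ∀ y : Fin n → k,
      (fun i => algebraMap k L (y i)) ∈ V → ab A y 0 ≠ 0 →
      Q.evalEval (algebraMap k L (ab A y 1 / ab A y 0)) (algebraMap k L (y i ^ m / ab A y 0 ^ 1)) = 0 := by
    intro i
    have hX : (X i ^ m : MvPolynomial (Fin n) L).IsHomogeneous m := by
      have := (isHomogeneous_X L i).pow m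
      rwa [one_mul] at this
    obtain ⟨P, hP, hPV⟩ := relation V hV hm (hALh 0) (hALh 1) hX
    obtain ⟨Q, hQ, hQP⟩ := to_poly P hP
    refine ⟨Q, hQ, fun y hy hy0 => ?_⟩
    have h1 := hPV _ hy (by
      rw [hALe]
      exact (map_ne_zero _).2 hy0)
    rw [hALe, hALe, map_pow, eval_X] at h1
    have e1 : algebraMap k L (ab A y 1 / ab A y 0) = algebraMap k L (eval y (A 1)) /
        algebraMap k L (eval y (A 0)) := map_div₀ _ _ _
    have e2 : algebraMap k L (y i ^ m / ab A y 0 ^ 1) = algebraMap k L (y i) ^ m /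
        algebraMap k L (eval y (A 0)) := by
      rw [pow_one, map_div₀, map_pow]
      rfl
    rw [hQP, e1, e2]
    exact h1
  choose Q hQ hQV using hrel
  have heng : ∀ i : Fin n, ∃ n0, ∀ j ≥ n0, ∀ y : k, y ≠ 0 →
      (1 : ℕ) * Real.log (nrm (av v) ((pt g)^[j] z)) + c * d ^ j ≤ Real.log (av v y) →
      (pt g)^[j] z 0 ≠ 0 ∧ (Q i).evalEval (algebraMap k L ((pt g)^[j] z 1 / (pt g)^[j] z 0))
        (algebraMap k L (y / (pt g)^[j] z 0 ^ 1)) ≠ 0 :=
    fun i => engine hg hd hE hz0 hz v 1 (Q i) (hQ i) c hc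
  choose n0 hn0 using heng
  apply (Set.finite_Iio (n1 + ∑ i, n0 i)).subset
  intro j hj
  by_contra hcon
  rw [Set.mem_Iio, not_lt] at hcon
  have hn := fin_pos (hx j)
  obtain ⟨i, hi⟩ := exists_nrm (av v) hn (x j)
  have hxn := nrm_pos (av v) (hx j)
  have hi0 : x j i ≠ 0 := by
    intro h0
    rw [h0, map_zero] at hi
    linarith
  have hsum : n0 i ≤ ∑ i, n0 i := Finset.single_le_sum (fun _ _ => Nat.zero_le _) (Finset.mem_univ i)
  have h1 := hesc j (by omega)
  rw [rho, hzx j] at h1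
  obtain ⟨h2, h3⟩ := hn0 i j (by omega) (x j i ^ m) (pow_ne_zero _ hi0) (by
    rw [map_pow, Real.log_pow, hi]
    push_cast
    linarith)
  have h4 := hQV i (x j) hj (by rw [hzx j]; exact h2)
  rw [hzx j] at h4
  exact h3 h4

/-- **Dynamical Mordell-Lang for curves: fibred endomorphisms.** -/
theorem fibred (hF : IsEndo d F) (hd : 2 ≤ d) (hg : IsEndo d g) (hE : NoExcept d g)
    (hm : 1 ≤ m) (hAh : ∀ i, (A i).IsHomogeneous m) (hA : ∀ i, bind₁ F (A i) = bind₁ A (g i)) :
    ∃ B : ℝ, ∀ x : Fin n → k, x ≠ 0 → Wander g (ab A x) →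
      (∃ j, B < m * logHeight ((pt F)^[j] x) - logHeight ((pt g)^[j] (ab A x))) →
      ∀ (L : Type) [Field L] [Algebra k L] (V : Set (Fin n → L)), CurveLike V →
        {j | (fun i => algebraMap k L ((pt F)^[j] x i)) ∈ V}.Finite := by
  obtain ⟨B, hB⟩ := escape hF hd hg m hA
  refine ⟨B, fun x hx hw hj L _ _ V hV => ?_⟩
  obtain ⟨v, c, n1, hc, h1⟩ := hB x hx (wander_ne hg.1 hd hw) hj
  exact esc_finite hd hg hE hm hAh (x := fun j => (pt F)^[j] x) (fun j => iter_ne hF hx j) hw
    (fun j => ab_iter hA x j) hc h1 hV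

/-- all but finitely many points of a fibre are far -/
theorem fibre_far (hm : 1 ≤ m) (A : Fin 2 → MvPolynomial (Fin n) k) (B : ℝ) (z : Fin 2 → k) :
    ∃ E : Finset (Fin n → k), ∀ x : Fin n → k, x ≠ 0 → (∃ c : k, c ≠ 0 ∧ ab A x = c • z) →
      (∃ e ∈ E, ∃ c : k, x = c • e) ∨ B < m * logHeight x - logHeight (ab A x) := by
  classical
  have hfin := northcott (K := k) (n := n) (Real.exp ((logHeight z + B) / m))
  refine ⟨hfin.toFinset, fun x hx ⟨c, hc, hcx⟩ => ?_⟩
  by_cases h : B < m * logHeight x - logHeight (ab A x)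
  · exact Or.inr h
  left
  obtain ⟨l, hl, h1⟩ := nf_spec hx
  refine ⟨nf x, ?_, x l, by rw [h1, smul_inv_smul₀ hl]⟩
  rw [Set.Finite.mem_toFinset]
  intro j
  refine (nf_height hx j).trans ?_
  have hm' : (0 : ℝ) < m := by exact_mod_cast hm
  have h2 : logHeight x ≤ (logHeight z + B) / m := by
    rw [le_div_iff₀ hm']
    rw [hcx, logHeight_smul_eq_logHeight _ hc] at h
    push Not at h
    linarith
  rw [logHeight_eq_log_mulHeight] at h2
  have h3 := Real.exp_le_exp.2 h2
  rwa [Real.exp_log (mulHeight_pos _)] at h3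

end

end Pool.Agent.H422.SK
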