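import Mathlib
import Pool.Agent.H422.SK.Fib

set_option autoImplicit false
set_option linter.unusedSectionVars false

/-!
Products of a rational function with a regular polynomial map.
-/

namespace Pool.Agent.H422.SK

open MvPolynomial NumberField Height Module IsDedekindDomain
open Pool.Agent.Q170.HG (pt IsEndo iter_ne dich)
open Pool.Agent.W180.OP (Pl av wt fv nrm le_nrm nrm_pos nrm_nonneg wt_nonneg exists_nrm abv_mv cs cs_nonneg)
open Pool.Agent.NH28 (height_sum nrm_support)

section homog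

variable {k : Type} [Field k] {M e : ℕ}

/-- the homogenised polynomial -/
noncomputable def hmg (e : ℕ) (p : MvPolynomial (Fin M) k) : MvPolynomial (Fin (M + 1)) k :=
  ∑ j ∈ Finset.range (e + 1), rename Fin.succ (homogeneousComponent j p) * X 0 ^ (e - j)

lemma hmg_hom (p : MvPolynomial (Fin M) k) : (hmg e p).IsHomogeneous e := by
  apply IsHomogeneous.sum
  intro j hj
  have hj' : j ≤ e := by have := Finset.mem_range.1 hj; omega
  have h := ((homogeneousComponent_isHomogeneous j p).rename_isHomogeneous (f := Fin.succ)).mul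
    ((isHomogeneous_X k (0 : Fin (M + 1))).pow (e - j))
  convert h using 1
  omega

lemma hmg_eval {R : Type} [CommRing R] [Algebra k R] (p : MvPolynomial (Fin M) k) (x : Fin (M + 1) → R) :
    aeval x (hmg e p) = ∑ j ∈ Finset.range (e + 1),
      aeval (fun i : Fin M => x i.succ) (homogeneousComponent j p) * x 0 ^ (e - j) := by
  rw [hmg, map_sum]
  refine Finset.sum_congr rfl fun j _ => ?_
  rw [map_mul, map_pow, aeval_X, aeval_rename]
  rfl

lemma hmg_one {R : Type} [CommRing R] [Algebra k R] {p : MvPolynomial (Fin M) k}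
    (hp : p.totalDegree ≤ e) (x : Fin (M + 1) → R) (hx : x 0 = 1) :
    aeval x (hmg e p) = aeval (fun i : Fin M => x i.succ) p := by
  rw [hmg_eval]
  have h1 : ∑ j ∈ Finset.range (e + 1), homogeneousComponent j p = p := by
    conv_rhs => rw [← sum_homogeneousComponent p]
    symm
    apply Finset.sum_subset
    · intro j hj
      rw [Finset.mem_range] at hj ⊢
      omega
    · intro j _ hj
      rw [Finset.mem_range, not_lt] at hj
      exact homogeneousComponent_eq_zero _ _ (by omega)
  conv_rhs => rw [← h1, map_sum]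
  refine Finset.sum_congr rfl fun j _ => ?_
  rw [hx, one_pow, mul_one]

lemma hmg_zero {R : Type} [CommRing R] [Algebra k R] (p : MvPolynomial (Fin M) k)
    (x : Fin (M + 1) → R) (hx : x 0 = 0) :
    aeval x (hmg e p) = aeval (fun i : Fin M => x i.succ) (homogeneousComponent e p) := by
  rw [hmg_eval, Finset.sum_eq_single e]
  · rw [Nat.sub_self, pow_zero, mul_one]
  · intro j hj hne
    have : e - j ≠ 0 := by have := Finset.mem_range.1 hj; omega
    rw [hx, zero_pow this, mul_zero]
  · intro h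
    exact absurd (Finset.mem_range.2 (Nat.lt_succ_self e)) h

/-- a polynomial map of degree `e` which extends to the projective space -/
def Regular (e : ℕ) (h : Fin M → MvPolynomial (Fin M) k) : Prop :=
  (∀ i, (h i).totalDegree ≤ e) ∧ ∀ y : Fin M → AlgebraicClosure k,
    (∀ i, aeval y (homogeneousComponent e (h i)) = 0) → y = 0

/-- the extension to the projective space -/
noncomputable def ext (e : ℕ) (h : Fin M → MvPolynomial (Fin M) k) :
    Fin (M + 1) → MvPolynomial (Fin (M + 1)) k :=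
  Fin.cons (X 0 ^ e) fun i => hmg e (h i)

lemma ext_endo {h : Fin M → MvPolynomial (Fin M) k} (hh : Regular e h) :
    IsEndo e (ext e h) := by
  constructor
  · intro i
    refine Fin.cases ?_ (fun i => ?_) i
    · have := (isHomogeneous_X k (0 : Fin (M + 1))).pow e
      rw [one_mul] at this
      exact this
    · exact hmg_hom _
  · intro x hx
    have h0 : x 0 = 0 := by
      have := hx 0
      rw [ext, Fin.cons_zero, map_pow, aeval_X] at this
      exact eq_zero_of_pow_eq_zero this
    have h1 : (fun i : Fin M => x i.succ) = 0 := by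
      apply hh.2
      intro i
      have := hx i.succ
      rwa [ext, Fin.cons_succ, hmg_zero _ _ h0] at this
    funext i
    refine Fin.cases h0 (fun i => ?_) i
    exact congrFun h1 i

/-- the polynomial map -/
noncomputable def pm (h : Fin M → MvPolynomial (Fin M) k) (u : Fin M → k) : Fin M → k :=
  fun i => eval u (h i)

lemma ext_pt {h : Fin M → MvPolynomial (Fin M) k} (hh : ∀ i, (h i).totalDegree ≤ e) (u : Fin M → k) :
    pt (ext e h) (Fin.cons 1 u) = Fin.cons 1 (pm h u) := by
  funext i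
  refine Fin.cases ?_ (fun i => ?_) i
  · rw [pt, ext, Fin.cons_zero, Fin.cons_zero, map_pow, eval_X, Fin.cons_zero, one_pow]
  · rw [pt, ext, Fin.cons_succ, Fin.cons_succ, ← aeval_eq_eval, hmg_one (hh i) _ (Fin.cons_zero _ _)]
    simp only [Fin.cons_succ]
    rfl

lemma ext_iter {h : Fin M → MvPolynomial (Fin M) k} (hh : ∀ i, (h i).totalDegree ≤ e) (u : Fin M → k)
    (n : ℕ) : (pt (ext e h))^[n] (Fin.cons 1 u) = Fin.cons 1 ((pm h)^[n] u) := by
  induction n with
  | zero => rfl
  | succ n ih => rw [Function.iterate_succ_apply', Function.iterate_succ_apply', ih, ext_pt hh]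

end homog

section prod

variable {k : Type} [Field k] [NumberField k] {M d e : ℕ}

lemma cons_ne (u : Fin M → k) : (Fin.cons 1 u : Fin (M + 1) → k) ≠ 0 := by
  intro h
  have := congrFun h 0
  rw [Fin.cons_zero] at this
  exact one_ne_zero this

lemma cons_log (v : Pl k) (u : Fin M → k) : 0 ≤ Real.log (nrm (av v) (Fin.cons 1 u : Fin (M + 1) → k)) := by
  apply Real.log_nonneg
  have := le_nrm (av v) (Fin.cons 1 u : Fin (M + 1) → k) 0
  rwa [Fin.cons_zero, map_one] at this

/-- a wandering point escapes at one of finitely many places, at each time -/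
theorem escape_poly (he : 2 ≤ e) {h : Fin M → MvPolynomial (Fin M) k} (hh : Regular e h)
    {u : Fin M → k} (hu : ∀ i j : ℕ, i ≠ j → (pm h)^[i] u ≠ (pm h)^[j] u) :
    ∃ (S : Finset (Pl k)) (c : ℝ) (n0 : ℕ), 0 < c ∧ ∀ n ≥ n0, ∃ v ∈ S, ∃ i : Fin M,
      (pm h)^[n] u i ≠ 0 ∧ c * e ^ n ≤ Real.log (av v ((pm h)^[n] u i)) := by
  classical
  have hH := ext_endo hh
  obtain ⟨C, hC0, hCf, hC⟩ := upp hH.1
  set a : ℕ → Pl k → ℝ := fun n v => Real.log (nrm (av v) (Fin.cons 1 ((pm h)^[n] u) : Fin (M + 1) → k))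
    with ha
  have ha0 : ∀ n v, 0 ≤ a n v := fun n v => cons_log v _
  have hstep : ∀ n v, a (n + 1) v ≤ e * a n v + C v := by
    intro n v
    have h1 := hC v (Fin.cons 1 ((pm h)^[n] u)) (cons_ne _)
    have h2 : (fun i => eval (Fin.cons 1 ((pm h)^[n] u) : Fin (M + 1) → k) (ext e h i)) =
        Fin.cons 1 ((pm h)^[n + 1] u) := by
      rw [Function.iterate_succ_apply']
      exact ext_pt hh.1 _
    rw [h2] at h1
    exact h1 (cons_ne _)
  have hf1 : {v : Pl k | a 0 v ≠ 0}.Finite := by
    have h1 : (Set.range (Sum.inl : InfinitePlace k → Pl k) ∪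
        Sum.inr '' {v : HeightOneSpectrum (𝓞 k) | nrm (fv v) (Fin.cons 1 u : Fin (M + 1) → k) ≠ 1}).Finite :=
      (Set.finite_range _).union ((nrm_support (cons_ne u)).image _)
    refine h1.subset fun v hv => ?_
    cases v with
    | inl w => exact Or.inl ⟨w, rfl⟩
    | inr v =>
      right
      refine ⟨v, fun h0 => hv ?_, rfl⟩
      have h2 : a 0 (Sum.inr v) = Real.log (nrm (fv v) (Fin.cons 1 u : Fin (M + 1) → k)) := rfl
      rw [h2, h0, Real.log_one]
  have hSf : ({v : Pl k | C v ≠ 0} ∪ {v | a 0 v ≠ 0} ∪ Set.range Sum.inl).Finite :=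
    (hCf.union hf1).union (Set.finite_range _)
  set S : Finset (Pl k) := hSf.toFinset with hS
  have hout : ∀ v, v ∉ S → ∀ n, a n v = 0 := by
    intro v hv n
    rw [hS, Set.Finite.mem_toFinset, Set.mem_union, Set.mem_union, not_or, not_or] at hv
    have h1 : C v = 0 := not_not.1 hv.1.1
    have h2 : a 0 v = 0 := not_not.1 hv.1.2
    induction n with
    | zero => exact h2
    | succ n ih =>
      have := hstep n v
      rw [ih, h1, mul_zero, add_zero] at this
      exact le_antisymm this (ha0 _ _)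
  have hinl : ∀ w : InfinitePlace k, (Sum.inl w : Pl k) ∈ S := by
    intro w
    rw [hS, Set.Finite.mem_toFinset]
    exact Or.inr ⟨w, rfl⟩
  -- the height
  have hht : ∀ n, logHeight (Fin.cons 1 ((pm h)^[n] u) : Fin (M + 1) → k) = ∑ v ∈ S, wt v * a n v := by
    intro n
    set T : Finset (HeightOneSpectrum (𝓞 k)) := S.toRight ∪ (nrm_support (cons_ne ((pm h)^[n] u))).toFinset
      with hT
    rw [height_sum (cons_ne _) T fun v hv => by
      rw [hT]
      simp only [Finset.mem_union, Set.Finite.mem_toFinset, Set.mem_ofPred_eq]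
      exact Or.inr hv]
    have h1 : S = (Finset.univ : Finset (InfinitePlace k)).disjSum S.toRight := by
      ext v
      cases v with
      | inl w => simp [hinl w]
      | inr v => simp
    rw [h1, Finset.sum_disjSum]
    have h2 : ∑ v ∈ T, Real.log (nrm (fv v) (Fin.cons 1 ((pm h)^[n] u) : Fin (M + 1) → k)) =
        ∑ v ∈ S.toRight, Real.log (nrm (fv v) (Fin.cons 1 ((pm h)^[n] u) : Fin (M + 1) → k)) := by
      symm
      apply Finset.sum_subset (by rw [hT]; exact Finset.subset_union_left)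
      intro v _ hv
      have h3 : (Sum.inr v : Pl k) ∉ S := fun h => hv (Finset.mem_toRight.2 h)
      exact hout _ h3 n
    rw [h2]
    congr 1
    refine Finset.sum_congr rfl fun v _ => ?_
    have h5 : wt (Sum.inr v : Pl k) = 1 := rfl
    rw [h5, one_mul]
    rfl
  obtain ⟨M0, hM0⟩ := dich hH he
  have hgrow : ∀ n ≥ M0, (e : ℝ) ^ (n - M0) ≤ ∑ v ∈ S, wt v * a n v := by
    rcases hM0 (Fin.cons 1 u) (cons_ne u) with ⟨t, m, hm, -, c, hc, h1⟩ | h1
    · exfalso
      rw [ext_iter hh.1, ext_iter hh.1] at h1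
      have h2 := congrFun h1 0
      rw [Pi.smul_apply, Fin.cons_zero, Fin.cons_zero, smul_eq_mul, mul_one] at h2
      apply hu (t + m) t (by omega)
      funext i
      have h3 := congrFun h1 i.succ
      rwa [Pi.smul_apply, Fin.cons_succ, Fin.cons_succ, ← h2, one_smul] at h3
    · intro n hn
      rw [← hht n, ← ext_iter hh.1]
      exact h1 n hn
  have he0 : (0 : ℝ) < e := by
    have : 0 < e := by omega
    exact_mod_cast this
  -- `S` is not empty
  have hWpos : 0 < ∑ v ∈ S, wt v := by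
    by_contra hcon
    have h1 : ∀ v ∈ S, wt v = 0 := by
      intro v hv
      have h2 := Finset.single_le_sum (f := fun v => wt v) (fun v _ => wt_nonneg v) hv
      push Not at hcon
      exact le_antisymm (h2.trans hcon) (wt_nonneg v)
    have h2 := hgrow M0 le_rfl
    rw [Finset.sum_congr rfl fun v hv => by rw [h1 v hv, zero_mul], Finset.sum_const_zero,
      Nat.sub_self, pow_zero] at h2
    linarith
  set c : ℝ := ((e : ℝ) ^ M0 * ∑ v ∈ S, wt v)⁻¹ with hc
  have hcpos : 0 < c := by positivity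
  refine ⟨S, c, M0, hcpos, fun n hn => ?_⟩
  obtain ⟨v, hv, hva⟩ : ∃ v ∈ S, c * e ^ n ≤ a n v := by
    by_contra hcon
    push Not at hcon
    have h1 := hgrow n hn
    have h2 : ∑ v ∈ S, wt v * a n v < ∑ v ∈ S, wt v * (c * e ^ n) := by
      obtain ⟨v, hv, hv0⟩ : ∃ v ∈ S, 0 < wt v := by
        by_contra hcon'
        push Not at hcon'
        have := Finset.sum_nonpos hcon'
        linarith
      apply Finset.sum_lt_sum
      · intro v hv
        exact mul_le_mul_of_nonneg_left (hcon v hv).le (wt_nonneg v)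
      · exact ⟨v, hv, mul_lt_mul_of_pos_left (hcon v hv) hv0⟩
    rw [← Finset.sum_mul] at h2
    have h3 : (∑ v ∈ S, wt v) * (c * e ^ n) = (e : ℝ) ^ (n - M0) := by
      obtain ⟨q, rfl⟩ : ∃ q, n = M0 + q := ⟨n - M0, by omega⟩
      rw [Nat.add_sub_cancel_left, hc, pow_add]
      field_simp
    linarith
  refine ⟨v, hv, ?_⟩
  obtain ⟨i, hi⟩ := exists_nrm (av v) (Nat.succ_pos M) (Fin.cons 1 ((pm h)^[n] u) : Fin (M + 1) → k)
  have hpos : 0 < c * e ^ n := by positivity
  have hai : Real.log (av v ((Fin.cons 1 ((pm h)^[n] u) : Fin (M + 1) → k) i)) = a n v := by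
    rw [hi]
  revert hai
  refine Fin.cases ?_ (fun i => ?_) i
  · intro hai
    rw [Fin.cons_zero, map_one, Real.log_one] at hai
    linarith
  · intro hai
    rw [Fin.cons_succ] at hai
    refine ⟨i, ?_, by rw [hai]; exact hva⟩
    intro h0
    rw [h0, map_zero, Real.log_zero] at hai
    linarith

variable {g : Fin 2 → MvPolynomial (Fin 2) k}

/-- **Dynamical Mordell-Lang for curves and products of a rational function with a regular polynomial
map.** -/
theorem product (hg : IsEndo d g) (hd : 2 ≤ d) (hE : NoExcept d g) (hde : d ≤ e)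
    {h : Fin M → MvPolynomial (Fin M) k} (hh : Regular e h) {x : Fin 2 → k} (hx : Wander g x)
    {u : Fin M → k} (hu : ∀ i j : ℕ, i ≠ j → (pm h)^[i] u ≠ (pm h)^[j] u)
    {L : Type} [Field L] [Algebra k L] (V : Set ((Fin 2 → L) × (Fin M → L)))
    (hV : ∀ i, ∃ P : MvPolynomial (Fin 2) L, P ≠ 0 ∧ ∀ p ∈ V, p.1 0 ≠ 0 →
      eval ![p.1 1 / p.1 0, p.2 i] P = 0) :
    {n | ((fun i => algebraMap k L ((pt g)^[n] x i), fun i => algebraMap k L ((pm h)^[n] u i)) :
      (Fin 2 → L) × (Fin M → L)) ∈ V}.Finite := by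
  classical
  have : CharZero L := charZero_of_injective_algebraMap (algebraMap k L).injective
  have hx0 : x ≠ 0 := wander_ne hg.1 hd hx
  obtain ⟨S, c, n0, hc, hesc⟩ := escape_poly (by omega : 2 ≤ e) hh hu
  have hrel : ∀ i : Fin M, ∃ Q : Polynomial (Polynomial L), Q ≠ 0 ∧ ∀ p ∈ V, p.1 0 ≠ 0 →
      Q.evalEval (p.1 1 / p.1 0) (p.2 i) = 0 := by
    intro i
    obtain ⟨P, hP, hPV⟩ := hV i
    obtain ⟨Q, hQ, hQP⟩ := to_poly P hP
    exact ⟨Q, hQ, fun p hp hp0 => by rw [hQP]; exact hPV p hp hp0⟩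
  choose Q hQ hQV using hrel
  have heng : ∀ (v : Pl k) (i : Fin M), ∃ n1, ∀ n ≥ n1, ∀ y : k, y ≠ 0 →
      (0 : ℕ) * Real.log (nrm (av v) ((pt g)^[n] x)) + c * d ^ n ≤ Real.log (av v y) →
      (pt g)^[n] x 0 ≠ 0 ∧ (Q i).evalEval (algebraMap k L ((pt g)^[n] x 1 / (pt g)^[n] x 0))
        (algebraMap k L (y / (pt g)^[n] x 0 ^ 0)) ≠ 0 :=
    fun v i => engine hg hd hE hx0 hx v 0 (Q i) (hQ i) c hc
  choose n1 hn1 using heng
  apply (Set.finite_Iio (n0 + ∑ v ∈ S, ∑ i, n1 v i)).subset
  intro n hn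
  by_contra hcon
  rw [Set.mem_Iio, not_lt] at hcon
  obtain ⟨v, hv, i, hi0, hi⟩ := hesc n (by omega)
  have h1 : n1 v i ≤ ∑ v ∈ S, ∑ i, n1 v i :=
    (Finset.single_le_sum (f := fun i => n1 v i) (fun _ _ => Nat.zero_le _) (Finset.mem_univ i)).trans
      (Finset.single_le_sum (f := fun v => ∑ i, n1 v i) (fun _ _ => Nat.zero_le _) hv)
  have h2 : c * (d : ℝ) ^ n ≤ c * (e : ℝ) ^ n := by
    apply mul_le_mul_of_nonneg_left _ hc.le
    exact pow_le_pow_left₀ (Nat.cast_nonneg d) (Nat.cast_le.2 hde) n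
  obtain ⟨h3, h4⟩ := hn1 v i n (by omega) _ hi0 (by
    push_cast
    linarith)
  apply h4
  rw [pow_zero, div_one, map_div₀]
  exact hQV i _ hn (by
    simpa using h3)

end prod

end Pool.Agent.H422.SK
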