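import Mathlib
import Pool.Agent.H422.SK.Prod

set_option autoImplicit false
set_option linter.unusedSectionVars false

/-!
Products of a rational function with a polynomial map of smaller degree: comparison of heights.
-/

namespace Pool.Agent.H422.SK

open MvPolynomial NumberField Height Module IsDedekindDomain
open Pool.Agent.Q170.HG (pt IsEndo iter_ne dich)
open Pool.Agent.W180.OP (Pl av wt fv nrm le_nrm nrm_pos nrm_nonneg wt_nonneg exists_nrm nrm_le)
open Pool.Agent.NH28 (height_sum nrm_support)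

variable {k : Type} [Field k] [NumberField k]

lemma root_local (f : AbsoluteValue k ℝ) {p : ℕ} {K0 : ℝ} (hK0 : 1 ≤ K0)
    (hsum : ∀ D ≤ p, ∀ (a : ℕ → k) (B : ℝ), 0 ≤ B → (∀ i < D, f (a i) ≤ B) →
      f (∑ i ∈ Finset.range D, a i) ≤ K0 * B)
    {z : Fin 2 → k} (hz : z 0 ≠ 0) {c : ℕ → k} {D : ℕ} (hDp : D ≤ p) (hD : c D ≠ 0)
    (hmax : ∀ i, D < i → i ≤ p → c i = 0)
    (hrel : ∑ i ∈ Finset.range (p + 1), c i * z 1 ^ i * z 0 ^ (p - i) = 0) :
    nrm f (c D • z) ≤ K0 * nrm f (z 0 • fun i : Fin (p + 1) => c i) := by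
  set N := nrm f (z 0 • fun i : Fin (p + 1) => c i) with hN
  have hN0 : 0 ≤ N := nrm_nonneg _ _
  have hcN : ∀ i ≤ p, f (c i) * f (z 0) ≤ N := by
    intro i hi
    have := le_nrm f (z 0 • fun i : Fin (p + 1) => c i) ⟨i, by omega⟩
    rw [Pi.smul_apply, smul_eq_mul, map_mul, mul_comm] at this
    exact this
  have h0 : f (c D) * f (z 0) ≤ K0 * N := (hcN D hDp).trans (by nlinarith)
  -- the relation
  have hrel' : ∑ i ∈ Finset.range (D + 1), c i * z 1 ^ i * z 0 ^ (D - i) = 0 := by
    have h1 : ∑ i ∈ Finset.range (p + 1), c i * z 1 ^ i * z 0 ^ (p - i) =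
        z 0 ^ (p - D) * ∑ i ∈ Finset.range (D + 1), c i * z 1 ^ i * z 0 ^ (D - i) := by
      rw [Finset.mul_sum]
      symm
      rw [← Finset.sum_subset (Finset.range_mono (by omega : D + 1 ≤ p + 1))]
      · refine Finset.sum_congr rfl fun i hi => ?_
        have hi' := Finset.mem_range.1 hi
        have : z 0 ^ (p - i) = z 0 ^ (p - D) * z 0 ^ (D - i) := by
          rw [← pow_add]
          congr 1
          omega
        rw [this]
        ring
      · intro i hi hi'
        rw [Finset.mem_range] at hi hi'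
        rw [hmax i (by omega) (by omega), zero_mul, zero_mul]
    rw [h1] at hrel
    exact (mul_eq_zero.1 hrel).resolve_left (pow_ne_zero _ hz)
  rw [Finset.sum_range_succ, Nat.sub_self, pow_zero, mul_one] at hrel'
  have hz0 : 0 < f (z 0) := f.pos_iff.2 hz
  have h1 : f (c D) * f (z 1) ≤ K0 * N := by
    rcases le_or_gt (f (z 1)) (f (z 0)) with h | h
    · exact (mul_le_mul_of_nonneg_left h (f.nonneg _)).trans h0
    · have hz1 : 0 < f (z 1) := hz0.trans h
      rcases Nat.eq_zero_or_pos D with hD0 | hD0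
      · exfalso
        subst hD0
        simp only [Finset.range_zero, Finset.sum_empty, pow_zero, mul_one, zero_add] at hrel'
        exact hD hrel'
      · obtain ⟨D', rfl⟩ : ∃ D', D = D' + 1 := ⟨D - 1, by omega⟩
        have h2 : c (D' + 1) * z 1 ^ (D' + 1) = -∑ i ∈ Finset.range (D' + 1),
            c i * z 1 ^ i * z 0 ^ (D' + 1 - i) := by
          linear_combination hrel'
        have h3 : f (c (D' + 1)) * f (z 1) ^ (D' + 1) ≤ K0 * (N * f (z 1) ^ D') := by
          rw [← map_pow, ← map_mul, h2, f.map_neg]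
          apply hsum _ hDp _ _ (by positivity)
          intro i hi
          rw [map_mul, map_mul, map_pow, map_pow]
          have e1 : f (z 0) ^ (D' + 1 - i) = f (z 0) * f (z 0) ^ (D' - i) := by
            rw [← pow_succ']
            congr 1
            omega
          have e2 : f (z 1) ^ D' = f (z 1) ^ i * f (z 1) ^ (D' - i) := by
            rw [← pow_add]
            congr 1
            omega
          rw [e1, e2]
          calc f (c i) * f (z 1) ^ i * (f (z 0) * f (z 0) ^ (D' - i)) =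
                (f (c i) * f (z 0)) * (f (z 1) ^ i * f (z 0) ^ (D' - i)) := by ring
            _ ≤ N * (f (z 1) ^ i * f (z 1) ^ (D' - i)) := by
              apply mul_le_mul (hcN i (by omega)) _ (by positivity) hN0
              apply mul_le_mul_of_nonneg_left _ (by positivity)
              exact pow_le_pow_left₀ hz0.le h.le _
        have h4 : (f (c (D' + 1)) * f (z 1)) * f (z 1) ^ D' ≤ (K0 * N) * f (z 1) ^ D' := by
          calc _ = f (c (D' + 1)) * f (z 1) ^ (D' + 1) := by ring
            _ ≤ _ := h3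
            _ = _ := by ring
        exact le_of_mul_le_mul_right h4 (pow_pos hz1 _)
  apply nrm_le (by positivity)
  intro i
  rw [Pi.smul_apply, smul_eq_mul, map_mul]
  fin_cases i
  · exact h0
  · exact h1

theorem root_height (p : ℕ) : ∃ κ : ℝ, ∀ (z : Fin 2 → k) (c : ℕ → k), z 0 ≠ 0 →
    (∃ i ≤ p, c i ≠ 0) → ∑ i ∈ Finset.range (p + 1), c i * z 1 ^ i * z 0 ^ (p - i) = 0 →
    logHeight z ≤ logHeight (fun i : Fin (p + 1) => c i) + κ := by
  classical
  refine ⟨∑ w : InfinitePlace k, (w.mult : ℝ) * Real.log (p + 1), fun z c hz hc hrel => ?_⟩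
  have hz' : z ≠ 0 := by
    rintro rfl
    exact hz rfl
  obtain ⟨D, hDp, hD, hmax⟩ : ∃ D ≤ p, c D ≠ 0 ∧ ∀ i, D < i → i ≤ p → c i = 0 := by
    have hne : ((Finset.range (p + 1)).filter fun i => c i ≠ 0).Nonempty := by
      obtain ⟨i, hi, hci⟩ := hc
      exact ⟨i, Finset.mem_filter.2 ⟨Finset.mem_range.2 (by omega), hci⟩⟩
    obtain ⟨D, hD, hD'⟩ := Finset.exists_max_image _ id hne
    rw [Finset.mem_filter, Finset.mem_range] at hD
    refine ⟨D, by omega, hD.2, fun i hi hip => ?_⟩
    by_contra h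
    have := hD' i (Finset.mem_filter.2 ⟨Finset.mem_range.2 (by omega), h⟩)
    simp only [id] at this
    omega
  have hx1 : c D • z ≠ 0 := by
    intro h
    have := congrFun h 0
    rw [Pi.smul_apply, smul_eq_mul] at this
    exact (mul_ne_zero hD hz) this
  have hx2 : (z 0 • fun i : Fin (p + 1) => c i) ≠ 0 := by
    intro h
    have := congrFun h ⟨D, by omega⟩
    rw [Pi.smul_apply, smul_eq_mul] at this
    exact (mul_ne_zero hz hD) this
  have hc0 : (fun i : Fin (p + 1) => c i) ≠ 0 := by
    intro h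
    apply hx2
    rw [h, smul_zero]
  rw [← logHeight_smul_eq_logHeight z hD, ← logHeight_smul_eq_logHeight (fun i : Fin (p + 1) => c i) hz]
  set T : Finset (HeightOneSpectrum (𝓞 k)) := (nrm_support hx1).toFinset ∪
    (nrm_support hx2).toFinset with hT
  rw [height_sum hx1 T fun v hv => by
      rw [hT]
      simp only [Finset.mem_union, Set.Finite.mem_toFinset, Set.mem_ofPred_eq]
      exact Or.inl hv,
    height_sum hx2 T fun v hv => by
      rw [hT]
      simp only [Finset.mem_union, Set.Finite.mem_toFinset, Set.mem_ofPred_eq]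
      exact Or.inr hv]
  have hp1 : (1 : ℝ) ≤ p + 1 := by
    have : (0 : ℝ) ≤ p := Nat.cast_nonneg p
    linarith
  have harch : ∀ w : InfinitePlace k, Real.log (nrm w.1 (c D • z)) ≤
      Real.log (p + 1) + Real.log (nrm w.1 (z 0 • fun i : Fin (p + 1) => c i)) := by
    intro w
    rw [← Real.log_mul (by linarith) (nrm_pos _ hx2).ne']
    apply Real.log_le_log (nrm_pos _ hx1)
    apply root_local w.1 hp1 _ hz hDp hD hmax hrel
    intro D hD a B hB ha
    refine (w.1.sum_le _ _).trans ?_
    refine (Finset.sum_le_card_nsmul _ _ B fun i hi => ha i (Finset.mem_range.1 hi)).trans ?_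
    rw [Finset.card_range, nsmul_eq_mul]
    apply mul_le_mul_of_nonneg_right _ hB
    have : (D : ℝ) ≤ p := Nat.cast_le.2 hD
    linarith
  have hna : ∀ v : HeightOneSpectrum (𝓞 k), Real.log (nrm (fv v) (c D • z)) ≤
      Real.log (nrm (fv v) (z 0 • fun i : Fin (p + 1) => c i)) := by
    intro v
    apply Real.log_le_log (nrm_pos _ hx1)
    rw [← one_mul (nrm (fv v) (z 0 • fun i : Fin (p + 1) => c i))]
    apply root_local (fv v) le_rfl _ hz hDp hD hmax hrel
    intro D hD a B hB ha
    rw [one_mul]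
    exact na_sum (fv_na v) _ _ hB fun i hi => ha i (Finset.mem_range.1 hi)
  have h1 : ∑ w : InfinitePlace k, (w.mult : ℝ) * Real.log (nrm w.1 (c D • z)) ≤
      ∑ w : InfinitePlace k, (w.mult : ℝ) * (Real.log (p + 1) +
        Real.log (nrm w.1 (z 0 • fun i : Fin (p + 1) => c i))) :=
    Finset.sum_le_sum fun w _ => mul_le_mul_of_nonneg_left (harch w) (Nat.cast_nonneg _)
  have h2 : ∑ v ∈ T, Real.log (nrm (fv v) (c D • z)) ≤
      ∑ v ∈ T, Real.log (nrm (fv v) (z 0 • fun i : Fin (p + 1) => c i)) :=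
    Finset.sum_le_sum fun v _ => hna v
  simp only [mul_add, Finset.sum_add_distrib] at h1
  linarith

/-- the height of the base point is bounded by the height of the other coordinate -/
theorem rel_height (Q : Polynomial (Polynomial k)) (hQ : Q ≠ 0) :
    ∃ (J : ℕ) (C : ℝ) (E : Finset k), ∀ (z : Fin 2 → k) (u : k), z 0 ≠ 0 → u ∉ E →
      Q.evalEval (z 1 / z 0) u = 0 → logHeight z ≤ J * logHeight ![1, u] + C := by
  classical
  set J := Q.natDegree with hJ
  set p := ∑ j ∈ Finset.range (J + 1), (Q.coeff j).natDegree with hp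
  have hdeg : ∀ j ≤ J, (Q.coeff j).natDegree ≤ p := by
    intro j hj
    exact Finset.single_le_sum (f := fun j => (Q.coeff j).natDegree) (fun _ _ => Nat.zero_le _)
      (Finset.mem_range.2 (by omega))
  set G : Fin (p + 1) → MvPolynomial (Fin 2) k := fun i => ∑ j ∈ Finset.range (J + 1),
    C ((Q.coeff j).coeff i) * X 0 ^ (J - j) * X 1 ^ j with hG
  have hGh : ∀ i, (G i).IsHomogeneous J := by
    intro i
    apply IsHomogeneous.sum
    intro j hj
    have hj' := Finset.mem_range.1 hj
    have h2 := ((isHomogeneous_C (Fin 2) ((Q.coeff j).coeff i)).mul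
      ((isHomogeneous_X k (0 : Fin 2)).pow (J - j))).mul ((isHomogeneous_X k (1 : Fin 2)).pow j)
    convert h2 using 1
    omega
  obtain ⟨C1, hC1⟩ := logHeight_eval_le' hGh
  obtain ⟨κ, hκ⟩ := root_height (k := k) p
  obtain ⟨j0, hj0⟩ : ∃ j, Q.coeff j ≠ 0 := ⟨J, by
    rw [hJ]
    exact Polynomial.leadingCoeff_ne_zero.2 hQ⟩
  obtain ⟨i0, hi0⟩ : ∃ i, (Q.coeff j0).coeff i ≠ 0 := ⟨_, Polynomial.leadingCoeff_ne_zero.2 hj0⟩
  have hj0J : j0 ≤ J := Polynomial.le_natDegree_of_ne_zero hj0
  have hi0p : i0 ≤ p := (Polynomial.le_natDegree_of_ne_zero hi0).trans (hdeg j0 hj0J)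
  set r : Polynomial k := ∑ j ∈ Finset.range (J + 1), Polynomial.monomial j ((Q.coeff j).coeff i0) with hr
  have hr0 : r ≠ 0 := by
    intro h
    apply hi0
    have := congrArg (fun q => Polynomial.coeff q j0) h
    simp only [hr, Polynomial.finsetSum_coeff, Polynomial.coeff_monomial, Polynomial.coeff_zero] at this
    rwa [Finset.sum_ite_eq' (Finset.range (J + 1)) j0, if_pos (Finset.mem_range.2 (by omega))] at this
  refine ⟨J, C1 + κ, r.roots.toFinset, fun z u hz hu hQ0 => ?_⟩
  set c : ℕ → k := fun i => ∑ j ∈ Finset.range (J + 1), (Q.coeff j).coeff i * u ^ j with hc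
  have hcG : ∀ i : Fin (p + 1), c i = eval ![1, u] (G i) := by
    intro i
    rw [hc, hG, map_sum]
    refine Finset.sum_congr rfl fun j _ => ?_
    simp
  have hci0 : c i0 ≠ 0 := by
    intro h
    apply hu
    rw [Multiset.mem_toFinset, Polynomial.mem_roots hr0, Polynomial.IsRoot.def, hr,
      Polynomial.eval_finsetSum]
    simp only [Polynomial.eval_monomial]
    exact h
  have hrel : ∑ i ∈ Finset.range (p + 1), c i * z 1 ^ i * z 0 ^ (p - i) = 0 := by
    have h1 : ∑ i ∈ Finset.range (p + 1), c i * z 1 ^ i * z 0 ^ (p - i) =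
        z 0 ^ p * Q.evalEval (z 1 / z 0) u := by
      rw [Polynomial.evalEval, Polynomial.eval_eq_sum_range (p := Q), Polynomial.eval_finsetSum,
        Finset.mul_sum, hc]
      simp only [Finset.sum_mul]
      rw [Finset.sum_comm]
      refine Finset.sum_congr rfl fun j hj => ?_
      have hj' : j ≤ J := by have := Finset.mem_range.1 hj; omega
      rw [Polynomial.eval_mul, Polynomial.eval_pow, Polynomial.eval_C,
        Polynomial.eval_eq_sum_range' (p := Q.coeff j) (n := p + 1) (by have := hdeg j hj'; omega),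
        Finset.sum_mul, Finset.mul_sum]
      refine Finset.sum_congr rfl fun i hi => ?_
      have hi' := Finset.mem_range.1 hi
      have h2 : z 0 ^ p = z 0 ^ (p - i) * z 0 ^ i := by
        rw [← pow_add]
        congr 1
        omega
      rw [h2, div_pow]
      field_simp
    rw [h1, hQ0, mul_zero]
  have h1 := hκ z c hz ⟨i0, hi0p, hci0⟩ hrel
  have h2 := hC1 ![1, u]
  have h3 : (fun i : Fin (p + 1) => c i) = fun j => eval ![1, u] (G j) := by
    funext i
    exact hcG i
  rw [h3] at h1
  linarith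

variable {M d e : ℕ} {g : Fin 2 → MvPolynomial (Fin 2) k}

/-- the case of a polynomial map of smaller degree -/
theorem product_low (hg : IsEndo d g) (hd : 2 ≤ d) (he : 1 ≤ e) (hed : e < d)
    {h : Fin M → MvPolynomial (Fin M) k} (hh : Regular e h) {x : Fin 2 → k} (hx : Wander g x)
    {u : Fin M → k} (hu : ∀ i j : ℕ, i ≠ j → (pm h)^[i] u ≠ (pm h)^[j] u)
    (Q : Fin M → Polynomial (Polynomial k)) (hQ : ∀ i, Q i ≠ 0) :
    {n | (pt g)^[n] x 0 ≠ 0 ∧ ∀ i, (Q i).evalEval ((pt g)^[n] x 1 / (pt g)^[n] x 0)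
      ((pm h)^[n] u i) = 0}.Finite := by
  classical
  have hx0 : x ≠ 0 := wander_ne hg.1 hd hx
  choose J C E hE using fun i => rel_height (Q i) (hQ i)
  -- the height of the base
  obtain ⟨M0, hM0⟩ := dich hg hd
  have hgrow : ∀ n ≥ M0, (d : ℝ) ^ (n - M0) ≤ logHeight ((pt g)^[n] x) := by
    rcases hM0 x hx0 with ⟨t, m, hm, -, c, hc, h1⟩ | h1
    · exact absurd h1 (hx (t + m) t (by omega) c)
    · exact h1
  -- the height of the other orbit
  obtain ⟨C1, hC1⟩ := logHeight_eval_le' (ext_endo hh).1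
  set H : ℝ := logHeight (Fin.cons 1 u : Fin (M + 1) → k) + |C1| with hH
  have hH0 : 0 ≤ H := add_nonneg (logHeight_nonneg _) (abs_nonneg _)
  have he' : (1 : ℝ) ≤ e := by exact_mod_cast he
  have hup : ∀ n : ℕ, logHeight (Fin.cons 1 ((pm h)^[n] u) : Fin (M + 1) → k) ≤ (n + 1) * H * e ^ n := by
    intro n
    induction n with
    | zero =>
      simp only [Function.iterate_zero, id_eq, Nat.cast_zero, zero_add, one_mul, pow_zero, mul_one]
      rw [hH]
      linarith [abs_nonneg C1]
    | succ n ih =>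
      have h1 := hC1 (Fin.cons 1 ((pm h)^[n] u))
      have h2 : (fun i => eval (Fin.cons 1 ((pm h)^[n] u) : Fin (M + 1) → k) (ext e h i)) =
          Fin.cons 1 ((pm h)^[n + 1] u) := by
        rw [Function.iterate_succ_apply']
        exact ext_pt hh.1 _
      rw [h2] at h1
      refine h1.trans ?_
      have h3 := mul_le_mul_of_nonneg_left ih (by linarith : (0 : ℝ) ≤ e)
      have h4 : C1 ≤ H := by
        rw [hH]
        linarith [le_abs_self C1, logHeight_nonneg (Fin.cons 1 u : Fin (M + 1) → k)]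
      have h5 : H ≤ H * (e : ℝ) ^ (n + 1) := le_mul_of_one_le_right hH0 (one_le_pow₀ he')
      rw [pow_succ] at h5 ⊢
      push_cast
      nlinarith
  -- the exceptional times
  have hinjfin : {n | ∀ i, (pm h)^[n] u i ∈ E i}.Finite := by
    apply Set.Finite.of_injOn (f := fun n => (pm h)^[n] u)
      (t := {w : Fin M → k | ∀ i, w i ∈ E i}) (fun n hn => hn)
    · intro a _ b _ hab
      by_contra hne
      exact hu a b hne hab
    · exact Set.Finite.pi' fun i => Finset.finite_toSet (E i)
  have hd0 : (0 : ℝ) < d := by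
    have : 0 < d := by omega
    exact_mod_cast this
  have hlim : ∃ n1, ∀ n ≥ n1, ∀ i : Fin M, J i * ((n + 1) * H * e ^ n) + C i < (d : ℝ) ^ (n - M0) := by
    have hone : ∀ i : Fin M, ∃ n1 : ℕ, ∀ n ≥ n1,
        J i * ((n + 1) * H * e ^ n) + C i < (d : ℝ) ^ (n - M0) := by
      intro i
      have hr : (e : ℝ) / d < 1 := by
        rw [div_lt_one hd0]
        exact_mod_cast hed
      have hr0 : (0 : ℝ) ≤ (e : ℝ) / d := by positivity
      have t1 := tendsto_self_mul_const_pow_of_lt_one hr0 hr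
      have t2 := tendsto_pow_atTop_nhds_zero_of_lt_one hr0 hr
      have t3 : Filter.Tendsto (fun n : ℕ => (1 / (d : ℝ)) ^ n) Filter.atTop (nhds 0) := by
        apply tendsto_pow_atTop_nhds_zero_of_lt_one (by positivity)
        rw [div_lt_one hd0]
        have : (1 : ℕ) < d := by omega
        exact_mod_cast this
      have t4 : Filter.Tendsto (fun n : ℕ => (J i * H) * ((n : ℝ) * ((e : ℝ) / d) ^ n + ((e : ℝ) / d) ^ n) +
          C i * (1 / (d : ℝ)) ^ n) Filter.atTop (nhds 0) := by
        have := ((t1.add t2).const_mul (J i * H)).add (t3.const_mul (C i))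
        simpa using this
      have t5 := t4.eventually (gt_mem_nhds (show (0 : ℝ) < (1 / (d : ℝ)) ^ M0 by positivity))
      obtain ⟨n1, hn1⟩ := Filter.eventually_atTop.1 t5
      refine ⟨n1 + M0, fun n hn => ?_⟩
      have h1 := hn1 n (by omega)
      have h2 : (d : ℝ) ^ (n - M0) = (1 / (d : ℝ)) ^ M0 * (d : ℝ) ^ n := by
        obtain ⟨q, rfl⟩ : ∃ q, n = M0 + q := ⟨n - M0, by omega⟩
        rw [Nat.add_sub_cancel_left, pow_add, one_div, inv_pow]
        field_simp
      have h3 : J i * ((n + 1) * H * e ^ n) + C i = ((J i * H) * ((n : ℝ) * ((e : ℝ) / d) ^ n +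
          ((e : ℝ) / d) ^ n) + C i * (1 / (d : ℝ)) ^ n) * (d : ℝ) ^ n := by
        rw [div_pow, one_div, inv_pow]
        field_simp
      rw [h2, h3]
      exact mul_lt_mul_of_pos_right h1 (by positivity)
    choose n1 hn1 using hone
    refine ⟨∑ i, n1 i, fun n hn i => hn1 i n ?_⟩
    have := Finset.single_le_sum (f := fun i => n1 i) (fun _ _ => Nat.zero_le _) (Finset.mem_univ i)
    omega
  obtain ⟨n1, hn1⟩ := hlim
  apply (hinjfin.union (Set.finite_Iio (M0 + n1))).subset
  rintro n ⟨hn0, hn⟩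
  by_cases hE' : ∀ i, (pm h)^[n] u i ∈ E i
  · exact Or.inl hE'
  · right
    rw [Set.mem_Iio]
    by_contra hlt
    push Not at hE' hlt
    obtain ⟨i, hi⟩ := hE'
    have h1 := hE i _ _ hn0 hi (hn i)
    have h2 := hgrow n (by omega)
    have h3 := hn1 n (by omega) i
    have h4 : logHeight ![1, (pm h)^[n] u i] ≤ logHeight (Fin.cons 1 ((pm h)^[n] u) : Fin (M + 1) → k) := by
      have e1 : (![1, (pm h)^[n] u i] : Fin 2 → k) = (Fin.cons 1 ((pm h)^[n] u) : Fin (M + 1) → k) ∘
          ![0, i.succ] := by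
        funext q
        fin_cases q <;> simp
      rw [e1]
      exact logHeight_comp_le _ _
    have h5 := (h4.trans (hup n))
    have h6 := mul_le_mul_of_nonneg_left h5 (Nat.cast_nonneg (J i) : (0 : ℝ) ≤ J i)
    linarith

end Pool.Agent.H422.SK
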