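import Mathlib
import Pool.Agent.H422.SK.Low

set_option autoImplicit false
set_option linter.unusedSectionVars false

/-!
Products of a rational function with a polynomial map: all degrees.
-/

namespace Pool.Agent.H422.SK

open MvPolynomial NumberField
open Pool.Agent.Q170.HG (pt IsEndo iter_ne dich)

variable {k : Type} [Field k] [NumberField k] {M d e : ℕ} {g : Fin 2 → MvPolynomial (Fin 2) k}

theorem product_all (hg : IsEndo d g) (hd : 2 ≤ d) (hE : NoExcept d g) (he : 1 ≤ e)
    {h : Fin M → MvPolynomial (Fin M) k} (hh : Regular e h) {x : Fin 2 → k} (hx : Wander g x)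
    {u : Fin M → k} (hu : ∀ i j : ℕ, i ≠ j → (pm h)^[i] u ≠ (pm h)^[j] u)
    {L : Type} [Field L] [Algebra k L] (V : Set ((Fin 2 → L) × (Fin M → L)))
    (hV : ∀ i, ∃ P : MvPolynomial (Fin 2) L, P ≠ 0 ∧ ∀ p ∈ V, p.1 0 ≠ 0 →
      eval ![p.1 1 / p.1 0, p.2 i] P = 0) :
    {n | ((fun i => algebraMap k L ((pt g)^[n] x i), fun i => algebraMap k L ((pm h)^[n] u i)) :
      (Fin 2 → L) × (Fin M → L)) ∈ V}.Finite := by
  classical
  rcases le_or_gt d e with hde | hed
  · exact product hg hd hE hde hh hx hu V hV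
  · have : CharZero L := charZero_of_injective_algebraMap (algebraMap k L).injective
    have hx0 : x ≠ 0 := wander_ne hg.1 hd hx
    have hrel : ∀ i : Fin M, ∃ Q : Polynomial (Polynomial k), Q ≠ 0 ∧ ∀ t w : k,
        (∃ p ∈ V, p.1 0 ≠ 0 ∧ p.1 1 / p.1 0 = algebraMap k L t ∧ p.2 i = algebraMap k L w) →
        Q.evalEval t w = 0 := by
      intro i
      obtain ⟨P, hP, hPV⟩ := hV i
      obtain ⟨Q, hQ, hQP⟩ := to_poly P hP
      obtain ⟨Q', hQ', hdes⟩ := descend (k := k) Q hQ
      refine ⟨Q', hQ', ?_⟩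
      rintro t w ⟨p, hp, hp0, h1, h2⟩
      apply hdes
      rw [hQP, ← h1, ← h2]
      exact hPV p hp hp0
    choose Q hQ hQV using hrel
    have h1 := product_low hg hd he hed hh hx hu Q hQ
    obtain ⟨n2, hn2⟩ := eventually_ne (g := g) (isHomogeneous_X k (0 : Fin 2)) (X_ne_zero 0)
      (iter_ne hg hx0) hx
    apply (h1.union (Set.finite_Iio n2)).subset
    intro n hn
    by_cases hlt : n < n2
    · exact Or.inr hlt
    · left
      have h3 := hn2 n (by omega)
      rw [eval_X] at h3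
      refine ⟨h3, fun i => ?_⟩
      refine hQV i _ _ ⟨_, hn, ?_, ?_, rfl⟩
      · exact (map_ne_zero _).2 h3
      · rw [map_div₀]

end Pool.Agent.H422.SK
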