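import Mathlib
import Pool.Agent.H422.SK.All

set_option autoImplicit false
set_option linter.unusedSectionVars false

/-!
The complete Dynamical Mordell-Lang property of the product of a rational function and a polynomial.
-/

namespace Pool.Agent.H422.SK

open MvPolynomial NumberField
open Pool.Agent.Q170.HG (pt IsEndo iter_ne dich)

/-- eventually periodic -/
def EvPer (s : ℕ → Prop) : Prop := ∃ N P : ℕ, 0 < P ∧ ∀ n, N ≤ n → (s n ↔ s (n + P))

lemma evPer_of {s z : ℕ → Prop} {N P : ℕ} (hP : 0 < P) (hz : ∀ n ≥ N, (z n ↔ z (n + P)))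
    (hzs : ∀ n, z n → s n) (hfin : {n | ¬ z n ∧ s n}.Finite) : EvPer s := by
  obtain ⟨B, hB⟩ := hfin.bddAbove
  have key : ∀ n, B + 1 ≤ n → (s n ↔ z n) := by
    intro n hn
    refine ⟨fun h => ?_, hzs n⟩
    by_contra hc
    have := hB (show n ∈ {n | ¬ z n ∧ s n} from ⟨hc, h⟩)
    omega
  refine ⟨N + (B + 1), P, hP, fun n hn => ?_⟩
  rw [key n (by omega), key (n + P) (by omega)]
  exact hz n (by omega)

section

variable {L : Type} [Field L]

lemma wh_smul {M p : ℕ} {F : MvPolynomial (Fin 2 ⊕ Fin M) L}
    (hF : IsWeightedHomogeneous (Sum.elim (fun _ : Fin 2 => (1 : ℕ)) (fun _ : Fin M => (0 : ℕ))) F p)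
    (c : L) (x : Fin 2 → L) (u : Fin M → L) :
    eval (Sum.elim (c • x) u) F = c ^ p * eval (Sum.elim x u) F := by
  classical
  rw [eval_eq', eval_eq', Finset.mul_sum]
  refine Finset.sum_congr rfl fun μ hμ => ?_
  have h1 := hF (mem_support_iff.1 hμ)
  have h2 : ∑ i : Fin 2, μ (Sum.inl i) = p := by
    rw [← h1, Finsupp.weight_apply, Finsupp.sum_fintype _ _ (fun _ => by simp), Fintype.sum_sum_type]
    simp
  rw [Fintype.prod_sum_type, Fintype.prod_sum_type]
  simp only [Sum.elim_inl, Sum.elim_inr, Pi.smul_apply, smul_eq_mul, mul_pow]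
  rw [Finset.prod_mul_distrib, Finset.prod_pow_eq_pow_sum, h2]
  ring

/-- dehomogenisation -/
lemma dehom [Infinite L] {F : MvPolynomial (Fin 2 ⊕ Fin 1) L} {p : ℕ} (hF0 : F ≠ 0)
    (hF : ∀ (c : L) (x : Fin 2 → L) (u : Fin 1 → L),
      eval (Sum.elim (c • x) u) F = c ^ p * eval (Sum.elim x u) F) :
    ∃ P : MvPolynomial (Fin 2) L, P ≠ 0 ∧ ∀ (x : Fin 2 → L) (u : Fin 1 → L), x 0 ≠ 0 →
      eval (Sum.elim x u) F = 0 → eval ![x 1 / x 0, u 0] P = 0 := by
  set w : Fin 2 ⊕ Fin 1 → MvPolynomial (Fin 2) L := Sum.elim ![1, X 0] fun _ => X 1 with hw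
  have key : ∀ (x : Fin 2 → L) (u : Fin 1 → L), x 0 ≠ 0 →
      eval (Sum.elim x u) F = x 0 ^ p * eval ![x 1 / x 0, u 0] (aeval w F) := by
    intro x u hx
    have h1 : eval ![x 1 / x 0, u 0] (aeval w F) = eval (Sum.elim ![1, x 1 / x 0] u) F := by
      rw [← aeval_eq_eval, ← AlgHom.comp_apply, comp_aeval, ← aeval_eq_eval]
      congr 2
      funext q
      rcases q with q | q
      · fin_cases q <;> simp [hw]
      · fin_cases q
        simp [hw]
    rw [h1, ← hF]
    congr 1
    congr 1
    congr 1
    funext q
    fin_cases q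
    · simp
    · simp [mul_div_cancel₀ _ hx]
  refine ⟨aeval w F, ?_, fun x u hx h0 => ?_⟩
  · intro h0
    have h1 : X (Sum.inl 0) * F = 0 := by
      apply MvPolynomial.funext
      intro y
      rw [map_mul, eval_X, map_zero]
      by_cases hy : y (Sum.inl 0) = 0
      · rw [hy, zero_mul]
      · have h2 : y = Sum.elim (fun i => y (Sum.inl i)) fun i => y (Sum.inr i) := by
          funext q
          rcases q with q | q <;> rfl
        rw [h2, key _ _ hy, h0, map_zero, mul_zero, mul_zero]
    rcases mul_eq_zero.1 h1 with h | h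
    · exact X_ne_zero _ h
    · exact hF0 h
  · have h1 := key x u hx
    rw [h0] at h1
    exact (mul_eq_zero.1 h1.symm).resolve_left (pow_ne_zero _ hx)

end

section

variable {k : Type} [Field k] [NumberField k] {d e : ℕ} {g : Fin 2 → MvPolynomial (Fin 2) k}

/-- a form of degree `p` over a larger field which vanishes at infinitely many members of the orbit is
zero at all points -/
lemma form_finite {x : ℕ → Fin 2 → k} (hx0 : ∀ n, x n ≠ 0)
    (hx : ∀ i j : ℕ, i ≠ j → ∀ c : k, x i ≠ c • x j) {L : Type} [Field L] [Algebra k L]
    {p : ℕ} (f : (Fin 2 → L) → L) (hf : ∀ (c : L) (y : Fin 2 → L), f (c • y) = c ^ p * f y)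
    (b : Polynomial L) (hb : ∀ t, f ![1, t] = b.eval t) (hne : ∃ y, y 0 ≠ 0 ∧ f y ≠ 0) :
    {n | f (fun i => algebraMap k L (x n i)) = 0}.Finite := by
  classical
  have key : ∀ y : Fin 2 → L, y 0 ≠ 0 → f y = y 0 ^ p * b.eval (y 1 / y 0) := by
    intro y hy
    rw [← hb, ← hf]
    congr 1
    funext i
    fin_cases i
    · simp
    · simp [mul_div_cancel₀ _ hy]
  have hb0 : b ≠ 0 := by
    rintro rfl
    obtain ⟨y, hy, hfy⟩ := hne
    apply hfy
    rw [key y hy, Polynomial.eval_zero, mul_zero]
  have h1 : {n | x n 0 = 0}.Finite := by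
    apply Set.Subsingleton.finite
    intro i hi j hj
    by_contra hij
    have hi' : x i 0 = 0 := hi
    have hj' : x j 0 = 0 := hj
    have hj1 : x j 1 ≠ 0 := by
      intro h
      apply hx0 j
      funext q
      fin_cases q
      · exact hj'
      · exact h
    apply hx i j hij (x i 1 / x j 1)
    funext q
    fin_cases q
    · simp [hi', hj']
    · simp [div_mul_cancel₀ _ hj1]
  have h2 : {n | x n 0 ≠ 0 ∧ algebraMap k L (x n 1 / x n 0) ∈ b.roots.toFinset}.Finite := by
    apply Set.Finite.of_injOn (f := fun n => algebraMap k L (x n 1 / x n 0))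
      (t := (b.roots.toFinset : Set L)) (fun n hn => hn.2)
    · intro i hi j hj he
      by_contra hij
      have he' := (algebraMap k L).injective he
      apply hx i j hij (x i 0 / x j 0)
      rw [div_eq_div_iff hi.1 hj.1] at he'
      funext q
      have hj0 := hj.1
      fin_cases q
      · simp [div_mul_cancel₀ _ hj0]
      · simp only [Fin.mk_one, Fin.isValue, Pi.smul_apply, smul_eq_mul]
        field_simp
        linear_combination he'
    · exact Finset.finite_toSet _
  apply (h1.union h2).subset
  intro n hn
  by_cases h0 : x n 0 = 0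
  · exact Or.inl h0
  · right
    refine ⟨h0, ?_⟩
    have h3 : algebraMap k L (x n 0) ≠ 0 := (map_ne_zero _).2 h0
    have h4 := key (fun i => algebraMap k L (x n i)) h3
    have hn' : f (fun i => algebraMap k L (x n i)) = 0 := hn
    rw [hn'] at h4
    have h5 := (mul_eq_zero.1 h4.symm).resolve_left (pow_ne_zero _ h3)
    rw [Multiset.mem_toFinset, Polynomial.mem_roots hb0, Polynomial.IsRoot.def, map_div₀]
    exact h5

/-- **The complete Dynamical Mordell-Lang property.** -/
theorem full (hg : IsEndo d g) (hd : 2 ≤ d) (hE : NoExcept d g) (he : 1 ≤ e)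
    {h : Fin 1 → MvPolynomial (Fin 1) k} (hh : Regular e h) {x : Fin 2 → k} (hx : x ≠ 0)
    (u : Fin 1 → k) {L : Type} [Field L] [Algebra k L] (W : Set (MvPolynomial (Fin 2 ⊕ Fin 1) L))
    (hW : ∀ F ∈ W, ∃ p : ℕ, IsWeightedHomogeneous
      (Sum.elim (fun _ : Fin 2 => (1 : ℕ)) (fun _ : Fin 1 => (0 : ℕ))) F p) :
    EvPer fun n => ∀ F ∈ W, eval (Sum.elim (fun i => algebraMap k L ((pt g)^[n] x i))
      fun i => algebraMap k L ((pm h)^[n] u i)) F = 0 := by
  classical
  have : CharZero L := charZero_of_injective_algebraMap (algebraMap k L).injective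
  have hx0 : ∀ n, (pt g)^[n] x ≠ 0 := iter_ne hg hx
  set X : ℕ → Fin 2 → L := fun n i => algebraMap k L ((pt g)^[n] x i) with hX
  set U : ℕ → Fin 1 → L := fun n i => algebraMap k L ((pm h)^[n] u i) with hU
  choose! p hp using hW
  have hsm : ∀ F ∈ W, ∀ (c : L) (y : Fin 2 → L) (w : Fin 1 → L),
      eval (Sum.elim (c • y) w) F = c ^ p F * eval (Sum.elim y w) F :=
    fun F hF c y w => wh_smul (hp F hF) c y w
  -- the base orbit
  by_cases hwx : Wander g x
  · by_cases hwu : ∀ i j : ℕ, i ≠ j → (pm h)^[i] u ≠ (pm h)^[j] u
    · -- both points are wandering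
      by_cases hall : ∀ F ∈ W, F = 0
      · exact ⟨0, 1, one_pos, fun n _ => by
          constructor <;> intro _ F hF <;> rw [hall F hF, map_zero]⟩
      · push Not at hall
        obtain ⟨F, hF, hF0⟩ := hall
        obtain ⟨P, hP, hPF⟩ := dehom hF0 (hsm F hF)
        have h1 := product_all hg hd hE he hh hwx hwu {q : (Fin 2 → L) × (Fin 1 → L) |
          eval (Sum.elim q.1 q.2) F = 0} (fun i => ⟨P, hP, fun q hq hq0 => by
            have hi : i = 0 := Subsingleton.elim _ _
            rw [hi]
            exact hPF q.1 q.2 hq0 hq⟩)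
        apply evPer_of (z := fun _ => False) (N := 0) one_pos (fun n _ => Iff.rfl)
          (fun n hn => hn.elim)
        exact h1.subset fun n hn => hn.2 F hF
    · -- the second point is preperiodic
      push Not at hwu
      obtain ⟨i, j, hij, hu⟩ := hwu
      obtain ⟨a, m, hm, ha⟩ : ∃ a m : ℕ, 0 < m ∧ (pm h)^[a + m] u = (pm h)^[a] u := by
        rcases lt_or_gt_of_ne hij with h1 | h1
        · exact ⟨i, j - i, by omega, by rw [show i + (j - i) = j by omega, hu]⟩
        · exact ⟨j, i - j, by omega, by rw [show j + (i - j) = i by omega, hu]⟩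
      have hper : ∀ n ≥ a, (pm h)^[n + m] u = (pm h)^[n] u := by
        intro n hn
        obtain ⟨q, rfl⟩ : ∃ q, n = q + a := ⟨n - a, by omega⟩
        rw [show q + a + m = q + (a + m) by ring, Function.iterate_add_apply, ha,
          ← Function.iterate_add_apply]
      have hperU : ∀ n ≥ a, U (n + m) = U n := by
        intro n hn
        rw [hU]
        funext i
        dsimp only
        rw [hper n hn]
      have hpm : ∀ q n, a ≤ n → U (n + m * q) = U n := by
        intro q
        induction q with
        | zero => intro n _; rw [mul_zero, add_zero]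
        | succ q ih =>
          intro n hn
          rw [mul_add, mul_one, ← add_assoc, hperU _ (by omega), ih n hn]
      apply evPer_of (z := fun n => ∀ F ∈ W, ∀ y : Fin 2 → L, eval (Sum.elim y (U n)) F = 0)
        (N := a) hm (fun n hn => by rw [hperU n hn]) (fun n hn F hF => hn F hF _)
      -- finitely many exceptional times
      have hcl : ∀ r : ℕ, {n | (¬ ∀ F ∈ W, ∀ y : Fin 2 → L, eval (Sum.elim y (U r)) F = 0) ∧
          ∀ F ∈ W, eval (Sum.elim (X n) (U r)) F = 0}.Finite := by
        intro r
        by_cases hz : ∀ F ∈ W, ∀ y : Fin 2 → L, eval (Sum.elim y (U r)) F = 0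
        · apply Set.finite_empty.subset
          intro n hn
          exact absurd hz hn.1
        · have hz' := hz
          push Not at hz'
          obtain ⟨F, hF, y, hy⟩ := hz'
          have hne : ∃ y : Fin 2 → L, y 0 ≠ 0 ∧ eval (Sum.elim y (U r)) F ≠ 0 := by
            by_contra hcon
            push Not at hcon
            -- the polynomial `X 0 * F` vanishes at all points over `U r`
            have h1 : (MvPolynomial.X 0 : MvPolynomial (Fin 2) L) *
                aeval (Sum.elim MvPolynomial.X fun i => C (U r i)) F = 0 := by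
              apply MvPolynomial.funext
              intro z
              rw [map_mul, eval_X, map_zero]
              by_cases hz0 : z 0 = 0
              · rw [hz0, zero_mul]
              · have h2 : eval z (aeval (Sum.elim MvPolynomial.X fun i => C (U r i)) F) =
                    eval (Sum.elim z (U r)) F := by
                  rw [← aeval_eq_eval, ← AlgHom.comp_apply, comp_aeval, ← aeval_eq_eval]
                  congr 2
                  funext q
                  rcases q with q | q
                  · simp
                  · simp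
                rw [h2, hcon z hz0, mul_zero]
            rcases mul_eq_zero.1 h1 with h2 | h2
            · exact X_ne_zero _ h2
            · apply hy
              have h3 : eval y (aeval (Sum.elim MvPolynomial.X fun i => C (U r i)) F) =
                  eval (Sum.elim y (U r)) F := by
                rw [← aeval_eq_eval, ← AlgHom.comp_apply, comp_aeval, ← aeval_eq_eval]
                congr 2
                funext q
                rcases q with q | q
                · simp
                · simp
              rw [← h3, h2, map_zero]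
          have h1 := form_finite (x := fun n => (pt g)^[n] x) hx0 hwx (p := p F)
            (fun y : Fin 2 → L => eval (Sum.elim y (U r)) F) (fun c y => hsm F hF c y _)
            (aeval (Sum.elim ![1, Polynomial.X] fun i => Polynomial.C (U r i)) F) (fun t => by
              have h2 : ∀ Q : MvPolynomial (Fin 2 ⊕ Fin 1) L, Polynomial.eval t
                  (aeval (Sum.elim ![1, Polynomial.X] fun i => Polynomial.C (U r i)) Q) =
                  eval (Sum.elim ![1, t] (U r)) Q := by
                intro Q
                have h3 : Polynomial.eval t (aeval (Sum.elim ![1, Polynomial.X]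
                    fun i => Polynomial.C (U r i)) Q) = ((Polynomial.aeval t).comp
                    (aeval (Sum.elim ![1, Polynomial.X] fun i => Polynomial.C (U r i)))) Q := by
                  rw [AlgHom.comp_apply, Polynomial.coe_aeval_eq_eval]
                rw [h3, comp_aeval, ← aeval_eq_eval]
                congr 2
                funext q
                rcases q with q | q
                · fin_cases q <;> simp
                · simp
              exact (h2 F).symm) hne
          exact h1.subset fun n hn => hn.2 F hF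
      have hfin : (Set.Iio a ∪ ⋃ r ∈ Finset.Ico a (a + m), {n | (¬ ∀ F ∈ W, ∀ y : Fin 2 → L,
          eval (Sum.elim y (U r)) F = 0) ∧ ∀ F ∈ W, eval (Sum.elim (X n) (U r)) F = 0}).Finite :=
        (Set.finite_Iio a).union (Set.Finite.biUnion (Finset.finite_toSet _) fun r _ => hcl r)
      apply hfin.subset
      rintro n ⟨h1, h2⟩
      by_cases hna : n < a
      · exact Or.inl hna
      · right
        set r := a + (n - a) % m with hr
        have hrU : U n = U r := by
          have h3 := hpm ((n - a) / m) r (by omega)
          have h4 : r + m * ((n - a) / m) = n := by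
            have := Nat.mod_add_div (n - a) m
            omega
          rw [h4] at h3
          exact h3
        rw [Set.mem_iUnion₂]
        refine ⟨r, Finset.mem_Ico.2 ⟨by omega, by have := Nat.mod_lt (n - a) hm; omega⟩, ?_, ?_⟩
        · rw [← hrU]
          exact h1
        · rw [← hrU]
          exact h2
  · -- the base point is preperiodic
    unfold Wander at hwx
    push Not at hwx
    obtain ⟨i, j, hij, c, hc⟩ := hwx
    obtain ⟨a, m, c, hm, hc0, ha⟩ : ∃ (a m : ℕ) (c : k), 0 < m ∧ c ≠ 0 ∧
        (pt g)^[a + m] x = c • (pt g)^[a] x := by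
      have hc0 : c ≠ 0 := by
        rintro rfl
        rw [zero_smul] at hc
        exact hx0 i hc
      rcases lt_or_gt_of_ne hij with h1 | h1
      · refine ⟨i, j - i, c⁻¹, by omega, inv_ne_zero hc0, ?_⟩
        rw [show i + (j - i) = j by omega, hc, inv_smul_smul₀ hc0]
      · exact ⟨j, i - j, c, by omega, hc0, by rw [show j + (i - j) = i by omega, hc]⟩
    have hper : ∀ n ≥ a, ∃ c : k, c ≠ 0 ∧ (pt g)^[n + m] x = c • (pt g)^[n] x := by
      intro n hn
      obtain ⟨q, rfl⟩ : ∃ q, n = q + a := ⟨n - a, by omega⟩
      refine ⟨c ^ d ^ q, pow_ne_zero _ hc0, ?_⟩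
      rw [show q + a + m = q + (a + m) by ring, Function.iterate_add_apply, ha,
        iter_smul' hg.1, ← Function.iterate_add_apply]
    have hperX : ∀ n ≥ a, ∃ c : L, c ≠ 0 ∧ X (n + m) = c • X n := by
      intro n hn
      obtain ⟨c, hc, h1⟩ := hper n hn
      refine ⟨algebraMap k L c, (map_ne_zero _).2 hc, ?_⟩
      funext i
      rw [hX]
      dsimp only
      rw [h1, Pi.smul_apply, Pi.smul_apply, smul_eq_mul, smul_eq_mul, map_mul]
    have hiff : ∀ n ≥ a, ∀ F ∈ W, ∀ w : Fin 1 → L,
        (eval (Sum.elim (X n) w) F = 0 ↔ eval (Sum.elim (X (n + m)) w) F = 0) := by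
      intro n hn F hF w
      obtain ⟨c, hc, h1⟩ := hperX n hn
      rw [h1, hsm F hF]
      constructor
      · intro h
        rw [h, mul_zero]
      · intro h
        exact (mul_eq_zero.1 h).resolve_left (pow_ne_zero _ hc)
    have hiffm : ∀ q n, a ≤ n → ∀ F ∈ W, ∀ w : Fin 1 → L,
        (eval (Sum.elim (X n) w) F = 0 ↔ eval (Sum.elim (X (n + m * q)) w) F = 0) := by
      intro q
      induction q with
      | zero => intro n _ F _ w; rw [mul_zero, add_zero]
      | succ q ih =>
        intro n hn F hF w
        rw [mul_add, mul_one, ← add_assoc, ← hiff _ (by omega) F hF w]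
        exact ih n hn F hF w
    by_cases hwu : ∀ i j : ℕ, i ≠ j → (pm h)^[i] u ≠ (pm h)^[j] u
    · have hinj : Function.Injective fun n => U n 0 := by
        intro i j hij
        by_contra hne
        apply hwu i j hne
        have h1 : (pm h)^[i] u 0 = (pm h)^[j] u 0 := (algebraMap k L).injective hij
        funext q
        rw [Subsingleton.elim q 0]
        exact h1
      apply evPer_of (z := fun n => ∀ F ∈ W, ∀ w : Fin 1 → L, eval (Sum.elim (X n) w) F = 0)
        (N := a) hm (fun n hn => ⟨fun h F hF w => (hiff n hn F hF w).1 (h F hF w),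
          fun h F hF w => (hiff n hn F hF w).2 (h F hF w)⟩) (fun n hn F hF => hn F hF _)
      have hcl : ∀ r : ℕ, {n | (¬ ∀ F ∈ W, ∀ w : Fin 1 → L, eval (Sum.elim (X r) w) F = 0) ∧
          ∀ F ∈ W, eval (Sum.elim (X r) (U n)) F = 0}.Finite := by
        intro r
        by_cases hz : ∀ F ∈ W, ∀ w : Fin 1 → L, eval (Sum.elim (X r) w) F = 0
        · apply Set.finite_empty.subset
          intro n hn
          exact absurd hz hn.1
        · have hz' := hz
          push Not at hz'
          obtain ⟨F, hF, w, hw⟩ := hz'
          set b : Polynomial L := aeval (Sum.elim (fun i => Polynomial.C (X r i))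
            fun _ => Polynomial.X) F with hb
          have hbe : ∀ w : Fin 1 → L, b.eval (w 0) = eval (Sum.elim (X r) w) F := by
            intro w
            have h3 : Polynomial.eval (w 0) b = ((Polynomial.aeval (w 0)).comp
                (aeval (Sum.elim (fun i => Polynomial.C (X r i))
                  fun _ : Fin 1 => (Polynomial.X : Polynomial L)))) F := by
              rw [AlgHom.comp_apply, Polynomial.coe_aeval_eq_eval]
            rw [h3, comp_aeval, ← aeval_eq_eval]
            congr 2
            funext q
            rcases q with q | q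
            · simp
            · rw [Subsingleton.elim q 0]
              simp
          have hb0 : b ≠ 0 := by
            intro h0
            apply hw
            rw [← hbe, h0, Polynomial.eval_zero]
          have h1 : {n | U n 0 ∈ b.roots.toFinset}.Finite :=
            Set.Finite.preimage hinj.injOn (Finset.finite_toSet _)
          apply h1.subset
          intro n hn
          have h2 := hn.2 F hF
          rw [← hbe] at h2
          exact Multiset.mem_toFinset.2 ((Polynomial.mem_roots hb0).2 h2)
      have hfin : (Set.Iio a ∪ ⋃ r ∈ Finset.Ico a (a + m), {n | (¬ ∀ F ∈ W, ∀ w : Fin 1 → L,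
          eval (Sum.elim (X r) w) F = 0) ∧ ∀ F ∈ W, eval (Sum.elim (X r) (U n)) F = 0}).Finite :=
        (Set.finite_Iio a).union (Set.Finite.biUnion (Finset.finite_toSet _) fun r _ => hcl r)
      apply hfin.subset
      rintro n ⟨h1, h2⟩
      by_cases hna : n < a
      · exact Or.inl hna
      · right
        set r := a + (n - a) % m with hr
        have hrX : ∀ F ∈ W, ∀ w : Fin 1 → L,
            (eval (Sum.elim (X r) w) F = 0 ↔ eval (Sum.elim (X n) w) F = 0) := by
          have h4 : r + m * ((n - a) / m) = n := by
            have := Nat.mod_add_div (n - a) m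
            omega
          intro F hF w
          have h3 := hiffm ((n - a) / m) r (by omega) F hF w
          rwa [h4] at h3
        rw [Set.mem_iUnion₂]
        refine ⟨r, Finset.mem_Ico.2 ⟨by omega, by have := Nat.mod_lt (n - a) hm; omega⟩, ?_, ?_⟩
        · intro h5
          exact h1 fun F hF w => (hrX F hF w).1 (h5 F hF w)
        · exact fun F hF => (hrX F hF _).2 (h2 F hF)
    · push Not at hwu
      obtain ⟨i, j, hij, hu⟩ := hwu
      obtain ⟨a', m', hm', ha'⟩ : ∃ a m : ℕ, 0 < m ∧ (pm h)^[a + m] u = (pm h)^[a] u := by
        rcases lt_or_gt_of_ne hij with h1 | h1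
        · exact ⟨i, j - i, by omega, by rw [show i + (j - i) = j by omega, hu]⟩
        · exact ⟨j, i - j, by omega, by rw [show j + (i - j) = i by omega, hu]⟩
      have hper' : ∀ n ≥ a', (pm h)^[n + m'] u = (pm h)^[n] u := by
        intro n hn
        obtain ⟨q, rfl⟩ : ∃ q, n = q + a' := ⟨n - a', by omega⟩
        rw [show q + a' + m' = q + (a' + m') by ring, Function.iterate_add_apply, ha',
          ← Function.iterate_add_apply]
      have hperU : ∀ n ≥ a', U (n + m') = U n := by
        intro n hn
        rw [hU]
        funext i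
        dsimp only
        rw [hper' n hn]
      have hpm : ∀ q n, a' ≤ n → U (n + m' * q) = U n := by
        intro q
        induction q with
        | zero => intro n _; rw [mul_zero, add_zero]
        | succ q ih =>
          intro n hn
          rw [mul_add, mul_one, ← add_assoc, hperU _ (by omega), ih n hn]
      refine ⟨a + a', m * m', Nat.mul_pos hm hm', fun n hn => ?_⟩
      have h1 : U (n + m * m') = U n := by
        rw [mul_comm]
        exact hpm m n (by omega)
      change (∀ F ∈ W, eval (Sum.elim (X n) (U n)) F = 0) ↔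
        ∀ F ∈ W, eval (Sum.elim (X (n + m * m')) (U (n + m * m'))) F = 0
      constructor
      · intro h2 F hF
        rw [h1]
        exact (hiffm m' n (by omega) F hF _).1 (h2 F hF)
      · intro h2 F hF
        have h3 := h2 F hF
        rw [h1] at h3
        exact (hiffm m' n (by omega) F hF _).2 h3

end

end Pool.Agent.H422.SK
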