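import Mathlib

set_option autoImplicit false
set_option linter.unusedSectionVars false

/-!
Specialization: polynomial maps over rings and certificates.
-/

namespace Pool.Agent.H422.SK

open MvPolynomial

section maps

variable {R R' : Type} [CommRing R] [CommRing R'] {n : ℕ}

/-- The self-map given by a system of polynomials over a ring. -/
noncomputable def evr (F : Fin n → MvPolynomial (Fin n) R) (x : Fin n → R) : Fin n → R :=
  fun i => eval x (F i)

lemma evr_map (σ : R →+* R') (F : Fin n → MvPolynomial (Fin n) R) (x : Fin n → R) :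
    evr (fun i => map σ (F i)) (fun i => σ (x i)) = fun i => σ (evr F x i) := by
  funext i
  rw [evr, evr, eval_map, eval₂_comp]
  rfl

lemma evr_iter_map (σ : R →+* R') (F : Fin n → MvPolynomial (Fin n) R) (x : Fin n → R) (m : ℕ) :
    (evr (fun i => map σ (F i)))^[m] (fun i => σ (x i)) = fun i => σ ((evr F)^[m] x i) := by
  induction m with
  | zero => rfl
  | succ m ih =>
    rw [Function.iterate_succ_apply', Function.iterate_succ_apply', ih, evr_map]

/-- homogeneous components and change of rings -/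
lemma hc_map (σ : R →+* R') (e : ℕ) (p : MvPolynomial (Fin n) R) :
    homogeneousComponent e (map σ p) = map σ (homogeneousComponent e p) := by
  classical
  ext m
  rw [coeff_homogeneousComponent, coeff_map, coeff_map, coeff_homogeneousComponent]
  split_ifs
  · rfl
  · rw [map_zero]

lemma td_map (σ : R →+* R') (p : MvPolynomial (Fin n) R) :
    (map σ p).totalDegree ≤ p.totalDegree := by
  classical
  apply Finset.sup_mono
  exact support_map_subset _ _

lemma td_of_map {σ : R →+* R'} (hσ : Function.Injective σ) (p : MvPolynomial (Fin n) R) :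
    p.totalDegree = (map σ p).totalDegree := by
  classical
  rw [totalDegree, totalDegree, support_map_of_injective _ hσ]

/-- the polynomial `v ↦ (v · G x) (v · y) ^ D - (v · G y) (v · x) ^ D`, where `G` is the second iterate -/
noncomputable def wp (F : Fin 2 → MvPolynomial (Fin 2) R) (D : ℕ) (x y : Fin 2 → R) :
    MvPolynomial (Fin 2) R :=
  (X 0 * C ((evr F)^[2] x 0) + X 1 * C ((evr F)^[2] x 1)) * (X 0 * C (y 0) + X 1 * C (y 1)) ^ D -
    (X 0 * C ((evr F)^[2] y 0) + X 1 * C ((evr F)^[2] y 1)) * (X 0 * C (x 0) + X 1 * C (x 1)) ^ D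

lemma wp_map (σ : R →+* R') (F : Fin 2 → MvPolynomial (Fin 2) R) (D : ℕ) (x y : Fin 2 → R) :
    wp (fun i => map σ (F i)) D (fun i => σ (x i)) (fun i => σ (y i)) = map σ (wp F D x y) := by
  rw [wp, wp, evr_iter_map, evr_iter_map]
  simp only [map_sub, map_mul, map_add, map_pow, map_X, map_C]

/-- a relation, homogeneous in the point `x` of the line -/
noncomputable def relv {D : ℕ} (q : Fin (D + 1) → Polynomial R) (x : Fin 2 → R) (w : R) : R :=
  ∑ j : Fin (D + 1), (q j).eval w * (x 1 ^ (j : ℕ) * x 0 ^ (D - j))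

lemma relv_map (σ : R →+* R') {D : ℕ} (q : Fin (D + 1) → Polynomial R) (x : Fin 2 → R) (w : R) :
    relv (fun j => (q j).map σ) (fun i => σ (x i)) (σ w) = σ (relv q x w) := by
  rw [relv, relv, map_sum]
  refine Finset.sum_congr rfl fun j _ => ?_
  rw [map_mul, map_mul, map_pow, map_pow, Polynomial.eval_map_apply]

lemma relv_smul {D : ℕ} (q : Fin (D + 1) → Polynomial R) (c : R) (x : Fin 2 → R) (w : R) :
    relv q (c • x) w = c ^ D * relv q x w := by
  rw [relv, relv, Finset.mul_sum]
  refine Finset.sum_congr rfl fun j _ => ?_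
  have h1 : c ^ D = c ^ (j : ℕ) * c ^ (D - j) := by
    rw [← pow_add]
    congr 1
    have := j.2
    omega
  rw [Pi.smul_apply, Pi.smul_apply, smul_eq_mul, smul_eq_mul, mul_pow, mul_pow, h1]
  ring

end maps

section nss

variable {L : Type} [Field L] [IsAlgClosed L] {n : ℕ}

/-- Hilbert's Nullstellensatz -/
lemma nss (I : Ideal (MvPolynomial (Fin n) L))
    (h : ∀ x : Fin n → L, (∀ p ∈ I, eval x p = 0) → x = 0) (k : Fin n) :
    ∃ m, (X k : MvPolynomial (Fin n) L) ^ m ∈ I := by
  have h2 : (X k : MvPolynomial (Fin n) L) ∈ I.radical := by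
    rw [← vanishingIdeal_zeroLocus_eq_radical (K := L), mem_vanishingIdeal_iff]
    intro y hy
    rw [mem_zeroLocus_iff] at hy
    have h3 := h y fun p hp => by
      rw [← aeval_eq_eval]
      exact hy p hp
    rw [aeval_X, h3]
    rfl
  exact h2

/-- certificate that forms have no common zero -/
lemma cert_forms (F : Fin n → MvPolynomial (Fin n) L)
    (h : ∀ x : Fin n → L, (∀ i, eval x (F i) = 0) → x = 0) :
    ∃ (m : Fin n → ℕ) (q : Fin n → Fin n → MvPolynomial (Fin n) L), ∀ k, ∑ j, q k j * F j = X k ^ m k := by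
  have h1 : ∀ k, ∃ (m : ℕ) (q : Fin n → MvPolynomial (Fin n) L), ∑ j, q j * F j = X k ^ m := by
    intro k
    obtain ⟨m, hm⟩ := nss (Ideal.span (Set.range F)) (fun x hx => h x fun i =>
      hx _ (Ideal.subset_span ⟨i, rfl⟩)) k
    obtain ⟨c, hc⟩ := Ideal.mem_span_range_iff_exists_fun.mp hm
    exact ⟨m, c, hc⟩
  choose m q hq using h1
  exact ⟨m, q, hq⟩

/-- certificate that there are no exceptional points -/
lemma cert_exc {d : ℕ} (hd : 2 ≤ d) (F : Fin 2 → MvPolynomial (Fin 2) L)
    (hE : ∀ v : Fin 2 → L, v ≠ 0 → ∀ c : L, ¬ ∀ x : Fin 2 → L,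
      v 0 * (evr F)^[2] x 0 + v 1 * (evr F)^[2] x 1 = c * (v 0 * x 0 + v 1 * x 1) ^ d ^ 2) :
    ∃ (m : Fin 2 → ℕ) (c : Fin 2 → ((Fin 2 → L) × (Fin 2 → L)) →₀ MvPolynomial (Fin 2) L), ∀ k,
      ((c k).sum fun i a => a * wp F (d ^ 2) i.1 i.2) = X k ^ m k := by
  have h1 : ∀ k, ∃ (m : ℕ) (c : ((Fin 2 → L) × (Fin 2 → L)) →₀ MvPolynomial (Fin 2) L),
      (c.sum fun i a => a * wp F (d ^ 2) i.1 i.2) = X k ^ m := by
    intro k
    obtain ⟨m, hm⟩ := nss (Ideal.span (Set.range fun i : (Fin 2 → L) × (Fin 2 → L) =>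
      wp F (d ^ 2) i.1 i.2)) (fun v hv => by
        by_contra hv0
        -- a point `y` with `v · y = 1`
        obtain ⟨y, hy⟩ : ∃ y : Fin 2 → L, v 0 * y 0 + v 1 * y 1 = 1 := by
          by_cases h0 : v 0 = 0
          · have h1 : v 1 ≠ 0 := by
              intro h
              apply hv0
              funext i
              fin_cases i
              · exact h0
              · exact h
            exact ⟨![0, (v 1)⁻¹], by simp [h0, h1]⟩
          · exact ⟨![(v 0)⁻¹, 0], by simp [h0]⟩
        apply hE v hv0 (v 0 * (evr F)^[2] y 0 + v 1 * (evr F)^[2] y 1)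
        intro x
        have h2 : eval v (wp F (d ^ 2) x y) = 0 := hv _ (Ideal.subset_span ⟨(x, y), rfl⟩)
        rw [wp] at h2
        simp only [map_sub, map_mul, map_add, map_pow, eval_X, eval_C, hy, one_pow, mul_one] at h2
        exact sub_eq_zero.1 h2) k
    obtain ⟨c, hc⟩ := Finsupp.mem_ideal_span_range_iff_exists_finsupp.mp hm
    exact ⟨m, c, hc⟩
  choose m c hc using h1
  exact ⟨m, c, hc⟩

end nss

section content

variable {L : Type} [Field L]

/-- removing the content -/
lemma split_content {D : ℕ} (q : Fin (D + 1) → Polynomial L) (hq : ∃ j, q j ≠ 0) :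
    ∃ (c : Polynomial L) (q' α : Fin (D + 1) → Polynomial L), c ≠ 0 ∧ (∀ j, q j = c * q' j) ∧
      ∑ j, α j * q' j = 1 := by
  obtain ⟨c, hc⟩ := (IsPrincipalIdealRing.principal (Ideal.span (Set.range q))).principal
  rw [← Ideal.span] at hc
  have h1 : ∀ j, ∃ a, q j = c * a := by
    intro j
    have : q j ∈ Ideal.span {c} := by
      rw [← hc]
      exact Ideal.subset_span ⟨j, rfl⟩
    exact Ideal.mem_span_singleton.1 this
  choose q' hq' using h1
  have h2 : c ∈ Ideal.span (Set.range q) := by
    rw [hc]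
    exact Ideal.mem_span_singleton_self c
  obtain ⟨α, hα⟩ := Ideal.mem_span_range_iff_exists_fun.mp h2
  have hc0 : c ≠ 0 := by
    rintro rfl
    obtain ⟨j, hj⟩ := hq
    apply hj
    rw [hq' j, zero_mul]
  refine ⟨c, q', α, hc0, hq', ?_⟩
  apply mul_left_cancel₀ hc0
  rw [mul_one, Finset.mul_sum]
  conv_rhs => rw [← hα]
  refine Finset.sum_congr rfl fun j _ => ?_
  rw [hq' j]
  ring

end content

end Pool.Agent.H422.SK
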