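import Mathlib
import Pool.Graph.R_seed8.TH148.Asm
import Pool.Agent.H422.SK.Nss

set_option autoImplicit false
set_option linter.unusedSectionVars false

/-!
Specialization of wandering orbits to number fields.
-/

namespace Pool.Agent.H422.SK

open MvPolynomial

lemma evr_zero {R : Type} [CommRing R] {n d : ℕ} (hd : d ≠ 0) {F : Fin n → MvPolynomial (Fin n) R}
    (hF : ∀ i, (F i).IsHomogeneous d) : evr F 0 = 0 := by
  funext i
  rw [evr]
  have h2 : eval (0 : Fin n → R) (F i) = coeff 0 (F i) := by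
    rw [← constantCoeff_eq, eval_zero]
  rw [h2]
  apply (hF i).coeff_eq_zero
  rw [map_zero]
  exact hd.symm

lemma par_of {F : Type} [Field F] {x y : Fin 2 → F} (hy : y ≠ 0) (h : ∀ a b, x a * y b = x b * y a) :
    ∃ c : F, x = c • y := by
  obtain ⟨b, hb⟩ : ∃ b, y b ≠ 0 := by
    by_contra hcon
    push Not at hcon
    exact hy (funext hcon)
  refine ⟨x b / y b, ?_⟩
  funext a
  rw [Pi.smul_apply, smul_eq_mul, div_mul_eq_mul_div, eq_div_iff hb]
  exact h a b

theorem spec_hom {L : Type} [Field L] [CharZero L] [IsAlgClosed L] (S : Finset L)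
    (A₀ : Subalgebra ℚ L) (hA₀ : A₀ = Algebra.adjoin ℚ (S : Set L)) {d : ℕ} (hd : 2 ≤ d)
    (g : Fin 2 → MvPolynomial (Fin 2) A₀) (hg : ∀ i, (g i).IsHomogeneous d)
    (m : Fin 2 → ℕ) (q : Fin 2 → Fin 2 → MvPolynomial (Fin 2) A₀)
    (hq : ∀ k, ∑ j, q k j * g j = X k ^ m k)
    (t : Fin 2 → A₀) (i1 : Fin 2) (ht : t i1 = 1)
    (hw : ∀ i j, i ≠ j → ∀ c : L, (fun a => algebraMap A₀ L
      ((evr g)^[i] t a)) ≠ c • fun a => algebraMap A₀ L ((evr g)^[j] t a)) :
    ∃ (k : Type) (_ : Field k) (_ : NumberField k) (β : A₀ →+* k),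
      ∀ i j, i ≠ j → ∀ c : k, (fun a => β ((evr g)^[i] t a)) ≠ c • fun a => β ((evr g)^[j] t a) := by
  classical
  have halg : Algebra.IsAlgebraic ℚ (AlgebraicClosure ℚ) := AlgebraicClosure.isAlgebraic ℚ
  let φ : AlgebraicClosure ℚ →ₐ[ℚ] L := IsAlgClosed.lift
  let _ : Algebra (AlgebraicClosure ℚ) L := φ.toRingHom.toAlgebra
  have htow : IsScalarTower ℚ (AlgebraicClosure ℚ) L :=
    IsScalarTower.of_algebraMap_eq fun x => (φ.commutes x).symm
  let A := Algebra.adjoin (AlgebraicClosure ℚ) (S : Set L)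
  have hle : A₀ ≤ A.restrictScalars ℚ := by
    rw [hA₀]
    exact Algebra.adjoin_le Algebra.subset_adjoin
  let ι : A₀ →+* A := (algebraMap A₀ L).codRestrict A (fun x => hle x.2)
  have hι : ∀ x : A₀, algebraMap A L (ι x) = algebraMap A₀ L x := fun x => rfl
  have hfin : Algebra.FiniteType (AlgebraicClosure ℚ) A :=
    (Subalgebra.fg_iff_finiteType _).1 (Subalgebra.fg_adjoin_finset S)
  set 𝓕 : Set (Fin 2 → MvPolynomial (Fin 2) A) := {fun a => map ι (g a)} with h𝓕
  set x₀ : Fin 2 → A := fun a => ι (t a) with hx₀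
  have hD : Pool.Agent.TH148.CData A 1 ⊥ 𝓕 x₀ := by
    refine ⟨⟨∅, Set.finite_empty, by simp, Ideal.span_empty.symm⟩, Set.finite_singleton _, ?_, ?_,
      ?_, ?_, ⟨i1, ?_⟩, ?_⟩
    · rintro F rfl
      exact ⟨d, fun a => (hg a).map ι⟩
    · intro k
      refine ⟨m k, ?_⟩
      rw [bot_sup_eq]
      have h1 := congrArg (map ι) (hq k)
      rw [map_pow, map_X, map_sum] at h1
      rw [← h1]
      apply Ideal.sum_mem
      intro j _
      rw [map_mul]
      exact Ideal.mul_mem_left _ _ (Ideal.subset_span ⟨_, rfl, j, rfl⟩)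
    · rintro F rfl F' rfl a b
      have : (fun a => map ι (g a)) a * (fun a => map ι (g a)) b -
          (fun a => map ι (g a)) b * (fun a => map ι (g a)) a = 0 := by ring
      rw [this]
      exact zero_mem _
    · intro P hP F hF
      rw [Ideal.mem_bot] at hP
      rw [hP, map_zero]
      exact zero_mem _
    · rw [hx₀]
      dsimp only
      rw [ht, map_one]
    · intro P hP
      rw [Ideal.mem_bot] at hP
      rw [hP, map_zero]
  -- the orbit over `L`
  set g' : Fin 2 → MvPolynomial (Fin 2) L := fun a => map (algebraMap A₀ L) (g a) with hg'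
  have hg'h : ∀ i, (g' i).IsHomogeneous d := fun i => (hg i).map _
  set x : ℕ → Fin 2 → L := fun n a => algebraMap A₀ L ((evr g)^[n] t a) with hx
  have hxs : ∀ n, x (n + 1) = evr g' (x n) := by
    intro n
    rw [hx]
    dsimp only
    rw [Function.iterate_succ_apply']
    exact (evr_map (algebraMap A₀ L) g _).symm
  have hx0 : ∀ n, x n ≠ 0 := by
    intro n h0
    have h1 := hw (n + 1) n (by omega) 0
    apply h1
    change x (n + 1) = _
    rw [hxs, h0, evr_zero (by omega) hg'h, zero_smul]
  have hdist : ∀ w : ℕ → Fin 2 → FractionRing A,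
      Pool.Agent.TH148.IsOrbit 𝓕 x₀ (algebraMap A (FractionRing A)) w →
      ∀ n m, n ≠ m → ¬ ∀ a b, w n a * w m b = w n b * w m a := by
    intro w hw' n m hnm hpar
    have hinj : Function.Injective (algebraMap A L) := Subtype.val_injective
    let ψ : FractionRing A →+* L := IsFractionRing.lift hinj
    have hψ : ∀ a, ψ (algebraMap A (FractionRing A) a) = algebraMap A L a := fun a =>
      IsFractionRing.lift_algebraMap hinj a
    have key : ∀ n, (fun a => ψ (w n a)) = x n := by
      intro n
      induction n with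
      | zero =>
        funext a
        rw [hw'.1]
        dsimp only
        rw [hψ, hx₀]
        rfl
      | succ n ih =>
        obtain ⟨-, F, hF, h2⟩ := hw'.2 n
        rw [h𝓕, Set.mem_singleton_iff] at hF
        funext a
        rw [h2 a, hF, eval₂_map, hom_eval₂, hxs, evr, ← ih, hg']
        dsimp only
        rw [eval_map]
        congr 1
        ext z
        rw [RingHom.comp_apply, RingHom.comp_apply, hψ, hι]
    obtain ⟨c, hc⟩ := par_of (x := x n) (y := x m) (hx0 m) (fun a b => by
      rw [← key n, ← key m]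
      dsimp only
      rw [← map_mul, ← map_mul, hpar a b])
    exact hw n m hnm c hc
  obtain ⟨b', hb'⟩ := Pool.Agent.TH148.CMT A 1 ⊥ 𝓕 x₀ hD hdist
  set σ : A₀ →+* AlgebraicClosure ℚ := (b' : A →+* AlgebraicClosure ℚ).comp ι with hσ
  -- the specialized orbit
  set y : ℕ → Fin 2 → AlgebraicClosure ℚ := fun n a => σ ((evr g)^[n] t a) with hy
  set gb : Fin 2 → MvPolynomial (Fin 2) (AlgebraicClosure ℚ) := fun a => map σ (g a) with hgb
  have hys : ∀ n, y (n + 1) = evr gb (y n) := by
    intro n
    rw [hy]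
    dsimp only
    rw [Function.iterate_succ_apply']
    exact (evr_map σ g _).symm
  have hy0 : ∀ n, y n ≠ 0 := by
    intro n
    induction n with
    | zero =>
      intro h0
      have h1 := congrFun h0 i1
      rw [hy] at h1
      change σ (t i1) = 0 at h1
      rw [ht, map_one] at h1
      exact one_ne_zero h1
    | succ n ih =>
      intro h0
      apply ih
      funext k
      have h1 := congrArg (fun P => eval (y n) (map σ P)) (hq k)
      simp only [map_sum, map_mul, map_pow, map_X, eval_X] at h1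
      have h2 : ∀ j, eval (y n) (map σ (g j)) = 0 := by
        intro j
        have := congrFun h0 j
        rw [hys, evr, hgb] at this
        exact this
      simp only [h2, mul_zero, Finset.sum_const_zero] at h1
      rw [Pi.zero_apply]
      by_contra h3
      exact pow_ne_zero (m k) h3 h1.symm
  have horb : Pool.Agent.TH148.IsOrbit 𝓕 x₀ (b' : A →+* AlgebraicClosure ℚ) y := by
    refine ⟨rfl, fun n => ⟨hy0 _, _, Set.mem_singleton _, fun a => ?_⟩⟩
    rw [hys, evr, hgb, eval₂_map, eval_map]
  have hwan := hb' y horb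
  -- the number field
  have hmem : ∀ s : S, (s : L) ∈ A₀ := fun s => by
    rw [hA₀]
    exact Algebra.subset_adjoin s.2
  set T : Set (AlgebraicClosure ℚ) := Set.range fun s : S => σ ⟨(s : L), hmem s⟩ with hT
  have hTfin : T.Finite := Set.finite_range _
  set k := IntermediateField.adjoin ℚ T with hk
  have : Finite T := hTfin.to_subtype
  have hkfin : FiniteDimensional ℚ k := IntermediateField.finiteDimensional_adjoin
    fun x _ => (halg.isAlgebraic x).isIntegral
  have hnf : NumberField k := { to_charZero := inferInstance, to_finiteDimensional := hkfin }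
  have hσk' : ∀ z (_ : z ∈ Algebra.adjoin ℚ (S : Set L)) (hz' : z ∈ A₀), σ ⟨z, hz'⟩ ∈ k := by
    intro z hz
    induction hz using Algebra.adjoin_induction with
    | mem z hz =>
      intro hz'
      exact IntermediateField.subset_adjoin ℚ T ⟨⟨z, hz⟩, rfl⟩
    | algebraMap r =>
      intro hz'
      have h1 : σ ⟨algebraMap ℚ L r, hz'⟩ = algebraMap ℚ (AlgebraicClosure ℚ) r := by
        have h2 : (⟨algebraMap ℚ L r, hz'⟩ : A₀) = algebraMap ℚ A₀ r := rfl
        rw [h2]
        exact DFunLike.congr_fun (Subsingleton.elim (σ.comp (algebraMap ℚ A₀))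
          (algebraMap ℚ (AlgebraicClosure ℚ))) r
      rw [h1]
      exact IntermediateField.algebraMap_mem k r
    | add a b ha hb iha ihb =>
      intro hz'
      have ha' : a ∈ A₀ := by rw [hA₀]; exact ha
      have hb' : b ∈ A₀ := by rw [hA₀]; exact hb
      have h1 : (⟨a + b, hz'⟩ : A₀) = ⟨a, ha'⟩ + ⟨b, hb'⟩ := rfl
      rw [h1, map_add]
      exact add_mem (iha ha') (ihb hb')
    | mul a b ha hb iha ihb =>
      intro hz'
      have ha' : a ∈ A₀ := by rw [hA₀]; exact ha
      have hb' : b ∈ A₀ := by rw [hA₀]; exact hb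
      have h1 : (⟨a * b, hz'⟩ : A₀) = ⟨a, ha'⟩ * ⟨b, hb'⟩ := rfl
      rw [h1, map_mul]
      exact mul_mem (iha ha') (ihb hb')
  have hσk : ∀ z : A₀, σ z ∈ k := fun z => hσk' z (by rw [← hA₀]; exact z.2) z.2
  let β : A₀ →+* k := σ.codRestrict k hσk
  have hβ : ∀ z, ((β z : k) : AlgebraicClosure ℚ) = σ z := fun z => rfl
  refine ⟨k, inferInstance, hnf, β, fun i j hij c h => hwan i j hij fun a b => ?_⟩
  have h1 := fun a => congrArg (fun z : k => (z : AlgebraicClosure ℚ)) (congrFun h a)
  have h2 : ∀ a, y i a = (c : AlgebraicClosure ℚ) * y j a := by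
    intro a
    have := h1 a
    rw [hβ, Pi.smul_apply, smul_eq_mul] at this
    exact this
  rw [h2 a, h2 b]
  ring

end Pool.Agent.H422.SK
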