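import Mathlib
import Pool.Agent.H422.SK.All
import Pool.Agent.H422.SK.Desc

set_option autoImplicit false
set_option linter.unusedSectionVars false

/-!
The theorem on products over algebraically closed fields of characteristic zero.
-/

namespace Pool.Agent.H422.SK

open MvPolynomial NumberField
open Pool.Agent.Q170.HG (pt IsEndo iter_ne)

section lifts

variable {L : Type} [Field L] [CharZero L]

lemma lift_mv {A₀ : Subalgebra ℚ L} {n : ℕ} (p : MvPolynomial (Fin n) L)
    (h : ∀ c ∈ p.coeffs, c ∈ A₀) : ∃ p' : MvPolynomial (Fin n) A₀, map (algebraMap A₀ L) p' = p := by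
  have : p ∈ Set.range (map (algebraMap A₀ L)) := by
    rw [mem_range_map_iff_coeffs_subset]
    intro c hc
    exact ⟨⟨c, h c hc⟩, rfl⟩
  exact this

lemma lift_po {A₀ : Subalgebra ℚ L} (p : Polynomial L) (h : ∀ c ∈ p.coeffs, c ∈ A₀) :
    ∃ p' : Polynomial A₀, p'.map (algebraMap A₀ L) = p := by
  rw [← Polynomial.mem_lifts, Polynomial.lifts_iff_coeffs_subset_range]
  intro c hc
  exact ⟨⟨c, h c hc⟩, rfl⟩

end lifts

section rel

variable {k : Type} [Field k] [Infinite k]

lemma form_zero {D : ℕ} {a : Fin (D + 1) → k} (h : ∀ T : k, ∑ j, a j * T ^ (j : ℕ) = 0) : a = 0 := by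
  classical
  set p : Polynomial k := ∑ j : Fin (D + 1), Polynomial.C (a j) * Polynomial.X ^ (j : ℕ) with hp
  have h1 : p = 0 := by
    apply Polynomial.funext
    intro T
    rw [hp, Polynomial.eval_finsetSum, Polynomial.eval_zero, ← h T]
    refine Finset.sum_congr rfl fun j _ => ?_
    simp
  funext j
  have h2 : p.coeff j = a j := by
    rw [hp, Polynomial.finsetSum_coeff, Finset.sum_eq_single j]
    · simp
    · intro i _ hij
      rw [Polynomial.coeff_C_mul_X_pow, if_neg]
      intro h'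
      exact hij (Fin.ext h'.symm)
    · intro h'
      exact absurd (Finset.mem_univ j) h'
  rw [← h2, h1, Polynomial.coeff_zero]
  rfl

lemma rel_poly {D : ℕ} (q : Fin (D + 1) → Polynomial k) (hq : ∃ j, q j ≠ 0) :
    ∃ P : MvPolynomial (Fin 2) k, P ≠ 0 ∧ ∀ (x : Fin 2 → k) (w : k), x 0 ≠ 0 → relv q x w = 0 →
      eval ![x 1 / x 0, w] P = 0 := by
  classical
  set P : MvPolynomial (Fin 2) k := ∑ j : Fin (D + 1), Polynomial.aeval (X 1) (q j) * X 0 ^ (j : ℕ)
    with hP
  have hev : ∀ T w : k, eval ![T, w] P = ∑ j, (q j).eval w * T ^ (j : ℕ) := by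
    intro T w
    rw [hP, map_sum]
    refine Finset.sum_congr rfl fun j _ => ?_
    rw [map_mul, map_pow, eval_X]
    congr 1
    have h1 : eval ![T, w] (Polynomial.aeval (X 1) (q j)) =
        (Polynomial.aeval (eval ![T, w] (X 1 : MvPolynomial (Fin 2) k))) (q j) := by
      rw [← aeval_eq_eval, ← Polynomial.aeval_algHom_apply]
    rw [h1, eval_X]
    simp [Polynomial.aeval_def, Polynomial.eval₂_eq_eval_map]
  refine ⟨P, ?_, ?_⟩
  · intro h0
    obtain ⟨j, hj⟩ := hq
    apply hj
    apply Polynomial.funext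
    intro w
    have h1 := form_zero (a := fun j => (q j).eval w) (fun T => by
      rw [← hev T w, h0, map_zero])
    rw [Polynomial.eval_zero]
    exact congrFun h1 j
  · intro x w hx h0
    rw [hev]
    apply mul_left_cancel₀ (pow_ne_zero D hx)
    rw [mul_zero, ← h0, relv, Finset.mul_sum]
    refine Finset.sum_congr rfl fun j _ => ?_
    have h1 : x 0 ^ D = x 0 ^ (j : ℕ) * x 0 ^ (D - j) := by
      rw [← pow_add]
      congr 1
      have := j.2
      omega
    rw [h1, div_pow]
    field_simp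

end rel

section numberfield

variable {k : Type} [Field k] [NumberField k] {M d e : ℕ}

/-- if the relation has no horizontal component then the second orbit is infinite -/
lemma second_wander (hd : 2 ≤ d) {g : Fin 2 → MvPolynomial (Fin 2) k} (hg : IsEndo d g)
    {x : Fin 2 → k} (hx : Wander g x) {h : Fin M → MvPolynomial (Fin M) k} {u : Fin M → k}
    (i0 : Fin M) {D : ℕ} (q α : Fin (D + 1) → Polynomial k) (hα : ∑ j, α j * q j = 1) {R : Set ℕ}
    (hR : R.Infinite) (hrel : ∀ n ∈ R, relv q ((pt g)^[n] x) ((pm h)^[n] u i0) = 0) :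
    ∀ i j : ℕ, i ≠ j → (pm h)^[i] u ≠ (pm h)^[j] u := by
  classical
  by_contra hcon
  push Not at hcon
  obtain ⟨i, j, hij, hu⟩ := hcon
  have hx0 : ∀ n, (pt g)^[n] x ≠ 0 := iter_ne hg (wander_ne hg.1 hd hx)
  -- the orbit is finite
  obtain ⟨a, m, hm, ha⟩ : ∃ a m : ℕ, 0 < m ∧ (pm h)^[a + m] u = (pm h)^[a] u := by
    rcases lt_or_gt_of_ne hij with h1 | h1
    · exact ⟨i, j - i, by omega, by rw [show i + (j - i) = j by omega, hu]⟩
    · exact ⟨j, i - j, by omega, by rw [show j + (i - j) = i by omega, hu]⟩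
  have hper : ∀ n ≥ a, (pm h)^[n + m] u = (pm h)^[n] u := by
    intro n hn
    obtain ⟨r, rfl⟩ : ∃ r, n = r + a := ⟨n - a, by omega⟩
    rw [show r + a + m = r + (a + m) by ring, Function.iterate_add_apply, ha,
      ← Function.iterate_add_apply]
  have hpm : ∀ r n, a ≤ n → (pm h)^[n + m * r] u = (pm h)^[n] u := by
    intro r
    induction r with
    | zero => intro n _; rw [mul_zero, add_zero]
    | succ r ih =>
      intro n hn
      rw [mul_add, mul_one, ← add_assoc, hper _ (by omega), ih n hn]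
  -- the forms
  set B : ℕ → MvPolynomial (Fin 2) k := fun r => ∑ j : Fin (D + 1),
    C ((q j).eval ((pm h)^[r] u i0)) * (X 1 ^ (j : ℕ) * X 0 ^ (D - j)) with hB
  have hBev : ∀ r (z : Fin 2 → k), eval z (B r) = relv q z ((pm h)^[r] u i0) := by
    intro r z
    rw [hB, relv]
    simp only [map_sum, map_mul, map_pow, eval_X, eval_C]
  have hBh : ∀ r, (B r).IsHomogeneous D := by
    intro r
    apply IsHomogeneous.sum
    intro j _
    have h1 := (isHomogeneous_C (Fin 2) ((q j).eval ((pm h)^[r] u i0))).mul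
      (((isHomogeneous_X k (1 : Fin 2)).pow (j : ℕ)).mul ((isHomogeneous_X k (0 : Fin 2)).pow (D - j)))
    convert h1 using 1
    have := j.2
    omega
  have hB0 : ∀ r, B r ≠ 0 := by
    intro r h0
    have h1 := form_zero (a := fun j => (q j).eval ((pm h)^[r] u i0)) (fun T => by
      have h2 : eval ![1, T] (B r) = 0 := by rw [h0, map_zero]
      rw [hBev, relv] at h2
      rw [← h2]
      refine Finset.sum_congr rfl fun j _ => ?_
      simp)
    have h2 := congrArg (Polynomial.eval ((pm h)^[r] u i0)) hα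
    rw [Polynomial.eval_finsetSum, Polynomial.eval_one] at h2
    have h3 : ∀ j, (α j * q j).eval ((pm h)^[r] u i0) = 0 := by
      intro j
      rw [Polynomial.eval_mul]
      have := congrFun h1 j
      rw [this, Pi.zero_apply, mul_zero]
    simp only [h3, Finset.sum_const_zero] at h2
    exact zero_ne_one h2
  choose n0 hn0 using fun r => eventually_ne (g := g) (hBh r) (hB0 r) hx0 hx
  obtain ⟨n, hn, hnR⟩ := hR.exists_gt (a + ∑ r ∈ Finset.range (a + m), n0 r)
  set r := a + (n - a) % m with hr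
  have hrm : r < a + m := by have := Nat.mod_lt (n - a) hm; omega
  have h3 := hpm ((n - a) / m) r (by omega)
  have h4 : r + m * ((n - a) / m) = n := by
    have := Nat.mod_add_div (n - a) m
    omega
  rw [h4] at h3
  have h5 : n0 r ≤ ∑ r ∈ Finset.range (a + m), n0 r :=
    Finset.single_le_sum (f := n0) (fun _ _ => Nat.zero_le _) (Finset.mem_range.2 hrm)
  apply hn0 r n (by omega)
  rw [hBev, ← h3]
  exact hrel n hn

end numberfield

section core

variable {L : Type} [Field L] [CharZero L] [IsAlgClosed L] {d e M : ℕ}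

theorem core (hd : 2 ≤ d) (he : 1 ≤ e)
    {g : Fin 2 → MvPolynomial (Fin 2) L} (hg : ∀ i, (g i).IsHomogeneous d)
    (hg0 : ∀ x : Fin 2 → L, (∀ i, eval x (g i) = 0) → x = 0)
    (hE : ∀ v : Fin 2 → L, v ≠ 0 → ∀ c : L, ¬ ∀ x : Fin 2 → L,
      v 0 * (evr g)^[2] x 0 + v 1 * (evr g)^[2] x 1 = c * (v 0 * x 0 + v 1 * x 1) ^ d ^ 2)
    {h : Fin M → MvPolynomial (Fin M) L} (hh : ∀ i, (h i).totalDegree ≤ e)
    (hh0 : ∀ y : Fin M → L, (∀ i, eval y (homogeneousComponent e (h i)) = 0) → y = 0)
    {t : Fin 2 → L} {i1 : Fin 2} (ht1 : t i1 = 1)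
    (hw : ∀ i j : ℕ, i ≠ j → ∀ c : L, (evr g)^[i] t ≠ c • (evr g)^[j] t)
    (u : Fin M → L) (D : Fin M → ℕ) (q : ∀ i, Fin (D i + 1) → Polynomial L)
    (hq : ∀ i, ∃ j, q i j ≠ 0)
    (i0 : Fin M) (α : Fin (D i0 + 1) → Polynomial L) (hα : ∑ j, α j * q i0 j = 1) :
    {n | ∀ i, relv (q i) ((evr g)^[n] t) ((evr h)^[n] u i) = 0}.Finite := by
  classical
  by_contra hinf
  -- certificates
  obtain ⟨m1, q1, h1⟩ := cert_forms g hg0
  obtain ⟨m2, q2, h2⟩ := cert_forms (fun i => homogeneousComponent e (h i)) hh0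
  obtain ⟨m3, c3, h3⟩ := cert_exc (d := d) hd g hE
  choose jj hjj using hq
  have hrr : ∀ i, ∃ r, (q i (jj i)).coeff r ≠ 0 := by
    intro i
    by_contra hcon
    push Not at hcon
    exact hjj i (Polynomial.ext fun r => by rw [hcon r, Polynomial.coeff_zero])
  choose rr hrr using hrr
  -- the ring
  set S1 : Set L := ⋃ i, ((g i).coeffs : Set L) with hS1
  set S2 : Set L := ⋃ (k) (j), ((q1 k j).coeffs : Set L) with hS2
  set S3 : Set L := ⋃ i, ((h i).coeffs : Set L) with hS3
  set S4 : Set L := ⋃ (k) (j), ((q2 k j).coeffs : Set L) with hS4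
  set S5 : Set L := ⋃ k, ⋃ i ∈ (c3 k).support, ((c3 k i).coeffs : Set L) with hS5
  set S6 : Set L := ⋃ k, ⋃ i ∈ (c3 k).support, (Set.range i.1 ∪ Set.range i.2) with hS6
  set S7 : Set L := Set.range t ∪ Set.range u with hS7
  set S8 : Set L := ⋃ (i) (j), ((q i j).coeffs : Set L) with hS8
  set S9 : Set L := ⋃ j, ((α j).coeffs : Set L) with hS9
  set S10 : Set L := Set.range fun i => ((q i (jj i)).coeff (rr i))⁻¹ with hS10
  set SS : Set L := S1 ∪ S2 ∪ S3 ∪ S4 ∪ S5 ∪ S6 ∪ S7 ∪ S8 ∪ S9 ∪ S10 with hSS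
  have hfin : SS.Finite := by
    have f1 : S1.Finite := Set.finite_iUnion fun i => Finset.finite_toSet _
    have f2 : S2.Finite := Set.finite_iUnion fun k => Set.finite_iUnion fun j => Finset.finite_toSet _
    have f3 : S3.Finite := Set.finite_iUnion fun i => Finset.finite_toSet _
    have f4 : S4.Finite := Set.finite_iUnion fun k => Set.finite_iUnion fun j => Finset.finite_toSet _
    have f5 : S5.Finite := Set.finite_iUnion fun k => Set.Finite.biUnion (Finset.finite_toSet _)
      fun i _ => Finset.finite_toSet _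
    have f6 : S6.Finite := Set.finite_iUnion fun k => Set.Finite.biUnion (Finset.finite_toSet _)
      fun i _ => (Set.finite_range _).union (Set.finite_range _)
    have f7 : S7.Finite := (Set.finite_range _).union (Set.finite_range _)
    have f8 : S8.Finite := Set.finite_iUnion fun k => Set.finite_iUnion fun j => Finset.finite_toSet _
    have f9 : S9.Finite := Set.finite_iUnion fun i => Finset.finite_toSet _
    have f10 : S10.Finite := Set.finite_range _
    exact ((((((((f1.union f2).union f3).union f4).union f5).union f6).union f7).union f8).union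
      f9).union f10
  set S : Finset L := hfin.toFinset with hS
  obtain ⟨A₀, hA₀⟩ : ∃ A₀ : Subalgebra ℚ L, A₀ = Algebra.adjoin ℚ (S : Set L) := ⟨_, rfl⟩
  have hsub : SS ⊆ A₀ := by
    intro c hc
    rw [hA₀]
    apply Algebra.subset_adjoin
    rw [hS, Set.Finite.coe_toFinset]
    exact hc
  have hinj : Function.Injective (algebraMap A₀ L) := Subtype.val_injective
  -- the lifts
  choose g' hg' using fun i => lift_mv (A₀ := A₀) (g i) fun c hc => hsub (by
    have : c ∈ S1 := Set.mem_iUnion.2 ⟨i, hc⟩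
    simp only [hSS, Set.mem_union]
    tauto)
  choose q1' hq1' using fun k j => lift_mv (A₀ := A₀) (q1 k j) fun c hc => hsub (by
    have : c ∈ S2 := Set.mem_iUnion₂.2 ⟨k, j, hc⟩
    simp only [hSS, Set.mem_union]
    tauto)
  choose h' hh' using fun i => lift_mv (A₀ := A₀) (h i) fun c hc => hsub (by
    have : c ∈ S3 := Set.mem_iUnion.2 ⟨i, hc⟩
    simp only [hSS, Set.mem_union]
    tauto)
  choose q2' hq2' using fun k j => lift_mv (A₀ := A₀) (q2 k j) fun c hc => hsub (by
    have : c ∈ S4 := Set.mem_iUnion₂.2 ⟨k, j, hc⟩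
    simp only [hSS, Set.mem_union]
    tauto)
  have hc3 : ∀ k i, ∃ p' : MvPolynomial (Fin 2) A₀, map (algebraMap A₀ L) p' = c3 k i := by
    intro k i
    by_cases hi : i ∈ (c3 k).support
    · exact lift_mv (A₀ := A₀) (c3 k i) fun c hc => hsub (by
        have : c ∈ S5 := Set.mem_iUnion.2 ⟨k, Set.mem_iUnion₂.2 ⟨i, hi, hc⟩⟩
        simp only [hSS, Set.mem_union]
        tauto)
    · refine ⟨0, ?_⟩
      rw [Finsupp.notMem_support_iff.1 hi, map_zero]
  choose c3' hc3' using hc3
  have hpt : ∀ k i, ∃ p : (Fin 2 → A₀) × (Fin 2 → A₀), i ∈ (c3 k).support →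
      (fun a => algebraMap A₀ L (p.1 a)) = i.1 ∧ (fun a => algebraMap A₀ L (p.2 a)) = i.2 := by
    intro k i
    by_cases hi : i ∈ (c3 k).support
    · have hm : ∀ c, c ∈ Set.range i.1 ∪ Set.range i.2 → c ∈ A₀ := fun c hc => hsub (by
        have : c ∈ S6 := Set.mem_iUnion.2 ⟨k, Set.mem_iUnion₂.2 ⟨i, hi, hc⟩⟩
        simp only [hSS, Set.mem_union]
        tauto)
      exact ⟨(fun a => ⟨i.1 a, hm _ (Or.inl ⟨a, rfl⟩)⟩, fun a => ⟨i.2 a, hm _ (Or.inr ⟨a, rfl⟩)⟩),
        fun _ => ⟨rfl, rfl⟩⟩
    · exact ⟨0, fun h => absurd h hi⟩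
  choose P hP using hpt
  have hm7 : ∀ c, c ∈ S7 → c ∈ A₀ := fun c hc => hsub (by
    simp only [hSS, Set.mem_union]
    tauto)
  obtain ⟨t', ht'⟩ : ∃ t' : Fin 2 → A₀, (fun a => algebraMap A₀ L (t' a)) = t :=
    ⟨fun a => ⟨t a, hm7 _ (Or.inl ⟨a, rfl⟩)⟩, rfl⟩
  obtain ⟨u', hu'⟩ : ∃ u' : Fin M → A₀, (fun a => algebraMap A₀ L (u' a)) = u :=
    ⟨fun a => ⟨u a, hm7 _ (Or.inr ⟨a, rfl⟩)⟩, rfl⟩
  choose q' hq' using fun i j => lift_po (A₀ := A₀) (q i j) fun c hc => hsub (by
    have : c ∈ S8 := Set.mem_iUnion₂.2 ⟨i, j, hc⟩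
    simp only [hSS, Set.mem_union]
    tauto)
  choose α' hα' using fun j => lift_po (A₀ := A₀) (α j) fun c hc => hsub (by
    have : c ∈ S9 := Set.mem_iUnion.2 ⟨j, hc⟩
    simp only [hSS, Set.mem_union]
    tauto)
  have hm10 : ∀ i, ((q i (jj i)).coeff (rr i))⁻¹ ∈ A₀ := fun i => hsub (by
    have : ((q i (jj i)).coeff (rr i))⁻¹ ∈ S10 := ⟨i, rfl⟩
    simp only [hSS, Set.mem_union]
    tauto)
  -- identities over the ring
  have E1 : ∀ k, ∑ j, q1' k j * g' j = X k ^ m1 k := by
    intro k
    apply map_injective _ hinj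
    rw [map_sum, map_pow, map_X, ← h1 k]
    refine Finset.sum_congr rfl fun j _ => ?_
    rw [map_mul, hq1', hg']
  have E2 : ∀ k, ∑ j, q2' k j * homogeneousComponent e (h' j) = X k ^ m2 k := by
    intro k
    apply map_injective _ hinj
    rw [map_sum, map_pow, map_X, ← h2 k]
    refine Finset.sum_congr rfl fun j _ => ?_
    rw [map_mul, hq2', ← hc_map, hh']
  have E3 : ∀ k, ∑ i ∈ (c3 k).support, c3' k i * wp g' (d ^ 2) (P k i).1 (P k i).2 = X k ^ m3 k := by
    intro k
    apply map_injective _ hinj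
    rw [map_sum, map_pow, map_X, ← h3 k, Finsupp.sum]
    refine Finset.sum_congr rfl fun i hi => ?_
    obtain ⟨p1, p2⟩ := hP k i hi
    rw [map_mul, hc3', ← wp_map, p1, p2]
    congr 2
    funext a
    exact hg' a
  have E4 : ∀ i, (q' i (jj i)).coeff (rr i) * ⟨_, hm10 i⟩ = 1 := by
    intro i
    apply hinj
    rw [map_mul, map_one, ← Polynomial.coeff_map, hq']
    exact mul_inv_cancel₀ (hrr i)
  have E5 : ∑ j, α' j * q' i0 j = 1 := by
    apply Polynomial.map_injective _ hinj
    rw [Polynomial.map_sum, Polynomial.map_one, ← hα]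
    refine Finset.sum_congr rfl fun j _ => ?_
    rw [Polynomial.map_mul, hα', hq']
  have hg'h : ∀ i, (g' i).IsHomogeneous d := fun i => IsHomogeneous.of_map hinj (by
    rw [hg']
    exact hg i)
  have horb : ∀ n, (fun a => algebraMap A₀ L ((evr g')^[n] t' a)) = (evr g)^[n] t := by
    intro n
    rw [← evr_iter_map, ht']
    congr 2
    funext a
    rw [hg']
  have horb' : ∀ n, (fun a => algebraMap A₀ L ((evr h')^[n] u' a)) = (evr h)^[n] u := by
    intro n
    rw [← evr_iter_map, hu']
    congr 2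
    funext a
    rw [hh']
  obtain ⟨k, _, _, β, hβ⟩ := spec_hom S A₀ hA₀ hd g' hg'h m1 q1' E1 t' i1 (by
    apply hinj
    rw [map_one, ← ht1, ← ht']) (fun i j hij c => by
      rw [horb, horb]
      exact hw i j hij c)
  set gk : Fin 2 → MvPolynomial (Fin 2) k := fun i => map β (g' i) with hgk
  set hk : Fin M → MvPolynomial (Fin M) k := fun i => map β (h' i) with hhk
  set tk : Fin 2 → k := fun a => β (t' a) with htk
  set uk : Fin M → k := fun a => β (u' a) with huk
  set qk : ∀ i, Fin (D i + 1) → Polynomial k := fun i j => (q' i j).map β with hqk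
  have horbk : ∀ n, (pt gk)^[n] tk = fun a => β ((evr g')^[n] t' a) := fun n => evr_iter_map β g' t' n
  have horbk' : ∀ n, (pm hk)^[n] uk = fun a => β ((evr h')^[n] u' a) := fun n => evr_iter_map β h' u' n
  set γ : A₀ →+* AlgebraicClosure k := (algebraMap k (AlgebraicClosure k)).comp β with hγ
  have hev : ∀ {n : ℕ} (p : MvPolynomial (Fin n) A₀) (x : Fin n → AlgebraicClosure k),
      aeval x (map β p) = eval x (map γ p) := by
    intro n p x
    rw [aeval_def, ← eval_map, map_map]
  -- the specialized maps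
  have hgE : IsEndo d gk := by
    refine ⟨fun i => (hg'h i).map β, fun x hx => ?_⟩
    funext i
    have h4 := congrArg (fun p => eval x (map γ p)) (E1 i)
    simp only [map_sum, map_mul, map_pow, map_X, eval_X] at h4
    have h5 : ∀ j, eval x (map γ (g' j)) = 0 := fun j => by rw [← hev]; exact hx j
    simp only [h5, mul_zero, Finset.sum_const_zero] at h4
    by_contra h6
    exact pow_ne_zero _ h6 h4.symm
  have hRe : Regular e hk := by
    refine ⟨fun i => (td_map β (h' i)).trans ?_, fun y hy => ?_⟩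
    · rw [td_of_map hinj, hh']
      exact hh i
    · funext i
      have h4 := congrArg (fun p => eval y (map γ p)) (E2 i)
      simp only [map_sum, map_mul, map_pow, map_X, eval_X] at h4
      have h5 : ∀ j, eval y (map γ (homogeneousComponent e (h' j))) = 0 := fun j => by
        rw [← hev, ← hc_map]
        exact hy j
      simp only [h5, mul_zero, Finset.sum_const_zero] at h4
      by_contra h6
      exact pow_ne_zero _ h6 h4.symm
  have hNE : NoExcept d gk := by
    intro v c hv hid
    apply hv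
    funext i
    have h4 := congrArg (fun p => eval v (map γ p)) (E3 i)
    simp only [map_sum, map_mul, map_pow, map_X, eval_X] at h4
    have hevg : (ev gk : (Fin 2 → AlgebraicClosure k) → _) = evr fun a => map γ (g' a) := by
      funext x a
      rw [ev, evr, hgk]
      exact hev _ _
    have h5 : ∀ x y, eval v (map γ (wp g' (d ^ 2) x y)) = 0 := by
      intro x y
      rw [← wp_map, wp]
      simp only [map_sub, map_mul, map_add, map_pow, eval_X, eval_C]
      rw [← hevg, hid, hid]
      ring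
    simp only [h5, mul_zero, Finset.sum_const_zero] at h4
    by_contra h6
    exact pow_ne_zero _ h6 h4.symm
  have hW : Wander gk tk := by
    intro i j hij c hc
    rw [horbk, horbk] at hc
    exact hβ i j hij c hc
  -- the relations
  have hrelk : ∀ n, (∀ i, relv (q i) ((evr g)^[n] t) ((evr h)^[n] u i) = 0) →
      ∀ i, relv (qk i) ((pt gk)^[n] tk) ((pm hk)^[n] uk i) = 0 := by
    intro n hn i
    have h4 : relv (q' i) ((evr g')^[n] t') ((evr h')^[n] u' i) = 0 := by
      apply hinj
      rw [map_zero, ← relv_map, horb n]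
      have h5 : (fun j => Polynomial.map (algebraMap A₀ L) (q' i j)) = q i := funext fun j => hq' i j
      rw [h5, ← hn i]
      congr 1
      exact congrFun (horb' n) i
    rw [horbk, horbk']
    have h5 := relv_map β (q' i) ((evr g')^[n] t') ((evr h')^[n] u' i)
    rw [h4, map_zero] at h5
    exact h5
  have hEk : ∑ j, (α' j).map β * qk i0 j = 1 := by
    have := congrArg (Polynomial.map β) E5
    rw [Polynomial.map_sum, Polynomial.map_one] at this
    rw [← this]
    refine Finset.sum_congr rfl fun j _ => ?_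
    rw [Polynomial.map_mul]
  have huw := second_wander hd hgE hW (h := hk) (u := uk) i0 (qk i0) (fun j => (α' j).map β) hEk
    (R := {n | ∀ i, relv (q i) ((evr g)^[n] t) ((evr h)^[n] u i) = 0}) hinf
    (fun n hn => hrelk n hn i0)
  have hqk0 : ∀ i, ∃ j, qk i j ≠ 0 := by
    intro i
    refine ⟨jj i, fun h0 => ?_⟩
    have h4 := congrArg β (E4 i)
    rw [map_mul, map_one, ← Polynomial.coeff_map] at h4
    have h5 : (Polynomial.map β (q' i (jj i))).coeff (rr i) = 0 := by
      have : Polynomial.map β (q' i (jj i)) = 0 := h0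
      rw [this, Polynomial.coeff_zero]
    rw [h5, zero_mul] at h4
    exact zero_ne_one h4
  have hfinal := product_all hgE hd hNE he hRe hW huw (L := k)
    {p : (Fin 2 → k) × (Fin M → k) | ∀ i, relv (qk i) p.1 (p.2 i) = 0} (fun i => by
      obtain ⟨P, hP0, hP⟩ := rel_poly (qk i) (hqk0 i)
      exact ⟨P, hP0, fun p hp hp0 => hP p.1 (p.2 i) hp0 (hp i)⟩)
  apply hinf
  apply hfinal.subset
  intro n hn
  exact hrelk n hn

end core

end Pool.Agent.H422.SK
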