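import Mathlib
import Pool.Agent.H422.SK.Core

set_option autoImplicit false
set_option linter.unusedSectionVars false

/-!
The theorem on products over arbitrary fields of characteristic zero.
-/

namespace Pool.Agent.H422.SK

open MvPolynomial
open Pool.Agent.Q170.HG (pt IsEndo)

section rel2

variable {K : Type} [Field K] [CharZero K]

lemma rel_of_poly (P : MvPolynomial (Fin 2) K) (hP : P ≠ 0) :
    ∃ (D : ℕ) (q : Fin (D + 1) → Polynomial K), (∃ j, q j ≠ 0) ∧
      ∀ (x : Fin 2 → K) (w : K), x 0 ≠ 0 → eval ![x 1 / x 0, w] P = 0 → relv q x w = 0 := by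
  classical
  set P' : MvPolynomial (Fin 2) K := rename (Equiv.swap (0 : Fin 2) 1) P with hP'
  have hP0 : P' ≠ 0 := by
    intro h0
    apply hP
    apply rename_injective _ (Equiv.injective (Equiv.swap (0 : Fin 2) 1))
    rw [map_zero]
    exact h0
  have hsw : ∀ a b : K, eval ![a, b] P' = eval ![b, a] P := by
    intro a b
    rw [hP', eval_rename]
    congr 1
    congr 1
    funext i
    fin_cases i <;> simp
  obtain ⟨Q, hQ, hQP⟩ := to_poly P' hP0
  refine ⟨Q.natDegree, fun j => Q.coeff j, ⟨Fin.last _, ?_⟩, ?_⟩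
  · have h1 : Q.leadingCoeff ≠ 0 := Polynomial.leadingCoeff_ne_zero.2 hQ
    exact h1
  · intro x w hx h0
    rw [← hsw, ← hQP, Polynomial.evalEval, Polynomial.eval_eq_sum_range (p := Q),
      Polynomial.eval_finsetSum] at h0
    have h1 : relv (fun j : Fin (Q.natDegree + 1) => Q.coeff j) x w = x 0 ^ Q.natDegree *
        ∑ i ∈ Finset.range (Q.natDegree + 1), Polynomial.eval w (Q.coeff i * Polynomial.C (x 1 / x 0) ^ i) := by
      rw [relv, Finset.sum_range, Finset.mul_sum]
      refine Finset.sum_congr rfl fun j _ => ?_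
      have h2 : x 0 ^ Q.natDegree = x 0 ^ (j : ℕ) * x 0 ^ (Q.natDegree - j) := by
        rw [← pow_add]
        congr 1
        have := j.2
        omega
      rw [Polynomial.eval_mul, Polynomial.eval_pow, Polynomial.eval_C, h2, div_pow]
      field_simp
    rw [h1, h0, mul_zero]

end rel2

section any

variable {K : Type} [Field K] [CharZero K] {d e M : ℕ} {g : Fin 2 → MvPolynomial (Fin 2) K}

lemma pt_zero' (hg : ∀ i, (g i).IsHomogeneous d) (hd : 2 ≤ d) : pt g 0 = 0 :=
  evr_zero (by omega) hg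

lemma wander_ne' (hg : ∀ i, (g i).IsHomogeneous d) (hd : 2 ≤ d) {x : Fin 2 → K} (hx : Wander g x)
    (n : ℕ) : (pt g)^[n] x ≠ 0 := by
  intro h0
  apply hx (n + 1) n (by omega) 0
  rw [Function.iterate_succ_apply', h0, pt_zero' hg hd, zero_smul]

lemma iter_smul_any (hg : ∀ i, (g i).IsHomogeneous d) (c : K) (x : Fin 2 → K) (j : ℕ) :
    (pt g)^[j] (c • x) = c ^ (d ^ j) • (pt g)^[j] x := by
  induction j with
  | zero => simp
  | succ j ih =>
    rw [Function.iterate_succ_apply', Function.iterate_succ_apply', ih]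
    funext i
    have h1 := aeval_smul_hom (hg i) (c ^ d ^ j) ((pt g)^[j] x)
    rw [aeval_eq_eval, aeval_eq_eval] at h1
    rw [Pi.smul_apply, smul_eq_mul, pow_succ, pow_mul]
    exact h1

lemma wander_smul_any (hg : ∀ i, (g i).IsHomogeneous d) {x : Fin 2 → K} (hx : Wander g x) {c : K}
    (hc : c ≠ 0) : Wander g (c • x) := by
  intro i j hij c' h
  rw [iter_smul_any hg, iter_smul_any hg, smul_smul] at h
  apply hx i j hij ((c ^ d ^ i)⁻¹ * (c' * c ^ d ^ j))
  rw [mul_smul, ← h, inv_smul_smul₀ (pow_ne_zero _ hc)]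

/-- **The theorem on products over any field of characteristic zero.** -/
theorem product_any (hg : IsEndo d g) (hd : 2 ≤ d) (hE : NoExcept d g) (he : 1 ≤ e)
    {h : Fin M → MvPolynomial (Fin M) K} (hh : Regular e h) {x : Fin 2 → K} (hx : Wander g x)
    {u : Fin M → K} (hu : ∀ i j : ℕ, i ≠ j → (pm h)^[i] u ≠ (pm h)^[j] u)
    (V : Set ((Fin 2 → K) × (Fin M → K)))
    (hV : ∀ i, ∃ P : MvPolynomial (Fin 2) K, P ≠ 0 ∧ ∀ p ∈ V, p.1 0 ≠ 0 →
      eval ![p.1 1 / p.1 0, p.2 i] P = 0) :
    {n | (((pt g)^[n] x, (pm h)^[n] u) : (Fin 2 → K) × (Fin M → K)) ∈ V}.Finite := by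
  classical
  have hx0 : ∀ n, (pt g)^[n] x ≠ 0 := wander_ne' hg.1 hd hx
  -- normalization of the point
  obtain ⟨i1, hi1⟩ : ∃ i, x i ≠ 0 := by
    by_contra hcon
    push Not at hcon
    exact hx0 0 (funext hcon)
  set c0 : K := (x i1)⁻¹ with hc0
  have hc0' : c0 ≠ 0 := inv_ne_zero hi1
  set t : Fin 2 → K := c0 • x with ht
  have hwt : Wander g t := wander_smul_any hg.1 hx hc0'
  have ht0 : ∀ n, (pt g)^[n] t ≠ 0 := wander_ne' hg.1 hd hwt
  -- the relations
  choose P hP hPV using hV
  choose D q0 hq0 hrel using fun i => rel_of_poly (P i) (hP i)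
  -- the larger field
  set σ : K →+* AlgebraicClosure K := algebraMap K (AlgebraicClosure K) with hσ
  have hσi : Function.Injective σ := σ.injective
  set gL : Fin 2 → MvPolynomial (Fin 2) (AlgebraicClosure K) := fun i => map σ (g i) with hgL
  set hL : Fin M → MvPolynomial (Fin M) (AlgebraicClosure K) := fun i => map σ (h i) with hhL
  have horb : ∀ n, (evr gL)^[n] (fun a => σ (t a)) = fun a => σ ((pt g)^[n] t a) :=
    fun n => evr_iter_map σ g t n
  have horb' : ∀ n, (evr hL)^[n] (fun a => σ (u a)) = fun a => σ ((pm h)^[n] u a) :=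
    fun n => evr_iter_map σ h u n
  have hev : ∀ {n : ℕ} (p : MvPolynomial (Fin n) K) (y : Fin n → AlgebraicClosure K),
      aeval y p = eval y (map σ p) := by
    intro n p y
    rw [aeval_def, ← eval_map]
  have b1 : ∀ i, (gL i).IsHomogeneous d := fun i => (hg.1 i).map σ
  have b2 : ∀ y : Fin 2 → AlgebraicClosure K, (∀ i, eval y (gL i) = 0) → y = 0 := by
    intro y hy
    exact hg.2 y fun i => by
      rw [hev]
      exact hy i
  have hevg : (ev g : (Fin 2 → AlgebraicClosure K) → _) = evr gL := by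
    funext y a
    exact hev _ _
  have b3 : ∀ v : Fin 2 → AlgebraicClosure K, v ≠ 0 → ∀ c : AlgebraicClosure K,
      ¬ ∀ y : Fin 2 → AlgebraicClosure K,
      v 0 * (evr gL)^[2] y 0 + v 1 * (evr gL)^[2] y 1 = c * (v 0 * y 0 + v 1 * y 1) ^ d ^ 2 := by
    intro v hv c hid
    rw [← hevg] at hid
    exact hE v c hv hid
  have b4 : ∀ i, (hL i).totalDegree ≤ e := fun i => (td_map σ (h i)).trans (hh.1 i)
  have b5 : ∀ y : Fin M → AlgebraicClosure K, (∀ i, eval y (homogeneousComponent e (hL i)) = 0) →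
      y = 0 := by
    intro y hy
    exact hh.2 y fun i => by
      rw [hev, ← hc_map]
      exact hy i
  have b6 : σ (t i1) = 1 := by
    rw [ht, Pi.smul_apply, smul_eq_mul, hc0, inv_mul_cancel₀ hi1, map_one]
  have b7 : ∀ i j : ℕ, i ≠ j → ∀ c : AlgebraicClosure K,
      (evr gL)^[i] (fun a => σ (t a)) ≠ c • (evr gL)^[j] fun a => σ (t a) := by
    intro i j hij c hc
    rw [horb, horb] at hc
    obtain ⟨b, hb⟩ : ∃ b, (pt g)^[j] t b ≠ 0 := by
      by_contra hcon
      push Not at hcon
      exact ht0 j (funext hcon)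
    have h1 := congrFun hc b
    rw [Pi.smul_apply, smul_eq_mul] at h1
    have h2 : c = σ ((pt g)^[i] t b / (pt g)^[j] t b) := by
      rw [map_div₀, eq_div_iff ((map_ne_zero _).2 hb)]
      exact h1.symm
    apply hwt i j hij ((pt g)^[i] t b / (pt g)^[j] t b)
    funext a
    apply hσi
    have h3 := congrFun hc a
    rw [Pi.smul_apply, smul_eq_mul, h2, ← map_mul] at h3
    exact h3
  -- removing the contents
  set qL : ∀ i, Fin (D i + 1) → Polynomial (AlgebraicClosure K) := fun i j => (q0 i j).map σ with hqL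
  have hqL0 : ∀ i, ∃ j, qL i j ≠ 0 := by
    intro i
    obtain ⟨j, hj⟩ := hq0 i
    exact ⟨j, (Polynomial.map_ne_zero_iff hσi).2 hj⟩
  choose cc q' α hcc hq' hα using fun i => split_content (qL i) (hqL0 i)
  have hq'0 : ∀ i, ∃ j, q' i j ≠ 0 := by
    intro i
    obtain ⟨j, hj⟩ := hqL0 i
    refine ⟨j, fun h0 => hj ?_⟩
    rw [hq' i j, h0, mul_zero]
  -- the finite sets
  have f1 : {n : ℕ | ∀ i, (cc i).eval (σ ((pm h)^[n] u i)) = 0}.Finite := by
    have hinj : Function.Injective fun n : ℕ => fun i => σ ((pm h)^[n] u i) := by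
      intro a b hab
      by_contra hne
      apply hu a b hne
      funext i
      exact hσi (congrFun hab i)
    have hfin : {y : Fin M → AlgebraicClosure K | ∀ i, y i ∈ ((cc i).roots.toFinset : Set _)}.Finite :=
      Set.Finite.pi' fun i => Finset.finite_toSet _
    refine (hfin.preimage hinj.injOn).subset ?_
    intro n hn i
    rw [Finset.mem_coe, Multiset.mem_toFinset, Polynomial.mem_roots (hcc i)]
    exact hn i
  have f2 : {n : ℕ | (pt g)^[n] x 0 = 0}.Finite := by
    apply Set.Subsingleton.finite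
    intro i hi j hj
    by_contra hij
    have hi' : (pt g)^[i] x 0 = 0 := hi
    have hj' : (pt g)^[j] x 0 = 0 := hj
    have hj1 : (pt g)^[j] x 1 ≠ 0 := by
      intro h
      apply hx0 j
      funext q
      fin_cases q
      · exact hj'
      · exact h
    apply hx i j hij ((pt g)^[i] x 1 / (pt g)^[j] x 1)
    funext q
    fin_cases q
    · simp [hi', hj']
    · simp [div_mul_cancel₀ _ hj1]
  have f3 : ∀ i0 : Fin M, {n | ∀ i, relv (if i = i0 then q' i else qL i)
      ((evr gL)^[n] fun a => σ (t a)) ((evr hL)^[n] (fun a => σ (u a)) i) = 0}.Finite := by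
    intro i0
    refine core hd he b1 b2 b3 b4 b5 b6 b7 (fun a => σ (u a)) D
      (fun i => if i = i0 then q' i else qL i) (fun i => ?_) i0 (α i0) ?_
    · by_cases hi : i = i0
      · obtain ⟨j, hj⟩ := hq'0 i
        exact ⟨j, by rw [if_pos hi]; exact hj⟩
      · obtain ⟨j, hj⟩ := hqL0 i
        exact ⟨j, by rw [if_neg hi]; exact hj⟩
    · refine (Finset.sum_congr rfl fun j _ => ?_).trans (hα i0)
      exact congrArg (fun z => α i0 j * z) (congrFun (if_pos rfl) j)
  have f4 : (⋃ i0, {n | ∀ i, relv (if i = i0 then q' i else qL i)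
      ((evr gL)^[n] fun a => σ (t a)) ((evr hL)^[n] (fun a => σ (u a)) i) = 0}).Finite :=
    Set.finite_iUnion f3
  apply ((f1.union f2).union f4).subset
  intro n hn
  by_cases hn1 : ∀ i, (cc i).eval (σ ((pm h)^[n] u i)) = 0
  · exact Or.inl (Or.inl hn1)
  · by_cases hn2 : (pt g)^[n] x 0 = 0
    · exact Or.inl (Or.inr hn2)
    · right
      push Not at hn1
      obtain ⟨i0, hi0⟩ := hn1
      rw [Set.mem_iUnion]
      refine ⟨i0, fun i => ?_⟩
      have e1 := horb n
      have e2 := congrFun (horb' n) i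
      rw [e2, e1]
      -- the relation over `K`
      have h1 : relv (q0 i) ((pt g)^[n] t) ((pm h)^[n] u i) = 0 := by
        have h0 : (pt g)^[n] t = c0 ^ d ^ n • (pt g)^[n] x := iter_smul_any hg.1 c0 x n
        have hp := hPV i ((pt g)^[n] x, (pm h)^[n] u) hn hn2
        have hr : relv (q0 i) ((pt g)^[n] x) ((pm h)^[n] u i) = 0 :=
          hrel i ((pt g)^[n] x) ((pm h)^[n] u i) hn2 hp
        rw [h0, relv_smul, hr, mul_zero]
      have h2 : relv (qL i) (fun a => σ ((pt g)^[n] t a)) (σ ((pm h)^[n] u i)) = 0 := by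
        have h0 := relv_map σ (q0 i) ((pt g)^[n] t) ((pm h)^[n] u i)
        rw [h1, map_zero] at h0
        exact h0
      by_cases hi : i = i0
      · rw [if_pos hi]
        have h3 : relv (qL i) (fun a => σ ((pt g)^[n] t a)) (σ ((pm h)^[n] u i)) =
            (cc i).eval (σ ((pm h)^[n] u i)) *
              relv (q' i) (fun a => σ ((pt g)^[n] t a)) (σ ((pm h)^[n] u i)) := by
          rw [relv, relv, Finset.mul_sum]
          refine Finset.sum_congr rfl fun j _ => ?_
          rw [hq' i j, Polynomial.eval_mul]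
          ring
        rw [h3] at h2
        refine (mul_eq_zero.1 h2).resolve_left ?_
        rw [hi]
        exact hi0
      · rw [if_neg hi]
        exact h2

end any

end Pool.Agent.H422.SK
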