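import Mathlib
import Pool.Agent.H422.SK.Any
import Pool.Agent.H422.SK.Full

set_option autoImplicit false
set_option linter.unusedSectionVars false

/-!
The complete Dynamical Mordell-Lang property of the product of a rational function and a polynomial, over
arbitrary fields of characteristic zero.
-/

namespace Pool.Agent.H422.SK

open MvPolynomial
open Pool.Agent.Q170.HG (pt IsEndo)

section aux

variable {α : Type} {f : α → α} {a : α}

lemma per_of_eq {i j : ℕ} (hij : i ≠ j) (h : f^[i] a = f^[j] a) :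
    ∃ N m : ℕ, 0 < m ∧ ∀ r n, N ≤ n → f^[n + m * r] a = f^[n] a := by
  obtain ⟨N, m, hm, ha⟩ : ∃ N m : ℕ, 0 < m ∧ f^[N + m] a = f^[N] a := by
    rcases lt_or_gt_of_ne hij with h1 | h1
    · exact ⟨i, j - i, by omega, by rw [show i + (j - i) = j by omega, h]⟩
    · exact ⟨j, i - j, by omega, by rw [show j + (i - j) = i by omega, h]⟩
  have hper : ∀ n ≥ N, f^[n + m] a = f^[n] a := by
    intro n hn
    obtain ⟨r, rfl⟩ : ∃ r, n = r + N := ⟨n - N, by omega⟩
    rw [show r + N + m = r + (N + m) by ring, Function.iterate_add_apply, ha,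
      ← Function.iterate_add_apply]
  refine ⟨N, m, hm, fun r => ?_⟩
  induction r with
  | zero => intro n _; rw [mul_zero, add_zero]
  | succ r ih =>
    intro n hn
    rw [mul_add, mul_one, ← add_assoc, hper _ (by omega), ih n hn]

end aux

variable {K : Type} [Field K] [CharZero K] {d e M : ℕ} {g : Fin 2 → MvPolynomial (Fin 2) K}

/-- a form of degree `p` which vanishes at infinitely many members of a sequence of different points is
zero at all points -/
lemma form_finite_any {x : ℕ → Fin 2 → K} (hx0 : ∀ n, x n ≠ 0)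
    (hx : ∀ i j : ℕ, i ≠ j → ∀ c : K, x i ≠ c • x j)
    {p : ℕ} (f : (Fin 2 → K) → K) (hf : ∀ (c : K) (y : Fin 2 → K), f (c • y) = c ^ p * f y)
    (b : Polynomial K) (hb : ∀ t, f ![1, t] = b.eval t) (hne : ∃ y, y 0 ≠ 0 ∧ f y ≠ 0) :
    {n | f (x n) = 0}.Finite := by
  classical
  have key : ∀ y : Fin 2 → K, y 0 ≠ 0 → f y = y 0 ^ p * b.eval (y 1 / y 0) := by
    intro y hy
    rw [← hb, ← hf]
    congr 1
    funext i
    fin_cases i
    · simp
    · simp [mul_div_cancel₀ _ hy]
  have hb0 : b ≠ 0 := by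
    rintro rfl
    obtain ⟨y, hy, hfy⟩ := hne
    apply hfy
    rw [key y hy, Polynomial.eval_zero, mul_zero]
  have h1 : {n | x n 0 = 0}.Finite := by
    apply Set.Subsingleton.finite
    intro i hi j hj
    by_contra hij
    have hi' : x i 0 = 0 := hi
    have hj' : x j 0 = 0 := hj
    have hj1 : x j 1 ≠ 0 := by
      intro h
      apply hx0 j
      funext q
      fin_cases q
      · exact hj'
      · exact h
    apply hx i j hij (x i 1 / x j 1)
    funext q
    fin_cases q
    · simp [hi', hj']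
    · simp [div_mul_cancel₀ _ hj1]
  have h2 : {n | x n 0 ≠ 0 ∧ x n 1 / x n 0 ∈ b.roots.toFinset}.Finite := by
    apply Set.Finite.of_injOn (f := fun n => x n 1 / x n 0)
      (t := (b.roots.toFinset : Set K)) (fun n hn => hn.2)
    · intro i hi j hj he'
      by_contra hij
      apply hx i j hij (x i 0 / x j 0)
      have he'' : x i 1 / x i 0 = x j 1 / x j 0 := he'
      rw [div_eq_div_iff hi.1 hj.1] at he''
      funext q
      have hj0 := hj.1
      fin_cases q
      · simp [div_mul_cancel₀ _ hj0]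
      · simp only [Fin.mk_one, Fin.isValue, Pi.smul_apply, smul_eq_mul]
        field_simp
        linear_combination he''
    · exact Finset.finite_toSet _
  apply (h1.union h2).subset
  intro n hn
  by_cases h0 : x n 0 = 0
  · exact Or.inl h0
  · right
    refine ⟨h0, ?_⟩
    have h4 := key (x n) h0
    have hn' : f (x n) = 0 := hn
    rw [hn'] at h4
    have h5 := (mul_eq_zero.1 h4.symm).resolve_left (pow_ne_zero _ h0)
    rw [Multiset.mem_toFinset, Polynomial.mem_roots hb0, Polynomial.IsRoot.def]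
    exact h5

/-- the sets given by equations -/
def Eqs (W : Set (MvPolynomial (Fin 2 ⊕ Fin M) K)) (x : Fin 2 → K) (u : Fin M → K) : Prop :=
  ∀ F ∈ W, eval (Sum.elim x u) F = 0

/-- the equations are homogeneous in the first two variables -/
def WH (W : Set (MvPolynomial (Fin 2 ⊕ Fin M) K)) : Prop :=
  ∀ F ∈ W, ∃ p : ℕ, ∀ (c : K) (x : Fin 2 → K) (u : Fin M → K),
    eval (Sum.elim (c • x) u) F = c ^ p * eval (Sum.elim x u) F

lemma eqs_smul {W : Set (MvPolynomial (Fin 2 ⊕ Fin M) K)} (hW : WH W) {c : K} (hc : c ≠ 0)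
    (x : Fin 2 → K) (u : Fin M → K) : Eqs W (c • x) u ↔ Eqs W x u := by
  refine forall₂_congr fun F hF => ?_
  obtain ⟨p, hp⟩ := hW F hF
  rw [hp]
  constructor
  · intro h
    exact (mul_eq_zero.1 h).resolve_left (pow_ne_zero _ hc)
  · intro h
    rw [h, mul_zero]

/-- the second point is preperiodic -/
theorem evper_second {x : ℕ → Fin 2 → K} (hx0 : ∀ n, x n ≠ 0)
    (hx : ∀ i j : ℕ, i ≠ j → ∀ c : K, x i ≠ c • x j) {U : ℕ → Fin M → K} {a m : ℕ} (hm : 0 < m)
    (hU : ∀ r n, a ≤ n → U (n + m * r) = U n) {W : Set (MvPolynomial (Fin 2 ⊕ Fin M) K)} (hW : WH W) :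
    EvPer fun n => Eqs W (x n) (U n) := by
  classical
  apply evPer_of (z := fun n => ∀ F ∈ W, ∀ y : Fin 2 → K, eval (Sum.elim y (U n)) F = 0)
    (N := a) hm (fun n hn => by
      have := hU 1 n hn
      rw [mul_one] at this
      rw [this]) (fun n hn F hF => hn F hF _)
  -- finitely many exceptional times
  have hcl : ∀ r : ℕ, {n | (¬ ∀ F ∈ W, ∀ y : Fin 2 → K, eval (Sum.elim y (U r)) F = 0) ∧
      Eqs W (x n) (U r)}.Finite := by
    intro r
    by_cases hz : ∀ F ∈ W, ∀ y : Fin 2 → K, eval (Sum.elim y (U r)) F = 0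
    · apply Set.finite_empty.subset
      intro n hn
      exact absurd hz hn.1
    · have hz' := hz
      push Not at hz'
      obtain ⟨F, hF, y, hy⟩ := hz'
      obtain ⟨p, hp⟩ := hW F hF
      have hne : ∃ y : Fin 2 → K, y 0 ≠ 0 ∧ eval (Sum.elim y (U r)) F ≠ 0 := by
        by_contra hcon
        push Not at hcon
        -- the polynomial `X 0 * F` vanishes at all points over `U r`
        have h2 : ∀ z, eval z (aeval (Sum.elim MvPolynomial.X fun i => C (U r i)) F) =
            eval (Sum.elim z (U r)) F := by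
          intro z
          rw [← aeval_eq_eval, ← AlgHom.comp_apply, comp_aeval, ← aeval_eq_eval]
          congr 2
          funext q
          rcases q with q | q
          · simp
          · simp
        have h1 : (MvPolynomial.X 0 : MvPolynomial (Fin 2) K) *
            aeval (Sum.elim MvPolynomial.X fun i => C (U r i)) F = 0 := by
          apply MvPolynomial.funext
          intro z
          rw [map_mul, eval_X, map_zero]
          by_cases hz0 : z 0 = 0
          · rw [hz0, zero_mul]
          · rw [h2 z, hcon z hz0, mul_zero]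
        rcases mul_eq_zero.1 h1 with h3 | h3
        · exact X_ne_zero _ h3
        · apply hy
          rw [← h2 y, h3, map_zero]
      have h1 := form_finite_any (x := x) hx0 hx (p := p)
        (fun y : Fin 2 → K => eval (Sum.elim y (U r)) F) (fun c y => hp c y _)
        (aeval (Sum.elim ![1, Polynomial.X] fun i => Polynomial.C (U r i)) F) (fun t => by
          have h2 : ∀ Q : MvPolynomial (Fin 2 ⊕ Fin M) K, Polynomial.eval t
              (aeval (Sum.elim ![1, Polynomial.X] fun i => Polynomial.C (U r i)) Q) =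
              eval (Sum.elim ![1, t] (U r)) Q := by
            intro Q
            have h3 : Polynomial.eval t (aeval (Sum.elim ![1, Polynomial.X]
                fun i => Polynomial.C (U r i)) Q) = ((Polynomial.aeval t).comp
                (aeval (Sum.elim ![1, Polynomial.X] fun i => Polynomial.C (U r i)))) Q := by
              rw [AlgHom.comp_apply, Polynomial.coe_aeval_eq_eval]
            rw [h3, comp_aeval, ← aeval_eq_eval]
            congr 2
            funext q
            rcases q with q | q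
            · fin_cases q <;> simp
            · simp
          exact (h2 F).symm) hne
      exact h1.subset fun n hn => hn.2 F hF
  have hfin : (Set.Iio a ∪ ⋃ r ∈ Finset.Ico a (a + m), {n | (¬ ∀ F ∈ W, ∀ y : Fin 2 → K,
      eval (Sum.elim y (U r)) F = 0) ∧ Eqs W (x n) (U r)}).Finite :=
    (Set.finite_Iio a).union (Set.Finite.biUnion (Finset.finite_toSet _) fun r _ => hcl r)
  apply hfin.subset
  rintro n ⟨h1, h2⟩
  by_cases hna : n < a
  · exact Or.inl hna
  · right
    set r := a + (n - a) % m with hr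
    have hrU : U n = U r := by
      have h3 := hU ((n - a) / m) r (by omega)
      have h4 : r + m * ((n - a) / m) = n := by
        have := Nat.mod_add_div (n - a) m
        omega
      rw [h4] at h3
      exact h3
    rw [Set.mem_iUnion₂]
    refine ⟨r, Finset.mem_Ico.2 ⟨by omega, by have := Nat.mod_lt (n - a) hm; omega⟩, ?_, ?_⟩
    · rw [← hrU]
      exact h1
    · rw [← hrU]
      exact h2

/-- the first point is preperiodic, `M = 1` -/
theorem evper_first {x : ℕ → Fin 2 → K} {a m : ℕ} (hm : 0 < m)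
    (hx : ∀ r n, a ≤ n → ∃ c : K, c ≠ 0 ∧ x (n + m * r) = c • x n) {U : ℕ → Fin 1 → K}
    (hU : ∀ i j, i ≠ j → U i ≠ U j) {W : Set (MvPolynomial (Fin 2 ⊕ Fin 1) K)} (hW : WH W) :
    EvPer fun n => Eqs W (x n) (U n) := by
  classical
  have hiff : ∀ r n, a ≤ n → ∀ w : Fin 1 → K, (Eqs W (x n) w ↔ Eqs W (x (n + m * r)) w) := by
    intro r n hn w
    obtain ⟨c, hc, h1⟩ := hx r n hn
    rw [h1, eqs_smul hW hc]
  have hinj : Function.Injective fun n => U n 0 := by
    intro i j hij
    by_contra hne
    apply hU i j hne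
    funext q
    rw [Subsingleton.elim q 0]
    exact hij
  apply evPer_of (z := fun n => ∀ w : Fin 1 → K, Eqs W (x n) w)
    (N := a) hm (fun n hn => by
      have := hiff 1 n hn
      rw [mul_one] at this
      exact forall_congr' this) (fun n hn => hn _)
  have hcl : ∀ r : ℕ, {n | (¬ ∀ w : Fin 1 → K, Eqs W (x r) w) ∧ Eqs W (x r) (U n)}.Finite := by
    intro r
    by_cases hz : ∀ w : Fin 1 → K, Eqs W (x r) w
    · apply Set.finite_empty.subset
      intro n hn
      exact absurd hz hn.1
    · have hz' := hz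
      unfold Eqs at hz'
      push Not at hz'
      obtain ⟨w, F, hF, hw⟩ := hz'
      set b : Polynomial K := aeval (Sum.elim (fun i => Polynomial.C (x r i))
        fun _ => Polynomial.X) F with hb
      have hbe : ∀ w : Fin 1 → K, b.eval (w 0) = eval (Sum.elim (x r) w) F := by
        intro w
        have h3 : Polynomial.eval (w 0) b = ((Polynomial.aeval (w 0)).comp
            (aeval (Sum.elim (fun i => Polynomial.C (x r i))
              fun _ : Fin 1 => (Polynomial.X : Polynomial K)))) F := by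
          rw [AlgHom.comp_apply, Polynomial.coe_aeval_eq_eval]
        rw [h3, comp_aeval, ← aeval_eq_eval]
        congr 2
        funext q
        rcases q with q | q
        · simp
        · rw [Subsingleton.elim q 0]
          simp
      have hb0 : b ≠ 0 := by
        intro h0
        apply hw
        rw [← hbe, h0, Polynomial.eval_zero]
      have h1 : {n | U n 0 ∈ b.roots.toFinset}.Finite :=
        Set.Finite.preimage hinj.injOn (Finset.finite_toSet _)
      apply h1.subset
      intro n hn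
      have h2 := hn.2 F hF
      rw [← hbe] at h2
      exact Multiset.mem_toFinset.2 ((Polynomial.mem_roots hb0).2 h2)
  have hfin : (Set.Iio a ∪ ⋃ r ∈ Finset.Ico a (a + m), {n | (¬ ∀ w : Fin 1 → K, Eqs W (x r) w) ∧
      Eqs W (x r) (U n)}).Finite :=
    (Set.finite_Iio a).union (Set.Finite.biUnion (Finset.finite_toSet _) fun r _ => hcl r)
  apply hfin.subset
  rintro n ⟨h1, h2⟩
  by_cases hna : n < a
  · exact Or.inl hna
  · right
    set r := a + (n - a) % m with hr
    have hrX : ∀ w : Fin 1 → K, (Eqs W (x r) w ↔ Eqs W (x n) w) := by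
      have h4 : r + m * ((n - a) / m) = n := by
        have := Nat.mod_add_div (n - a) m
        omega
      intro w
      have h3 := hiff ((n - a) / m) r (by omega) w
      rwa [h4] at h3
    rw [Set.mem_iUnion₂]
    refine ⟨r, Finset.mem_Ico.2 ⟨by omega, by have := Nat.mod_lt (n - a) hm; omega⟩, ?_, ?_⟩
    · intro h5
      exact h1 fun w => (hrX w).1 (h5 w)
    · exact (hrX _).2 h2

/-- both points are preperiodic -/
theorem evper_both {x : ℕ → Fin 2 → K} {a m : ℕ} (hm : 0 < m)
    (hx : ∀ r n, a ≤ n → ∃ c : K, c ≠ 0 ∧ x (n + m * r) = c • x n) {U : ℕ → Fin M → K}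
    {a' m' : ℕ} (hm' : 0 < m') (hU : ∀ r n, a' ≤ n → U (n + m' * r) = U n)
    {W : Set (MvPolynomial (Fin 2 ⊕ Fin M) K)} (hW : WH W) :
    EvPer fun n => Eqs W (x n) (U n) := by
  refine ⟨a + a', m * m', Nat.mul_pos hm hm', fun n hn => ?_⟩
  have h1 : U (n + m * m') = U n := by
    rw [mul_comm]
    exact hU m n (by omega)
  obtain ⟨c, hc, h2⟩ := hx m' n (by omega)
  change Eqs W (x n) (U n) ↔ Eqs W (x (n + m * m')) (U (n + m * m'))
  rw [h1, h2, eqs_smul hW hc]

lemma pt_ne (hg : IsEndo d g) {x : Fin 2 → K} (hx : x ≠ 0) (n : ℕ) : (pt g)^[n] x ≠ 0 := by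
  induction n with
  | zero => exact hx
  | succ j ih =>
    rw [Function.iterate_succ_apply']
    intro h
    apply ih
    have h1 := hg.2 (fun i => algebraMap K (AlgebraicClosure K) ((pt g)^[j] x i)) fun i => by
      refine (aeval_algebraMap_apply (AlgebraicClosure K) ((pt g)^[j] x) (g i)).trans ?_
      have h2 : aeval ((pt g)^[j] x) (g i) = 0 := congrFun h i
      rw [h2, map_zero]
    funext i
    have h3 := congrFun h1 i
    exact (map_eq_zero _).1 h3

lemma per_first (hg : IsEndo d g) {x : Fin 2 → K} (hx : x ≠ 0) (hwx : ¬ Wander g x) :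
    ∃ a m : ℕ, 0 < m ∧ ∀ r n, a ≤ n → ∃ c : K, c ≠ 0 ∧ (pt g)^[n + m * r] x = c • (pt g)^[n] x := by
  have hx0 := pt_ne hg hx
  unfold Wander at hwx
  push Not at hwx
  obtain ⟨i, j, hij, c, hc⟩ := hwx
  obtain ⟨a, m, c, hm, hc0, ha⟩ : ∃ (a m : ℕ) (c : K), 0 < m ∧ c ≠ 0 ∧
      (pt g)^[a + m] x = c • (pt g)^[a] x := by
    have hc0 : c ≠ 0 := by
      rintro rfl
      rw [zero_smul] at hc
      exact hx0 i hc
    rcases lt_or_gt_of_ne hij with h1 | h1
    · refine ⟨i, j - i, c⁻¹, by omega, inv_ne_zero hc0, ?_⟩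
      rw [show i + (j - i) = j by omega, hc, inv_smul_smul₀ hc0]
    · exact ⟨j, i - j, c, by omega, hc0, by rw [show j + (i - j) = i by omega, hc]⟩
  have hper : ∀ n ≥ a, ∃ c : K, c ≠ 0 ∧ (pt g)^[n + m] x = c • (pt g)^[n] x := by
    intro n hn
    obtain ⟨q, rfl⟩ : ∃ q, n = q + a := ⟨n - a, by omega⟩
    refine ⟨c ^ d ^ q, pow_ne_zero _ hc0, ?_⟩
    rw [show q + a + m = q + (a + m) by ring, Function.iterate_add_apply, ha,
      iter_smul_any hg.1, ← Function.iterate_add_apply]
  refine ⟨a, m, hm, fun r => ?_⟩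
  induction r with
  | zero => intro n _; exact ⟨1, one_ne_zero, by rw [mul_zero, add_zero, one_smul]⟩
  | succ r ih =>
    intro n hn
    obtain ⟨c1, hc1, h1⟩ := hper (n + m * r) (by omega)
    obtain ⟨c2, hc2, h2⟩ := ih n hn
    refine ⟨c1 * c2, mul_ne_zero hc1 hc2, ?_⟩
    rw [mul_add, mul_one, ← add_assoc, h1, h2, mul_smul]

/-- **The first point is wandering**: every curve. -/
theorem curve_any (hg : IsEndo d g) (hd : 2 ≤ d) (hE : NoExcept d g) (he : 1 ≤ e)
    {h : Fin M → MvPolynomial (Fin M) K} (hh : Regular e h) {x : Fin 2 → K} (hx : Wander g x)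
    (u : Fin M → K) {W : Set (MvPolynomial (Fin 2 ⊕ Fin M) K)} (hW : WH W)
    (hV : ∀ i, ∃ P : MvPolynomial (Fin 2) K, P ≠ 0 ∧ ∀ (x : Fin 2 → K) (u : Fin M → K),
      Eqs W x u → x 0 ≠ 0 → eval ![x 1 / x 0, u i] P = 0) :
    EvPer fun n => Eqs W ((pt g)^[n] x) ((pm h)^[n] u) := by
  by_cases hwu : ∀ i j : ℕ, i ≠ j → (pm h)^[i] u ≠ (pm h)^[j] u
  · have h1 := product_any hg hd hE he hh hx hwu
      {q : (Fin 2 → K) × (Fin M → K) | Eqs W q.1 q.2} (fun i => by
        obtain ⟨P, hP, hPV⟩ := hV i
        exact ⟨P, hP, fun q hq hq0 => hPV q.1 q.2 hq hq0⟩)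
    apply evPer_of (z := fun _ => False) (N := 0) one_pos (fun n _ => Iff.rfl)
      (fun n hn => hn.elim)
    exact h1.subset fun n hn => hn.2
  · push Not at hwu
    obtain ⟨i, j, hij, hu⟩ := hwu
    obtain ⟨a, m, hm, hU⟩ := per_of_eq hij hu
    exact evper_second (x := fun n => (pt g)^[n] x) (wander_ne' hg.1 hd hx) hx (U := fun n => (pm h)^[n] u)
      hm hU hW

/-- **The complete Dynamical Mordell-Lang property.** -/
theorem full_any (hg : IsEndo d g) (hd : 2 ≤ d) (hE : NoExcept d g) (he : 1 ≤ e)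
    {h : Fin 1 → MvPolynomial (Fin 1) K} (hh : Regular e h) {x : Fin 2 → K} (hx : x ≠ 0)
    (u : Fin 1 → K) {W : Set (MvPolynomial (Fin 2 ⊕ Fin 1) K)} (hW : WH W) :
    EvPer fun n => Eqs W ((pt g)^[n] x) ((pm h)^[n] u) := by
  classical
  by_cases hwx : Wander g x
  · by_cases hall : ∀ F ∈ W, F = 0
    · exact ⟨0, 1, one_pos, fun n _ => by
        constructor <;> intro _ F hF <;> rw [hall F hF, map_zero]⟩
    · push Not at hall
      obtain ⟨F, hF, hF0⟩ := hall
      obtain ⟨p, hp⟩ := hW F hF
      obtain ⟨P, hP, hPF⟩ := dehom hF0 hp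
      apply curve_any hg hd hE he hh hwx u hW
      intro i
      refine ⟨P, hP, fun x u hxu hx0 => ?_⟩
      rw [Subsingleton.elim i 0]
      exact hPF x u hx0 (hxu F hF)
  · obtain ⟨a, m, hm, hX⟩ := per_first hg hx hwx
    by_cases hwu : ∀ i j : ℕ, i ≠ j → (pm h)^[i] u ≠ (pm h)^[j] u
    · exact evper_first (x := fun n => (pt g)^[n] x) hm hX (U := fun n => (pm h)^[n] u) hwu hW
    · push Not at hwu
      obtain ⟨i, j, hij, hu⟩ := hwu
      obtain ⟨a', m', hm', hU⟩ := per_of_eq hij hu
      exact evper_both (x := fun n => (pt g)^[n] x) hm hX (U := fun n => (pm h)^[n] u) hm' hU hW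

end Pool.Agent.H422.SK
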