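import Mathlib
import Pool.Agent.H422.SK.FullAny

set_option autoImplicit false
set_option linter.unusedSectionVars false

/-!
The complete Dynamical Mordell-Lang property on the product of two lines.
-/

namespace Pool.Agent.H422.SK

open MvPolynomial
open Pool.Agent.Q170.HG (pt IsEndo)

variable {K : Type} [Field K] [CharZero K] {d e : ℕ} {g h : Fin 2 → MvPolynomial (Fin 2) K}

/-- the affine polynomial -/
noncomputable def aff (h : Fin 2 → MvPolynomial (Fin 2) K) : Fin 1 → MvPolynomial (Fin 1) K :=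
  fun _ => aeval ![1, X 0] (h 1)

lemma aff_eval {R : Type} [CommRing R] [Algebra K R] (y : Fin 1 → R) :
    aeval y (aeval ![1, X 0] (h 1) : MvPolynomial (Fin 1) K) = aeval ![1, y 0] (h 1) := by
  rw [← AlgHom.comp_apply, comp_aeval]
  congr 2
  funext q
  fin_cases q
  · simp
  · simp

lemma aff_deg (hh : (h 1).IsHomogeneous e) :
    (aeval ![1, X 0] (h 1) : MvPolynomial (Fin 1) K).totalDegree ≤ e := by
  classical
  rw [aeval_def, eval₂_eq']
  apply totalDegree_finsetSum_le
  intro m hm
  have h1 : m 0 + m 1 = e := by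
    have := hh (mem_support_iff.1 hm)
    rw [Finsupp.weight_apply, Finsupp.sum_fintype _ _ (fun _ => by simp)] at this
    simpa [Fin.sum_univ_two] using this
  rw [Fin.prod_univ_two]
  simp only [Matrix.cons_val_zero, Matrix.cons_val_one, one_pow, one_mul]
  refine (totalDegree_mul _ _).trans ?_
  have h2 : (algebraMap K (MvPolynomial (Fin 1) K) (coeff m (h 1))).totalDegree = 0 := by
    rw [algebraMap_eq, totalDegree_C]
  rw [h2, totalDegree_X_pow]
  omega

lemma aff_reg (hh : IsEndo e h) (he : 1 ≤ e) (h0 : h 0 = X 0 ^ e) : Regular e (aff h) := by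
  classical
  have hdeg : (aeval ![1, X 0] (h 1) : MvPolynomial (Fin 1) K).totalDegree ≤ e := aff_deg (hh.1 1)
  refine ⟨fun _ => hdeg, fun y hy => ?_⟩
  have hH : hmg e (aeval ![1, X 0] (h 1) : MvPolynomial (Fin 1) K) = h 1 := by
    have h1 : X 0 * (hmg e (aeval ![1, X 0] (h 1) : MvPolynomial (Fin 1) K) - h 1) = 0 := by
      apply MvPolynomial.funext
      intro x
      rw [map_mul, eval_X, map_zero]
      by_cases hx : x 0 = 0
      · rw [hx, zero_mul]
      · have h2 : x = x 0 • ![1, x 1 / x 0] := by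
          funext q
          fin_cases q
          · simp
          · simp [mul_div_cancel₀ _ hx]
        have h3 : eval x (hmg e (aeval ![1, X 0] (h 1) : MvPolynomial (Fin 1) K)) = eval x (h 1) := by
          rw [h2, ← aeval_eq_eval, aeval_smul_hom (hmg_hom _), aeval_smul_hom (hh.1 1),
            hmg_one hdeg _ (by simp)]
          congr 1
          rw [aff_eval]
          rfl
        rw [map_sub, h3, sub_self, mul_zero]
    rcases mul_eq_zero.1 h1 with h2 | h2
    · exact absurd h2 (X_ne_zero _)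
    · exact sub_eq_zero.1 h2
  have h1 := hy 0
  have h2 := hmg_zero (e := e) (aeval ![1, X 0] (h 1) : MvPolynomial (Fin 1) K)
    (![0, y 0] : Fin 2 → AlgebraicClosure K) (by simp)
  have h3 : (fun i : Fin 1 => (![0, y 0] : Fin 2 → AlgebraicClosure K) i.succ) = y := by
    funext i
    rw [Subsingleton.elim i 0]
    rfl
  rw [h3] at h2
  have h4 : aeval y (homogeneousComponent e (aeval ![1, X 0] (h 1) : MvPolynomial (Fin 1) K)) = 0 := h1
  rw [h4, hH] at h2
  have h5 := hh.2 ![0, y 0] (fun i => by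
    fin_cases i
    · change aeval _ (h 0) = 0
      rw [h0, map_pow, aeval_X]
      simp [show e ≠ 0 by omega]
    · exact h2)
  funext i
  rw [Subsingleton.elim i 0]
  exact congrFun h5 1

lemma aff_orbit (h0 : h 0 = X 0 ^ e) (w : K) (n : ℕ) :
    (pt h)^[n] ![1, w] = ![1, (pm (aff h))^[n] (fun _ => w) 0] := by
  induction n with
  | zero => rfl
  | succ n ih =>
    rw [Function.iterate_succ_apply', Function.iterate_succ_apply', ih]
    funext i
    fin_cases i
    · change eval _ (h 0) = 1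
      rw [h0, map_pow, eval_X]
      simp
    · change eval _ (h 1) = eval _ (aff h 0)
      rw [aff, ← aeval_eq_eval, ← aeval_eq_eval, aff_eval]

lemma wh_smul_snd {q : ℕ} {F : MvPolynomial (Fin 2 ⊕ Fin 2) K}
    (hF : IsWeightedHomogeneous (Sum.elim (fun _ : Fin 2 => (0 : ℕ)) (fun _ : Fin 2 => (1 : ℕ))) F q)
    (c : K) (x u : Fin 2 → K) :
    eval (Sum.elim x (c • u)) F = c ^ q * eval (Sum.elim x u) F := by
  classical
  rw [eval_eq', eval_eq', Finset.mul_sum]
  refine Finset.sum_congr rfl fun μ hμ => ?_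
  have h1 := hF (mem_support_iff.1 hμ)
  have h2 : ∑ i : Fin 2, μ (Sum.inr i) = q := by
    rw [← h1, Finsupp.weight_apply, Finsupp.sum_fintype _ _ (fun _ => by simp), Fintype.sum_sum_type]
    simp
  rw [Fintype.prod_sum_type, Fintype.prod_sum_type]
  simp only [Sum.elim_inl, Sum.elim_inr, Pi.smul_apply, smul_eq_mul, mul_pow]
  rw [Finset.prod_mul_distrib, Finset.prod_pow_eq_pow_sum, h2]
  ring

/-- substitution of the second point by polynomials in the affine coordinate -/
noncomputable def sub2 (a : Fin 2 → MvPolynomial (Fin 2 ⊕ Fin 1) K) (F : MvPolynomial (Fin 2 ⊕ Fin 2) K) :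
    MvPolynomial (Fin 2 ⊕ Fin 1) K :=
  aeval (Sum.elim (fun i => X (Sum.inl i)) a) F

lemma sub2_eval (a : Fin 2 → MvPolynomial (Fin 2 ⊕ Fin 1) K) (F : MvPolynomial (Fin 2 ⊕ Fin 2) K)
    (x : Fin 2 → K) (u : Fin 1 → K) :
    eval (Sum.elim x u) (sub2 a F) = eval (Sum.elim x fun i => eval (Sum.elim x u) (a i)) F := by
  rw [sub2, ← aeval_eq_eval, ← AlgHom.comp_apply, comp_aeval, ← aeval_eq_eval]
  congr 2
  funext q
  rcases q with q | q
  · simp
  · simp [aeval_eq_eval]

/-- **The complete Dynamical Mordell-Lang property on the product of two lines.** -/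
theorem pp (hg : IsEndo d g) (hd : 2 ≤ d) (hE : NoExcept d g) (he : 1 ≤ e) (hh : IsEndo e h)
    (h0 : h 0 = X 0 ^ e) {x y : Fin 2 → K} (hx : x ≠ 0) (hy : y ≠ 0)
    (W : Set (MvPolynomial (Fin 2 ⊕ Fin 2) K))
    (hW1 : ∀ F ∈ W, ∃ p : ℕ, IsWeightedHomogeneous
      (Sum.elim (fun _ : Fin 2 => (1 : ℕ)) (fun _ : Fin 2 => (0 : ℕ))) F p)
    (hW2 : ∀ F ∈ W, ∃ p : ℕ, IsWeightedHomogeneous
      (Sum.elim (fun _ : Fin 2 => (0 : ℕ)) (fun _ : Fin 2 => (1 : ℕ))) F p) :
    EvPer fun n => ∀ F ∈ W, eval (Sum.elim ((pt g)^[n] x) ((pt h)^[n] y)) F = 0 := by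
  classical
  by_cases hy0 : y 0 = 0
  · -- the second point is the point at infinity
    have hyn : ∀ n, (pt h)^[n] y 0 = 0 := by
      intro n
      induction n with
      | zero => exact hy0
      | succ n ih =>
        rw [Function.iterate_succ_apply']
        change eval _ (h 0) = 0
        rw [h0, map_pow, eval_X, ih, zero_pow (by omega)]
    have hyn1 : ∀ n, ∃ c : K, c ≠ 0 ∧ (pt h)^[n] y = c • ![0, 1] := by
      intro n
      refine ⟨(pt h)^[n] y 1, fun h1 => pt_ne hh hy n ?_, ?_⟩
      · funext i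
        fin_cases i
        · exact hyn n
        · exact h1
      · funext i
        fin_cases i
        · simp [hyn n]
        · simp
    have h1 := full_any (e := 1) (h := fun _ : Fin 1 => (X 0 : MvPolynomial (Fin 1) K)) hg hd hE le_rfl
      (by
        refine ⟨fun _ => ?_, fun y hy => ?_⟩
        · exact (totalDegree_X _).le
        · have h2 := hy 0
          rw [homogeneousComponent_eq_self (isHomogeneous_X K (0 : Fin 1)), aeval_X] at h2
          funext i
          rw [Subsingleton.elim i 0]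
          exact h2) hx 0
      (W := (sub2 (fun i => C ((![0, 1] : Fin 2 → K) i))) '' W) (by
        rintro _ ⟨F, hF, rfl⟩
        obtain ⟨p, hp⟩ := hW1 F hF
        refine ⟨p, fun c x u => ?_⟩
        rw [sub2_eval, sub2_eval, ← wh_smul hp]
        simp only [eval_C])
    have h2 : (fun n => Eqs ((sub2 (fun i => C ((![0, 1] : Fin 2 → K) i))) '' W) ((pt g)^[n] x)
        ((pm fun _ : Fin 1 => (X 0 : MvPolynomial (Fin 1) K))^[n] 0)) =
        fun n => ∀ F ∈ W, eval (Sum.elim ((pt g)^[n] x) ((pt h)^[n] y)) F = 0 := by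
      funext n
      apply propext
      unfold Eqs
      rw [Set.forall_mem_image]
      refine forall₂_congr fun F hF => ?_
      obtain ⟨c, hc, h3⟩ := hyn1 n
      obtain ⟨q, hq⟩ := hW2 F hF
      rw [h3, wh_smul_snd hq, sub2_eval]
      simp only [eval_C]
      constructor
      · intro h
        rw [h, mul_zero]
      · intro h
        exact (mul_eq_zero.1 h).resolve_left (pow_ne_zero _ hc)
    rw [← h2]
    exact h1
  · -- the second point is in the affine line
    set w : K := y 1 / y 0 with hw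
    have hyw : y = y 0 • ![1, w] := by
      funext i
      fin_cases i
      · simp
      · simp [hw, mul_div_cancel₀ _ hy0]
    have hyn : ∀ n, ∃ c : K, c ≠ 0 ∧ (pt h)^[n] y = c • ![1, (pm (aff h))^[n] (fun _ => w) 0] := by
      intro n
      refine ⟨y 0 ^ e ^ n, pow_ne_zero _ hy0, ?_⟩
      rw [← aff_orbit h0, ← iter_smul_any hh.1, ← hyw]
    have h1 := full_any (e := e) (h := aff h) hg hd hE he (aff_reg hh he h0) hx (fun _ => w)
      (W := (sub2 ![1, X (Sum.inr 0)]) '' W) (by
        rintro _ ⟨F, hF, rfl⟩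
        obtain ⟨p, hp⟩ := hW1 F hF
        refine ⟨p, fun c x u => ?_⟩
        rw [sub2_eval, sub2_eval, ← wh_smul hp]
        congr 2
        funext i
        fin_cases i <;> simp)
    have h2 : (fun n => Eqs ((sub2 ![1, X (Sum.inr 0)]) '' W) ((pt g)^[n] x)
        ((pm (aff h))^[n] (fun _ => w))) =
        fun n => ∀ F ∈ W, eval (Sum.elim ((pt g)^[n] x) ((pt h)^[n] y)) F = 0 := by
      funext n
      apply propext
      unfold Eqs
      rw [Set.forall_mem_image]
      refine forall₂_congr fun F hF => ?_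
      obtain ⟨c, hc, h3⟩ := hyn n
      obtain ⟨q, hq⟩ := hW2 F hF
      have h4 : (fun i => eval (Sum.elim ((pt g)^[n] x) ((pm (aff h))^[n] (fun _ => w)))
          ((![1, X (Sum.inr 0)] : Fin 2 → MvPolynomial (Fin 2 ⊕ Fin 1) K) i)) =
          ![1, (pm (aff h))^[n] (fun _ => w) 0] := by
        funext i
        fin_cases i <;> simp
      rw [h3, wh_smul_snd hq, sub2_eval, h4]
      constructor
      · intro h
        rw [h, mul_zero]
      · intro h
        exact (mul_eq_zero.1 h).resolve_left (pow_ne_zero _ hc)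
    rw [← h2]
    exact h1

/-- if both orbits are infinite then a proper closed subset meets the orbit finitely often -/
theorem pp_finite (hg : IsEndo d g) (hd : 2 ≤ d) (hE : NoExcept d g) (he : 1 ≤ e) (hh : IsEndo e h)
    (h0 : h 0 = X 0 ^ e) {x y : Fin 2 → K} (hx : Wander g x) (hy : Wander h y)
    (F : MvPolynomial (Fin 2 ⊕ Fin 2) K) (hF0 : F ≠ 0)
    (hF1 : ∃ p : ℕ, IsWeightedHomogeneous
      (Sum.elim (fun _ : Fin 2 => (1 : ℕ)) (fun _ : Fin 2 => (0 : ℕ))) F p)
    (hF2 : ∃ p : ℕ, IsWeightedHomogeneous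
      (Sum.elim (fun _ : Fin 2 => (0 : ℕ)) (fun _ : Fin 2 => (1 : ℕ))) F p) :
    {n | eval (Sum.elim ((pt g)^[n] x) ((pt h)^[n] y)) F = 0}.Finite := by
  classical
  obtain ⟨p, hp⟩ := hF1
  obtain ⟨q, hq⟩ := hF2
  have hyz : y ≠ 0 := by
    rintro rfl
    apply hy 1 0 one_ne_zero 0
    rw [Function.iterate_one, zero_smul]
    exact evr_zero (by omega) hh.1
  have hy0 : y 0 ≠ 0 := by
    intro hy0
    have hy1 : y 1 ≠ 0 := by
      intro h1
      apply hyz
      funext i
      fin_cases i
      · exact hy0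
      · exact h1
    apply hy 1 0 one_ne_zero ((pt h y) 1 / y 1)
    rw [Function.iterate_one, Function.iterate_zero_apply]
    funext i
    fin_cases i
    · change eval _ (h 0) = _ * y 0
      rw [h0, map_pow, eval_X, hy0, zero_pow (by omega), mul_zero]
    · simp [div_mul_cancel₀ _ hy1]
  set w : K := y 1 / y 0 with hw
  have hyw : y = y 0 • ![1, w] := by
    funext i
    fin_cases i
    · simp
    · simp [hw, mul_div_cancel₀ _ hy0]
  have hyn : ∀ n, (pt h)^[n] y = y 0 ^ e ^ n • ![1, (pm (aff h))^[n] (fun _ => w) 0] := by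
    intro n
    rw [← aff_orbit h0, ← iter_smul_any hh.1, ← hyw]
  have hF' : sub2 ![1, X (Sum.inr 0)] F ≠ 0 := by
    intro hz
    have h1 : X (Sum.inr 0) * F = 0 := by
      apply MvPolynomial.funext
      intro z
      rw [map_mul, eval_X, map_zero]
      by_cases hz0 : z (Sum.inr 0) = 0
      · rw [hz0, zero_mul]
      · have h2 : z = Sum.elim (fun i => z (Sum.inl i))
            (z (Sum.inr 0) • ![1, z (Sum.inr 1) / z (Sum.inr 0)]) := by
          funext i
          rcases i with i | i
          · rfl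
          · fin_cases i
            · simp
            · simp [mul_div_cancel₀ _ hz0]
        have h3 := sub2_eval ![1, X (Sum.inr 0)] F (fun i => z (Sum.inl i))
          (fun _ => z (Sum.inr 1) / z (Sum.inr 0))
        rw [hz, map_zero] at h3
        have h4 : (fun i => eval (Sum.elim (fun i => z (Sum.inl i)) (fun _ => z (Sum.inr 1) / z (Sum.inr 0)))
            ((![1, X (Sum.inr 0)] : Fin 2 → MvPolynomial (Fin 2 ⊕ Fin 1) K) i)) =
            ![1, z (Sum.inr 1) / z (Sum.inr 0)] := by
          funext i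
          fin_cases i <;> simp
        rw [h4] at h3
        rw [h2, wh_smul_snd hq, ← h3, mul_zero, mul_zero]
    rcases mul_eq_zero.1 h1 with h2 | h2
    · exact X_ne_zero _ h2
    · exact hF0 h2
  obtain ⟨P, hP, hPF⟩ := dehom (p := p) hF' (fun c x u => by
    rw [sub2_eval, sub2_eval, ← wh_smul hp]
    congr 2
    funext i
    fin_cases i <;> simp)
  have hwan : ∀ i j : ℕ, i ≠ j → (pm (aff h))^[i] (fun _ => w) ≠ (pm (aff h))^[j] (fun _ => w) := by
    intro i j hij hc
    apply hy i j hij (y 0 ^ e ^ i * (y 0 ^ e ^ j)⁻¹)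
    rw [hyn, hyn, hc, smul_smul, mul_assoc, inv_mul_cancel₀ (pow_ne_zero _ hy0), mul_one]
  have h1 := product_any hg hd hE he (aff_reg hh he h0) hx hwan
    {q : (Fin 2 → K) × (Fin 1 → K) | eval (Sum.elim q.1 q.2) (sub2 ![1, X (Sum.inr 0)] F) = 0}
    (fun i => by
      refine ⟨P, hP, fun q hq hq0 => ?_⟩
      rw [Subsingleton.elim i 0]
      exact hPF q.1 q.2 hq0 hq)
  apply h1.subset
  intro n hn
  have hn' : eval (Sum.elim ((pt g)^[n] x) ((pt h)^[n] y)) F = 0 := hn
  rw [hyn, wh_smul_snd hq] at hn'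
  have h5 := (mul_eq_zero.1 hn').resolve_left (pow_ne_zero _ (pow_ne_zero _ hy0))
  change eval (Sum.elim ((pt g)^[n] x) ((pm (aff h))^[n] fun _ => w)) (sub2 ![1, X (Sum.inr 0)] F) = 0
  rw [sub2_eval]
  have h4 : (fun i => eval (Sum.elim ((pt g)^[n] x) ((pm (aff h))^[n] (fun _ => w)))
      ((![1, X (Sum.inr 0)] : Fin 2 → MvPolynomial (Fin 2 ⊕ Fin 1) K) i)) =
      ![1, (pm (aff h))^[n] (fun _ => w) 0] := by
    funext i
    fin_cases i <;> simp
  rw [h4]
  exact h5

end Pool.Agent.H422.SK
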