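import Mathlib
import Pool.Agent.H422.SK.PP

set_option autoImplicit false

/-!
Eventually periodic sets are the finite unions of arithmetic progressions.
-/

namespace Pool.Agent.H422.SK

lemma EvPer.union {s : ℕ → Prop} (h : EvPer s) :
    ∃ T : Finset (ℕ × ℕ), {n | s n} = ⋃ p ∈ T, Set.range fun j : ℕ => p.1 + p.2 * j := by
  classical
  obtain ⟨N, P, hP, h⟩ := h
  have hmul : ∀ j n, N ≤ n → (s n ↔ s (n + P * j)) := by
    intro j
    induction j with
    | zero => intro n _; rw [mul_zero, add_zero]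
    | succ j ih =>
      intro n hn
      rw [ih n hn, h (n + P * j) (by omega), mul_add, mul_one, add_assoc]
  refine ⟨((Finset.range N).filter s).image (fun n => (n, 0)) ∪
    ((Finset.Ico N (N + P)).filter s).image (fun n => (n, P)), ?_⟩
  ext n
  simp only [Set.mem_ofPred_eq, Set.mem_iUnion, Set.mem_range, Finset.mem_union, Finset.mem_image,
    Finset.mem_filter, Finset.mem_range, Finset.mem_Ico]
  constructor
  · intro hn
    by_cases hN : n < N
    · exact ⟨(n, 0), Or.inl ⟨n, ⟨hN, hn⟩, rfl⟩, 0, by simp⟩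
    · set r := N + (n - N) % P with hr
      have h1 : (n - N) % P < P := Nat.mod_lt _ hP
      have h2 : r + P * ((n - N) / P) = n := by
        have := Nat.mod_add_div (n - N) P
        omega
      refine ⟨(r, P), Or.inr ⟨r, ⟨⟨by omega, by omega⟩, ?_⟩, rfl⟩, (n - N) / P, h2⟩
      rw [hmul ((n - N) / P) r (by omega), h2]
      exact hn
  · rintro ⟨p, (⟨a, ⟨ha, hs⟩, rfl⟩ | ⟨a, ⟨⟨ha1, ha2⟩, hs⟩, rfl⟩), j, rfl⟩
    · simpa using hs
    · exact (hmul j a ha1).1 hs

end Pool.Agent.H422.SK
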