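import Mathlib

set_option autoImplicit false

/-!
Dominance at one place: sums of terms of different size.
-/

namespace Pool.Agent.H422.SK

variable {k : Type} [Field k]

/-- one term dominates all the others -/
lemma dom_pt (f : AbsoluteValue k ℝ) {ι : Type} (s : Finset ι) (hs : s.Nonempty) (b t : ι → k) {w C ε δ : ℝ}
    (hw : 0 < w) (ht : ∀ i ∈ s, t i ≠ 0) (hup : ∀ i ∈ s, f (b i) ≤ C * w)
    (hlow : ∀ i ∈ s, Real.exp (-ε) * w ≤ f (b i))
    (hsep : ∀ i ∈ s, ∀ j ∈ s, i ≠ j → δ ≤ |Real.log (f (t i)) - Real.log (f (t j))|) (hδ0 : 0 < δ)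
    (hC : 0 ≤ C) (hbig : s.card * C < Real.exp (δ - ε)) : ∑ i ∈ s, b i * t i ≠ 0 := by
  classical
  intro h0
  obtain ⟨i, hi, hmax⟩ := s.exists_max_image (fun i => f (t i)) hs
  have hfi : 0 < f (t i) := f.pos (ht i hi)
  have h1 : b i * t i = -∑ j ∈ s.erase i, b j * t j := by
    rw [← Finset.add_sum_erase s _ hi] at h0
    exact eq_neg_of_add_eq_zero_left h0
  have h2 : f (b i * t i) ≤ ∑ j ∈ s.erase i, f (b j * t j) := by
    rw [h1, f.map_neg]
    exact f.sum_le _ _
  have h3 : ∀ j ∈ s.erase i, f (b j * t j) ≤ C * w * (Real.exp (-δ) * f (t i)) := by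
    intro j hj
    rw [Finset.mem_erase] at hj
    rw [map_mul]
    have hfj : 0 < f (t j) := f.pos (ht j hj.2)
    have h4 : Real.log (f (t j)) ≤ Real.log (f (t i)) := Real.log_le_log hfj (hmax j hj.2)
    have h5 := hsep i hi j hj.2 hj.1.symm
    rw [abs_of_nonneg (by linarith)] at h5
    have h6 : f (t j) ≤ Real.exp (-δ) * f (t i) := by
      rw [← Real.exp_log hfj, ← Real.exp_log hfi, ← Real.exp_add]
      apply Real.exp_le_exp.2
      linarith
    exact mul_le_mul (hup j hj.2) h6 hfj.le (mul_nonneg hC hw.le)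
  have h7 : ∑ j ∈ s.erase i, f (b j * t j) ≤ s.card * (C * w * (Real.exp (-δ) * f (t i))) := by
    refine (Finset.sum_le_card_nsmul _ _ _ h3).trans ?_
    rw [nsmul_eq_mul]
    apply mul_le_mul_of_nonneg_right
    · exact_mod_cast Finset.card_le_card (Finset.erase_subset _ _)
    · positivity
  have h8 : Real.exp (-ε) * w * f (t i) ≤ f (b i * t i) := by
    rw [map_mul]
    exact mul_le_mul_of_nonneg_right (hlow i hi) hfi.le
  have h9 : Real.exp (-ε) * (w * f (t i)) ≤ (s.card * C) * Real.exp (-δ) * (w * f (t i)) := by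
    nlinarith [h8, h2, h7]
  have h10 : Real.exp (-ε) ≤ (s.card * C) * Real.exp (-δ) :=
    le_of_mul_le_mul_right h9 (mul_pos hw hfi)
  have h11 : Real.exp (δ - ε) ≤ s.card * C := by
    have e1 : Real.exp (δ - ε) = Real.exp δ * Real.exp (-ε) := by
      rw [← Real.exp_add]
      ring_nf
    have e2 : (s.card * C : ℝ) = Real.exp δ * ((s.card * C) * Real.exp (-δ)) := by
      have : Real.exp δ * Real.exp (-δ) = 1 := by rw [← Real.exp_add, add_neg_cancel, Real.exp_zero]
      linear_combination -(s.card * C : ℝ) * this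
    rw [e1, e2]
    exact mul_le_mul_of_nonneg_left h10 (Real.exp_pos _).le
  linarith

lemma fin_unif {ι : Type} (s : Finset ι) (P : ι → ℝ → ℕ → Prop)
    (mono : ∀ i δ δ' N N', 0 < δ' → δ' ≤ δ → N ≤ N' → P i δ N → P i δ' N')
    (h : ∀ i ∈ s, ∃ δ : ℝ, 0 < δ ∧ ∃ N, P i δ N) : ∃ δ : ℝ, 0 < δ ∧ ∃ N, ∀ i ∈ s, P i δ N := by
  classical
  induction s using Finset.induction_on with
  | empty => exact ⟨1, one_pos, 0, fun i hi => absurd hi (Finset.notMem_empty i)⟩
  | insert a s ha ih =>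
    obtain ⟨δ, hδ, N, h1⟩ := ih fun i hi => h i (Finset.mem_insert_of_mem hi)
    obtain ⟨δ', hδ', N', h2⟩ := h a (Finset.mem_insert_self a s)
    refine ⟨min δ δ', lt_min hδ hδ', max N N', fun i hi => ?_⟩
    rcases Finset.mem_insert.1 hi with rfl | hi
    · exact mono _ _ _ _ _ (lt_min hδ hδ') (min_le_right _ _) (le_max_right _ _) h2
    · exact mono _ _ _ _ _ (lt_min hδ hδ') (min_le_left _ _) (le_max_left _ _) (h1 i hi)

section seq

variable (f : AbsoluteValue k ℝ) {d : ℕ} (hd : 2 ≤ d) (A : Set ℕ) (w : ℕ → ℝ) (hw : ∀ n, 0 < w n)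

include hd in
lemma grow (c B : ℝ) (hc : 0 < c) : ∃ N : ℕ, ∀ n ≥ N, B < Real.exp (c * (d : ℝ) ^ n) := by
  have h1 : Filter.Tendsto (fun n : ℕ => (d : ℝ) ^ n) Filter.atTop Filter.atTop :=
    tendsto_pow_atTop_atTop_of_one_lt (by
      have : (1 : ℕ) < d := by omega
      exact_mod_cast this)
  have h2 := Real.tendsto_exp_atTop.comp (h1.const_mul_atTop hc)
  obtain ⟨N, hN⟩ := Filter.eventually_atTop.1 (h2.eventually_gt_atTop B)
  exact ⟨N, fun n hn => hN n hn⟩

include hd hw in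
/-- all terms are bounded below and pairwise separated -/
theorem dom_last {ι : Type} (s : Finset ι) (hs : s.Nonempty) (b t : ι → ℕ → k)
    (hup : ∀ i ∈ s, ∃ C : ℝ, 0 ≤ C ∧ ∀ n, f (b i n) ≤ C * w n)
    (hlow : ∀ i ∈ s, ∀ ε : ℝ, 0 < ε → ∃ N, ∀ n ∈ A, N ≤ n → Real.exp (-(ε * d ^ n)) * w n ≤ f (b i n))
    (ht : ∀ i ∈ s, ∀ n ∈ A, t i n ≠ 0)
    (hsep : ∀ i ∈ s, ∀ j ∈ s, i ≠ j → ∃ δ : ℝ, 0 < δ ∧ ∃ N, ∀ n ∈ A, N ≤ n →
      δ * d ^ n ≤ |Real.log (f (t i n)) - Real.log (f (t j n))|) :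
    ∃ N, ∀ n ∈ A, N ≤ n → ∑ i ∈ s, b i n * t i n ≠ 0 := by
  classical
  obtain ⟨δ, hδ, N1, h1⟩ := fin_unif (s ×ˢ s) (fun p δ N => p.1 ≠ p.2 → ∀ n ∈ A, N ≤ n →
      δ * d ^ n ≤ |Real.log (f (t p.1 n)) - Real.log (f (t p.2 n))|)
    (fun p δ δ' N N' _ h2 h3 h4 hp n hn hn' =>
      (mul_le_mul_of_nonneg_right h2 (by positivity)).trans (h4 hp n hn (h3.trans hn')))
    (fun p hp => by
      rw [Finset.mem_product] at hp
      by_cases hp' : p.1 = p.2
      · exact ⟨1, one_pos, 0, fun h => absurd hp' h⟩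
      · obtain ⟨δ, hδ, N, h2⟩ := hsep p.1 hp.1 p.2 hp.2 hp'
        exact ⟨δ, hδ, N, fun _ => h2⟩)
  have h2 : ∀ i ∈ s, ∃ N, ∀ n ∈ A, N ≤ n → Real.exp (-(δ / 2 * d ^ n)) * w n ≤ f (b i n) :=
    fun i hi => hlow i hi (δ / 2) (by positivity)
  obtain ⟨-, -, N2, h2'⟩ := fin_unif s (fun i _ N => ∀ n ∈ A, N ≤ n →
      Real.exp (-(δ / 2 * d ^ n)) * w n ≤ f (b i n))
    (fun i _ _ N N' _ _ h3 h4 n hn hn' => h4 n hn (h3.trans hn'))
    (fun i hi => by
      obtain ⟨N, hN⟩ := h2 i hi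
      exact ⟨1, one_pos, N, hN⟩)
  have h3 : ∃ C : ℝ, 0 ≤ C ∧ ∀ i ∈ s, ∀ n, f (b i n) ≤ C * w n := by
    choose! C hC0 hC using hup
    refine ⟨∑ i ∈ s, C i, Finset.sum_nonneg hC0, fun i hi n => (hC i hi n).trans ?_⟩
    exact mul_le_mul_of_nonneg_right (Finset.single_le_sum (f := C) hC0 hi) (hw n).le
  obtain ⟨C, hC0, hC⟩ := h3
  obtain ⟨N3, hN3⟩ := grow hd (δ / 2) (s.card * C) (by positivity)
  refine ⟨max N1 (max N2 N3), fun n hn hn' => ?_⟩
  have hn1 : N1 ≤ n := (le_max_left _ _).trans hn'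
  have hn2 : N2 ≤ n := ((le_max_left _ _).trans (le_max_right _ _)).trans hn'
  have hn3 : N3 ≤ n := ((le_max_right _ _).trans (le_max_right _ _)).trans hn'
  have hd0 : (0 : ℝ) < d ^ n := by
    have : 0 < d := by omega
    positivity
  refine dom_pt f s hs (fun i => b i n) (fun i => t i n) (w := w n) (C := C) (ε := δ / 2 * d ^ n)
    (δ := δ * d ^ n) (hw n) (fun i hi => ht i hi n hn) (fun i hi => hC i hi n)
    (fun i hi => h2' i hi n hn hn2) (fun i hi j hj hij => ?_) (by positivity) hC0 ?_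
  · exact h1 (i, j) (Finset.mem_product.2 ⟨hi, hj⟩) hij n hn hn1
  · have := hN3 n hn3
    rw [show δ * (d : ℝ) ^ n - δ / 2 * d ^ n = δ / 2 * d ^ n by ring]
    exact this

include hd hw in
/-- **Dominance.** Any two terms are proportional or separated: the sum is identically zero or
eventually nonzero. -/
theorem dom_ind (𝓑 : Submodule k (ℕ → k))
    (hup : ∀ b ∈ 𝓑, ∃ C : ℝ, 0 ≤ C ∧ ∀ n, f (b n) ≤ C * w n)
    (hlow : ∀ b ∈ 𝓑, (∀ n ∈ A, b n = 0) ∨ ∀ ε : ℝ, 0 < ε → ∃ N, ∀ n ∈ A, N ≤ n →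
      Real.exp (-(ε * d ^ n)) * w n ≤ f (b n))
    {ι : Type} (t : ι → ℕ → k) (m : ℕ) : ∀ (s : Finset ι) (b : ι → ℕ → k), s.card = m →
    (∀ i ∈ s, ∀ n ∈ A, t i n ≠ 0) →
    (∀ i ∈ s, ∀ j ∈ s, i ≠ j → (∃ c : k, ∀ n ∈ A, t i n = c * t j n) ∨
      ∃ δ : ℝ, 0 < δ ∧ ∃ N, ∀ n ∈ A, N ≤ n →
      δ * d ^ n ≤ |Real.log (f (t i n)) - Real.log (f (t j n))|) →
    (∀ i ∈ s, b i ∈ 𝓑) →
    (∀ n ∈ A, ∑ i ∈ s, b i n * t i n = 0) ∨
      ∃ N, ∀ n ∈ A, N ≤ n → ∑ i ∈ s, b i n * t i n ≠ 0 := by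
  classical
  induction m with
  | zero =>
    intro s b hs _ _ _
    rw [Finset.card_eq_zero] at hs
    left
    intro n _
    rw [hs, Finset.sum_empty]
  | succ m ih =>
    intro s b hs ht hsep hb
    by_cases hz : ∃ i ∈ s, ∀ n ∈ A, b i n = 0
    · obtain ⟨i, hi, hi0⟩ := hz
      have hsum : ∀ n ∈ A, ∑ j ∈ s.erase i, b j n * t j n = ∑ j ∈ s, b j n * t j n := by
        intro n hn
        rw [← Finset.add_sum_erase s _ hi, hi0 n hn, zero_mul, zero_add]
      have h1 := ih (s.erase i) b (by rw [Finset.card_erase_of_mem hi, hs]; rfl)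
        (fun j hj => ht j (Finset.mem_of_mem_erase hj))
        (fun j hj l hl => hsep j (Finset.mem_of_mem_erase hj) l (Finset.mem_of_mem_erase hl))
        (fun j hj => hb j (Finset.mem_of_mem_erase hj))
      rcases h1 with h1 | ⟨N, h1⟩
      · left
        intro n hn
        rw [← hsum n hn]
        exact h1 n hn
      · right
        refine ⟨N, fun n hn hn' => ?_⟩
        rw [← hsum n hn]
        exact h1 n hn hn'
    · by_cases hp : ∃ i ∈ s, ∃ j ∈ s, i ≠ j ∧ ∃ c : k, ∀ n ∈ A, t i n = c * t j n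
      · obtain ⟨i, hi, j, hj, hij, c, hc⟩ := hp
        set b' : ι → ℕ → k := Function.update b j (b j + c • b i) with hb'
        have hj' : j ∈ s.erase i := Finset.mem_erase.2 ⟨hij.symm, hj⟩
        have hsum : ∀ n ∈ A, ∑ l ∈ s.erase i, b' l n * t l n = ∑ l ∈ s, b l n * t l n := by
          intro n hn
          rw [← Finset.add_sum_erase s _ hi, ← Finset.add_sum_erase _ _ hj',
            ← Finset.add_sum_erase (s.erase i) (fun l => b l n * t l n) hj']
          have h2 : ∑ l ∈ (s.erase i).erase j, b' l n * t l n =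
              ∑ l ∈ (s.erase i).erase j, b l n * t l n := by
            refine Finset.sum_congr rfl fun l hl => ?_
            rw [hb', Function.update_of_ne (Finset.ne_of_mem_erase hl)]
          have h3 : b' j n = b j n + c * b i n := by
            rw [hb', Function.update_self]
            rfl
          rw [h2, h3, hc n hn]
          ring
        have h1 := ih (s.erase i) b' (by rw [Finset.card_erase_of_mem hi, hs]; rfl)
          (fun j hj => ht j (Finset.mem_of_mem_erase hj))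
          (fun j hj l hl => hsep j (Finset.mem_of_mem_erase hj) l (Finset.mem_of_mem_erase hl))
          (fun l hl => by
            rw [hb']
            by_cases hlj : l = j
            · rw [hlj, Function.update_self]
              exact 𝓑.add_mem (hb j hj) (𝓑.smul_mem c (hb i hi))
            · rw [Function.update_of_ne hlj]
              exact hb l (Finset.mem_of_mem_erase hl))
        rcases h1 with h1 | ⟨N, h1⟩
        · left
          intro n hn
          rw [← hsum n hn]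
          exact h1 n hn
        · right
          refine ⟨N, fun n hn hn' => ?_⟩
          rw [← hsum n hn]
          exact h1 n hn hn'
      · right
        push Not at hp
        push Not at hz
        refine dom_last f hd A w hw s ?_ b t (fun i hi => hup _ (hb i hi)) (fun i hi => ?_) ht
          (fun i hi j hj hij => ?_)
        · rw [← Finset.card_pos, hs]
          exact Nat.succ_pos m
        · rcases hlow _ (hb i hi) with h1 | h1
          · obtain ⟨n, hn, h2⟩ := hz i hi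
            exact absurd (h1 n hn) h2
          · exact h1
        · rcases hsep i hi j hj hij with ⟨c, hc⟩ | h1
          · obtain ⟨n, hn, h2⟩ := hp i hi j hj hij c
            exact absurd (hc n hn) h2
          · exact h1

end seq

end Pool.Agent.H422.SK
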