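import Mathlib
import Pool.Agent.H422.SK.Dom
import Pool.Agent.H422.SK.FullAny

set_option autoImplicit false
set_option linter.unusedSectionVars false

/-!
Closed sets of arbitrary dimension: dominance at one place.
-/

namespace Pool.Agent.H422.SK

open MvPolynomial NumberField
open Pool.Agent.Q170.HG (pt IsEndo iter_ne)
open Pool.Agent.W180.OP (Pl av nrm nrm_pos abv_mv cs cs_nonneg)

section evper

lemma EvPer.and {s z : ℕ → Prop} (hs : EvPer s) (hz : EvPer z) : EvPer fun n => s n ∧ z n := by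
  obtain ⟨N, P, hP, h1⟩ := hs
  obtain ⟨N', P', hP', h2⟩ := hz
  have key : ∀ (s : ℕ → Prop) (N P : ℕ), (∀ n, N ≤ n → (s n ↔ s (n + P))) → ∀ j n, N ≤ n →
      (s n ↔ s (n + P * j)) := by
    intro s N P h j
    induction j with
    | zero => intro n _; rw [mul_zero, add_zero]
    | succ j ih =>
      intro n hn
      rw [ih n hn, h (n + P * j) (by omega), mul_add, mul_one, add_assoc]
  refine ⟨max N N', P * P', Nat.mul_pos hP hP', fun n hn => and_congr ?_ ?_⟩
  · exact key s N P h1 P' n ((le_max_left _ _).trans hn)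
  · rw [mul_comm P P']
    exact key z N' P' h2 P n ((le_max_right _ _).trans hn)

lemma EvPer.all {ι : Type} (T : Finset ι) {s : ι → ℕ → Prop} (h : ∀ i ∈ T, EvPer (s i)) :
    EvPer fun n => ∀ i ∈ T, s i n := by
  classical
  induction T using Finset.induction_on with
  | empty => exact ⟨0, 1, one_pos, fun n _ => by simp⟩
  | insert a T ha ih =>
    have h1 := (h a (Finset.mem_insert_self a T)).and (ih fun i hi => h i (Finset.mem_insert_of_mem hi))
    obtain ⟨N, P, hP, h2⟩ := h1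
    refine ⟨N, P, hP, fun n hn => ?_⟩
    simp only [Finset.forall_mem_insert]
    exact h2 n hn

lemma evPer_classes {s : ℕ → Prop} {N0 L : ℕ} (hL : 0 < L) (h : ∀ q, N0 ≤ q →
    (∀ r, s (q + L * r)) ∨ ∃ N, ∀ r, N ≤ q + L * r → ¬ s (q + L * r)) : EvPer s := by
  classical
  have h' : ∀ q, ∃ N, N0 ≤ q → (∀ r, s (q + L * r)) ∨ ∀ r, N ≤ q + L * r → ¬ s (q + L * r) := by
    intro q
    by_cases hq : N0 ≤ q
    · rcases h q hq with h1 | ⟨N, h1⟩
      · exact ⟨0, fun _ => Or.inl h1⟩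
      · exact ⟨N, fun _ => Or.inr h1⟩
    · exact ⟨0, fun h => absurd h hq⟩
  choose N hN using h'
  refine ⟨N0 + ∑ q ∈ Finset.Ico N0 (N0 + L), N q, L, hL, fun n hn => ?_⟩
  set q := N0 + (n - N0) % L with hq
  have hmod : (n - N0) % L < L := Nat.mod_lt _ hL
  have hqn : n = q + L * ((n - N0) / L) := by
    have := Nat.mod_add_div (n - N0) L
    omega
  have hqL : n + L = q + L * ((n - N0) / L + 1) := by
    rw [mul_add, mul_one]
    omega
  have hle : N q ≤ ∑ q ∈ Finset.Ico N0 (N0 + L), N q :=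
    Finset.single_le_sum (f := N) (fun _ _ => Nat.zero_le _) (Finset.mem_Ico.2 ⟨by omega, by omega⟩)
  rcases hN q (by omega) with h1 | h1
  · have e1 := h1 ((n - N0) / L)
    have e2 := h1 ((n - N0) / L + 1)
    rw [← hqn] at e1
    rw [← hqL] at e2
    exact ⟨fun _ => e2, fun _ => e1⟩
  · have e1 := h1 ((n - N0) / L) (by rw [← hqn]; omega)
    have e2 := h1 ((n - N0) / L + 1) (by rw [← hqL]; omega)
    rw [← hqn] at e1
    rw [← hqL] at e2
    exact ⟨fun h => absurd h e1, fun h => absurd h e2⟩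

end evper

section decomposition

variable {K : Type} [Field K] {M : ℕ}

noncomputable def prL (m : Fin 2 ⊕ Fin M →₀ ℕ) : Fin 2 →₀ ℕ := (Finsupp.sumFinsuppEquivProdFinsupp m).1

noncomputable def prR (m : Fin 2 ⊕ Fin M →₀ ℕ) : Fin M →₀ ℕ := (Finsupp.sumFinsuppEquivProdFinsupp m).2

lemma prL_apply (m : Fin 2 ⊕ Fin M →₀ ℕ) (i : Fin 2) : prL m i = m (Sum.inl i) := by
  rw [prL, Finsupp.fst_sumFinsuppEquivProdFinsupp]

lemma prR_apply (m : Fin 2 ⊕ Fin M →₀ ℕ) (i : Fin M) : prR m i = m (Sum.inr i) := by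
  rw [prR, Finsupp.snd_sumFinsuppEquivProdFinsupp]

lemma pr_inj {m m' : Fin 2 ⊕ Fin M →₀ ℕ} (h1 : prL m = prL m') (h2 : prR m = prR m') : m = m' := by
  ext i
  rcases i with i | i
  · rw [← prL_apply, h1, prL_apply]
  · rw [← prR_apply, h2, prR_apply]

open Classical in
/-- the coefficient of a monomial in the variables of the second factor -/
noncomputable def Cf (F : MvPolynomial (Fin 2 ⊕ Fin M) K) (μ : Fin M →₀ ℕ) : MvPolynomial (Fin 2) K :=
  ∑ m ∈ F.support.filter (fun m => prR m = μ), monomial (prL m) (coeff m F)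

lemma Cf_hom {F : MvPolynomial (Fin 2 ⊕ Fin M) K} {p : ℕ}
    (hF : IsWeightedHomogeneous (Sum.elim (fun _ : Fin 2 => (1 : ℕ)) (fun _ : Fin M => (0 : ℕ))) F p)
    (μ : Fin M →₀ ℕ) : (Cf F μ).IsHomogeneous p := by
  classical
  apply IsHomogeneous.sum
  intro m hm
  rw [Finset.mem_filter] at hm
  apply isHomogeneous_monomial
  have h1 := hF (mem_support_iff.1 hm.1)
  rw [Finsupp.weight_apply, Finsupp.sum_fintype _ _ (fun _ => by simp), Fintype.sum_sum_type] at h1
  simp only [Sum.elim_inl, Sum.elim_inr, smul_eq_mul, mul_one, mul_zero, Finset.sum_const_zero,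
    add_zero] at h1
  rw [← h1, Finsupp.degree_eq_sum]
  exact Finset.sum_congr rfl fun i _ => prL_apply m i

lemma Cf_ne {F : MvPolynomial (Fin 2 ⊕ Fin M) K} {μ : Fin M →₀ ℕ}
    (h : ∃ m ∈ F.support, prR m = μ) : Cf F μ ≠ 0 := by
  classical
  obtain ⟨m, hm, hμ⟩ := h
  intro h0
  have h1 : coeff (prL m) (Cf F μ) = coeff m F := by
    rw [Cf, coeff_sum]
    rw [Finset.sum_eq_single m]
    · rw [coeff_monomial, if_pos rfl]
    · intro m' hm' hne
      rw [Finset.mem_filter] at hm'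
      rw [coeff_monomial, if_neg]
      intro hL
      exact hne (pr_inj hL (by rw [hm'.2, hμ]))
    · intro hno
      exact absurd (Finset.mem_filter.2 ⟨hm, hμ⟩) hno
  rw [h0, coeff_zero] at h1
  exact (mem_support_iff.1 hm) h1.symm

open Classical in
lemma Cf_eval (F : MvPolynomial (Fin 2 ⊕ Fin M) K) (x : Fin 2 → K) (u : Fin M → K) :
    eval (Sum.elim x u) F = ∑ μ ∈ F.support.image prR, eval x (Cf F μ) * ∏ i, u i ^ μ i := by
  rw [eval_eq', ← Finset.sum_fiberwise_of_maps_to (g := prR) (t := F.support.image prR)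
    (fun m hm => Finset.mem_image_of_mem _ hm)]
  refine Finset.sum_congr rfl fun μ _ => ?_
  rw [Cf, map_sum, Finset.sum_mul]
  refine Finset.sum_congr rfl fun m hm => ?_
  rw [Finset.mem_filter] at hm
  rw [Fintype.prod_sum_type, eval_monomial, Finsupp.prod_fintype _ _ (fun _ => pow_zero _), mul_assoc]
  congr 1
  simp only [Sum.elim_inl, Sum.elim_inr]
  congr 1
  exact Finset.prod_congr rfl fun i _ => by rw [← hm.2, prR_apply]

end decomposition

section place

variable {k : Type} [Field k] [NumberField k] {d M : ℕ} {g : Fin 2 → MvPolynomial (Fin 2) k}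

/-- the functions given by the forms of degree `p` -/
noncomputable def BB (y : ℕ → Fin 2 → k) (p : ℕ) : Submodule k (ℕ → k) :=
  (homogeneousSubmodule (Fin 2) k p).map (LinearMap.pi fun n => (aeval (y n)).toLinearMap)

lemma mem_BB (y : ℕ → Fin 2 → k) {p : ℕ} {B : MvPolynomial (Fin 2) k} (hB : B.IsHomogeneous p) :
    (fun n => eval (y n) B) ∈ BB y p := by
  refine ⟨B, (mem_homogeneousSubmodule p B).2 hB, ?_⟩
  funext n
  simp [aeval_eq_eval]

lemma of_mem_BB {y : ℕ → Fin 2 → k} {p : ℕ} {b : ℕ → k} (hb : b ∈ BB y p) :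
    ∃ B : MvPolynomial (Fin 2) k, B.IsHomogeneous p ∧ ∀ n, b n = eval (y n) B := by
  obtain ⟨B, hB, rfl⟩ := hb
  refine ⟨B, (mem_homogeneousSubmodule p B).1 hB, fun n => ?_⟩
  simp [aeval_eq_eval]

/-- the proximity to every zero is negligible -/
def LowP (d : ℕ) (v : Pl k) (y : ℕ → Fin 2 → k) (A : Set ℕ) (p : ℕ) : Prop :=
  ∀ B : MvPolynomial (Fin 2) k, B.IsHomogeneous p → (∀ n ∈ A, eval (y n) B = 0) ∨
    ∀ ε : ℝ, 0 < ε → ∃ N, ∀ n ∈ A, N ≤ n →
      Real.exp (-(ε * d ^ n)) * nrm (av v) (y n) ^ p ≤ av v (eval (y n) B)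

lemma low_ne (hg : IsEndo d g) (hd : 2 ≤ d) (hE : NoExcept d g) {x : Fin 2 → k} (hx : Wander g x)
    (v : Pl k) {p : ℕ} {B : MvPolynomial (Fin 2) k} (hB : B.IsHomogeneous p) (hB0 : B ≠ 0) (ε : ℝ)
    (hε : 0 < ε) : ∃ N, ∀ n, N ≤ n →
      Real.exp (-(ε * d ^ n)) * nrm (av v) ((pt g)^[n] x) ^ p ≤ av v (eval ((pt g)^[n] x) B) := by
  obtain ⟨N, hN⟩ := silverman hg hd hE hB hB0 (wander_ne hg.1 hd hx) hx v ε hε
  refine ⟨N, fun n hn => ?_⟩
  obtain ⟨h1, h2⟩ := hN n hn
  have hpos : 0 < nrm (av v) ((pt g)^[n] x) := nrm_pos (av v) (iter_ne hg (wander_ne hg.1 hd hx) n)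
  rw [← Real.exp_log ((av v).pos h1)]
  have h3 : nrm (av v) ((pt g)^[n] x) ^ p = Real.exp (p * Real.log (nrm (av v) ((pt g)^[n] x))) := by
    rw [mul_comm, Real.exp_mul, Real.exp_log hpos, Real.rpow_natCast]
  rw [h3, ← Real.exp_add]
  apply Real.exp_le_exp.2
  linarith

lemma low_wander (hg : IsEndo d g) (hd : 2 ≤ d) (hE : NoExcept d g) {x : Fin 2 → k} (hx : Wander g x)
    (v : Pl k) (A : Set ℕ) (p : ℕ) : LowP d v (fun n => (pt g)^[n] x) A p := by
  intro B hB
  by_cases hB0 : B = 0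
  · left
    intro n _
    rw [hB0, map_zero]
  · right
    intro ε hε
    obtain ⟨N, hN⟩ := low_ne hg hd hE hx v hB hB0 ε hε
    exact ⟨N, fun n _ hn => hN n hn⟩

lemma low_per (hd : 2 ≤ d) (v : Pl k) {y : ℕ → Fin 2 → k} (hy : ∀ n, y n ≠ 0) {A : Set ℕ} {q : ℕ}
    (hA : ∀ n ∈ A, ∃ c : k, c ≠ 0 ∧ y n = c • y q) (p : ℕ) : LowP d v y A p := by
  intro B hB
  have hsm : ∀ c : k, eval (c • y q) B = c ^ p * eval (y q) B := fun c => by
    have h1 := aeval_smul_hom hB c (y q) (R := k)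
    simpa [aeval_eq_eval] using h1
  by_cases h0 : eval (y q) B = 0
  · left
    intro n hn
    obtain ⟨c, -, hc⟩ := hA n hn
    rw [hc, hsm, h0, mul_zero]
  · right
    intro ε hε
    have hq := nrm_pos (av v) (hy q)
    set κ : ℝ := av v (eval (y q) B) / nrm (av v) (y q) ^ p with hκ
    have hκ0 : 0 < κ := div_pos ((av v).pos h0) (pow_pos hq p)
    obtain ⟨N, hN⟩ := grow hd ε κ⁻¹ hε
    refine ⟨N, fun n hn hn' => ?_⟩
    obtain ⟨c, hc0, hc⟩ := hA n hn
    have h1 : nrm (av v) (y n) = av v c * nrm (av v) (y q) := by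
      rw [hc]
      apply le_antisymm
      · apply Pool.Agent.W180.OP.nrm_le (mul_nonneg ((av v).nonneg _) hq.le)
        intro i
        rw [Pi.smul_apply, smul_eq_mul, map_mul]
        exact mul_le_mul_of_nonneg_left (Pool.Agent.W180.OP.le_nrm _ _ i) ((av v).nonneg _)
      · obtain ⟨i, hi⟩ := Pool.Agent.W180.OP.exists_nrm (av v) (by norm_num : 0 < 2) (y q)
        rw [← hi, ← map_mul]
        exact Pool.Agent.W180.OP.le_nrm (av v) (c • y q) i
    have h2 : av v (eval (y n) B) = κ * nrm (av v) (y n) ^ p := by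
      rw [h1, hc, hsm, map_mul, map_pow, hκ, mul_pow]
      field_simp
    rw [h2]
    apply mul_le_mul_of_nonneg_right _ (pow_nonneg (nrm_pos (av v) (hy n)).le p)
    have h3 := hN n hn'
    rw [Real.exp_neg]
    rw [inv_le_comm₀ (Real.exp_pos _) hκ0]
    exact h3.le

/-- any two monomials in the `u_i` are, up to a factor with periodic values, equal or of different
size at the place `v` -/
def Sep (d : ℕ) (v : Pl k) (u : ℕ → Fin M → k) (m : Fin M → ℤ) : Prop :=
  ∃ δ : ℝ, 0 < δ ∧ ∃ N, ∀ n, N ≤ n → δ * d ^ n ≤ |Real.log (av v (∏ i, u n i ^ m i))|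

def PerM (u : ℕ → Fin M → k) (m : Fin M → ℤ) : Prop :=
  ∃ N L : ℕ, 0 < L ∧ ∀ n, N ≤ n → ∏ i, u (n + L) i ^ m i = ∏ i, u n i ^ m i

lemma mon_div {w : Fin M → k} (hw : ∀ i, w i ≠ 0) (μ ν : Fin M →₀ ℕ) :
    ∏ i, w i ^ ((μ i : ℤ) - (ν i : ℤ)) = (∏ i, w i ^ μ i) / ∏ i, w i ^ ν i := by
  rw [← Finset.prod_div_distrib]
  refine Finset.prod_congr rfl fun i _ => ?_
  rw [zpow_sub₀ (hw i), zpow_natCast, zpow_natCast]

lemma mon_ne {w : Fin M → k} (hw : ∀ i, w i ≠ 0) (μ : Fin M →₀ ℕ) : ∏ i, w i ^ μ i ≠ 0 :=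
  Finset.prod_ne_zero_iff.2 fun i _ => pow_ne_zero _ (hw i)

lemma sep_of {v : Pl k} {u : ℕ → Fin M → k} (hu : ∀ n i, u n i ≠ 0) {μ ν : Fin M →₀ ℕ}
    (h : Sep d v u (fun i => (μ i : ℤ) - (ν i : ℤ))) : ∃ δ : ℝ, 0 < δ ∧ ∃ N, ∀ n, N ≤ n →
      δ * d ^ n ≤ |Real.log (av v (∏ i, u n i ^ μ i)) - Real.log (av v (∏ i, u n i ^ ν i))| := by
  obtain ⟨δ, hδ, N, hN⟩ := h
  refine ⟨δ, hδ, N, fun n hn => ?_⟩
  have h1 := hN n hn
  rw [mon_div (hu n), map_div₀, Real.log_div] at h1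
  · exact h1
  · exact (map_ne_zero (av v)).2 (mon_ne (hu n) μ)
  · exact (map_ne_zero (av v)).2 (mon_ne (hu n) ν)

/-- **Independent sizes at one place**: proper closed sets of any dimension -/
theorem dom_finite (hg : IsEndo d g) (hd : 2 ≤ d) (hE : NoExcept d g) {x : Fin 2 → k} (hx : Wander g x)
    (v : Pl k) {u : ℕ → Fin M → k} (hu : ∀ n i, u n i ≠ 0) (hS : ∀ m : Fin M → ℤ, m ≠ 0 → Sep d v u m)
    {F : MvPolynomial (Fin 2 ⊕ Fin M) k} {p : ℕ} (hF0 : F ≠ 0)
    (hF : IsWeightedHomogeneous (Sum.elim (fun _ : Fin 2 => (1 : ℕ)) (fun _ : Fin M => (0 : ℕ))) F p) :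
    {n | eval (Sum.elim ((pt g)^[n] x) (u n)) F = 0}.Finite := by
  classical
  have hx0 := iter_ne hg (wander_ne hg.1 hd hx)
  obtain ⟨N, hN⟩ := dom_last (av v) hd Set.univ (fun n => nrm (av v) ((pt g)^[n] x) ^ p)
    (fun n => pow_pos (nrm_pos _ (hx0 n)) p) (F.support.image prR)
    (by
      rw [Finset.image_nonempty]
      exact support_nonempty.2 hF0)
    (fun μ n => eval ((pt g)^[n] x) (Cf F μ)) (fun μ n => ∏ i, u n i ^ μ i)
    (fun μ _ => ⟨cs (av v) (Cf F μ), cs_nonneg _ _, fun n => abv_mv (av v) _ (Cf_hom hF μ) _⟩)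
    (fun μ hμ ε hε => by
      obtain ⟨N, hN⟩ := low_ne hg hd hE hx v (Cf_hom hF μ) (Cf_ne (by
        rw [Finset.mem_image] at hμ
        exact hμ)) ε hε
      exact ⟨N, fun n _ hn => hN n hn⟩)
    (fun μ _ n _ => mon_ne (hu n) μ)
    (fun μ _ ν _ hne => by
      obtain ⟨δ, hδ, N, hN⟩ := sep_of hu (hS (fun i => (μ i : ℤ) - (ν i : ℤ)) (by
        intro h0
        apply hne
        ext i
        have := congrFun h0 i
        simp only [Pi.zero_apply] at this
        omega))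
      exact ⟨δ, hδ, N, fun n _ hn => hN n hn⟩)
  apply (Set.finite_Iio N).subset
  intro n hn
  rw [Set.mem_Iio]
  by_contra hcon
  apply hN n (Set.mem_univ n) (not_lt.1 hcon)
  rw [← Cf_eval]
  exact hn

/-- **Dominance at one place**: the return sets of closed sets of any dimension -/
theorem dom_evPer (hg : IsEndo d g) (hd : 2 ≤ d) (hE : NoExcept d g) {x : Fin 2 → k} (hx : x ≠ 0)
    (v : Pl k) {u : ℕ → Fin M → k} (hu : ∀ n i, u n i ≠ 0)
    (hS : ∀ m : Fin M → ℤ, PerM u m ∨ Sep d v u m) (W : Set (MvPolynomial (Fin 2 ⊕ Fin M) k))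
    (hW : ∀ F ∈ W, ∃ p : ℕ, IsWeightedHomogeneous
      (Sum.elim (fun _ : Fin 2 => (1 : ℕ)) (fun _ : Fin M => (0 : ℕ))) F p) :
    EvPer fun n => Eqs W ((pt g)^[n] x) (u n) := by
  classical
  have hx0 := iter_ne hg hx
  -- one equation
  have hone : ∀ F ∈ W, EvPer fun n => eval (Sum.elim ((pt g)^[n] x) (u n)) F = 0 := by
    intro F hFW
    obtain ⟨p, hF⟩ := hW F hFW
    have hS' : ∀ m : Fin M → ℤ, ∃ N L : ℕ, 0 < L ∧
        ((∀ n, N ≤ n → ∏ i, u (n + L) i ^ m i = ∏ i, u n i ^ m i) ∨ Sep d v u m) := by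
      intro m
      rcases hS m with ⟨N, L, hL, h1⟩ | h1
      · exact ⟨N, L, hL, Or.inl h1⟩
      · exact ⟨0, 1, one_pos, Or.inr h1⟩
    choose N L hL hNL using hS'
    have hxper : ∃ a m0 : ℕ, 0 < m0 ∧ (Wander g x ∨ ∀ r n, a ≤ n →
        ∃ c : k, c ≠ 0 ∧ (pt g)^[n + m0 * r] x = c • (pt g)^[n] x) := by
      by_cases hwx : Wander g x
      · exact ⟨0, 1, one_pos, Or.inl hwx⟩
      · obtain ⟨a, m0, hm0, h1⟩ := per_first hg hx hwx
        exact ⟨a, m0, hm0, Or.inr h1⟩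
    obtain ⟨a, m0, hm0, hX⟩ := hxper
    set s := F.support.image prR with hs
    set df : (Fin M →₀ ℕ) × (Fin M →₀ ℕ) → Fin M → ℤ := fun p i => (p.1 i : ℤ) - (p.2 i : ℤ) with hdf
    set N0 := a + ∑ p ∈ s ×ˢ s, N (df p) with hN0
    set L0 := m0 * ∏ p ∈ s ×ˢ s, L (df p) with hL0
    have hL0' : 0 < L0 := Nat.mul_pos hm0 (Finset.prod_pos fun p _ => hL _)
    apply evPer_classes (N0 := N0) hL0'
    intro q hq
    set A : Set ℕ := {n | ∃ r, n = q + L0 * r} with hA
    have hlow : LowP d v (fun n => (pt g)^[n] x) A p := by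
      rcases hX with hX | hX
      · exact low_wander hg hd hE hX v A p
      · apply low_per hd v hx0 (q := q)
        rintro n ⟨r, rfl⟩
        obtain ⟨c, hc0, hc⟩ := hX ((∏ p ∈ s ×ˢ s, L (df p)) * r) q (by omega)
        refine ⟨c, hc0, ?_⟩
        rw [← hc, hL0]
        congr 2
        ring
    have h1 := dom_ind (av v) hd A (fun n => nrm (av v) ((pt g)^[n] x) ^ p)
      (fun n => pow_pos (nrm_pos _ (hx0 n)) p) (BB (fun n => (pt g)^[n] x) p)
      (fun b hb => by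
        obtain ⟨B, hB, hb'⟩ := of_mem_BB hb
        refine ⟨cs (av v) B, cs_nonneg _ _, fun n => ?_⟩
        rw [hb']
        exact abv_mv (av v) _ hB _)
      (fun b hb => by
        obtain ⟨B, hB, hb'⟩ := of_mem_BB hb
        simp only [hb']
        exact hlow B hB)
      (fun (μ : Fin M →₀ ℕ) n => ∏ i, u n i ^ μ i) s.card s
      (fun μ n => eval ((pt g)^[n] x) (Cf F μ)) rfl
      (fun μ _ n _ => mon_ne (hu n) μ)
      (fun μ hμ ν hν hne => by
        rcases hNL (df (μ, ν)) with h2 | h2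
        · left
          refine ⟨∏ i, u q i ^ (df (μ, ν) i), ?_⟩
          rintro n ⟨r, rfl⟩
          have hmem : (μ, ν) ∈ s ×ˢ s := Finset.mem_product.2 ⟨hμ, hν⟩
          have hNle : N (df (μ, ν)) ≤ q := by
            have := Finset.single_le_sum (f := fun p => N (df p)) (fun _ _ => Nat.zero_le _) hmem
            omega
          have hdvd : L (df (μ, ν)) ∣ L0 * r :=
            Dvd.dvd.mul_right (Dvd.dvd.mul_left (Finset.dvd_prod_of_mem (fun p => L (df p)) hmem) _) _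
          obtain ⟨j, hj⟩ := hdvd
          have hper : ∀ j, ∏ i, u (q + L (df (μ, ν)) * j) i ^ (df (μ, ν) i) =
              ∏ i, u q i ^ (df (μ, ν) i) := by
            intro j
            induction j with
            | zero => rw [mul_zero, add_zero]
            | succ j ih =>
              rw [mul_add, mul_one, ← add_assoc, h2 _ (by omega), ih]
          have h3 := hper j
          rw [← hj] at h3
          rw [← h3]
          simp only [hdf]
          rw [mon_div (hu _), div_mul_cancel₀]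
          exact mon_ne (hu _) ν
        · right
          obtain ⟨δ, hδ, N', hN'⟩ := sep_of hu h2
          exact ⟨δ, hδ, N', fun n _ hn => hN' n hn⟩)
      (fun μ _ => mem_BB _ (Cf_hom hF μ))
    rcases h1 with h1 | ⟨N', h1⟩
    · left
      intro r
      rw [Cf_eval]
      exact h1 _ ⟨r, rfl⟩
    · right
      refine ⟨N', fun r hr => ?_⟩
      rw [Cf_eval]
      exact h1 _ ⟨r, rfl⟩ hr
  -- finitely many equations suffice
  obtain ⟨T, hT, hTs⟩ : ∃ T : Finset (MvPolynomial (Fin 2 ⊕ Fin M) k), ↑T ⊆ W ∧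
      Ideal.span (T : Set (MvPolynomial (Fin 2 ⊕ Fin M) k)) = Ideal.span W := by
    have h1 : (Ideal.span W).FG := IsNoetherian.noetherian _
    obtain ⟨T, hT, hTs⟩ := (Submodule.fg_span_iff_fg_span_finset_subset W).1 h1
    exact ⟨T, hT, hTs.symm⟩
  have h2 := EvPer.all T (s := fun F n => eval (Sum.elim ((pt g)^[n] x) (u n)) F = 0)
    (fun F hF => hone F (hT hF))
  have h3 : ∀ n, Eqs W ((pt g)^[n] x) (u n) ↔ ∀ F ∈ T, eval (Sum.elim ((pt g)^[n] x) (u n)) F = 0 := by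
    intro n
    constructor
    · intro h F hF
      exact h F (hT hF)
    · intro h F hF
      have h4 : Ideal.span W ≤ RingHom.ker (eval (Sum.elim ((pt g)^[n] x) (u n))) := by
        rw [← hTs, Ideal.span_le]
        intro F hF
        exact (RingHom.mem_ker).2 (h F hF)
      exact (RingHom.mem_ker).1 (h4 (Ideal.subset_span hF))
  simp only [h3]
  exact h2

end place

end Pool.Agent.H422.SK
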