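import Mathlib
import Pool.Agent.H422.SK.Low

set_option autoImplicit false
set_option linter.unusedSectionVars false

/-!
Integral points on curves over the members of an orbit: number fields.
-/

namespace Pool.Agent.H422.SK

open MvPolynomial NumberField Height Module IsDedekindDomain
open Pool.Agent.Q170.HG (pt IsEndo iter_ne dich)
open Pool.Agent.W180.OP (Pl av wt fv nrm le_nrm nrm_pos nrm_nonneg wt_nonneg exists_nrm nrm_le)
open Pool.Agent.NH28 (height_sum nrm_support)

variable {k : Type} [Field k] [NumberField k] {d : ℕ} {g : Fin 2 → MvPolynomial (Fin 2) k}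

lemma pair_ne (y : k) : (![1, y] : Fin 2 → k) ≠ 0 := by
  intro h
  have := congrFun h 0
  simp at this

/-- the height of an `S`-integer is a sum over `S` -/
lemma int_height (S : Finset (Pl k)) (hinl : ∀ w : InfinitePlace k, (Sum.inl w : Pl k) ∈ S) (y : k)
    (hy : ∀ v ∉ S, av v y ≤ 1) :
    logHeight ![1, y] = ∑ v ∈ S, wt v * Real.log (nrm (av v) ![1, y]) := by
  classical
  set T : Finset (HeightOneSpectrum (𝓞 k)) := S.toRight ∪ (nrm_support (pair_ne y)).toFinset with hT
  have hout : ∀ v, v ∉ S → Real.log (nrm (av v) ![1, y]) = 0 := by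
    intro v hv
    have h1 : nrm (av v) ![1, y] = 1 := by
      apply le_antisymm
      · apply nrm_le
        · exact zero_le_one
        · intro i
          fin_cases i
          · simp
          · exact hy v hv
      · have := le_nrm (av v) ![1, y] 0
        simpa using this
    rw [h1, Real.log_one]
  rw [height_sum (pair_ne y) T fun v hv => by
    rw [hT]
    simp only [Finset.mem_union, Set.Finite.mem_toFinset, Set.mem_ofPred_eq]
    exact Or.inr hv]
  have h1 : S = (Finset.univ : Finset (InfinitePlace k)).disjSum S.toRight := by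
    ext v
    cases v with
    | inl w => simp [hinl w]
    | inr v => simp
  conv_rhs => rw [h1]
  rw [Finset.sum_disjSum]
  have h2 : ∑ v ∈ T, Real.log (nrm (fv v) ![1, y]) =
      ∑ v ∈ S.toRight, Real.log (nrm (fv v) ![1, y]) := by
    symm
    apply Finset.sum_subset (by rw [hT]; exact Finset.subset_union_left)
    intro v _ hv
    have h3 : (Sum.inr v : Pl k) ∉ S := fun h => hv (Finset.mem_toRight.2 h)
    exact hout _ h3
  rw [h2]
  congr 1
  refine Finset.sum_congr rfl fun v _ => ?_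
  have h5 : wt (Sum.inr v : Pl k) = 1 := rfl
  rw [h5, one_mul]
  rfl

theorem int_orbit (hg : IsEndo d g) (hd : 2 ≤ d) (hE : NoExcept d g) {x : Fin 2 → k}
    (hx : Wander g x) (Q : Polynomial (Polynomial k)) (hQ : Q ≠ 0) (S0 : Finset (Pl k)) :
    ∃ E : Finset k, {n | ∃ y, y ∉ E ∧ (∀ v ∉ S0, av v y ≤ 1) ∧ (pt g)^[n] x 0 ≠ 0 ∧
      Q.evalEval ((pt g)^[n] x 1 / (pt g)^[n] x 0) y = 0}.Finite := by
  classical
  have hx0 : x ≠ 0 := wander_ne hg.1 hd hx
  obtain ⟨J, C, E, hJ⟩ := rel_height Q hQ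
  refine ⟨E, ?_⟩
  set S : Finset (Pl k) := S0 ∪ Finset.univ.image Sum.inl with hS
  have hinl : ∀ w : InfinitePlace k, (Sum.inl w : Pl k) ∈ S := by
    intro w
    rw [hS, Finset.mem_union]
    exact Or.inr (Finset.mem_image_of_mem _ (Finset.mem_univ w))
  obtain ⟨M0, hM0⟩ := dich hg hd
  have hgrow : ∀ n ≥ M0, (d : ℝ) ^ (n - M0) ≤ logHeight ((pt g)^[n] x) := by
    rcases hM0 x hx0 with ⟨t, m, hm, -, c, hc, h1⟩ | h1
    · exact absurd h1 (hx (t + m) t (by omega) c)
    · exact h1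
  have hd0 : (0 : ℝ) < d := by
    have : 0 < d := by omega
    exact_mod_cast this
  set W : ℝ := ∑ v ∈ S, wt v with hW
  have hW0 : 0 ≤ W := Finset.sum_nonneg fun v _ => wt_nonneg v
  set c : ℝ := (2 * (J + 1) * (W + 1) * (d : ℝ) ^ M0)⁻¹ with hc
  have hc0 : 0 < c := by positivity
  -- large times
  obtain ⟨n1, hn1⟩ : ∃ n1 : ℕ, ∀ n ≥ n1, C < (d : ℝ) ^ (n - M0) / 2 := by
    have h1 : Filter.Tendsto (fun n : ℕ => (d : ℝ) ^ n) Filter.atTop Filter.atTop :=
      tendsto_pow_atTop_atTop_of_one_lt (by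
        have : (1 : ℕ) < d := by omega
        exact_mod_cast this)
    obtain ⟨n1, hn1⟩ := Filter.eventually_atTop.1 (h1.eventually_gt_atTop (2 * C))
    refine ⟨n1 + M0, fun n hn => ?_⟩
    have := hn1 (n - M0) (by omega)
    linarith
  have heng : ∀ v : Pl k, ∃ n1, ∀ n ≥ n1, ∀ y : k, y ≠ 0 →
      (0 : ℕ) * Real.log (nrm (av v) ((pt g)^[n] x)) + c * d ^ n ≤ Real.log (av v y) →
      (pt g)^[n] x 0 ≠ 0 ∧ Q.evalEval (algebraMap k k ((pt g)^[n] x 1 / (pt g)^[n] x 0))
        (algebraMap k k (y / (pt g)^[n] x 0 ^ 0)) ≠ 0 :=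
    fun v => engine hg hd hE hx0 hx v 0 Q hQ c hc0
  choose n2 hn2 using heng
  apply (Set.finite_Iio (n1 + M0 + ∑ v ∈ S, n2 v)).subset
  rintro n ⟨y, hyE, hy, hn0, hQ0⟩
  by_contra hcon
  rw [Set.mem_Iio, not_lt] at hcon
  have h1 := hJ _ y hn0 hyE hQ0
  have h2 := hgrow n (by omega)
  have h3 := hn1 n (by omega)
  have hyS : ∀ v ∉ S, av v y ≤ 1 := by
    intro v hv
    apply hy v
    intro h
    exact hv (by rw [hS]; exact Finset.mem_union_left _ h)
  rw [int_height S hinl y hyS] at h1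
  obtain ⟨v, hv, hvc⟩ : ∃ v ∈ S, c * d ^ n ≤ Real.log (nrm (av v) ![1, y]) := by
    by_contra hno
    push Not at hno
    have h4 : ∑ v ∈ S, wt v * Real.log (nrm (av v) ![1, y]) ≤ ∑ v ∈ S, wt v * (c * d ^ n) :=
      Finset.sum_le_sum fun v hv => mul_le_mul_of_nonneg_left (hno v hv).le (wt_nonneg v)
    rw [← Finset.sum_mul, ← hW] at h4
    have h5 : (d : ℝ) ^ n = (d : ℝ) ^ M0 * (d : ℝ) ^ (n - M0) := by
      rw [← pow_add]
      congr 1
      omega
    have hJ0 : (0 : ℝ) ≤ J := Nat.cast_nonneg J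
    have h6 : (J : ℝ) * (W * (c * d ^ n)) ≤ (d : ℝ) ^ (n - M0) / 2 := by
      have e1 : (J : ℝ) * (W * (c * d ^ n)) = (J / (J + 1)) * (W / (W + 1)) * ((d : ℝ) ^ (n - M0) / 2) := by
        rw [hc, h5]
        field_simp
      rw [e1]
      have e2 : (J : ℝ) / (J + 1) ≤ 1 := by
        rw [div_le_one (by positivity)]
        linarith
      have e3 : W / (W + 1) ≤ 1 := by
        rw [div_le_one (by positivity)]
        linarith
      have e4 : (0 : ℝ) ≤ (d : ℝ) ^ (n - M0) / 2 := by positivity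
      have e5 : (J : ℝ) / (J + 1) * (W / (W + 1)) ≤ 1 := by
        have : 0 ≤ W / (W + 1) := by positivity
        nlinarith
      nlinarith
    have h7 := mul_le_mul_of_nonneg_left h4 hJ0
    linarith
  have hcd : 0 < c * (d : ℝ) ^ n := by positivity
  -- the norm is the absolute value of `y`
  obtain ⟨i, hi⟩ := exists_nrm (av v) (by norm_num : 0 < 2) ![1, y]
  have hyv : Real.log (nrm (av v) ![1, y]) = Real.log (av v y) := by
    rw [← hi]
    fin_cases i
    · exfalso
      rw [← hi] at hvc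
      simp at hvc
      linarith
    · rfl
  have hy0 : y ≠ 0 := by
    rintro rfl
    rw [hyv, map_zero, Real.log_zero] at hvc
    linarith
  have h8 : n2 v ≤ ∑ v ∈ S, n2 v :=
    Finset.single_le_sum (f := fun v => n2 v) (fun _ _ => Nat.zero_le _) hv
  obtain ⟨-, h9⟩ := hn2 v n (by omega) y hy0 (by
    rw [Nat.cast_zero, zero_mul, zero_add, ← hyv]
    exact hvc)
  apply h9
  rw [pow_zero, div_one]
  exact hQ0

end Pool.Agent.H422.SK
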