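import Mathlib
import Pool.Agent.H422.SK.Core
import Pool.Agent.H422.SK.Int

set_option autoImplicit false
set_option linter.unusedSectionVars false

/-!
Integral points on curves over the members of an orbit: finitely generated rings.
-/

namespace Pool.Agent.H422.SK

open MvPolynomial NumberField IsDedekindDomain
open Pool.Agent.Q170.HG (pt IsEndo iter_ne)
open Pool.Agent.W180.OP (Pl av wt fv fv_support_finite)

section numberfield

variable {k : Type} [Field k] [NumberField k] {d : ℕ} {g : Fin 2 → MvPolynomial (Fin 2) k}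

/-- the relation as a form in `x` -/
lemma relv_form {D : ℕ} (q α : Fin (D + 1) → Polynomial k) (hα : ∑ j, α j * q j = 1) (w : k) :
    ∃ B : MvPolynomial (Fin 2) k, B.IsHomogeneous D ∧ B ≠ 0 ∧ ∀ z, eval z B = relv q z w := by
  classical
  set B : MvPolynomial (Fin 2) k := ∑ j : Fin (D + 1),
    C ((q j).eval w) * (X 1 ^ (j : ℕ) * X 0 ^ (D - j)) with hB
  have hBev : ∀ z : Fin 2 → k, eval z B = relv q z w := by
    intro z
    rw [hB, relv]
    simp only [map_sum, map_mul, map_pow, eval_X, eval_C]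
  refine ⟨B, ?_, ?_, hBev⟩
  · apply IsHomogeneous.sum
    intro j _
    have h1 := (isHomogeneous_C (Fin 2) ((q j).eval w)).mul
      (((isHomogeneous_X k (1 : Fin 2)).pow (j : ℕ)).mul ((isHomogeneous_X k (0 : Fin 2)).pow (D - j)))
    convert h1 using 1
    have := j.2
    omega
  · intro h0
    have h1 := form_zero (a := fun j => (q j).eval w) (fun T => by
      have h2 : eval ![1, T] B = 0 := by rw [h0, map_zero]
      rw [hBev, relv] at h2
      rw [← h2]
      refine Finset.sum_congr rfl fun j _ => ?_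
      simp)
    have h2 := congrArg (Polynomial.eval w) hα
    rw [Polynomial.eval_finsetSum, Polynomial.eval_one] at h2
    have h3 : ∀ j, (α j * q j).eval w = 0 := by
      intro j
      rw [Polynomial.eval_mul]
      have := congrFun h1 j
      rw [this, Pi.zero_apply, mul_zero]
    simp only [h3, Finset.sum_const_zero] at h2
    exact zero_ne_one h2

theorem int_relv (hg : IsEndo d g) (hd : 2 ≤ d) (hE : NoExcept d g) {x : Fin 2 → k}
    (hx : Wander g x) {D : ℕ} (q α : Fin (D + 1) → Polynomial k) (hα : ∑ j, α j * q j = 1)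
    (S0 : Finset (Pl k)) :
    {n | ∃ y, (∀ v ∉ S0, av v y ≤ 1) ∧ relv q ((pt g)^[n] x) y = 0}.Finite := by
  classical
  have hx0 : ∀ n, (pt g)^[n] x ≠ 0 := iter_ne hg (wander_ne hg.1 hd hx)
  have hq : ∃ j, q j ≠ 0 := by
    by_contra hcon
    push Not at hcon
    simp only [hcon, mul_zero, Finset.sum_const_zero] at hα
    exact zero_ne_one hα
  obtain ⟨P, hP, hPq⟩ := rel_poly q hq
  obtain ⟨Q, hQ, hQP⟩ := to_poly P hP
  obtain ⟨E, hE1⟩ := int_orbit hg hd hE hx Q hQ S0
  obtain ⟨n2, hn2⟩ := eventually_ne (g := g) (isHomogeneous_X k (0 : Fin 2)) (X_ne_zero 0) hx0 hx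
  choose B hBh hB0 hBev using relv_form q α hα
  choose n3 hn3 using fun w => eventually_ne (g := g) (hBh w) (hB0 w) hx0 hx
  apply ((hE1.union (Set.finite_Iio n2)).union (Set.finite_Iio (∑ w ∈ E, n3 w))).subset
  rintro n ⟨y, hy, hrel⟩
  by_cases hlt : n < n2
  · exact Or.inl (Or.inr hlt)
  · by_cases hyE : y ∈ E
    · right
      rw [Set.mem_Iio]
      by_contra hge
      have h1 : n3 y ≤ ∑ w ∈ E, n3 w :=
        Finset.single_le_sum (f := n3) (fun _ _ => Nat.zero_le _) hyE
      apply hn3 y n (by omega)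
      rw [hBev, hrel]
    · left
      left
      have h3 := hn2 n (by omega)
      rw [eval_X] at h3
      refine ⟨y, hyE, hy, h3, ?_⟩
      rw [hQP]
      exact hPq _ y h3 hrel

/-- finitely generated rings consist of `S`-integers -/
lemma fg_int {A₀ : Type} [CommRing A₀] (β : A₀ →+* k) (T : Set A₀) (hT : T.Finite) :
    ∃ S0 : Finset (Pl k), ∀ v ∉ S0, ∀ y ∈ Algebra.adjoin ℤ T, av v (β y) ≤ 1 := by
  classical
  have hf : (Set.range (Sum.inl : InfinitePlace k → Pl k) ∪
      Sum.inr '' (⋃ t ∈ T, {v : HeightOneSpectrum (𝓞 k) | ¬ fv v (β t) ≤ 1})).Finite := by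
    refine (Set.finite_range _).union (Set.Finite.image _ (Set.Finite.biUnion hT fun t _ => ?_))
    by_cases h0 : β t = 0
    · refine Set.finite_empty.subset fun v hv => ?_
      exact absurd (by rw [h0, map_zero]; exact zero_le_one) hv
    · refine (fv_support_finite h0).subset fun v hv => ?_
      intro h1
      exact hv h1.le
  refine ⟨hf.toFinset, fun v hv y hy => ?_⟩
  rw [Set.Finite.mem_toFinset, Set.mem_union, not_or] at hv
  cases v with
  | inl w => exact absurd ⟨w, rfl⟩ hv.1
  | inr v =>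
    have hvT : ∀ t ∈ T, fv v (β t) ≤ 1 := by
      intro t ht
      by_contra hcon
      exact hv.2 ⟨v, Set.mem_iUnion₂.2 ⟨t, ht, hcon⟩, rfl⟩
    change fv v (β y) ≤ 1
    induction hy using Algebra.adjoin_induction with
    | mem t ht => exact hvT t ht
    | algebraMap r =>
      have h1 : β (algebraMap ℤ A₀ r) = (r : k) := by
        rw [eq_intCast, map_intCast]
      rw [h1]
      exact IsNonarchimedean.apply_intCast_le_one (fv_na v)
    | add a b _ _ iha ihb =>
      rw [map_add]
      exact (fv_na v _ _).trans (max_le iha ihb)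
    | mul a b _ _ iha ihb =>
      rw [map_mul, map_mul]
      exact mul_le_one₀ iha ((fv v).nonneg _) ihb

end numberfield

section core

variable {L : Type} [Field L] [CharZero L] [IsAlgClosed L] {d : ℕ}

theorem core_z (hd : 2 ≤ d)
    {g : Fin 2 → MvPolynomial (Fin 2) L} (hg : ∀ i, (g i).IsHomogeneous d)
    (hg0 : ∀ x : Fin 2 → L, (∀ i, eval x (g i) = 0) → x = 0)
    (hE : ∀ v : Fin 2 → L, v ≠ 0 → ∀ c : L, ¬ ∀ x : Fin 2 → L,
      v 0 * (evr g)^[2] x 0 + v 1 * (evr g)^[2] x 1 = c * (v 0 * x 0 + v 1 * x 1) ^ d ^ 2)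
    {t : Fin 2 → L} {i1 : Fin 2} (ht1 : t i1 = 1)
    (hw : ∀ i j : ℕ, i ≠ j → ∀ c : L, (evr g)^[i] t ≠ c • (evr g)^[j] t)
    {D : ℕ} (q α : Fin (D + 1) → Polynomial L) (hα : ∑ j, α j * q j = 1) (T : Set L) (hT : T.Finite) :
    {n | ∃ y ∈ Algebra.adjoin ℤ T, relv q ((evr g)^[n] t) y = 0}.Finite := by
  classical
  -- certificates
  obtain ⟨m1, q1, h1⟩ := cert_forms g hg0
  obtain ⟨m3, c3, h3⟩ := cert_exc (d := d) hd g hE
  -- the ring
  set S1 : Set L := ⋃ i, ((g i).coeffs : Set L) with hS1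
  set S2 : Set L := ⋃ (k) (j), ((q1 k j).coeffs : Set L) with hS2
  set S5 : Set L := ⋃ k, ⋃ i ∈ (c3 k).support, ((c3 k i).coeffs : Set L) with hS5
  set S6 : Set L := ⋃ k, ⋃ i ∈ (c3 k).support, (Set.range i.1 ∪ Set.range i.2) with hS6
  set S7 : Set L := Set.range t ∪ T with hS7
  set S8 : Set L := ⋃ j, ((q j).coeffs : Set L) with hS8
  set S9 : Set L := ⋃ j, ((α j).coeffs : Set L) with hS9
  set SS : Set L := S1 ∪ S2 ∪ S5 ∪ S6 ∪ S7 ∪ S8 ∪ S9 with hSS
  have hfin : SS.Finite := by
    have f1 : S1.Finite := Set.finite_iUnion fun i => Finset.finite_toSet _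
    have f2 : S2.Finite := Set.finite_iUnion fun k => Set.finite_iUnion fun j => Finset.finite_toSet _
    have f5 : S5.Finite := Set.finite_iUnion fun k => Set.Finite.biUnion (Finset.finite_toSet _)
      fun i _ => Finset.finite_toSet _
    have f6 : S6.Finite := Set.finite_iUnion fun k => Set.Finite.biUnion (Finset.finite_toSet _)
      fun i _ => (Set.finite_range _).union (Set.finite_range _)
    have f7 : S7.Finite := (Set.finite_range _).union hT
    have f8 : S8.Finite := Set.finite_iUnion fun i => Finset.finite_toSet _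
    have f9 : S9.Finite := Set.finite_iUnion fun i => Finset.finite_toSet _
    exact (((((f1.union f2).union f5).union f6).union f7).union f8).union f9
  set S : Finset L := hfin.toFinset with hS
  obtain ⟨A₀, hA₀⟩ : ∃ A₀ : Subalgebra ℚ L, A₀ = Algebra.adjoin ℚ (S : Set L) := ⟨_, rfl⟩
  have hsub : SS ⊆ A₀ := by
    intro c hc
    rw [hA₀]
    apply Algebra.subset_adjoin
    rw [hS, Set.Finite.coe_toFinset]
    exact hc
  have hinj : Function.Injective (algebraMap A₀ L) := Subtype.val_injective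
  -- the lifts
  choose g' hg' using fun i => lift_mv (A₀ := A₀) (g i) fun c hc => hsub (by
    have : c ∈ S1 := Set.mem_iUnion.2 ⟨i, hc⟩
    simp only [hSS, Set.mem_union]
    tauto)
  choose q1' hq1' using fun k j => lift_mv (A₀ := A₀) (q1 k j) fun c hc => hsub (by
    have : c ∈ S2 := Set.mem_iUnion₂.2 ⟨k, j, hc⟩
    simp only [hSS, Set.mem_union]
    tauto)
  have hc3 : ∀ k i, ∃ p' : MvPolynomial (Fin 2) A₀, map (algebraMap A₀ L) p' = c3 k i := by
    intro k i
    by_cases hi : i ∈ (c3 k).support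
    · exact lift_mv (A₀ := A₀) (c3 k i) fun c hc => hsub (by
        have : c ∈ S5 := Set.mem_iUnion.2 ⟨k, Set.mem_iUnion₂.2 ⟨i, hi, hc⟩⟩
        simp only [hSS, Set.mem_union]
        tauto)
    · refine ⟨0, ?_⟩
      rw [Finsupp.notMem_support_iff.1 hi, map_zero]
  choose c3' hc3' using hc3
  have hpt : ∀ k i, ∃ p : (Fin 2 → A₀) × (Fin 2 → A₀), i ∈ (c3 k).support →
      (fun a => algebraMap A₀ L (p.1 a)) = i.1 ∧ (fun a => algebraMap A₀ L (p.2 a)) = i.2 := by
    intro k i
    by_cases hi : i ∈ (c3 k).support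
    · have hm : ∀ c, c ∈ Set.range i.1 ∪ Set.range i.2 → c ∈ A₀ := fun c hc => hsub (by
        have : c ∈ S6 := Set.mem_iUnion.2 ⟨k, Set.mem_iUnion₂.2 ⟨i, hi, hc⟩⟩
        simp only [hSS, Set.mem_union]
        tauto)
      exact ⟨(fun a => ⟨i.1 a, hm _ (Or.inl ⟨a, rfl⟩)⟩, fun a => ⟨i.2 a, hm _ (Or.inr ⟨a, rfl⟩)⟩),
        fun _ => ⟨rfl, rfl⟩⟩
    · exact ⟨0, fun h => absurd h hi⟩
  choose P hP using hpt
  have hm7 : ∀ c, c ∈ S7 → c ∈ A₀ := fun c hc => hsub (by
    simp only [hSS, Set.mem_union]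
    tauto)
  obtain ⟨t', ht'⟩ : ∃ t' : Fin 2 → A₀, (fun a => algebraMap A₀ L (t' a)) = t :=
    ⟨fun a => ⟨t a, hm7 _ (Or.inl ⟨a, rfl⟩)⟩, rfl⟩
  choose q' hq' using fun j => lift_po (A₀ := A₀) (q j) fun c hc => hsub (by
    have : c ∈ S8 := Set.mem_iUnion.2 ⟨j, hc⟩
    simp only [hSS, Set.mem_union]
    tauto)
  choose α' hα' using fun j => lift_po (A₀ := A₀) (α j) fun c hc => hsub (by
    have : c ∈ S9 := Set.mem_iUnion.2 ⟨j, hc⟩
    simp only [hSS, Set.mem_union]
    tauto)
  -- the finitely generated ring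
  set T' : Set A₀ := {a | (a : L) ∈ T} with hT'
  have hT'f : T'.Finite := Set.Finite.preimage Subtype.val_injective.injOn hT
  have hlift : ∀ y ∈ Algebra.adjoin ℤ T, ∃ y' ∈ Algebra.adjoin ℤ T', algebraMap A₀ L y' = y := by
    intro y hy
    induction hy using Algebra.adjoin_induction with
    | mem t ht => exact ⟨⟨t, hm7 t (Or.inr ht)⟩, Algebra.subset_adjoin ht, rfl⟩
    | algebraMap r =>
      refine ⟨algebraMap ℤ A₀ r, Subalgebra.algebraMap_mem _ r, ?_⟩
      rw [eq_intCast, map_intCast, eq_intCast]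
    | add a b _ _ iha ihb =>
      obtain ⟨a', ha, rfl⟩ := iha
      obtain ⟨b', hb, rfl⟩ := ihb
      exact ⟨a' + b', add_mem ha hb, map_add _ _ _⟩
    | mul a b _ _ iha ihb =>
      obtain ⟨a', ha, rfl⟩ := iha
      obtain ⟨b', hb, rfl⟩ := ihb
      exact ⟨a' * b', mul_mem ha hb, map_mul _ _ _⟩
  -- identities over the ring
  have E1 : ∀ k, ∑ j, q1' k j * g' j = X k ^ m1 k := by
    intro k
    apply map_injective _ hinj
    rw [map_sum, map_pow, map_X, ← h1 k]
    refine Finset.sum_congr rfl fun j _ => ?_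
    rw [map_mul, hq1', hg']
  have E3 : ∀ k, ∑ i ∈ (c3 k).support, c3' k i * wp g' (d ^ 2) (P k i).1 (P k i).2 = X k ^ m3 k := by
    intro k
    apply map_injective _ hinj
    rw [map_sum, map_pow, map_X, ← h3 k, Finsupp.sum]
    refine Finset.sum_congr rfl fun i hi => ?_
    obtain ⟨p1, p2⟩ := hP k i hi
    rw [map_mul, hc3', ← wp_map, p1, p2]
    congr 2
    funext a
    exact hg' a
  have E5 : ∑ j, α' j * q' j = 1 := by
    apply Polynomial.map_injective _ hinj
    rw [Polynomial.map_sum, Polynomial.map_one, ← hα]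
    refine Finset.sum_congr rfl fun j _ => ?_
    rw [Polynomial.map_mul, hα', hq']
  have hg'h : ∀ i, (g' i).IsHomogeneous d := fun i => IsHomogeneous.of_map hinj (by
    rw [hg']
    exact hg i)
  have horb : ∀ n, (fun a => algebraMap A₀ L ((evr g')^[n] t' a)) = (evr g)^[n] t := by
    intro n
    rw [← evr_iter_map, ht']
    congr 2
    funext a
    rw [hg']
  obtain ⟨k, _, _, β, hβ⟩ := spec_hom S A₀ hA₀ hd g' hg'h m1 q1' E1 t' i1 (by
    apply hinj
    rw [map_one, ← ht1, ← ht']) (fun i j hij c => by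
      rw [horb, horb]
      exact hw i j hij c)
  set gk : Fin 2 → MvPolynomial (Fin 2) k := fun i => map β (g' i) with hgk
  set tk : Fin 2 → k := fun a => β (t' a) with htk
  set qk : Fin (D + 1) → Polynomial k := fun j => (q' j).map β with hqk
  have horbk : ∀ n, (pt gk)^[n] tk = fun a => β ((evr g')^[n] t' a) := fun n => evr_iter_map β g' t' n
  set γ : A₀ →+* AlgebraicClosure k := (algebraMap k (AlgebraicClosure k)).comp β with hγ
  have hev : ∀ {n : ℕ} (p : MvPolynomial (Fin n) A₀) (x : Fin n → AlgebraicClosure k),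
      aeval x (map β p) = eval x (map γ p) := by
    intro n p x
    rw [aeval_def, ← eval_map, map_map]
  -- the specialized maps
  have hgE : IsEndo d gk := by
    refine ⟨fun i => (hg'h i).map β, fun x hx => ?_⟩
    funext i
    have h4 := congrArg (fun p => eval x (map γ p)) (E1 i)
    simp only [map_sum, map_mul, map_pow, map_X, eval_X] at h4
    have h5 : ∀ j, eval x (map γ (g' j)) = 0 := fun j => by rw [← hev]; exact hx j
    simp only [h5, mul_zero, Finset.sum_const_zero] at h4
    by_contra h6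
    exact pow_ne_zero _ h6 h4.symm
  have hNE : NoExcept d gk := by
    intro v c hv hid
    apply hv
    funext i
    have h4 := congrArg (fun p => eval v (map γ p)) (E3 i)
    simp only [map_sum, map_mul, map_pow, map_X, eval_X] at h4
    have hevg : (ev gk : (Fin 2 → AlgebraicClosure k) → _) = evr fun a => map γ (g' a) := by
      funext x a
      rw [ev, evr, hgk]
      exact hev _ _
    have h5 : ∀ x y, eval v (map γ (wp g' (d ^ 2) x y)) = 0 := by
      intro x y
      rw [← wp_map, wp]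
      simp only [map_sub, map_mul, map_add, map_pow, eval_X, eval_C]
      rw [← hevg, hid, hid]
      ring
    simp only [h5, mul_zero, Finset.sum_const_zero] at h4
    by_contra h6
    exact pow_ne_zero _ h6 h4.symm
  have hW : Wander gk tk := by
    intro i j hij c hc
    rw [horbk, horbk] at hc
    exact hβ i j hij c hc
  have hEk : ∑ j, (α' j).map β * qk j = 1 := by
    have := congrArg (Polynomial.map β) E5
    rw [Polynomial.map_sum, Polynomial.map_one] at this
    rw [← this]
    refine Finset.sum_congr rfl fun j _ => ?_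
    rw [Polynomial.map_mul]
  obtain ⟨S0, hS0⟩ := fg_int β T' hT'f
  have hfinal := int_relv hgE hd hNE hW qk (fun j => (α' j).map β) hEk S0
  apply hfinal.subset
  rintro n ⟨y, hy, hrel⟩
  obtain ⟨y', hy', rfl⟩ := hlift y hy
  refine ⟨β y', fun v hv => hS0 v hv y' hy', ?_⟩
  have h4 : relv q' ((evr g')^[n] t') y' = 0 := by
    apply hinj
    rw [map_zero, ← relv_map, horb n]
    have h5 : (fun j => Polynomial.map (algebraMap A₀ L) (q' j)) = q := funext fun j => hq' j
    rw [h5]
    exact hrel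
  rw [horbk]
  have h5 := relv_map β q' ((evr g')^[n] t') y'
  rw [h4, map_zero] at h5
  exact h5

end core

end Pool.Agent.H422.SK
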