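import Mathlib
import Pool.Agent.H422.SK.DomV
import Pool.Agent.H422.SK.Esc

set_option autoImplicit false
set_option linter.unusedSectionVars false

/-!
Dominance at one place for polynomials which are not homogeneous in the first two variables.
-/

namespace Pool.Agent.H422.SK

open MvPolynomial NumberField
open Pool.Agent.Q170.HG (pt IsEndo iter_ne)
open Pool.Agent.W180.OP (Pl av nrm nrm_pos nrm_le le_nrm exists_nrm nrm_nonneg abv_mv cs cs_nonneg)

section abstract

variable {k : Type} [Field k] (f : AbsoluteValue k ℝ) {d : ℕ} (hd : 2 ≤ d) (A : Set ℕ) (w : ℕ → ℝ)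
  (hw : ∀ n, 0 < w n)

include hd hw in
/-- **Dominance.** Any two terms are proportional or separated: the sum is identically zero or
eventually nonzero. -/
theorem dom_ind2 {ι : Type} (𝓑 : ι → Submodule k (ℕ → k))
    (hup : ∀ i, ∀ b ∈ 𝓑 i, ∃ C : ℝ, 0 ≤ C ∧ ∀ n, f (b n) ≤ C * w n)
    (hlow : ∀ i, ∀ b ∈ 𝓑 i, (∀ n ∈ A, b n = 0) ∨ ∀ ε : ℝ, 0 < ε → ∃ N, ∀ n ∈ A, N ≤ n →
      Real.exp (-(ε * d ^ n)) * w n ≤ f (b n))
    (t : ι → ℕ → k) (m : ℕ) : ∀ (s : Finset ι) (b : ι → ℕ → k), s.card = m →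
    (∀ i ∈ s, ∀ n ∈ A, t i n ≠ 0) →
    (∀ i ∈ s, ∀ j ∈ s, i ≠ j → (𝓑 i ≤ 𝓑 j ∧ ∃ c : k, ∀ n ∈ A, t i n = c * t j n) ∨
      ∃ δ : ℝ, 0 < δ ∧ ∃ N, ∀ n ∈ A, N ≤ n →
      δ * d ^ n ≤ |Real.log (f (t i n)) - Real.log (f (t j n))|) →
    (∀ i ∈ s, b i ∈ 𝓑 i) →
    (∀ n ∈ A, ∑ i ∈ s, b i n * t i n = 0) ∨
      ∃ N, ∀ n ∈ A, N ≤ n → ∑ i ∈ s, b i n * t i n ≠ 0 := by
  classical
  induction m with
  | zero =>
    intro s b hs _ _ _
    rw [Finset.card_eq_zero] at hs
    left
    intro n _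
    rw [hs, Finset.sum_empty]
  | succ m ih =>
    intro s b hs ht hsep hb
    by_cases hz : ∃ i ∈ s, ∀ n ∈ A, b i n = 0
    · obtain ⟨i, hi, hi0⟩ := hz
      have hsum : ∀ n ∈ A, ∑ j ∈ s.erase i, b j n * t j n = ∑ j ∈ s, b j n * t j n := by
        intro n hn
        rw [← Finset.add_sum_erase s _ hi, hi0 n hn, zero_mul, zero_add]
      have h1 := ih (s.erase i) b (by rw [Finset.card_erase_of_mem hi, hs]; rfl)
        (fun j hj => ht j (Finset.mem_of_mem_erase hj))
        (fun j hj l hl => hsep j (Finset.mem_of_mem_erase hj) l (Finset.mem_of_mem_erase hl))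
        (fun j hj => hb j (Finset.mem_of_mem_erase hj))
      rcases h1 with h1 | ⟨N, h1⟩
      · left
        intro n hn
        rw [← hsum n hn]
        exact h1 n hn
      · right
        refine ⟨N, fun n hn hn' => ?_⟩
        rw [← hsum n hn]
        exact h1 n hn hn'
    · by_cases hp : ∃ i ∈ s, ∃ j ∈ s, i ≠ j ∧ 𝓑 i ≤ 𝓑 j ∧ ∃ c : k, ∀ n ∈ A, t i n = c * t j n
      · obtain ⟨i, hi, j, hj, hij, hle, c, hc⟩ := hp
        set b' : ι → ℕ → k := Function.update b j (b j + c • b i) with hb'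
        have hj' : j ∈ s.erase i := Finset.mem_erase.2 ⟨hij.symm, hj⟩
        have hsum : ∀ n ∈ A, ∑ l ∈ s.erase i, b' l n * t l n = ∑ l ∈ s, b l n * t l n := by
          intro n hn
          rw [← Finset.add_sum_erase s _ hi, ← Finset.add_sum_erase _ _ hj',
            ← Finset.add_sum_erase (s.erase i) (fun l => b l n * t l n) hj']
          have h2 : ∑ l ∈ (s.erase i).erase j, b' l n * t l n =
              ∑ l ∈ (s.erase i).erase j, b l n * t l n := by
            refine Finset.sum_congr rfl fun l hl => ?_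
            rw [hb', Function.update_of_ne (Finset.ne_of_mem_erase hl)]
          have h3 : b' j n = b j n + c * b i n := by
            rw [hb', Function.update_self]
            rfl
          rw [h2, h3, hc n hn]
          ring
        have h1 := ih (s.erase i) b' (by rw [Finset.card_erase_of_mem hi, hs]; rfl)
          (fun j hj => ht j (Finset.mem_of_mem_erase hj))
          (fun j hj l hl => hsep j (Finset.mem_of_mem_erase hj) l (Finset.mem_of_mem_erase hl))
          (fun l hl => by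
            rw [hb']
            by_cases hlj : l = j
            · rw [hlj, Function.update_self]
              exact (𝓑 j).add_mem (hb j hj) ((𝓑 j).smul_mem c (hle (hb i hi)))
            · rw [Function.update_of_ne hlj]
              exact hb l (Finset.mem_of_mem_erase hl))
        rcases h1 with h1 | ⟨N, h1⟩
        · left
          intro n hn
          rw [← hsum n hn]
          exact h1 n hn
        · right
          refine ⟨N, fun n hn hn' => ?_⟩
          rw [← hsum n hn]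
          exact h1 n hn hn'
      · right
        push Not at hp
        push Not at hz
        refine dom_last f hd A w hw s ?_ b t (fun i hi => hup i _ (hb i hi)) (fun i hi => ?_) ht
          (fun i hi j hj hij => ?_)
        · rw [← Finset.card_pos, hs]
          exact Nat.succ_pos m
        · rcases hlow i _ (hb i hi) with h1 | h1
          · obtain ⟨n, hn, h2⟩ := hz i hi
            exact absurd (h1 n hn) h2
          · exact h1
        · rcases hsep i hi j hj hij with ⟨hle, c, hc⟩ | h1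
          · obtain ⟨n, hn, h2⟩ := hp i hi j hj hij hle c
            exact absurd (hc n hn) h2
          · exact h1

end abstract

section decomposition

variable {K : Type} [Field K] {M : ℕ}

/-- the degree in the first two variables and the exponents of the other ones -/
noncomputable def idx (m : Fin 2 ⊕ Fin M →₀ ℕ) : ℕ × (Fin M →₀ ℕ) := ((prL m).degree, prR m)

open Classical in
noncomputable def C2 (F : MvPolynomial (Fin 2 ⊕ Fin M) K) (a : ℕ × (Fin M →₀ ℕ)) :
    MvPolynomial (Fin 2) K :=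
  ∑ m ∈ F.support.filter (fun m => idx m = a), monomial (prL m) (coeff m F)

lemma C2_hom (F : MvPolynomial (Fin 2 ⊕ Fin M) K) (a : ℕ × (Fin M →₀ ℕ)) :
    (C2 F a).IsHomogeneous a.1 := by
  classical
  apply IsHomogeneous.sum
  intro m hm
  rw [Finset.mem_filter] at hm
  apply isHomogeneous_monomial
  rw [← hm.2]
  rfl

lemma C2_ne {F : MvPolynomial (Fin 2 ⊕ Fin M) K} {a : ℕ × (Fin M →₀ ℕ)}
    (h : ∃ m ∈ F.support, idx m = a) : C2 F a ≠ 0 := by
  classical
  obtain ⟨m, hm, hμ⟩ := h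
  intro h0
  have h1 : coeff (prL m) (C2 F a) = coeff m F := by
    rw [C2, coeff_sum]
    rw [Finset.sum_eq_single m]
    · rw [coeff_monomial, if_pos rfl]
    · intro m' hm' hne
      rw [Finset.mem_filter] at hm'
      rw [coeff_monomial, if_neg]
      intro hL
      exact hne (pr_inj hL (congrArg (fun a : ℕ × (Fin M →₀ ℕ) => a.2) (hm'.2.trans hμ.symm)))
    · intro hno
      exact absurd (Finset.mem_filter.2 ⟨hm, hμ⟩) hno
  rw [h0, coeff_zero] at h1
  exact (mem_support_iff.1 hm) h1.symm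

open Classical in
lemma C2_eval (F : MvPolynomial (Fin 2 ⊕ Fin M) K) (x : Fin 2 → K) (u : Fin M → K) :
    eval (Sum.elim x u) F = ∑ a ∈ F.support.image idx, eval x (C2 F a) * ∏ i, u i ^ a.2 i := by
  rw [eval_eq', ← Finset.sum_fiberwise_of_maps_to (g := idx) (t := F.support.image idx)
    (fun m hm => Finset.mem_image_of_mem _ hm)]
  refine Finset.sum_congr rfl fun a _ => ?_
  rw [C2, map_sum, Finset.sum_mul]
  refine Finset.sum_congr rfl fun m hm => ?_
  rw [Finset.mem_filter] at hm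
  rw [Fintype.prod_sum_type, eval_monomial, Finsupp.prod_fintype _ _ (fun _ => pow_zero _), mul_assoc]
  congr 1
  simp only [Sum.elim_inl, Sum.elim_inr]
  congr 1
  exact Finset.prod_congr rfl fun i _ => by
    rw [← hm.2]
    show _ = u i ^ (prR m i)
    rw [prR_apply]

end decomposition

section normal

variable {k : Type} [Field k] (f : AbsoluteValue k ℝ)

open Classical in
/-- the larger coordinate -/
noncomputable def sc (x : Fin 2 → k) : k := if f (x 1) ≤ f (x 0) then x 0 else x 1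

lemma sc_abs (x : Fin 2 → k) : f (sc f x) = nrm f x := by
  apply le_antisymm
  · rw [sc]
    split_ifs
    · exact le_nrm f x 0
    · exact le_nrm f x 1
  · apply nrm_le (f.nonneg _)
    intro i
    rw [sc]
    split_ifs with h
    · fin_cases i
      · exact le_rfl
      · exact h
    · fin_cases i
      · exact (not_le.1 h).le
      · exact le_rfl

lemma sc_ne {x : Fin 2 → k} (hx : x ≠ 0) : sc f x ≠ 0 := by
  intro h
  have h1 := sc_abs f x
  rw [h, map_zero] at h1
  have := nrm_pos f hx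
  linarith

lemma sc_smul {c : k} (hc : c ≠ 0) (x : Fin 2 → k) : sc f (c • x) = c * sc f x := by
  have hc' : 0 < f c := f.pos hc
  unfold sc
  have h1 : (f ((c • x) 1) ≤ f ((c • x) 0)) ↔ (f (x 1) ≤ f (x 0)) := by
    simp only [Pi.smul_apply, smul_eq_mul, map_mul]
    exact mul_le_mul_iff_right₀ hc'
  simp only [h1]
  split_ifs <;> rfl

/-- the normalised vector -/
noncomputable def nv (x : Fin 2 → k) : Fin 2 → k := (sc f x)⁻¹ • x

lemma nv_smul {c : k} (hc : c ≠ 0) (x : Fin 2 → k) : nv f (c • x) = nv f x := by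
  rw [nv, sc_smul f hc, mul_inv, smul_smul, mul_right_comm, inv_mul_cancel₀ hc, one_mul, nv]

lemma nv_nrm {x : Fin 2 → k} (hx : x ≠ 0) : nrm f (nv f x) ≤ 1 := by
  apply nrm_le zero_le_one
  intro i
  rw [nv, Pi.smul_apply, smul_eq_mul, map_mul, map_inv₀, sc_abs, inv_mul_le_iff₀ (nrm_pos f hx), mul_one]
  exact le_nrm f x i

lemma nv_ne {x : Fin 2 → k} (hx : x ≠ 0) : nv f x ≠ 0 := smul_ne_zero (inv_ne_zero (sc_ne f hx)) hx

lemma nv_eval {x : Fin 2 → k} {B : MvPolynomial (Fin 2) k} {p : ℕ} (hB : B.IsHomogeneous p) :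
    eval (nv f x) B = (sc f x)⁻¹ ^ p * eval x B := by
  have h1 := aeval_smul_hom hB (sc f x)⁻¹ x (R := k)
  rw [nv]
  simpa [aeval_eq_eval] using h1

lemma nv_eval' {x : Fin 2 → k} (hx : x ≠ 0) {B : MvPolynomial (Fin 2) k} {p : ℕ} (hB : B.IsHomogeneous p) :
    eval x B = eval (nv f x) B * sc f x ^ p := by
  rw [nv_eval f hB, mul_right_comm, ← mul_pow, inv_mul_cancel₀ (sc_ne f hx), one_pow, one_mul]

end normal

section place

variable {k : Type} [Field k] [NumberField k] {d M : ℕ} {g : Fin 2 → MvPolynomial (Fin 2) k}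

/-- the sizes of two terms are different -/
def SepX (g : Fin 2 → MvPolynomial (Fin 2) k) (d : ℕ) (v : Pl k) (x : Fin 2 → k) (u : ℕ → Fin M → k)
    (p : ℤ) (m : Fin M → ℤ) : Prop :=
  ∃ δ : ℝ, 0 < δ ∧ ∃ N, ∀ n, N ≤ n →
    δ * d ^ n ≤ |p * Real.log (nrm (av v) ((pt g)^[n] x)) + Real.log (av v (∏ i, u n i ^ m i))|

/-- `a` has no variable which is identically zero -/
def Rel (u : ℕ → Fin M → k) (a : ℕ × (Fin M →₀ ℕ)) : Prop := ∀ i, (∀ n, u n i = 0) → a.2 i = 0

/-- the difference of the exponents -/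
def dif (a b : ℕ × (Fin M →₀ ℕ)) (i : Fin M) : ℤ := (a.2 i : ℤ) - (b.2 i : ℤ)

lemma rel_ne {u : ℕ → Fin M → k} (hu : ∀ i, (∀ n, u n i ≠ 0) ∨ ∀ n, u n i = 0)
    {a : ℕ × (Fin M →₀ ℕ)} (ha : Rel u a) (n : ℕ) : ∏ i, u n i ^ a.2 i ≠ 0 := by
  rw [Finset.prod_ne_zero_iff]
  intro i _
  rcases hu i with h | h
  · exact pow_ne_zero _ (h n)
  · rw [ha i h, pow_zero]
    exact one_ne_zero

lemma rel_div {u : ℕ → Fin M → k} (hu : ∀ i, (∀ n, u n i ≠ 0) ∨ ∀ n, u n i = 0)
    {a b : ℕ × (Fin M →₀ ℕ)} (ha : Rel u a) (hb : Rel u b) (n : ℕ) :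
    ∏ i, u n i ^ dif a b i = (∏ i, u n i ^ a.2 i) / ∏ i, u n i ^ b.2 i := by
  rw [← Finset.prod_div_distrib]
  refine Finset.prod_congr rfl fun i _ => ?_
  rcases hu i with h | h
  · rw [dif, zpow_sub₀ (h n), zpow_natCast, zpow_natCast]
  · rw [dif, ha i h, hb i h, Nat.cast_zero, sub_zero, zpow_zero, pow_zero, div_one]

lemma sepX_of {v : Pl k} {x : Fin 2 → k} (hx0 : ∀ n, (pt g)^[n] x ≠ 0) {u : ℕ → Fin M → k}
    (hu : ∀ i, (∀ n, u n i ≠ 0) ∨ ∀ n, u n i = 0) {a b : ℕ × (Fin M →₀ ℕ)} (ha : Rel u a)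
    (hb : Rel u b) (h : SepX g d v x u ((a.1 : ℤ) - b.1) (dif a b)) :
    ∃ δ : ℝ, 0 < δ ∧ ∃ N, ∀ n, N ≤ n → δ * d ^ n ≤
      |Real.log (av v (sc (av v) ((pt g)^[n] x) ^ a.1 * ∏ i, u n i ^ a.2 i)) -
        Real.log (av v (sc (av v) ((pt g)^[n] x) ^ b.1 * ∏ i, u n i ^ b.2 i))| := by
  obtain ⟨δ, hδ, N, hN⟩ := h
  refine ⟨δ, hδ, N, fun n hn => ?_⟩
  have h1 := hN n hn
  have hva : av v (∏ i, u n i ^ a.2 i) ≠ 0 := (map_ne_zero (av v)).2 (rel_ne hu ha n)
  have hvb : av v (∏ i, u n i ^ b.2 i) ≠ 0 := (map_ne_zero (av v)).2 (rel_ne hu hb n)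
  have hp : nrm (av v) ((pt g)^[n] x) ≠ 0 := (nrm_pos (av v) (hx0 n)).ne'
  rw [rel_div hu ha hb, map_div₀, Real.log_div hva hvb] at h1
  rw [map_mul, map_mul, map_pow, map_pow, sc_abs, Real.log_mul (pow_ne_zero _ hp) hva,
    Real.log_mul (pow_ne_zero _ hp) hvb, Real.log_pow, Real.log_pow]
  push_cast at h1
  have e1 : (a.1 : ℝ) * Real.log (nrm (av v) ((pt g)^[n] x)) + Real.log (av v (∏ i, u n i ^ a.2 i)) -
      ((b.1 : ℝ) * Real.log (nrm (av v) ((pt g)^[n] x)) + Real.log (av v (∏ i, u n i ^ b.2 i))) =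
      ((a.1 : ℝ) - b.1) * Real.log (nrm (av v) ((pt g)^[n] x)) +
        (Real.log (av v (∏ i, u n i ^ a.2 i)) - Real.log (av v (∏ i, u n i ^ b.2 i))) := by ring
  rw [e1]
  exact h1

open Classical in
lemma C2_terms (v : Pl k) {y : Fin 2 → k} (hy : y ≠ 0) (F : MvPolynomial (Fin 2 ⊕ Fin M) k)
    (u : ℕ → Fin M → k) (n : ℕ) : eval (Sum.elim y (u n)) F =
      ∑ a ∈ (F.support.image idx).filter (Rel u), eval (nv (av v) y) (C2 F a) *
        (sc (av v) y ^ a.1 * ∏ i, u n i ^ a.2 i) := by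
  rw [C2_eval, Finset.sum_filter]
  refine Finset.sum_congr rfl fun a _ => ?_
  split_ifs with ha
  · rw [nv_eval' (av v) hy (C2_hom F a)]
    ring
  · unfold Rel at ha
    push Not at ha
    obtain ⟨i, hi, ha⟩ := ha
    have h1 : ∏ i, u n i ^ a.2 i = 0 :=
      Finset.prod_eq_zero (Finset.mem_univ i) (by rw [hi n, zero_pow ha])
    rw [h1, mul_zero]

/-- one equation, terms of different size -/
theorem domG_fin (hg : IsEndo d g) (hd : 2 ≤ d) (hE : NoExcept d g) {x : Fin 2 → k} (hx : Wander g x)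
    (v : Pl k) {u : ℕ → Fin M → k} (hu : ∀ i n, u n i ≠ 0) {F : MvPolynomial (Fin 2 ⊕ Fin M) k}
    (hF0 : F ≠ 0) (hS : ∀ a ∈ F.support, ∀ b ∈ F.support, idx a ≠ idx b →
      SepX g d v x u (((idx a).1 : ℤ) - (idx b).1) (dif (idx a) (idx b))) :
    {n | eval (Sum.elim ((pt g)^[n] x) (u n)) F = 0}.Finite := by
  classical
  have hx0 := iter_ne hg (wander_ne hg.1 hd hx)
  have hu' : ∀ i, (∀ n, u n i ≠ 0) ∨ ∀ n, u n i = 0 := fun i => Or.inl (hu i)
  have hrel : ∀ a, Rel u a := fun a i h => absurd (h 0) (hu i 0)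
  obtain ⟨N, hN⟩ := dom_last (av v) hd Set.univ (fun _ => 1) (fun _ => one_pos)
    ((F.support.image idx).filter (Rel u))
    (by
      rw [Finset.filter_true_of_mem fun a _ => hrel a, Finset.image_nonempty]
      exact support_nonempty.2 hF0)
    (fun a n => eval (nv (av v) ((pt g)^[n] x)) (C2 F a))
    (fun a n => sc (av v) ((pt g)^[n] x) ^ a.1 * ∏ i, u n i ^ a.2 i)
    (fun a _ => ⟨cs (av v) (C2 F a), cs_nonneg _ _, fun n => by
      refine (abv_mv (av v) _ (C2_hom F a) _).trans ?_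
      exact mul_le_mul_of_nonneg_left (pow_le_one₀ (nrm_nonneg _ _) (nv_nrm (av v) (hx0 n)))
        (cs_nonneg _ _)⟩)
    (fun a ha ε hε => by
      rw [Finset.mem_filter, Finset.mem_image] at ha
      obtain ⟨N, hN⟩ := low_ne hg hd hE hx v (C2_hom F a) (C2_ne ha.1) ε hε
      refine ⟨N, fun n _ hn => ?_⟩
      have h1 := hN n hn
      rw [nv_eval' (av v) (hx0 n) (C2_hom F a), map_mul, map_pow, sc_abs] at h1
      rw [mul_one]
      exact le_of_mul_le_mul_right h1 (pow_pos (nrm_pos (av v) (hx0 n)) _))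
    (fun a _ n _ => mul_ne_zero (pow_ne_zero _ (sc_ne _ (hx0 n))) (rel_ne hu' (hrel a) n))
    (fun a ha b hb hne => by
      rw [Finset.mem_filter, Finset.mem_image] at ha hb
      obtain ⟨⟨a', ha', rfl⟩, ha2⟩ := ha
      obtain ⟨⟨b', hb', rfl⟩, hb2⟩ := hb
      obtain ⟨δ, hδ, N, hN⟩ := sepX_of hx0 hu' ha2 hb2 (hS a' ha' b' hb' hne)
      exact ⟨δ, hδ, N, fun n _ hn => hN n hn⟩)
  apply (Set.finite_Iio N).subset
  intro n hn
  rw [Set.mem_Iio]
  by_contra hcon
  apply hN n (Set.mem_univ n) (not_lt.1 hcon)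
  rw [← C2_terms v (hx0 n)]
  exact hn

/-- the functions given by the forms of degree `p` at the normalised vectors -/
lemma low_nv (hg : IsEndo d g) (hd : 2 ≤ d) (hE : NoExcept d g) {x : Fin 2 → k} (hx : x ≠ 0)
    (v : Pl k) {A : Set ℕ} {q : ℕ} (hA : Wander g x ∨ ∀ n ∈ A, ∃ c : k, c ≠ 0 ∧
      (pt g)^[n] x = c • (pt g)^[q] x) (p : ℕ) (b : ℕ → k)
    (hb : b ∈ BB (fun n => nv (av v) ((pt g)^[n] x)) p) :
    (∀ n ∈ A, b n = 0) ∨ ∀ ε : ℝ, 0 < ε → ∃ N, ∀ n ∈ A, N ≤ n →
      Real.exp (-(ε * d ^ n)) * 1 ≤ av v (b n) := by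
  have hx0 := iter_ne hg hx
  obtain ⟨B, hB, hb'⟩ := of_mem_BB hb
  simp only [hb', mul_one]
  rcases hA with hw | hA
  · by_cases hB0 : B = 0
    · left
      intro n _
      rw [hB0, map_zero]
    · right
      intro ε hε
      obtain ⟨N, hN⟩ := low_ne hg hd hE hw v hB hB0 ε hε
      refine ⟨N, fun n _ hn => ?_⟩
      have h1 := hN n hn
      rw [nv_eval' (av v) (hx0 n) hB, map_mul, map_pow, sc_abs] at h1
      exact le_of_mul_le_mul_right h1 (pow_pos (nrm_pos (av v) (hx0 n)) _)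
  · have hcst : ∀ n ∈ A, eval (nv (av v) ((pt g)^[n] x)) B = eval (nv (av v) ((pt g)^[q] x)) B := by
      intro n hn
      obtain ⟨c, hc0, hc⟩ := hA n hn
      rw [hc, nv_smul (av v) hc0]
    by_cases h0 : eval (nv (av v) ((pt g)^[q] x)) B = 0
    · left
      intro n hn
      rw [hcst n hn, h0]
    · right
      intro ε hε
      have hκ0 : 0 < av v (eval (nv (av v) ((pt g)^[q] x)) B) := (av v).pos h0
      obtain ⟨N, hN⟩ := grow hd ε (av v (eval (nv (av v) ((pt g)^[q] x)) B))⁻¹ hε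
      refine ⟨N, fun n hn hn' => ?_⟩
      rw [hcst n hn, Real.exp_neg, inv_le_comm₀ (Real.exp_pos _) hκ0]
      exact (hN n hn').le

/-- **Dominance at one place**: one equation -/
theorem domG (hg : IsEndo d g) (hd : 2 ≤ d) (hE : NoExcept d g) {x : Fin 2 → k} (hx : x ≠ 0)
    (v : Pl k) {u : ℕ → Fin M → k} (hu : ∀ i, (∀ n, u n i ≠ 0) ∨ ∀ n, u n i = 0)
    (F : MvPolynomial (Fin 2 ⊕ Fin M) k)
    (hS : ∀ a ∈ F.support, ∀ b ∈ F.support, idx a ≠ idx b → Rel u (idx a) → Rel u (idx b) →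
      ((idx a).1 = (idx b).1 ∧ PerM u (dif (idx a) (idx b))) ∨
      SepX g d v x u (((idx a).1 : ℤ) - (idx b).1) (dif (idx a) (idx b))) :
    EvPer fun n => eval (Sum.elim ((pt g)^[n] x) (u n)) F = 0 := by
  classical
  have hx0 := iter_ne hg hx
  set s := (F.support.image idx).filter (Rel u) with hs
  have hS' : ∀ c : (ℕ × (Fin M →₀ ℕ)) × (ℕ × (Fin M →₀ ℕ)), ∃ N L : ℕ, 0 < L ∧
      (c.1 ∈ s → c.2 ∈ s → c.1 ≠ c.2 →
      ((c.1.1 = c.2.1 ∧ ∀ n, N ≤ n → ∏ i, u (n + L) i ^ dif c.1 c.2 i = ∏ i, u n i ^ dif c.1 c.2 i) ∨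
        SepX g d v x u ((c.1.1 : ℤ) - c.2.1) (dif c.1 c.2))) := by
    rintro ⟨a, b⟩
    by_cases h : a ∈ s ∧ b ∈ s ∧ a ≠ b
    · obtain ⟨ha, hb, hab⟩ := h
      rw [hs, Finset.mem_filter, Finset.mem_image] at ha hb
      obtain ⟨⟨a', ha', rfl⟩, ha2⟩ := ha
      obtain ⟨⟨b', hb', rfl⟩, hb2⟩ := hb
      rcases hS a' ha' b' hb' hab ha2 hb2 with ⟨h1, N, L, hL, h2⟩ | h1
      · exact ⟨N, L, hL, fun _ _ _ => Or.inl ⟨h1, h2⟩⟩
      · exact ⟨0, 1, one_pos, fun _ _ _ => Or.inr h1⟩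
    · exact ⟨0, 1, one_pos, fun h1 h2 h3 => absurd ⟨h1, h2, h3⟩ h⟩
  choose N L hL hNL using hS'
  obtain ⟨a0, m0, hm0, hX⟩ : ∃ a m0 : ℕ, 0 < m0 ∧ (Wander g x ∨ ∀ r n, a ≤ n →
      ∃ c : k, c ≠ 0 ∧ (pt g)^[n + m0 * r] x = c • (pt g)^[n] x) := by
    by_cases hwx : Wander g x
    · exact ⟨0, 1, one_pos, Or.inl hwx⟩
    · obtain ⟨a, m0, hm0, h1⟩ := per_first hg hx hwx
      exact ⟨a, m0, hm0, Or.inr h1⟩
  set N0 := a0 + ∑ p ∈ s ×ˢ s, N p with hN0
  set L0 := m0 * ∏ p ∈ s ×ˢ s, L p with hL0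
  have hL0' : 0 < L0 := Nat.mul_pos hm0 (Finset.prod_pos fun p _ => hL _)
  apply evPer_classes (N0 := N0) hL0'
  intro q hq
  set A : Set ℕ := {n | ∃ r, n = q + L0 * r} with hA
  have hAx : Wander g x ∨ ∀ n ∈ A, ∃ c : k, c ≠ 0 ∧ (pt g)^[n] x = c • (pt g)^[q] x := by
    rcases hX with hX | hX
    · exact Or.inl hX
    · right
      rintro n ⟨r, rfl⟩
      obtain ⟨c, hc0, hc⟩ := hX ((∏ p ∈ s ×ˢ s, L p) * r) q (by omega)
      refine ⟨c, hc0, ?_⟩
      rw [← hc, hL0]
      congr 2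
      ring
  have h1 := dom_ind2 (av v) hd A (fun _ => 1) (fun _ => one_pos)
    (fun a : ℕ × (Fin M →₀ ℕ) => BB (fun n => nv (av v) ((pt g)^[n] x)) a.1)
    (fun a b hb => by
      obtain ⟨B, hB, hb'⟩ := of_mem_BB hb
      refine ⟨cs (av v) B, cs_nonneg _ _, fun n => ?_⟩
      rw [hb']
      refine (abv_mv (av v) _ hB _).trans ?_
      exact mul_le_mul_of_nonneg_left (pow_le_one₀ (nrm_nonneg _ _) (nv_nrm (av v) (hx0 n)))
        (cs_nonneg _ _))
    (fun a b hb => low_nv hg hd hE hx v hAx a.1 b hb)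
    (fun (a : ℕ × (Fin M →₀ ℕ)) n => sc (av v) ((pt g)^[n] x) ^ a.1 * ∏ i, u n i ^ a.2 i) s.card s
    (fun a n => eval (nv (av v) ((pt g)^[n] x)) (C2 F a)) rfl
    (fun a ha n _ => by
      rw [hs, Finset.mem_filter] at ha
      exact mul_ne_zero (pow_ne_zero _ (sc_ne _ (hx0 n))) (rel_ne hu ha.2 n))
    (fun a ha b hb hne => by
      have ha2 : Rel u a := (Finset.mem_filter.1 ha).2
      have hb2 : Rel u b := (Finset.mem_filter.1 hb).2
      rcases hNL (a, b) ha hb hne with ⟨hp, h2⟩ | h2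
      · left
        refine ⟨by rw [show a.1 = b.1 from hp], ∏ i, u q i ^ dif a b i, ?_⟩
        rintro n ⟨r, rfl⟩
        have hmem : (a, b) ∈ s ×ˢ s := Finset.mem_product.2 ⟨ha, hb⟩
        have hNle : N (a, b) ≤ q := by
          have := Finset.single_le_sum (f := fun p => N p) (fun _ _ => Nat.zero_le _) hmem
          omega
        have hdvd : L (a, b) ∣ L0 * r :=
          Dvd.dvd.mul_right (Dvd.dvd.mul_left (Finset.dvd_prod_of_mem (fun p => L p) hmem) _) _
        obtain ⟨j, hj⟩ := hdvd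
        have hper : ∀ j, ∏ i, u (q + L (a, b) * j) i ^ dif a b i = ∏ i, u q i ^ dif a b i := by
          intro j
          induction j with
          | zero => rw [mul_zero, add_zero]
          | succ j ih =>
            rw [mul_add, mul_one, ← add_assoc, h2 _ (by omega), ih]
        have h3 := hper j
        rw [← hj] at h3
        rw [← h3, rel_div hu ha2 hb2, show a.1 = b.1 from hp]
        have h4 := rel_ne hu hb2 (q + L0 * r)
        field_simp
      · right
        obtain ⟨δ, hδ, N', hN'⟩ := sepX_of hx0 hu ha2 hb2 h2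
        exact ⟨δ, hδ, N', fun n _ hn => hN' n hn⟩)
    (fun a _ => mem_BB _ (C2_hom F a))
  rcases h1 with h1 | ⟨N', h1⟩
  · left
    intro r
    rw [C2_terms v (hx0 _)]
    exact h1 _ ⟨r, rfl⟩
  · right
    refine ⟨N', fun r hr => ?_⟩
    rw [C2_terms v (hx0 _)]
    exact h1 _ ⟨r, rfl⟩ hr

/-- finitely many equations suffice -/
lemma evPer_eqs {τ : Type} [Finite τ] (P : ℕ → τ → k) (W : Set (MvPolynomial τ k))
    (h : ∀ F ∈ W, EvPer fun n => eval (P n) F = 0) : EvPer fun n => ∀ F ∈ W, eval (P n) F = 0 := by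
  classical
  obtain ⟨T, hT, hTs⟩ : ∃ T : Finset (MvPolynomial τ k), ↑T ⊆ W ∧
      Ideal.span (T : Set (MvPolynomial τ k)) = Ideal.span W := by
    have h1 : (Ideal.span W).FG := IsNoetherian.noetherian _
    obtain ⟨T, hT, hTs⟩ := (Submodule.fg_span_iff_fg_span_finset_subset W).1 h1
    exact ⟨T, hT, hTs.symm⟩
  have h2 := EvPer.all T (s := fun F n => eval (P n) F = 0) (fun F hF => h F (hT hF))
  have h3 : ∀ n, (∀ F ∈ W, eval (P n) F = 0) ↔ ∀ F ∈ T, eval (P n) F = 0 := by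
    intro n
    constructor
    · intro h F hF
      exact h F (hT hF)
    · intro h F hF
      have h4 : Ideal.span W ≤ RingHom.ker (eval (P n)) := by
        rw [← hTs, Ideal.span_le]
        intro F hF
        exact (RingHom.mem_ker).2 (h F hF)
      exact (RingHom.mem_ker).1 (h4 (Ideal.subset_span hF))
  simp only [h3]
  exact h2

/-- equations over an extension field -/
lemma desc_eq {L τ : Type} [Field L] [Algebra k L] (F : MvPolynomial τ L) :
    ∃ T : Set (MvPolynomial τ k), (∀ w : τ → k, eval (fun i => algebraMap k L (w i)) F = 0 ↔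
      ∀ G ∈ T, eval w G = 0) ∧ (∀ G ∈ T, G.support ⊆ F.support) ∧ (F ≠ 0 → ∃ G ∈ T, G ≠ 0) := by
  classical
  set b := Module.Basis.ofVectorSpace k L with hb
  set G : Module.Basis.ofVectorSpaceIndex k L → MvPolynomial τ k := fun i =>
    ∑ m ∈ F.support, monomial m (b.repr (coeff m F) i) with hG
  refine ⟨Set.range G, fun w => ?_, ?_, ?_⟩
  · have key : ∀ i, b.repr (eval (fun i => algebraMap k L (w i)) F) i = eval w (G i) := by
      intro i
      rw [eval_eq, hG]
      simp only [map_sum, eval_monomial]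
      rw [Finsupp.finsetSum_apply]
      refine Finset.sum_congr rfl fun m _ => ?_
      have h1 : coeff m F * ∏ j ∈ m.support, algebraMap k L (w j) ^ m j =
          (∏ j ∈ m.support, w j ^ m j) • coeff m F := by
        rw [Algebra.smul_def, map_prod, mul_comm]
        congr 1
        exact Finset.prod_congr rfl fun j _ => (map_pow _ _ _).symm
      rw [h1, map_smul, Finsupp.smul_apply, smul_eq_mul, mul_comm]
      rfl
    constructor
    · rintro h _ ⟨i, rfl⟩
      rw [← key, h, map_zero, Finsupp.zero_apply]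
    · intro h
      apply b.repr.injective
      rw [map_zero]
      ext i
      rw [key i, h _ ⟨i, rfl⟩, Finsupp.zero_apply]
  · rintro _ ⟨i, rfl⟩ m hm
    by_contra hcon
    rw [mem_support_iff] at hm
    apply hm
    rw [hG]
    simp only [coeff_sum, coeff_monomial]
    apply Finset.sum_eq_zero
    intro m' hm'
    rw [if_neg]
    rintro rfl
    exact hcon hm'
  · intro hF
    by_contra hcon
    push Not at hcon
    apply hF
    ext m
    rw [coeff_zero]
    by_contra hm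
    apply hm
    apply b.repr.injective
    rw [map_zero]
    ext i
    have h1 : coeff m (G i) = b.repr (coeff m F) i := by
      rw [hG]
      simp only [coeff_sum, coeff_monomial]
      rw [Finset.sum_ite_eq' F.support m]
      rw [if_pos (mem_support_iff.2 hm)]
    rw [← h1, hcon _ ⟨i, rfl⟩, coeff_zero, Finsupp.zero_apply]

end place

end Pool.Agent.H422.SK
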