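import Mathlib
import Pool.Agent.H422.SK.DomW

set_option autoImplicit false
set_option linter.unusedSectionVars false

/-!
The maps `[F(x, y) : G(x, y) : z_1 ^ d : ... : z_r ^ d]`.
-/

namespace Pool.Agent.H422.SK

open MvPolynomial NumberField Filter Topology
open Pool.Agent.Q170.HG (pt IsEndo iter_ne)
open Pool.Agent.W180.OP (Pl av nrm nrm_pos nrm_le le_nrm exists_nrm nrm_nonneg abv_mv cs cs_nonneg)

variable {k : Type} [Field k] [NumberField k] {d M : ℕ} {g : Fin 2 → MvPolynomial (Fin 2) k}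

lemma nrm_smul2 (f : AbsoluteValue k ℝ) {c : k} (hc : c ≠ 0) (x : Fin 2 → k) :
    nrm f (c • x) = f c * nrm f x := by
  rw [← sc_abs, sc_smul f hc, map_mul, sc_abs]

/-- the escape rate -/
lemma rate (hg : IsEndo d g) (hd : 2 ≤ d) {x : Fin 2 → k} (hx : x ≠ 0) (v : Pl k) :
    ∃ H : ℝ, Tendsto (fun n => Real.log (nrm (av v) ((pt g)^[n] x)) / (d : ℝ) ^ n) atTop (𝓝 H) := by
  obtain ⟨C1, hC10, hC1⟩ := norm_upper (by norm_num : 0 < 2) hg (av v) 1
  obtain ⟨C2, hC20, -, hC2⟩ := low hg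
  have hx0 := iter_ne hg hx
  have hd0 : (0 : ℝ) < d := by
    have : 0 < d := by omega
    exact_mod_cast this
  set C := C1 + C2 v with hC
  have hstep : ∀ n, |Real.log (nrm (av v) ((pt g)^[n + 1] x)) -
      d * Real.log (nrm (av v) ((pt g)^[n] x))| ≤ C := by
    intro n
    have h1 := hC1 _ (hx0 n)
    have h2 := hC2 v _ (hx0 n)
    rw [Function.iterate_one, pow_one] at h1
    rw [Function.iterate_succ_apply', abs_le]
    have := hC20 v
    constructor <;> linarith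
  apply cauchySeq_tendsto_of_complete
  apply cauchySeq_of_le_geometric ((1 : ℝ) / d) C (by
    rw [div_lt_one hd0]
    have : 1 < d := by omega
    exact_mod_cast this)
  intro n
  rw [Real.dist_eq, abs_sub_comm]
  have e1 : Real.log (nrm (av v) ((pt g)^[n + 1] x)) / (d : ℝ) ^ (n + 1) -
      Real.log (nrm (av v) ((pt g)^[n] x)) / (d : ℝ) ^ n =
      (Real.log (nrm (av v) ((pt g)^[n + 1] x)) - d * Real.log (nrm (av v) ((pt g)^[n] x))) /
        (d : ℝ) ^ (n + 1) := by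
    rw [pow_succ]
    field_simp
  rw [e1, abs_div, abs_of_pos (pow_pos hd0 (n + 1)), div_le_iff₀ (pow_pos hd0 (n + 1))]
  have hC0 : 0 ≤ C := add_nonneg hC10 (hC20 v)
  calc _ ≤ C := hstep n
    _ ≤ C * d := by
      have : (1 : ℝ) ≤ d := by
        have : 1 ≤ d := by omega
        exact_mod_cast this
      nlinarith
    _ = C * (1 / d) ^ n * (d : ℝ) ^ (n + 1) := by
      rw [pow_succ, one_div, inv_pow]
      field_simp

/-- roots of unity -/
lemma unity_per (d : ℕ) {ρ : k} {t : ℕ} (ht : 0 < t) (hρ : ρ ^ t = 1) :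
    ∃ N L : ℕ, 0 < L ∧ ∀ n, N ≤ n → ρ ^ d ^ (n + L) = ρ ^ d ^ n := by
  have : NeZero t := ⟨ht.ne'⟩
  obtain ⟨i, j, hij, h1⟩ := Finite.exists_ne_map_eq_of_infinite (fun n : ℕ => (d : ZMod t) ^ n)
  have key : ∀ i j : ℕ, i < j → (d : ZMod t) ^ i = (d : ZMod t) ^ j →
      ∃ N L : ℕ, 0 < L ∧ ∀ n, N ≤ n → ρ ^ d ^ (n + L) = ρ ^ d ^ n := by
    intro i j hij h1
    refine ⟨i, j - i, by omega, fun n hn => ?_⟩
    have h2 : ((d ^ (n + (j - i)) : ℕ) : ZMod t) = ((d ^ n : ℕ) : ZMod t) := by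
      push_cast
      have e1 : n + (j - i) = (n - i) + j := by omega
      have e2 : n = (n - i) + i := by omega
      rw [e1, pow_add, ← h1, ← pow_add, ← e2]
    rw [ZMod.natCast_eq_natCast_iff] at h2
    have h3 : ∀ a b : ℕ, a ≡ b [MOD t] → ρ ^ a = ρ ^ b := by
      intro a b hab
      rw [← Nat.div_add_mod a t, ← Nat.div_add_mod b t, pow_add, pow_mul, hρ, one_pow, one_mul, pow_add,
        pow_mul, hρ, one_pow, one_mul, show a % t = b % t from hab]
    exact h3 _ _ h2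
  rcases lt_or_gt_of_ne hij with h | h
  · exact key i j h h1
  · exact key j i h h1.symm

/-- the logarithm of a monomial -/
lemma log_mon (f : AbsoluteValue k ℝ) {z : Fin M → k} {m : Fin M → ℤ} (hm : ∀ i, z i = 0 → m i = 0) :
    Real.log (f (∏ i, z i ^ m i)) = ∑ i, m i * Real.log (f (z i)) := by
  rw [map_prod, Real.log_prod]
  · refine Finset.sum_congr rfl fun i _ => ?_
    rw [map_zpow₀, Real.log_zpow]
  · intro i _
    rw [map_zpow₀]
    by_cases hz : z i = 0
    · rw [hm i hz, zpow_zero]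
      exact one_ne_zero
    · exact zpow_ne_zero _ ((map_ne_zero f).2 hz)

lemma mon_pos (f : AbsoluteValue k ℝ) {z : Fin M → k} {m : Fin M → ℤ} (hm : ∀ i, z i = 0 → m i = 0) :
    0 < f (∏ i, z i ^ m i) := by
  apply f.pos
  rw [Finset.prod_ne_zero_iff]
  intro i _
  by_cases hz : z i = 0
  · rw [hm i hz, zpow_zero]
    exact one_ne_zero
  · exact zpow_ne_zero _ hz

lemma mon_pow (z : Fin M → k) (d n : ℕ) (m : Fin M → ℤ) :
    ∏ i, (z i ^ d ^ n) ^ m i = (∏ i, z i ^ m i) ^ d ^ n := by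
  rw [← Finset.prod_pow]
  refine Finset.prod_congr rfl fun i _ => ?_
  rw [← zpow_natCast, ← zpow_natCast, ← zpow_mul, ← zpow_mul, mul_comm]

/-- the sizes differ if the exponents differ -/
lemma sep_rate (hd : 2 ≤ d) {x : Fin 2 → k} (v : Pl k) {H : ℝ}
    (hH : Tendsto (fun n => Real.log (nrm (av v) ((pt g)^[n] x)) / (d : ℝ) ^ n) atTop (𝓝 H))
    (z : Fin M → k) (p : ℤ) (m : Fin M → ℤ) (hne : p * H + Real.log (av v (∏ i, z i ^ m i)) ≠ 0) :
    SepX g d v x (fun n i => z i ^ d ^ n) p m := by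
  have hd0 : (0 : ℝ) < d := by
    have : 0 < d := by omega
    exact_mod_cast this
  set c := p * H + Real.log (av v (∏ i, z i ^ m i)) with hc
  have hc0 : 0 < |c| := abs_pos.2 hne
  have h1 : Tendsto (fun n => |p * (Real.log (nrm (av v) ((pt g)^[n] x)) / (d : ℝ) ^ n) +
      Real.log (av v (∏ i, z i ^ m i))|) atTop (𝓝 |c|) :=
    ((hH.const_mul (p : ℝ)).add_const _).abs
  obtain ⟨N, hN⟩ := eventually_atTop.1 (h1.eventually (lt_mem_nhds (half_lt_self hc0)))
  refine ⟨|c| / 2, by positivity, N, fun n hn => ?_⟩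
  have h2 := hN n hn
  have hdn : (0 : ℝ) < (d : ℝ) ^ n := pow_pos hd0 n
  rw [mon_pow, map_pow, Real.log_pow]
  have e1 : (p : ℝ) * Real.log (nrm (av v) ((pt g)^[n] x)) +
      ((d ^ n : ℕ) : ℝ) * Real.log (av v (∏ i, z i ^ m i)) =
      (p * (Real.log (nrm (av v) ((pt g)^[n] x)) / (d : ℝ) ^ n) +
      Real.log (av v (∏ i, z i ^ m i))) * (d : ℝ) ^ n := by
    push_cast
    field_simp
  rw [e1, abs_mul, abs_of_pos hdn]
  exact mul_le_mul_of_nonneg_right h2.le hdn.le

lemma rate_smul (hg : IsEndo d g) (hd : 2 ≤ d) {x : Fin 2 → k} (hx : x ≠ 0) (v : Pl k) {H : ℝ}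
    (hH : Tendsto (fun n => Real.log (nrm (av v) ((pt g)^[n] x)) / (d : ℝ) ^ n) atTop (𝓝 H)) {c : k}
    (hc : c ≠ 0) : Tendsto (fun n => Real.log (nrm (av v) ((pt g)^[n] (c • x))) / (d : ℝ) ^ n) atTop
      (𝓝 (H + Real.log (av v c))) := by
  have hd0 : (0 : ℝ) < d := by
    have : 0 < d := by omega
    exact_mod_cast this
  have h1 := hH.add_const (Real.log (av v c))
  refine h1.congr fun n => ?_
  have hcn : c ^ d ^ n ≠ 0 := pow_ne_zero _ hc
  rw [iter_smul_any hg.1, nrm_smul2 _ hcn, Real.log_mul ((map_ne_zero _).2 hcn)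
    (nrm_pos _ (iter_ne hg hx n)).ne', map_pow, Real.log_pow]
  have : (d : ℝ) ^ n ≠ 0 := (pow_pos hd0 n).ne'
  push_cast
  field_simp
  ring

/-- the degrees of the parts of a monomial of a form -/
lemma hom_deg {F : MvPolynomial (Fin 2 ⊕ Fin M) k} {e : ℕ} (hF : F.IsHomogeneous e)
    {a : Fin 2 ⊕ Fin M →₀ ℕ} (ha : a ∈ F.support) : (idx a).1 + ∑ i, (idx a).2 i = e := by
  have h1 := hF (mem_support_iff.1 ha)
  rw [Finsupp.weight_apply, Finsupp.sum_fintype _ _ (fun _ => by simp), Fintype.sum_sum_type] at h1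
  simp only [Pi.one_apply, smul_eq_mul, mul_one] at h1
  rw [← h1]
  congr 1
  show (prL a).degree = _
  rw [Finsupp.degree_eq_sum]
  exact Finset.sum_congr rfl fun i _ => prL_apply a i

/-- **Main theorem.** -/
theorem join (hg : IsEndo d g) (hd : 2 ≤ d) (hE : NoExcept d g) (v : Pl k) {x : Fin 2 → k} (hx : x ≠ 0)
    (z : Fin M → k) (hR : ∀ m : Fin M → ℤ, ∑ i, m i = 0 → av v (∏ i, z i ^ m i) = 1 →
      ∃ t : ℕ, 0 < t ∧ (∏ i, z i ^ m i) ^ t = 1) :
    ∃ c0 : k, c0 ≠ 0 ∧ ∀ c : k, c ≠ 0 → (∀ q : ℕ, 0 < q → ∀ m : Fin M → ℤ, ∑ i, m i = 0 →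
      av v (c / c0) ^ q ≠ av v (∏ i, z i ^ m i)) →
      (∀ F : MvPolynomial (Fin 2 ⊕ Fin M) k, (∃ e : ℕ, F.IsHomogeneous e) →
        EvPer fun n => eval (Sum.elim ((pt g)^[n] (c • x)) (fun i => z i ^ d ^ n)) F = 0) ∧
      (Wander g x → (∀ i, z i ≠ 0) →
        (∀ m : Fin M → ℤ, m ≠ 0 → ∑ i, m i = 0 → av v (∏ i, z i ^ m i) ≠ 1) →
        ∀ F : MvPolynomial (Fin 2 ⊕ Fin M) k, F ≠ 0 → (∃ e : ℕ, F.IsHomogeneous e) →
          {n | eval (Sum.elim ((pt g)^[n] (c • x)) (fun i => z i ^ d ^ n)) F = 0}.Finite) := by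
  classical
  obtain ⟨H, hH⟩ := rate hg hd hx v
  set ℓ : k → ℝ := fun c => Real.log (av v c) with hℓ
  -- the exceptional factors
  set Exc : k → Prop := fun c => ∃ p : ℕ, 0 < p ∧ ∃ m : Fin M → ℤ, ∑ i, m i = p ∧
    (∀ i, z i = 0 → m i = 0) ∧ p * (H + ℓ c) = ∑ i, m i * ℓ (z i) with hExc
  obtain ⟨c0, hc0, hc0E⟩ : ∃ c0 : k, c0 ≠ 0 ∧ ((∃ c, c ≠ 0 ∧ Exc c) → Exc c0) := by
    by_cases h : ∃ c, c ≠ 0 ∧ Exc c
    · obtain ⟨c, hc, hc'⟩ := h
      exact ⟨c, hc, fun _ => hc'⟩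
    · exact ⟨1, one_ne_zero, fun h' => absurd h' h⟩
  refine ⟨c0, hc0, fun c hc hq => ?_⟩
  have hnE : ¬ Exc c := by
    intro hE1
    obtain ⟨p, hp, m, hm1, hm2, hm3⟩ := hE1
    obtain ⟨p', hp', m', hm1', hm2', hm3'⟩ := hc0E ⟨c, hc, p, hp, m, hm1, hm2, hm3⟩
    apply hq (p * p') (Nat.mul_pos hp hp') (fun i => p' * m i - p * m' i)
    · rw [Finset.sum_sub_distrib, ← Finset.mul_sum, ← Finset.mul_sum, hm1, hm1']
      ring
    · have hsup : ∀ i, z i = 0 → (p' * m i - p * m' i : ℤ) = 0 := by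
        intro i hi
        rw [hm2 i hi, hm2' i hi]
        ring
      have hpos : 0 < av v (c / c0) := (av v).pos (div_ne_zero hc hc0)
      apply Real.log_injOn_pos (Set.mem_Ioi.2 (pow_pos hpos _)) (Set.mem_Ioi.2 (mon_pos (av v) hsup))
      rw [log_mon (av v) hsup, Real.log_pow, map_div₀, Real.log_div ((map_ne_zero _).2 hc)
        ((map_ne_zero _).2 hc0)]
      have e1 : ∑ i, ((p' * m i - p * m' i : ℤ) : ℝ) * Real.log (av v (z i)) =
          p' * (∑ i, (m i : ℝ) * ℓ (z i)) - p * ∑ i, (m' i : ℝ) * ℓ (z i) := by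
        rw [Finset.mul_sum, Finset.mul_sum, ← Finset.sum_sub_distrib]
        refine Finset.sum_congr rfl fun i _ => ?_
        push_cast
        ring
      rw [e1, ← hm3, ← hm3']
      push_cast
      ring
  have hcx : c • x ≠ 0 := smul_ne_zero hc hx
  have hHc := rate_smul hg hd hx v hH hc
  set u : ℕ → Fin M → k := fun n i => z i ^ d ^ n with hu
  have hu0 : ∀ i, (∀ n, u n i ≠ 0) ∨ ∀ n, u n i = 0 := by
    intro i
    by_cases hz : z i = 0
    · right
      intro n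
      rw [hu]
      simp only [hz]
      exact zero_pow (pow_ne_zero _ (by omega))
    · left
      intro n
      exact pow_ne_zero _ hz
  have hrelz : ∀ a : ℕ × (Fin M →₀ ℕ), Rel u a → ∀ i, z i = 0 → a.2 i = 0 := by
    intro a ha i hi
    apply ha i
    intro n
    rw [hu]
    simp only [hi]
    exact zero_pow (pow_ne_zero _ (by omega))
  -- different degrees in `x` are separated
  have hsep : ∀ a b : ℕ × (Fin M →₀ ℕ), Rel u a → Rel u b → a.1 + ∑ i, a.2 i = b.1 + ∑ i, b.2 i →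
      a.1 ≠ b.1 → SepX g d v (c • x) u ((a.1 : ℤ) - b.1) (dif a b) := by
    intro a b ha hb hab hne
    apply sep_rate hd v hHc
    have hsup : ∀ i, z i = 0 → dif a b i = 0 := by
      intro i hi
      rw [dif, hrelz a ha i hi, hrelz b hb i hi, sub_self]
    rw [log_mon (av v) hsup]
    intro h0
    apply hnE
    have hsum : ∑ i, dif a b i = (b.1 : ℤ) - a.1 := by
      simp only [dif, Finset.sum_sub_distrib]
      have h1 : ((a.1 + ∑ i, a.2 i : ℕ) : ℤ) = ((b.1 + ∑ i, b.2 i : ℕ) : ℤ) := by rw [hab]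
      push_cast at h1
      linarith
    push_cast at h0
    rcases lt_or_gt_of_ne hne with h | h
    · refine ⟨b.1 - a.1, by omega, dif a b, ?_, hsup, ?_⟩
      · rw [hsum]
        omega
      · have e1 : ((b.1 - a.1 : ℕ) : ℝ) = (b.1 : ℝ) - a.1 := by
          rw [Nat.cast_sub h.le]
        rw [e1]
        linarith
    · refine ⟨a.1 - b.1, by omega, fun i => - dif a b i, ?_, fun i hi => by
        show - dif a b i = 0
        rw [hsup i hi, neg_zero], ?_⟩
      · rw [Finset.sum_neg_distrib, hsum]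
        omega
      · have e1 : ((a.1 - b.1 : ℕ) : ℝ) = (a.1 : ℝ) - b.1 := by
          rw [Nat.cast_sub h.le]
        rw [e1]
        push_cast
        simp only [neg_mul, Finset.sum_neg_distrib]
        linarith
  -- equal degrees in `x`
  have heq : ∀ a b : ℕ × (Fin M →₀ ℕ), a.1 + ∑ i, a.2 i = b.1 + ∑ i, b.2 i → a.1 = b.1 →
      ∑ i, dif a b i = 0 := by
    intro a b hab h
    simp only [dif, Finset.sum_sub_distrib]
    have h1 : ((a.1 + ∑ i, a.2 i : ℕ) : ℤ) = ((b.1 + ∑ i, b.2 i : ℕ) : ℤ) := by rw [hab]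
    push_cast at h1
    rw [h] at h1
    linarith
  have hsep0 : ∀ a b : ℕ × (Fin M →₀ ℕ), Rel u a → Rel u b → a.1 = b.1 →
      av v (∏ i, z i ^ dif a b i) ≠ 1 → SepX g d v (c • x) u ((a.1 : ℤ) - b.1) (dif a b) := by
    intro a b ha hb hab hne
    apply sep_rate hd v hHc
    rw [hab, sub_self, Int.cast_zero, zero_mul, zero_add]
    have hsup : ∀ i, z i = 0 → dif a b i = 0 := by
      intro i hi
      rw [dif, hrelz a ha i hi, hrelz b hb i hi, sub_self]
    intro h0
    apply hne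
    have h1 := mon_pos (av v) hsup
    rcases Real.log_eq_zero.1 h0 with h2 | h2 | h2
    · linarith
    · exact h2
    · linarith
  constructor
  · rintro F ⟨e, hF⟩
    apply domG hg hd hE hcx v hu0 F
    intro a ha b hb hab har hbr
    have h1 := (hom_deg hF ha).trans (hom_deg hF hb).symm
    by_cases hp : (idx a).1 = (idx b).1
    · by_cases h2 : av v (∏ i, z i ^ dif (idx a) (idx b) i) = 1
      · left
        refine ⟨hp, ?_⟩
        obtain ⟨t, ht, h3⟩ := hR _ (heq _ _ h1 hp) h2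
        obtain ⟨N, L, hL, h4⟩ := unity_per d ht h3
        refine ⟨N, L, hL, fun n hn => ?_⟩
        simp only [hu]
        rw [mon_pow, mon_pow]
        exact h4 n hn
      · right
        exact hsep0 _ _ har hbr hp h2
    · right
      exact hsep _ _ har hbr h1 hp
  · rintro hw hz hind F hF0 ⟨e, hF⟩
    have hwc : Wander g (c • x) := wander_smul hg.1 hw hc
    apply domG_fin hg hd hE hwc v (fun i n => pow_ne_zero _ (hz i)) hF0
    intro a ha b hb hab
    have h1 := (hom_deg hF ha).trans (hom_deg hF hb).symm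
    have hrel : ∀ a, Rel u a := fun a i h => absurd (h 0) (pow_ne_zero _ (hz i))
    by_cases hp : (idx a).1 = (idx b).1
    · apply hsep0 _ _ (hrel _) (hrel _) hp
      apply hind _ _ (heq _ _ h1 hp)
      intro h0
      apply hab
      apply Prod.ext hp
      ext i
      have h2 := congrFun h0 i
      simp only [dif, Pi.zero_apply] at h2
      omega
    · exact hsep _ _ (hrel _) (hrel _) h1 hp

/-- **Independent escape rates at one place.** -/
theorem crit (hg : IsEndo d g) (hd : 2 ≤ d) (hE : NoExcept d g) (v : Pl k) {x : Fin 2 → k}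
    (hw : Wander g x) (u : ℕ → Fin M → k) {H : ℝ} (θ : Fin M → ℝ)
    (hH : Tendsto (fun n => Real.log (nrm (av v) ((pt g)^[n] x)) / (d : ℝ) ^ n) atTop (𝓝 H))
    (hθ : ∀ i, Tendsto (fun n => Real.log (av v (u n i)) / (d : ℝ) ^ n) atTop (𝓝 (θ i)))
    (hne : ∀ᶠ n in atTop, ∀ i, u n i ≠ 0) (hind : ∀ m : Fin M → ℤ, m ≠ 0 → ∑ i, m i * (θ i - H) ≠ 0)
    (F : MvPolynomial (Fin 2 ⊕ Fin M) k) (hF0 : F ≠ 0) (hF : ∃ e : ℕ, F.IsHomogeneous e) :
    {n | eval (Sum.elim ((pt g)^[n] x) (u n)) F = 0}.Finite := by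
  classical
  obtain ⟨e, hF⟩ := hF
  have hd0 : (0 : ℝ) < d := by
    have : 0 < d := by omega
    exact_mod_cast this
  obtain ⟨N0, hN0⟩ := eventually_atTop.1 hne
  set u' : ℕ → Fin M → k := fun n i => if u n i = 0 then 1 else u n i with hu'
  have hu'0 : ∀ i n, u' n i ≠ 0 := by
    intro i n
    rw [hu']
    dsimp only
    split_ifs with h
    · exact one_ne_zero
    · exact h
  have huu : ∀ n, N0 ≤ n → u' n = u n := by
    intro n hn
    funext i
    rw [hu']
    dsimp only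
    rw [if_neg (hN0 n hn i)]
  have hθ' : ∀ i, Tendsto (fun n => Real.log (av v (u' n i)) / (d : ℝ) ^ n) atTop (𝓝 (θ i)) := by
    intro i
    refine (hθ i).congr' ?_
    filter_upwards [eventually_ge_atTop N0] with n hn
    rw [huu n hn]
  have key : {n | eval (Sum.elim ((pt g)^[n] x) (u' n)) F = 0}.Finite := by
    apply domG_fin hg hd hE hw v hu'0 hF0
    intro a ha b hb hab
    have h1 := (hom_deg hF ha).trans (hom_deg hF hb).symm
    have hsum : ((idx a).1 : ℤ) - (idx b).1 = - ∑ i, dif (idx a) (idx b) i := by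
      simp only [dif, Finset.sum_sub_distrib]
      have h2 : (((idx a).1 + ∑ i, (idx a).2 i : ℕ) : ℤ) = (((idx b).1 + ∑ i, (idx b).2 i : ℕ) : ℤ) := by
        rw [h1]
      push_cast at h2
      linarith
    have hm : dif (idx a) (idx b) ≠ 0 := by
      intro h0
      apply hab
      apply Prod.ext
      · rw [h0] at hsum
        simp only [Pi.zero_apply, Finset.sum_const_zero, neg_zero] at hsum
        omega
      · ext i
        have h2 := congrFun h0 i
        simp only [dif, Pi.zero_apply] at h2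
        omega
    set m := dif (idx a) (idx b) with hmdef
    have hc0 : 0 < |∑ i, m i * (θ i - H)| := abs_pos.2 (hind m hm)
    have h3 : Tendsto (fun n => |((((idx a).1 : ℤ) - (idx b).1 : ℤ) : ℝ) *
        (Real.log (nrm (av v) ((pt g)^[n] x)) / (d : ℝ) ^ n) +
        ∑ i, (m i : ℝ) * (Real.log (av v (u' n i)) / (d : ℝ) ^ n)|) atTop
        (𝓝 |∑ i, m i * (θ i - H)|) := by
      have h4 : ∑ i, (m i : ℝ) * (θ i - H) = ((((idx a).1 : ℤ) - (idx b).1 : ℤ) : ℝ) * H +
          ∑ i, (m i : ℝ) * θ i := by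
        rw [hsum]
        push_cast
        rw [neg_mul, Finset.sum_mul, ← Finset.sum_neg_distrib, ← Finset.sum_add_distrib]
        refine Finset.sum_congr rfl fun i _ => ?_
        ring
      rw [h4]
      exact ((hH.const_mul _).add (tendsto_finsetSum _ fun i _ => (hθ' i).const_mul _)).abs
    obtain ⟨N, hN⟩ := eventually_atTop.1 (h3.eventually (lt_mem_nhds (half_lt_self hc0)))
    refine ⟨|∑ i, m i * (θ i - H)| / 2, by positivity, N, fun n hn => ?_⟩
    have h2 := hN n hn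
    have hdn : (0 : ℝ) < (d : ℝ) ^ n := pow_pos hd0 n
    rw [log_mon (av v) (z := u' n) (fun i h => absurd h (hu'0 i n))]
    have e1 : ((((idx a).1 : ℤ) - (idx b).1 : ℤ) : ℝ) * Real.log (nrm (av v) ((pt g)^[n] x)) +
        ∑ i, (m i : ℝ) * Real.log (av v (u' n i)) =
        (((((idx a).1 : ℤ) - (idx b).1 : ℤ) : ℝ) *
        (Real.log (nrm (av v) ((pt g)^[n] x)) / (d : ℝ) ^ n) +
        ∑ i, (m i : ℝ) * (Real.log (av v (u' n i)) / (d : ℝ) ^ n)) * (d : ℝ) ^ n := by
      rw [add_mul, Finset.sum_mul, mul_assoc, div_mul_cancel₀ _ hdn.ne']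
      congr 1
      refine Finset.sum_congr rfl fun i _ => ?_
      rw [mul_assoc, div_mul_cancel₀ _ hdn.ne']
    rw [e1, abs_mul, abs_of_pos hdn]
    exact mul_le_mul_of_nonneg_right h2.le hdn.le
  apply (key.union (Set.finite_Iio N0)).subset
  intro n hn
  by_cases h : N0 ≤ n
  · left
    show eval (Sum.elim ((pt g)^[n] x) (u' n)) F = 0
    rw [huu n h]
    exact hn
  · right
    exact not_le.1 h

/-- equations over an extension field: eventually periodic -/
lemma ext_evPer {L τ : Type} [Finite τ] [Field L] [Algebra k L] (P : ℕ → τ → k)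
    (h : ∀ F : MvPolynomial τ k, (∃ e : ℕ, F.IsHomogeneous e) → EvPer fun n => eval (P n) F = 0)
    (W : Set (MvPolynomial τ L)) (hW : ∀ F ∈ W, ∃ e : ℕ, F.IsHomogeneous e) :
    EvPer fun n => ∀ F ∈ W, eval (fun i => algebraMap k L (P n i)) F = 0 := by
  choose T hT1 hT2 hT3 using desc_eq (k := k) (L := L) (τ := τ)
  have h1 := evPer_eqs P (⋃ F ∈ W, T F) (by
    intro G hG
    rw [Set.mem_iUnion₂] at hG
    obtain ⟨F, hF, hG⟩ := hG
    obtain ⟨e, he⟩ := hW F hF
    apply h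
    refine ⟨e, fun m hm => he ?_⟩
    exact mem_support_iff.1 (hT2 F G hG (mem_support_iff.2 hm)))
  have h2 : ∀ n, (∀ F ∈ W, eval (fun i => algebraMap k L (P n i)) F = 0) ↔
      ∀ G ∈ ⋃ F ∈ W, T F, eval (P n) G = 0 := by
    intro n
    constructor
    · intro h3 G hG
      rw [Set.mem_iUnion₂] at hG
      obtain ⟨F, hF, hG⟩ := hG
      exact (hT1 F (P n)).1 (h3 F hF) G hG
    · intro h3 F hF
      rw [hT1]
      intro G hG
      exact h3 G (Set.mem_iUnion₂.2 ⟨F, hF, hG⟩)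
  simp only [h2]
  exact h1

/-- equations over an extension field: finiteness -/
lemma ext_fin {L τ : Type} [Field L] [Algebra k L] (P : ℕ → τ → k)
    (h : ∀ F : MvPolynomial τ k, F ≠ 0 → (∃ e : ℕ, F.IsHomogeneous e) → {n | eval (P n) F = 0}.Finite)
    (F : MvPolynomial τ L) (hF0 : F ≠ 0) (hF : ∃ e : ℕ, F.IsHomogeneous e) :
    {n | eval (fun i => algebraMap k L (P n i)) F = 0}.Finite := by
  obtain ⟨T, hT1, hT2, hT3⟩ := desc_eq (k := k) F
  obtain ⟨G, hG, hG0⟩ := hT3 hF0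
  obtain ⟨e, he⟩ := hF
  apply (h G hG0 ⟨e, fun m hm => he (mem_support_iff.1 (hT2 G hG (mem_support_iff.2 hm)))⟩).subset
  intro n hn
  exact (hT1 (P n)).1 hn G hG

/-- real embeddings -/
lemma real_unity (σ : k →+* ℂ) (hσ : ∀ a, (σ a).im = 0) {a : k} (ha : ‖σ a‖ = 1) : a ^ 2 = 1 := by
  apply σ.injective
  rw [map_pow, map_one]
  have h1 : σ a = ((σ a).re : ℂ) := by
    apply Complex.ext
    · simp
    · simp [hσ a]
  rw [h1] at ha ⊢
  rw [Complex.norm_real, Real.norm_eq_abs] at ha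
  rw [← Complex.ofReal_pow, ← sq_abs, ha, one_pow, Complex.ofReal_one]

end Pool.Agent.H422.SK
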