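import Mathlib
import Pool.Agent.H422.SK.CoreZ
import Pool.Agent.H422.SK.FullAny

set_option autoImplicit false
set_option linter.unusedSectionVars false

/-!
Integral points on curves over the members of an orbit, over arbitrary fields of characteristic zero.
-/

namespace Pool.Agent.H422.SK

open MvPolynomial
open Pool.Agent.Q170.HG (pt IsEndo)

variable {K : Type} [Field K] [CharZero K] {d M : ℕ} {g : Fin 2 → MvPolynomial (Fin 2) K}

lemma adjoin_map {L : Type} [Field L] (σ : K →+* L) (T : Set K) {y : K} (hy : y ∈ Algebra.adjoin ℤ T) :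
    σ y ∈ Algebra.adjoin ℤ (σ '' T) := by
  induction hy using Algebra.adjoin_induction with
  | mem t ht => exact Algebra.subset_adjoin ⟨t, ht, rfl⟩
  | algebraMap r =>
    have h1 : σ (algebraMap ℤ K r) = algebraMap ℤ L r := by
      rw [eq_intCast, map_intCast, eq_intCast]
    rw [h1]
    exact Subalgebra.algebraMap_mem _ r
  | add a b _ _ iha ihb =>
    rw [map_add]
    exact add_mem iha ihb
  | mul a b _ _ iha ihb =>
    rw [map_mul]
    exact mul_mem iha ihb

theorem int_any (hg : IsEndo d g) (hd : 2 ≤ d) (hE : NoExcept d g) {x : Fin 2 → K} (hx : Wander g x)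
    {D : ℕ} (q α : Fin (D + 1) → Polynomial K) (hα : ∑ j, α j * q j = 1) (T : Set K) (hT : T.Finite) :
    {n | ∃ y ∈ Algebra.adjoin ℤ T, relv q ((pt g)^[n] x) y = 0}.Finite := by
  classical
  have hx0 : ∀ n, (pt g)^[n] x ≠ 0 := wander_ne' hg.1 hd hx
  -- normalization of the point
  obtain ⟨i1, hi1⟩ : ∃ i, x i ≠ 0 := by
    by_contra hcon
    push Not at hcon
    exact hx0 0 (funext hcon)
  set c0 : K := (x i1)⁻¹ with hc0
  have hc0' : c0 ≠ 0 := inv_ne_zero hi1
  set t : Fin 2 → K := c0 • x with ht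
  have hwt : Wander g t := wander_smul_any hg.1 hx hc0'
  have ht0 : ∀ n, (pt g)^[n] t ≠ 0 := wander_ne' hg.1 hd hwt
  -- the larger field
  set σ : K →+* AlgebraicClosure K := algebraMap K (AlgebraicClosure K) with hσ
  have hσi : Function.Injective σ := σ.injective
  set gL : Fin 2 → MvPolynomial (Fin 2) (AlgebraicClosure K) := fun i => map σ (g i) with hgL
  have horb : ∀ n, (evr gL)^[n] (fun a => σ (t a)) = fun a => σ ((pt g)^[n] t a) :=
    fun n => evr_iter_map σ g t n
  have hev : ∀ {n : ℕ} (p : MvPolynomial (Fin n) K) (y : Fin n → AlgebraicClosure K),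
      aeval y p = eval y (map σ p) := by
    intro n p y
    rw [aeval_def, ← eval_map]
  have b1 : ∀ i, (gL i).IsHomogeneous d := fun i => (hg.1 i).map σ
  have b2 : ∀ y : Fin 2 → AlgebraicClosure K, (∀ i, eval y (gL i) = 0) → y = 0 := by
    intro y hy
    exact hg.2 y fun i => by
      rw [hev]
      exact hy i
  have hevg : (ev g : (Fin 2 → AlgebraicClosure K) → _) = evr gL := by
    funext y a
    exact hev _ _
  have b3 : ∀ v : Fin 2 → AlgebraicClosure K, v ≠ 0 → ∀ c : AlgebraicClosure K,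
      ¬ ∀ y : Fin 2 → AlgebraicClosure K,
      v 0 * (evr gL)^[2] y 0 + v 1 * (evr gL)^[2] y 1 = c * (v 0 * y 0 + v 1 * y 1) ^ d ^ 2 := by
    intro v hv c hid
    rw [← hevg] at hid
    exact hE v c hv hid
  have b6 : σ (t i1) = 1 := by
    rw [ht, Pi.smul_apply, smul_eq_mul, hc0, inv_mul_cancel₀ hi1, map_one]
  have b7 : ∀ i j : ℕ, i ≠ j → ∀ c : AlgebraicClosure K,
      (evr gL)^[i] (fun a => σ (t a)) ≠ c • (evr gL)^[j] fun a => σ (t a) := by
    intro i j hij c hc
    rw [horb, horb] at hc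
    obtain ⟨b, hb⟩ : ∃ b, (pt g)^[j] t b ≠ 0 := by
      by_contra hcon
      push Not at hcon
      exact ht0 j (funext hcon)
    have h1 := congrFun hc b
    rw [Pi.smul_apply, smul_eq_mul] at h1
    have h2 : c = σ ((pt g)^[i] t b / (pt g)^[j] t b) := by
      rw [map_div₀, eq_div_iff ((map_ne_zero _).2 hb)]
      exact h1.symm
    apply hwt i j hij ((pt g)^[i] t b / (pt g)^[j] t b)
    funext a
    apply hσi
    have h3 := congrFun hc a
    rw [Pi.smul_apply, smul_eq_mul, h2, ← map_mul] at h3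
    exact h3
  set qL : Fin (D + 1) → Polynomial (AlgebraicClosure K) := fun j => (q j).map σ with hqL
  set αL : Fin (D + 1) → Polynomial (AlgebraicClosure K) := fun j => (α j).map σ with hαL
  have hαL1 : ∑ j, αL j * qL j = 1 := by
    have := congrArg (Polynomial.map σ) hα
    rw [Polynomial.map_sum, Polynomial.map_one] at this
    rw [← this]
    refine Finset.sum_congr rfl fun j _ => ?_
    rw [Polynomial.map_mul]
  have hfinal := core_z hd (g := gL) b1 b2 b3 (t := fun a => σ (t a)) b6 b7 qL αL hαL1 (σ '' T) (hT.image σ)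
  apply hfinal.subset
  rintro n ⟨y, hy, hr⟩
  refine ⟨σ y, adjoin_map σ T hy, ?_⟩
  have e1 := horb n
  rw [e1]
  have h1 : relv q ((pt g)^[n] t) y = 0 := by
    have h0 : (pt g)^[n] t = c0 ^ d ^ n • (pt g)^[n] x := iter_smul_any hg.1 c0 x n
    rw [h0, relv_smul, hr, mul_zero]
  have h0 := relv_map σ q ((pt g)^[n] t) y
  rw [h1, map_zero] at h0
  exact h0

lemma zero_coord_finite (hg : ∀ i, (g i).IsHomogeneous d) (hd : 2 ≤ d) {x : Fin 2 → K} (hx : Wander g x) :
    {n : ℕ | (pt g)^[n] x 0 = 0}.Finite := by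
  have hx0 : ∀ n, (pt g)^[n] x ≠ 0 := wander_ne' hg hd hx
  apply Set.Subsingleton.finite
  intro i hi j hj
  by_contra hij
  have hi' : (pt g)^[i] x 0 = 0 := hi
  have hj' : (pt g)^[j] x 0 = 0 := hj
  have hj1 : (pt g)^[j] x 1 ≠ 0 := by
    intro h
    apply hx0 j
    funext q
    fin_cases q
    · exact hj'
    · exact h
  apply hx i j hij ((pt g)^[i] x 1 / (pt g)^[j] x 1)
  funext q
  fin_cases q
  · simp [hi', hj']
  · simp [div_mul_cancel₀ _ hj1]

/-- one relation: the second coordinate is in a finitely generated ring, outside of a finite set -/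
theorem int_poly (hg : IsEndo d g) (hd : 2 ≤ d) (hE : NoExcept d g) {x : Fin 2 → K} (hx : Wander g x)
    (P : MvPolynomial (Fin 2) K) (hP : P ≠ 0) :
    ∃ E : Finset K, ∀ T : Set K, T.Finite → {n | ∃ y ∈ Algebra.adjoin ℤ T, y ∉ E ∧
      (pt g)^[n] x 0 ≠ 0 ∧ eval ![(pt g)^[n] x 1 / (pt g)^[n] x 0, y] P = 0}.Finite := by
  classical
  obtain ⟨D, q, hq, hrel⟩ := rel_of_poly P hP
  obtain ⟨c, q', α, hc, hq', hα⟩ := split_content q hq
  refine ⟨c.roots.toFinset, fun T hT => ?_⟩
  apply (int_any hg hd hE hx q' α hα T hT).subset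
  rintro n ⟨y, hy, hyE, hn0, h0⟩
  refine ⟨y, hy, ?_⟩
  have h1 := hrel _ y hn0 h0
  have h3 : relv q ((pt g)^[n] x) y = c.eval y * relv q' ((pt g)^[n] x) y := by
    rw [relv, relv, Finset.mul_sum]
    refine Finset.sum_congr rfl fun j _ => ?_
    rw [hq' j, Polynomial.eval_mul]
    ring
  rw [h3] at h1
  refine (mul_eq_zero.1 h1).resolve_left ?_
  intro h4
  apply hyE
  rw [Multiset.mem_toFinset, Polynomial.mem_roots hc]
  exact h4

/-- the orbit of a polynomial map lies in a finitely generated ring -/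
lemma orbit_fg (h : Fin M → MvPolynomial (Fin M) K) (u : Fin M → K) :
    ∃ T : Set K, T.Finite ∧ ∀ n i, (pm h)^[n] u i ∈ Algebra.adjoin ℤ T := by
  classical
  refine ⟨(⋃ i, ((h i).coeffs : Set K)) ∪ Set.range u, (Set.finite_iUnion fun i =>
    Finset.finite_toSet _).union (Set.finite_range u), fun n => ?_⟩
  induction n with
  | zero =>
    intro i
    exact Algebra.subset_adjoin (Or.inr ⟨i, rfl⟩)
  | succ n ih =>
    intro i
    rw [Function.iterate_succ_apply']
    change eval _ (h i) ∈ _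
    rw [eval_eq']
    refine sum_mem fun μ hμ => mul_mem ?_ (prod_mem fun j _ => pow_mem (ih j) _)
    exact Algebra.subset_adjoin (Or.inl (Set.mem_iUnion.2 ⟨i, coeff_mem_coeffs μ (mem_support_iff.1 hμ)⟩))

/-- **The theorem on products: arbitrary polynomial maps.** -/
theorem product_gen (hg : IsEndo d g) (hd : 2 ≤ d) (hE : NoExcept d g)
    {x : Fin 2 → K} (hx : Wander g x) {U : ℕ → Fin M → K} (T : Set K) (hT : T.Finite)
    (hUT : ∀ n i, U n i ∈ Algebra.adjoin ℤ T) (hU : ∀ i j : ℕ, i ≠ j → U i ≠ U j)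
    (V : Set ((Fin 2 → K) × (Fin M → K)))
    (hV : ∀ i, ∃ P : MvPolynomial (Fin 2) K, P ≠ 0 ∧ ∀ p ∈ V, p.1 0 ≠ 0 →
      eval ![p.1 1 / p.1 0, p.2 i] P = 0) :
    {n | (((pt g)^[n] x, U n) : (Fin 2 → K) × (Fin M → K)) ∈ V}.Finite := by
  classical
  choose P hP hPV using hV
  choose E hE' using fun i => int_poly hg hd hE hx (P i) (hP i)
  have f1 : {n : ℕ | ∀ i, U n i ∈ (E i : Set K)}.Finite := by
    have hinj : Function.Injective U := by
      intro a b hab
      by_contra hne
      exact hU a b hne hab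
    have hfin : {y : Fin M → K | ∀ i, y i ∈ (E i : Set K)}.Finite :=
      Set.Finite.pi' fun i => Finset.finite_toSet _
    exact hfin.preimage hinj.injOn
  have f2 := zero_coord_finite hg.1 hd hx
  have f4 : (⋃ i, {n | ∃ y ∈ Algebra.adjoin ℤ T, y ∉ E i ∧ (pt g)^[n] x 0 ≠ 0 ∧
      eval ![(pt g)^[n] x 1 / (pt g)^[n] x 0, y] (P i) = 0}).Finite :=
    Set.finite_iUnion fun i => hE' i T hT
  apply ((f1.union f2).union f4).subset
  intro n hn
  by_cases hn1 : ∀ i, U n i ∈ (E i : Set K)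
  · exact Or.inl (Or.inl hn1)
  · by_cases hn2 : (pt g)^[n] x 0 = 0
    · exact Or.inl (Or.inr hn2)
    · right
      push Not at hn1
      obtain ⟨i, hi⟩ := hn1
      have h5 : eval ![(pt g)^[n] x 1 / (pt g)^[n] x 0, U n i] (P i) = 0 :=
        hPV i ((pt g)^[n] x, U n) hn hn2
      rw [Set.mem_iUnion]
      exact ⟨i, U n i, hUT n i, hi, hn2, h5⟩

end Pool.Agent.H422.SK
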