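import Mathlib
import Pool.Agent.H422.SK.IntAny
import Pool.Agent.H422.SK.PP

set_option autoImplicit false
set_option linter.unusedSectionVars false

/-!
Dynamical Mordell-Lang for products of a rational function with an arbitrary polynomial map.
-/

namespace Pool.Agent.H422.SK

open MvPolynomial
open Pool.Agent.Q170.HG (pt IsEndo)

variable {K : Type} [Field K] [CharZero K] {d e M : ℕ} {g : Fin 2 → MvPolynomial (Fin 2) K}

/-- a horizontal fibre which is not contained in the set meets it in finitely many members -/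
lemma horiz_finite {x : ℕ → Fin 2 → K} (hx0 : ∀ n, x n ≠ 0)
    (hx : ∀ i j : ℕ, i ≠ j → ∀ c : K, x i ≠ c • x j)
    {W : Set (MvPolynomial (Fin 2 ⊕ Fin M) K)} (hW : WH W) {w : Fin M → K}
    (hz : ¬ ∀ z, Eqs W z w) : {n | Eqs W (x n) w}.Finite := by
  classical
  unfold Eqs at hz
  push Not at hz
  obtain ⟨y, F, hF, hy⟩ := hz
  obtain ⟨p, hp⟩ := hW F hF
  have hne : ∃ y : Fin 2 → K, y 0 ≠ 0 ∧ eval (Sum.elim y w) F ≠ 0 := by
    by_contra hcon
    push Not at hcon
    have h2 : ∀ z, eval z (aeval (Sum.elim MvPolynomial.X fun i => C (w i)) F) =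
        eval (Sum.elim z w) F := by
      intro z
      rw [← aeval_eq_eval, ← AlgHom.comp_apply, comp_aeval, ← aeval_eq_eval]
      congr 2
      funext q
      rcases q with q | q
      · simp
      · simp
    have h1 : (MvPolynomial.X 0 : MvPolynomial (Fin 2) K) *
        aeval (Sum.elim MvPolynomial.X fun i => C (w i)) F = 0 := by
      apply MvPolynomial.funext
      intro z
      rw [map_mul, eval_X, map_zero]
      by_cases hz0 : z 0 = 0
      · rw [hz0, zero_mul]
      · rw [h2 z, hcon z hz0, mul_zero]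
    rcases mul_eq_zero.1 h1 with h3 | h3
    · exact X_ne_zero _ h3
    · apply hy
      rw [← h2 y, h3, map_zero]
  have h1 := form_finite_any (x := x) hx0 hx (p := p)
    (fun y : Fin 2 → K => eval (Sum.elim y w) F) (fun c y => hp c y _)
    (aeval (Sum.elim ![1, Polynomial.X] fun i => Polynomial.C (w i)) F) (fun t => by
      have h2 : ∀ Q : MvPolynomial (Fin 2 ⊕ Fin M) K, Polynomial.eval t
          (aeval (Sum.elim ![1, Polynomial.X] fun i => Polynomial.C (w i)) Q) =
          eval (Sum.elim ![1, t] w) Q := by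
        intro Q
        have h3 : Polynomial.eval t (aeval (Sum.elim ![1, Polynomial.X]
            fun i => Polynomial.C (w i)) Q) = ((Polynomial.aeval t).comp
            (aeval (Sum.elim ![1, Polynomial.X] fun i => Polynomial.C (w i)))) Q := by
          rw [AlgHom.comp_apply, Polynomial.coe_aeval_eq_eval]
        rw [h3, comp_aeval, ← aeval_eq_eval]
        congr 2
        funext q
        rcases q with q | q
        · fin_cases q <;> simp
        · simp
      exact (h2 F).symm) hne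
  exact h1.subset fun n hn => hn F hF

/-- **Integral points over the members of an orbit.** -/
theorem int_curve (hg : IsEndo d g) (hd : 2 ≤ d) (hE : NoExcept d g) {x : Fin 2 → K} (hx : Wander g x)
    {W : Set (MvPolynomial (Fin 2 ⊕ Fin M) K)} (hW : WH W)
    (hV : ∀ i, ∃ P : MvPolynomial (Fin 2) K, P ≠ 0 ∧ ∀ (x : Fin 2 → K) (u : Fin M → K),
      Eqs W x u → x 0 ≠ 0 → eval ![x 1 / x 0, u i] P = 0) (T : Set K) (hT : T.Finite) :
    {n | ∃ u : Fin M → K, (∀ i, u i ∈ Algebra.adjoin ℤ T) ∧ Eqs W ((pt g)^[n] x) u ∧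
      ¬ ∀ z, Eqs W z u}.Finite := by
  classical
  choose P hP hPV using hV
  choose E hE' using fun i => int_poly hg hd hE hx (P i) (hP i)
  have f1 : {y : Fin M → K | ∀ i, y i ∈ (E i : Set K)}.Finite :=
    Set.Finite.pi' fun i => Finset.finite_toSet _
  have f2 := zero_coord_finite hg.1 hd hx
  have f3 : (⋃ w ∈ {y : Fin M → K | ∀ i, y i ∈ (E i : Set K)},
      {n | Eqs W ((pt g)^[n] x) w ∧ ¬ ∀ z, Eqs W z w}).Finite := by
    refine Set.Finite.biUnion f1 fun w _ => ?_
    by_cases hz : ∀ z, Eqs W z w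
    · exact Set.finite_empty.subset fun n hn => hn.2 hz
    · exact (horiz_finite (x := fun n => (pt g)^[n] x) (wander_ne' hg.1 hd hx) hx hW hz).subset
        fun n hn => hn.1
  have f4 : (⋃ i, {n | ∃ y ∈ Algebra.adjoin ℤ T, y ∉ E i ∧ (pt g)^[n] x 0 ≠ 0 ∧
      eval ![(pt g)^[n] x 1 / (pt g)^[n] x 0, y] (P i) = 0}).Finite :=
    Set.finite_iUnion fun i => hE' i T hT
  apply ((f3.union f2).union f4).subset
  rintro n ⟨u, hu, hn, hz⟩
  by_cases hn1 : ∀ i, u i ∈ (E i : Set K)
  · left
    left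
    rw [Set.mem_iUnion₂]
    exact ⟨u, hn1, hn, hz⟩
  · by_cases hn2 : (pt g)^[n] x 0 = 0
    · exact Or.inl (Or.inr hn2)
    · right
      push Not at hn1
      obtain ⟨i, hi⟩ := hn1
      have h5 : eval ![(pt g)^[n] x 1 / (pt g)^[n] x 0, u i] (P i) = 0 :=
        hPV i ((pt g)^[n] x) u hn hn2
      rw [Set.mem_iUnion]
      exact ⟨i, u i, hu i, hi, hn2, h5⟩

/-- the first point is wandering: every curve -/
theorem curve_gen (hg : IsEndo d g) (hd : 2 ≤ d) (hE : NoExcept d g)
    (h : Fin M → MvPolynomial (Fin M) K) {x : Fin 2 → K} (hx : Wander g x)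
    (u : Fin M → K) {W : Set (MvPolynomial (Fin 2 ⊕ Fin M) K)} (hW : WH W)
    (hV : ∀ i, ∃ P : MvPolynomial (Fin 2) K, P ≠ 0 ∧ ∀ (x : Fin 2 → K) (u : Fin M → K),
      Eqs W x u → x 0 ≠ 0 → eval ![x 1 / x 0, u i] P = 0) :
    (EvPer fun n => Eqs W ((pt g)^[n] x) ((pm h)^[n] u)) ∧
    ((∀ i j : ℕ, i ≠ j → (pm h)^[i] u ≠ (pm h)^[j] u) →
      {n | Eqs W ((pt g)^[n] x) ((pm h)^[n] u)}.Finite) := by
  have key : (∀ i j : ℕ, i ≠ j → (pm h)^[i] u ≠ (pm h)^[j] u) →
      {n | Eqs W ((pt g)^[n] x) ((pm h)^[n] u)}.Finite := by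
    intro hwu
    obtain ⟨T, hT, hUT⟩ := orbit_fg h u
    exact product_gen hg hd hE hx T hT hUT hwu
      {q : (Fin 2 → K) × (Fin M → K) | Eqs W q.1 q.2} (fun i => by
        obtain ⟨P, hP, hPV⟩ := hV i
        exact ⟨P, hP, fun q hq hq0 => hPV q.1 q.2 hq hq0⟩)
  refine ⟨?_, key⟩
  by_cases hwu : ∀ i j : ℕ, i ≠ j → (pm h)^[i] u ≠ (pm h)^[j] u
  · apply evPer_of (z := fun _ => False) (N := 0) one_pos (fun n _ => Iff.rfl)
      (fun n hn => hn.elim)
    exact (key hwu).subset fun n hn => hn.2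
  · push Not at hwu
    obtain ⟨i, j, hij, hu⟩ := hwu
    obtain ⟨a, m, hm, hU⟩ := per_of_eq hij hu
    exact evper_second (x := fun n => (pt g)^[n] x) (wander_ne' hg.1 hd hx) hx (U := fun n => (pm h)^[n] u)
      hm hU hW

section affrel

variable {L : Type} [Field L]

/-- **Two rational functions on an affine set of dimension at most one are dependent.** -/
theorem relation_aff {n : ℕ} (V : Set (Fin n → L))
    (hV : ∀ i j, ∃ P : MvPolynomial (Fin 2) L, P ≠ 0 ∧ ∀ x ∈ V, eval ![x i, x j] P = 0)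
    (a b c : MvPolynomial (Fin n) L) :
    ∃ P : MvPolynomial (Fin 2) L, P ≠ 0 ∧ ∀ x ∈ V, eval x a ≠ 0 →
      eval ![eval x b / eval x a, eval x c / eval x a] P = 0 := by
  classical
  -- the vanishing ideal
  set I : Ideal (MvPolynomial (Fin n) L) :=
    { carrier := {f | ∀ x ∈ V, eval x f = 0}
      add_mem' := fun {f g} hf hg x hx => by rw [map_add, hf x hx, hg x hx, add_zero]
      zero_mem' := fun x _ => map_zero _
      smul_mem' := fun f g hg x hx => by rw [smul_eq_mul, map_mul, hg x hx, mul_zero] } with hI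
  have hmem : ∀ f, f ∈ I ↔ ∀ x ∈ V, eval x f = 0 := fun f => Iff.rfl
  have hrad : I.IsRadical := by
    intro f hf
    obtain ⟨N, hN⟩ := hf
    intro x hx
    have := (hmem _).1 hN x hx
    rw [map_pow] at this
    exact eq_zero_of_pow_eq_zero this
  have hfin : I.minimalPrimes.Finite := Ideal.finite_minimalPrimes_of_isNoetherianRing _ I
  have hinf : sInf I.minimalPrimes = I := by rw [Ideal.sInf_minimalPrimes, hrad.radical]
  -- the relation modulo a prime
  have hprime : ∀ p ∈ I.minimalPrimes, ∃ P : MvPolynomial (Fin 2) L, P ≠ 0 ∧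
      (a ∈ p ∨ ∃ (D : ℕ) (H : MvPolynomial (Fin 3) L), aeval ![b, c, a] H ∈ p ∧
        ∀ x y z : L, z ≠ 0 → eval ![x, y, z] H = z ^ D * eval ![x / z, y / z] P) := by
    intro p hp
    have hpp : p.IsPrime := hp.1.1
    have hIp : I ≤ p := hp.1.2
    by_cases hap : a ∈ p
    · exact ⟨1, one_ne_zero, Or.inl hap⟩
    set E := FractionRing (MvPolynomial (Fin n) L ⧸ p)
    let ι : MvPolynomial (Fin n) L →ₐ[L] E :=
      (IsScalarTower.toAlgHom L (MvPolynomial (Fin n) L ⧸ p) E).comp (Ideal.Quotient.mkₐ L p)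
    have hι : ∀ f, ι f = 0 ↔ f ∈ p := by
      intro f
      have h1 : ι f = algebraMap (MvPolynomial (Fin n) L ⧸ p) E (Ideal.Quotient.mk p f) := rfl
      rw [h1, ← Ideal.Quotient.eq_zero_iff_mem]
      constructor
      · intro h
        exact (IsFractionRing.injective (MvPolynomial (Fin n) L ⧸ p) E) (by rw [h, map_zero])
      · intro h
        rw [h, map_zero]
    set s : Fin n → E := fun i => ι (X i) with hs
    have hιa : ∀ f, ι f = aeval s f := by
      intro f
      have h1 : ι = aeval s := by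
        apply MvPolynomial.algHom_ext
        intro i
        rw [aeval_X]
      rw [h1]
    have hιa0 : ι a ≠ 0 := fun h => hap ((hι a).1 h)
    have hdep : ∀ i j, ∃ P : MvPolynomial (Fin 2) L, P ≠ 0 ∧ aeval ![s i, s j] P = 0 := by
      intro i j
      obtain ⟨P, hP, hPV⟩ := hV i j
      refine ⟨P, hP, ?_⟩
      have h1 : aeval ![X i, X j] P ∈ I := by
        intro x hx
        have h2 : eval x (aeval ![X i, X j] P) = eval ![x i, x j] P := by
          rw [← aeval_eq_eval, ← AlgHom.comp_apply, comp_aeval, ← aeval_eq_eval]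
          congr 2
          funext q
          fin_cases q <;> simp [aeval_X]
        rw [h2, hPV x hx]
      have h2 := (hι _).2 (hIp h1)
      have h4 : ι (aeval ![X i, X j] P) = aeval ![s i, s j] P := by
        rw [← AlgHom.comp_apply, comp_aeval]
        congr 2
        funext q
        fin_cases q <;> rfl
      rw [← h4]
      exact h2
    have hadj : ∀ f : MvPolynomial (Fin n) L, aeval s f ∈ Algebra.adjoin L (Set.range s) := by
      intro f
      rw [Algebra.adjoin_range_eq_range_aeval]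
      exact ⟨f, rfl⟩
    have halg : ∀ f : MvPolynomial (Fin n) L,
        IsAlgebraic (Algebra.adjoin L (Set.range s)) (ι f / ι a) := by
      intro f
      have h1 : ι f / ι a = aeval s f * (aeval s a)⁻¹ := by
        rw [hιa f, hιa a, div_eq_mul_inv]
      rw [h1]
      apply IsAlgebraic.mul
      · exact isAlgebraic_algebraMap (⟨_, hadj f⟩ : Algebra.adjoin L (Set.range s))
      · apply IsAlgebraic.inv
        exact isAlgebraic_algebraMap (⟨_, hadj a⟩ : Algebra.adjoin L (Set.range s))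
    obtain ⟨P, hP, hP0⟩ := dep s hdep (ι b / ι a) (ι c / ι a) (halg b) (halg c)
    obtain ⟨D, H, hH⟩ := hom3 P
    refine ⟨P, hP, Or.inr ⟨D, H, ?_, fun x y z hz => ?_⟩⟩
    · rw [← hι]
      have h4 : ι (aeval ![b, c, a] H) = aeval ![ι b, ι c, ι a] H := by
        rw [← AlgHom.comp_apply, comp_aeval]
        congr 2
        funext q
        fin_cases q <;> rfl
      rw [h4, hH E _ _ _ hιa0, hP0, mul_zero]
    · have := hH L x y z hz
      rwa [aeval_eq_eval, aeval_eq_eval] at this
  choose! P hP0 hP using hprime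
  refine ⟨∏ p ∈ hfin.toFinset, P p, Finset.prod_ne_zero_iff.2 fun p hp =>
    hP0 p (hfin.mem_toFinset.1 hp), fun x hx hax => ?_⟩
  rw [map_prod]
  by_contra hne
  rw [Finset.prod_eq_zero_iff] at hne
  push Not at hne
  -- an element of the intersection of the primes which does not vanish at `x`
  have hel : ∀ p ∈ hfin.toFinset, ∃ f ∈ p, eval x f ≠ 0 := by
    intro p hp
    rcases hP p (hfin.mem_toFinset.1 hp) with h | ⟨D, H, h1, h2⟩
    · exact ⟨a, h, hax⟩
    · refine ⟨_, h1, ?_⟩
      have h3 : eval x (aeval ![b, c, a] H) = eval ![eval x b, eval x c, eval x a] H := by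
        rw [← aeval_eq_eval, ← AlgHom.comp_apply, comp_aeval, ← aeval_eq_eval]
        congr 2
        funext q
        fin_cases q <;> simp [aeval_eq_eval]
      rw [h3, h2 _ _ _ hax]
      exact mul_ne_zero (pow_ne_zero _ hax) (hne p hp)
  choose! f hfp hfx using hel
  have h1 : ∏ p ∈ hfin.toFinset, f p ∈ I := by
    have hinf' : ∀ y, y ∈ sInf I.minimalPrimes → y ∈ I := fun y hy => hinf ▸ hy
    apply hinf'
    rw [Submodule.mem_sInf]
    intro p hp
    exact Ideal.mem_of_dvd _ (Finset.dvd_prod_of_mem f (hfin.mem_toFinset.2 hp))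
      (hfp p (hfin.mem_toFinset.2 hp))
  have h2 := (hmem _).1 h1 x hx
  rw [map_prod, Finset.prod_eq_zero_iff] at h2
  obtain ⟨p, hp, h3⟩ := h2
  exact hfx p hp h3

end affrel

/-- proportional vectors -/
lemma cross {z w : Fin 2 → K} (hz : z ≠ 0) (hw : w ≠ 0) (h : z 0 * w 1 = z 1 * w 0) :
    ∃ c : K, c ≠ 0 ∧ z = c • w := by
  by_cases h0 : w 0 = 0
  · have hw1 : w 1 ≠ 0 := by
      intro h1
      apply hw
      funext i
      fin_cases i
      · exact h0
      · exact h1
    have hz0 : z 0 = 0 := by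
      rw [h0, mul_zero] at h
      exact (mul_eq_zero.1 h).resolve_right hw1
    have hz1 : z 1 ≠ 0 := by
      intro h1
      apply hz
      funext i
      fin_cases i
      · exact hz0
      · exact h1
    refine ⟨z 1 / w 1, div_ne_zero hz1 hw1, ?_⟩
    funext i
    fin_cases i
    · simp [h0, hz0]
    · simp [div_mul_cancel₀ _ hw1]
  · have hz0 : z 0 ≠ 0 := by
      intro h1
      rw [h1, zero_mul] at h
      have h2 := (mul_eq_zero.1 h.symm).resolve_right h0
      apply hz
      funext i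
      fin_cases i
      · exact h1
      · exact h2
    refine ⟨z 0 / w 0, div_ne_zero hz0 h0, ?_⟩
    funext i
    fin_cases i
    · simp [div_mul_cancel₀ _ h0]
    · simp only [Fin.mk_one, Fin.isValue, Pi.smul_apply, smul_eq_mul]
      field_simp
      linear_combination -h

/-- **Affine systems over a rational function.** -/
theorem semi (hg : IsEndo d g) (hd : 2 ≤ d) (hE : NoExcept d g)
    (h : Fin M → MvPolynomial (Fin M) K) (A : Fin 2 → MvPolynomial (Fin M) K) (u : Fin M → K)
    (hx : Wander g fun a => eval u (A a))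
    (hA0 : ∀ n, (fun a => eval ((pm h)^[n] u) (A a)) ≠ 0)
    (hA : ∀ n, eval ((pm h)^[n + 1] u) (A 0) * pt g (fun a => eval ((pm h)^[n] u) (A a)) 1 =
      eval ((pm h)^[n + 1] u) (A 1) * pt g (fun a => eval ((pm h)^[n] u) (A a)) 0)
    (V : Set (Fin M → K))
    (hV : ∀ i j, ∃ P : MvPolynomial (Fin 2) K, P ≠ 0 ∧ ∀ x ∈ V, eval ![x i, x j] P = 0) :
    {n | (pm h)^[n] u ∈ V}.Finite := by
  classical
  set x : Fin 2 → K := fun a => eval u (A a) with hxdef
  have hprop : ∀ n, ∃ c : K, c ≠ 0 ∧ (fun a => eval ((pm h)^[n] u) (A a)) = c • (pt g)^[n] x := by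
    intro n
    induction n with
    | zero => exact ⟨1, one_ne_zero, by rw [one_smul]; rfl⟩
    | succ n ih =>
      obtain ⟨c, hc, h1⟩ := ih
      have h2 : pt g (fun a => eval ((pm h)^[n] u) (A a)) ≠ 0 := by
        have := pt_ne hg (hA0 n) 1
        exact this
      obtain ⟨c', hc', h3⟩ := cross (hA0 (n + 1)) h2 (hA n)
      refine ⟨c' * c ^ d, mul_ne_zero hc' (pow_ne_zero _ hc), ?_⟩
      rw [h3, h1, mul_smul, Function.iterate_succ_apply']
      congr 1
      have h4 := iter_smul_any hg.1 c ((pt g)^[n] x) 1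
      rw [pow_one] at h4
      exact h4
  have hrel : ∀ i, ∃ P : MvPolynomial (Fin 2) K, P ≠ 0 ∧ ∀ w ∈ V, eval w (A 0) ≠ 0 →
      eval ![eval w (A 1) / eval w (A 0), eval w (A 0 * X i) / eval w (A 0)] P = 0 :=
    fun i => relation_aff V hV (A 0) (A 1) (A 0 * X i)
  obtain ⟨T, hT, hUT⟩ := orbit_fg h u
  have hU : ∀ i j : ℕ, i ≠ j → (pm h)^[i] u ≠ (pm h)^[j] u := by
    intro i j hij heq
    obtain ⟨c, hc, h1⟩ := hprop i
    obtain ⟨c', hc', h2⟩ := hprop j
    rw [heq, h2] at h1
    apply hx i j hij (c⁻¹ * c')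
    rw [mul_smul, h1, inv_smul_smul₀ hc]
  have hfin := product_gen hg hd hE hx (U := fun n => (pm h)^[n] u) T hT hUT hU
    {q : (Fin 2 → K) × (Fin M → K) | q.2 ∈ V ∧ ∃ c : K, c ≠ 0 ∧
      (fun a => eval q.2 (A a)) = c • q.1} (fun i => by
      obtain ⟨P, hP, hPV⟩ := hrel i
      refine ⟨P, hP, ?_⟩
      rintro ⟨z, w⟩ ⟨hw, c, hc, hzw⟩ hz0
      have e0 : eval w (A 0) = c * z 0 := congrFun hzw 0
      have e1 : eval w (A 1) = c * z 1 := congrFun hzw 1
      have hz0' : z 0 ≠ 0 := hz0
      have h1 : eval w (A 0) ≠ 0 := by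
        rw [e0]
        exact mul_ne_zero hc hz0'
      have h2 := hPV w hw h1
      have h3 : eval w (A 1) / eval w (A 0) = z 1 / z 0 := by
        rw [e0, e1, mul_div_mul_left _ _ hc]
      have h4 : eval w (A 0 * X i) / eval w (A 0) = w i := by
        rw [map_mul, eval_X, mul_div_cancel_left₀ _ h1]
      rw [h3, h4] at h2
      exact h2)
  apply hfin.subset
  intro n hn
  exact ⟨hn, hprop n⟩

end Pool.Agent.H422.SK
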