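import Mathlib
import Pool.Agent.H422.SK.CoreZ

set_option autoImplicit false
set_option linter.unusedSectionVars false

/-!
Specialization of a rational function and a wandering point to a number field, and its application to closed
sets which miss a fibre.
-/

namespace Pool.Agent.H422.SK

open MvPolynomial NumberField IsDedekindDomain
open Pool.Agent.Q170.HG (pt IsEndo iter_ne)
open Pool.Agent.W180.OP (Pl av wt fv fv_support_finite)

section core

variable {L : Type} [Field L] [CharZero L] [IsAlgClosed L] {d : ℕ}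

theorem spec_core (hd : 2 ≤ d)
    {g : Fin 2 → MvPolynomial (Fin 2) L} (hg : ∀ i, (g i).IsHomogeneous d)
    (hg0 : ∀ x : Fin 2 → L, (∀ i, eval x (g i) = 0) → x = 0)
    (hE : ∀ v : Fin 2 → L, v ≠ 0 → ∀ c : L, ¬ ∀ x : Fin 2 → L,
      v 0 * (evr g)^[2] x 0 + v 1 * (evr g)^[2] x 1 = c * (v 0 * x 0 + v 1 * x 1) ^ d ^ 2)
    {t : Fin 2 → L} {i1 : Fin 2} (ht1 : t i1 = 1)
    (hw : ∀ i j : ℕ, i ≠ j → ∀ c : L, (evr g)^[i] t ≠ c • (evr g)^[j] t) (T : Set L) (hT : T.Finite) :
    ∃ (A₀ : Subalgebra ℚ L) (_ : T ⊆ A₀) (g' : Fin 2 → MvPolynomial (Fin 2) A₀) (t' : Fin 2 → A₀)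
      (k : Type) (_ : Field k) (_ : NumberField k) (β : A₀ →+* k),
      (∀ n, (fun a => algebraMap A₀ L ((evr g')^[n] t' a)) = (evr g)^[n] t) ∧
      IsEndo d (fun i => map β (g' i)) ∧ NoExcept d (fun i => map β (g' i)) ∧
      Wander (fun i => map β (g' i)) (fun a => β (t' a)) := by
  classical
  -- certificates
  obtain ⟨m1, q1, h1⟩ := cert_forms g hg0
  obtain ⟨m3, c3, h3⟩ := cert_exc (d := d) hd g hE
  -- the ring
  set S1 : Set L := ⋃ i, ((g i).coeffs : Set L) with hS1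
  set S2 : Set L := ⋃ (k) (j), ((q1 k j).coeffs : Set L) with hS2
  set S5 : Set L := ⋃ k, ⋃ i ∈ (c3 k).support, ((c3 k i).coeffs : Set L) with hS5
  set S6 : Set L := ⋃ k, ⋃ i ∈ (c3 k).support, (Set.range i.1 ∪ Set.range i.2) with hS6
  set S7 : Set L := Set.range t ∪ T with hS7
  set SS : Set L := S1 ∪ S2 ∪ S5 ∪ S6 ∪ S7 with hSS
  have hfin : SS.Finite := by
    have f1 : S1.Finite := Set.finite_iUnion fun i => Finset.finite_toSet _
    have f2 : S2.Finite := Set.finite_iUnion fun k => Set.finite_iUnion fun j => Finset.finite_toSet _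
    have f5 : S5.Finite := Set.finite_iUnion fun k => Set.Finite.biUnion (Finset.finite_toSet _)
      fun i _ => Finset.finite_toSet _
    have f6 : S6.Finite := Set.finite_iUnion fun k => Set.Finite.biUnion (Finset.finite_toSet _)
      fun i _ => (Set.finite_range _).union (Set.finite_range _)
    have f7 : S7.Finite := (Set.finite_range _).union hT
    exact (((f1.union f2).union f5).union f6).union f7
  set S : Finset L := hfin.toFinset with hS
  obtain ⟨A₀, hA₀⟩ : ∃ A₀ : Subalgebra ℚ L, A₀ = Algebra.adjoin ℚ (S : Set L) := ⟨_, rfl⟩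
  have hsub : SS ⊆ A₀ := by
    intro c hc
    rw [hA₀]
    apply Algebra.subset_adjoin
    rw [hS, Set.Finite.coe_toFinset]
    exact hc
  have hinj : Function.Injective (algebraMap A₀ L) := Subtype.val_injective
  -- the lifts
  choose g' hg' using fun i => lift_mv (A₀ := A₀) (g i) fun c hc => hsub (by
    have : c ∈ S1 := Set.mem_iUnion.2 ⟨i, hc⟩
    simp only [hSS, Set.mem_union]
    tauto)
  choose q1' hq1' using fun k j => lift_mv (A₀ := A₀) (q1 k j) fun c hc => hsub (by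
    have : c ∈ S2 := Set.mem_iUnion₂.2 ⟨k, j, hc⟩
    simp only [hSS, Set.mem_union]
    tauto)
  have hc3 : ∀ k i, ∃ p' : MvPolynomial (Fin 2) A₀, map (algebraMap A₀ L) p' = c3 k i := by
    intro k i
    by_cases hi : i ∈ (c3 k).support
    · exact lift_mv (A₀ := A₀) (c3 k i) fun c hc => hsub (by
        have : c ∈ S5 := Set.mem_iUnion.2 ⟨k, Set.mem_iUnion₂.2 ⟨i, hi, hc⟩⟩
        simp only [hSS, Set.mem_union]
        tauto)
    · refine ⟨0, ?_⟩
      rw [Finsupp.notMem_support_iff.1 hi, map_zero]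
  choose c3' hc3' using hc3
  have hpt : ∀ k i, ∃ p : (Fin 2 → A₀) × (Fin 2 → A₀), i ∈ (c3 k).support →
      (fun a => algebraMap A₀ L (p.1 a)) = i.1 ∧ (fun a => algebraMap A₀ L (p.2 a)) = i.2 := by
    intro k i
    by_cases hi : i ∈ (c3 k).support
    · have hm : ∀ c, c ∈ Set.range i.1 ∪ Set.range i.2 → c ∈ A₀ := fun c hc => hsub (by
        have : c ∈ S6 := Set.mem_iUnion.2 ⟨k, Set.mem_iUnion₂.2 ⟨i, hi, hc⟩⟩
        simp only [hSS, Set.mem_union]
        tauto)
      exact ⟨(fun a => ⟨i.1 a, hm _ (Or.inl ⟨a, rfl⟩)⟩, fun a => ⟨i.2 a, hm _ (Or.inr ⟨a, rfl⟩)⟩),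
        fun _ => ⟨rfl, rfl⟩⟩
    · exact ⟨0, fun h => absurd h hi⟩
  choose P hP using hpt
  have hm7 : ∀ c, c ∈ S7 → c ∈ A₀ := fun c hc => hsub (by
    simp only [hSS, Set.mem_union]
    tauto)
  obtain ⟨t', ht'⟩ : ∃ t' : Fin 2 → A₀, (fun a => algebraMap A₀ L (t' a)) = t :=
    ⟨fun a => ⟨t a, hm7 _ (Or.inl ⟨a, rfl⟩)⟩, rfl⟩
  -- identities over the ring
  have E1 : ∀ k, ∑ j, q1' k j * g' j = X k ^ m1 k := by
    intro k
    apply map_injective _ hinj
    rw [map_sum, map_pow, map_X, ← h1 k]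
    refine Finset.sum_congr rfl fun j _ => ?_
    rw [map_mul, hq1', hg']
  have E3 : ∀ k, ∑ i ∈ (c3 k).support, c3' k i * wp g' (d ^ 2) (P k i).1 (P k i).2 = X k ^ m3 k := by
    intro k
    apply map_injective _ hinj
    rw [map_sum, map_pow, map_X, ← h3 k, Finsupp.sum]
    refine Finset.sum_congr rfl fun i hi => ?_
    obtain ⟨p1, p2⟩ := hP k i hi
    rw [map_mul, hc3', ← wp_map, p1, p2]
    congr 2
    funext a
    exact hg' a
  have hg'h : ∀ i, (g' i).IsHomogeneous d := fun i => IsHomogeneous.of_map hinj (by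
    rw [hg']
    exact hg i)
  have horb : ∀ n, (fun a => algebraMap A₀ L ((evr g')^[n] t' a)) = (evr g)^[n] t := by
    intro n
    rw [← evr_iter_map, ht']
    congr 2
    funext a
    rw [hg']
  obtain ⟨k, hk1, hk2, β, hβ⟩ := spec_hom S A₀ hA₀ hd g' hg'h m1 q1' E1 t' i1 (by
    apply hinj
    rw [map_one, ← ht1, ← ht']) (fun i j hij c => by
      rw [horb, horb]
      exact hw i j hij c)
  set gk : Fin 2 → MvPolynomial (Fin 2) k := fun i => map β (g' i) with hgk
  set tk : Fin 2 → k := fun a => β (t' a) with htk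
  have horbk : ∀ n, (pt gk)^[n] tk = fun a => β ((evr g')^[n] t' a) := fun n => evr_iter_map β g' t' n
  set γ : A₀ →+* AlgebraicClosure k := (algebraMap k (AlgebraicClosure k)).comp β with hγ
  have hev : ∀ {n : ℕ} (p : MvPolynomial (Fin n) A₀) (x : Fin n → AlgebraicClosure k),
      aeval x (map β p) = eval x (map γ p) := by
    intro n p x
    rw [aeval_def, ← eval_map, map_map]
  -- the specialized maps
  have hgE : IsEndo d gk := by
    refine ⟨fun i => (hg'h i).map β, fun x hx => ?_⟩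
    funext i
    have h4 := congrArg (fun p => eval x (map γ p)) (E1 i)
    simp only [map_sum, map_mul, map_pow, map_X, eval_X] at h4
    have h5 : ∀ j, eval x (map γ (g' j)) = 0 := fun j => by rw [← hev]; exact hx j
    simp only [h5, mul_zero, Finset.sum_const_zero] at h4
    by_contra h6
    exact pow_ne_zero _ h6 h4.symm
  have hNE : NoExcept d gk := by
    intro v c hv hid
    apply hv
    funext i
    have h4 := congrArg (fun p => eval v (map γ p)) (E3 i)
    simp only [map_sum, map_mul, map_pow, map_X, eval_X] at h4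
    have hevg : (ev gk : (Fin 2 → AlgebraicClosure k) → _) = evr fun a => map γ (g' a) := by
      funext x a
      rw [ev, evr, hgk]
      exact hev _ _
    have h5 : ∀ x y, eval v (map γ (wp g' (d ^ 2) x y)) = 0 := by
      intro x y
      rw [← wp_map, wp]
      simp only [map_sub, map_mul, map_add, map_pow, eval_X, eval_C]
      rw [← hevg, hid, hid]
      ring
    simp only [h5, mul_zero, Finset.sum_const_zero] at h4
    by_contra h6
    exact pow_ne_zero _ h6 h4.symm
  have hW : Wander gk tk := by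
    intro i j hij c hc
    rw [horbk, horbk] at hc
    exact hβ i j hij c hc
  exact ⟨A₀, fun c hc => hm7 c (Or.inr hc), g', t', k, hk1, hk2, β, horb, hgE, hNE, hW⟩

/-- lifting of a finitely generated ring -/
lemma lift_adjoin {A₀ : Subalgebra ℚ L} {T : Set L} (hTA : T ⊆ A₀) {y : L}
    (hy : y ∈ Algebra.adjoin ℤ T) :
    ∃ y' ∈ Algebra.adjoin ℤ {a : A₀ | (a : L) ∈ T}, algebraMap A₀ L y' = y := by
  induction hy using Algebra.adjoin_induction with
  | mem t ht => exact ⟨⟨t, hTA ht⟩, Algebra.subset_adjoin ht, rfl⟩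
  | algebraMap r =>
    refine ⟨algebraMap ℤ A₀ r, Subalgebra.algebraMap_mem _ r, ?_⟩
    rw [eq_intCast, map_intCast, eq_intCast]
  | add a b _ _ iha ihb =>
    obtain ⟨a', ha, rfl⟩ := iha
    obtain ⟨b', hb, rfl⟩ := ihb
    exact ⟨a' + b', add_mem ha hb, map_add _ _ _⟩
  | mul a b _ _ iha ihb =>
    obtain ⟨a', ha, rfl⟩ := iha
    obtain ⟨b', hb, rfl⟩ := ihb
    exact ⟨a' * b', mul_mem ha hb, map_mul _ _ _⟩

end core

section numberfield

variable {k : Type} [Field k] [NumberField k] {d : ℕ} {g : Fin 2 → MvPolynomial (Fin 2) k}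

/-- roots of monic polynomials with integral coefficients are integral -/
lemma monic_int (v : HeightOneSpectrum (𝓞 k)) {N : ℕ} (c : ℕ → k) (hc0 : c 0 = 1)
    (hc : ∀ j, fv v (c j) ≤ 1) {y : k} (hy : ∑ j ∈ Finset.range (N + 1), c j * y ^ (N - j) = 0) :
    fv v y ≤ 1 := by
  by_contra hlt
  rw [not_le] at hlt
  have hy0 : 0 < fv v y := by linarith
  rcases Nat.eq_zero_or_pos N with hN | hN
  · subst hN
    simp [hc0] at hy
  rw [Finset.sum_range_succ', hc0, one_mul, Nat.sub_zero] at hy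
  have h1 : y ^ N = - ∑ j ∈ Finset.range N, c (j + 1) * y ^ (N - (j + 1)) := by
    linear_combination hy
  have h2 : fv v (∑ j ∈ Finset.range N, c (j + 1) * y ^ (N - (j + 1))) ≤ fv v y ^ (N - 1) := by
    obtain ⟨j, -, hj⟩ := IsNonarchimedean.finset_image_add_of_nonempty (fv_na v)
      (fun j => c (j + 1) * y ^ (N - (j + 1))) (Finset.nonempty_range_iff.2 hN.ne')
    refine hj.trans ?_
    rw [map_mul, map_pow]
    calc fv v (c (j + 1)) * fv v y ^ (N - (j + 1)) ≤ 1 * fv v y ^ (N - 1) :=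
          mul_le_mul (hc _) (pow_le_pow_right₀ hlt.le (by omega)) (by positivity) zero_le_one
      _ = _ := one_mul _
  have h3 : fv v y ^ N ≤ fv v y ^ (N - 1) := by
    rw [← map_pow, h1, map_neg_eq_map]
    exact h2
  have h4 : fv v y ^ (N - 1) < fv v y ^ N := pow_lt_pow_right₀ hlt (by omega)
  linarith

/-- closed sets which miss a fibre, over number fields -/
theorem miss_nf (hg : IsEndo d g) (hd : 2 ≤ d) (hE : NoExcept d g) {x : Fin 2 → k}
    (hx : Wander g x) (α β : Fin 2 → k) (hαβ : α 0 * β 1 - α 1 * β 0 ≠ 0) (N : ℕ)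
    (S0 : Finset (Pl k)) :
    {n | ∃ c : ℕ → k, c 0 = 1 ∧ (∀ v ∉ S0, ∀ j, av v (c j) ≤ 1) ∧
      ∑ j ∈ Finset.range (N + 1), c j *
        (α 0 * (pt g)^[n] x 1 - α 1 * (pt g)^[n] x 0) ^ j *
        ((pt g)^[n] x 0 * β 1 - (pt g)^[n] x 1 * β 0) ^ (N - j) = 0}.Finite := by
  classical
  have hx0 : ∀ n, (pt g)^[n] x ≠ 0 := iter_ne hg (wander_ne hg.1 hd hx)
  set δ : k := α 0 * β 1 - α 1 * β 0 with hδ
  -- the archimedean places are added
  set S1 : Finset (Pl k) := S0 ∪ Finset.univ.image Sum.inl with hS1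
  set q : Fin 2 → Polynomial k := ![-(Polynomial.C (α 1) * Polynomial.X) - Polynomial.C (β 1),
    Polynomial.C (α 0) * Polynomial.X + Polynomial.C (β 0)] with hq
  set a : Fin 2 → Polynomial k := ![Polynomial.C (-(δ⁻¹ * α 0)), Polynomial.C (-(δ⁻¹ * α 1))] with ha
  have hbez : ∑ j, a j * q j = 1 := by
    rw [Fin.sum_univ_two, ha, hq]
    simp only [Matrix.cons_val_zero, Matrix.cons_val_one]
    have h1 : Polynomial.C (-(δ⁻¹ * α 0)) * (-(Polynomial.C (α 1) * Polynomial.X) - Polynomial.C (β 1)) +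
        Polynomial.C (-(δ⁻¹ * α 1)) * (Polynomial.C (α 0) * Polynomial.X + Polynomial.C (β 0)) =
        Polynomial.C (δ⁻¹ * (α 0 * β 1 - α 1 * β 0)) := by
      simp only [Polynomial.C_neg, Polynomial.C_mul, Polynomial.C_sub]
      ring
    rw [h1, ← hδ, inv_mul_cancel₀ hαβ, Polynomial.C_1]
  apply (int_relv (D := 1) hg hd hE hx q a hbez S1).subset
  rintro n ⟨c, hc0, hc, hrel⟩
  set l : k := α 0 * (pt g)^[n] x 1 - α 1 * (pt g)^[n] x 0 with hl
  set m : k := (pt g)^[n] x 0 * β 1 - (pt g)^[n] x 1 * β 0 with hm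
  have e0 : δ * (pt g)^[n] x 0 = m * α 0 + l * β 0 := by
    rw [hδ, hm, hl]
    ring
  have e1 : δ * (pt g)^[n] x 1 = m * α 1 + l * β 1 := by
    rw [hδ, hm, hl]
    ring
  have hl0 : l ≠ 0 := by
    intro h0
    rw [h0] at hrel
    rw [Finset.sum_range_succ'] at hrel
    simp only [hc0, pow_zero, mul_one, one_mul, Nat.sub_zero] at hrel
    rw [Finset.sum_eq_zero fun j _ => by rw [pow_succ, mul_zero, mul_zero, zero_mul], zero_add] at hrel
    have hm0 : m = 0 := by
      rcases Nat.eq_zero_or_pos N with hN | hN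
      · subst hN
        simp at hrel
      · exact eq_zero_of_pow_eq_zero hrel
    apply hx0 n
    funext i
    rw [h0, hm0, zero_mul, zero_mul, add_zero] at e0 e1
    fin_cases i
    · exact (mul_eq_zero.1 e0).resolve_left hαβ
    · exact (mul_eq_zero.1 e1).resolve_left hαβ
  refine ⟨m / l, ?_, ?_⟩
  · intro v hv
    rw [hS1, Finset.mem_union, not_or] at hv
    cases v with
    | inl w => exact absurd (Finset.mem_image_of_mem _ (Finset.mem_univ w)) hv.2
    | inr v =>
      apply monic_int v c hc0 (fun j => hc (Sum.inr v) hv.1 j) (N := N)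
      have h1 : l ^ N * ∑ j ∈ Finset.range (N + 1), c j * (m / l) ^ (N - j) = 0 := by
        rw [← hrel, Finset.mul_sum]
        refine Finset.sum_congr rfl fun j hj => ?_
        have hj' : j ≤ N := by
          have := Finset.mem_range.1 hj
          omega
        have h2 : l ^ N = l ^ j * l ^ (N - j) := by
          rw [← pow_add]
          congr 1
          omega
        rw [h2, div_pow]
        field_simp
      exact (mul_eq_zero.1 h1).resolve_left (pow_ne_zero _ hl0)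
  · rw [relv, Fin.sum_univ_two, hq]
    simp only [Matrix.cons_val_zero, Matrix.cons_val_one, Fin.val_zero, Fin.val_one, pow_zero, pow_one,
      one_mul, Nat.sub_zero, Nat.sub_self, mul_one, Polynomial.eval_sub, Polynomial.eval_neg,
      Polynomial.eval_mul, Polynomial.eval_C, Polynomial.eval_X, Polynomial.eval_add]
    apply mul_left_cancel₀ hl0
    rw [mul_zero]
    have h1 : l * ((-(α 1 * (m / l)) - β 1) * (pt g)^[n] x 0 + (α 0 * (m / l) + β 0) * (pt g)^[n] x 1) =
        (α 0 * (pt g)^[n] x 1 - α 1 * (pt g)^[n] x 0) * m -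
          l * ((pt g)^[n] x 0 * β 1 - (pt g)^[n] x 1 * β 0) := by
      field_simp
      ring
    rw [h1, ← hl, ← hm]
    ring

end numberfield

section core

variable {L : Type} [Field L] [CharZero L] [IsAlgClosed L] {d : ℕ}

/-- closed sets which miss a fibre, over algebraically closed fields -/
theorem core_miss (hd : 2 ≤ d)
    {g : Fin 2 → MvPolynomial (Fin 2) L} (hg : ∀ i, (g i).IsHomogeneous d)
    (hg0 : ∀ x : Fin 2 → L, (∀ i, eval x (g i) = 0) → x = 0)
    (hE : ∀ v : Fin 2 → L, v ≠ 0 → ∀ c : L, ¬ ∀ x : Fin 2 → L,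
      v 0 * (evr g)^[2] x 0 + v 1 * (evr g)^[2] x 1 = c * (v 0 * x 0 + v 1 * x 1) ^ d ^ 2)
    {t : Fin 2 → L} {i1 : Fin 2} (ht1 : t i1 = 1)
    (hw : ∀ i j : ℕ, i ≠ j → ∀ c : L, (evr g)^[i] t ≠ c • (evr g)^[j] t)
    (α β : Fin 2 → L) (hαβ : α 0 * β 1 - α 1 * β 0 ≠ 0) (N : ℕ) (T : Set L) (hT : T.Finite) :
    {n | ∃ c : ℕ → L, c 0 = 1 ∧ (∀ j, c j ∈ Algebra.adjoin ℤ T) ∧
      ∑ j ∈ Finset.range (N + 1), c j *
        (α 0 * (evr g)^[n] t 1 - α 1 * (evr g)^[n] t 0) ^ j *
        ((evr g)^[n] t 0 * β 1 - (evr g)^[n] t 1 * β 0) ^ (N - j) = 0}.Finite := by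
  classical
  set δ : L := α 0 * β 1 - α 1 * β 0 with hδ
  obtain ⟨A₀, hTA, g', t', k, hk1, hk2, σ, horb, hgE, hNE, hW⟩ := spec_core hd hg hg0 hE ht1 hw
    (T ∪ (Set.range α ∪ Set.range β ∪ {δ⁻¹})) (hT.union (((Set.finite_range _).union
      (Set.finite_range _)).union (Set.finite_singleton _)))
  have hinj : Function.Injective (algebraMap A₀ L) := Subtype.val_injective
  have hTA' : T ⊆ A₀ := fun c hc => hTA (Or.inl hc)
  obtain ⟨α', hα'⟩ : ∃ α' : Fin 2 → A₀, ∀ i, algebraMap A₀ L (α' i) = α i :=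
    ⟨fun a => ⟨α a, hTA (Or.inr (Or.inl (Or.inl ⟨a, rfl⟩)))⟩, fun _ => rfl⟩
  obtain ⟨β', hβ'⟩ : ∃ β' : Fin 2 → A₀, ∀ i, algebraMap A₀ L (β' i) = β i :=
    ⟨fun a => ⟨β a, hTA (Or.inr (Or.inl (Or.inr ⟨a, rfl⟩)))⟩, fun _ => rfl⟩
  obtain ⟨δ', hδ'⟩ : ∃ δ' : A₀, algebraMap A₀ L δ' = δ⁻¹ :=
    ⟨⟨δ⁻¹, hTA (Or.inr (Or.inr rfl))⟩, rfl⟩
  have hunit : (α' 0 * β' 1 - α' 1 * β' 0) * δ' = 1 := by
    apply hinj
    rw [map_mul, map_sub, map_mul, map_mul, hα', hα', hβ', hβ', hδ', ← hδ, map_one,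
      mul_inv_cancel₀ hαβ]
  have hne : σ (α' 0) * σ (β' 1) - σ (α' 1) * σ (β' 0) ≠ 0 := by
    intro h0
    have h1 := congrArg σ hunit
    rw [map_mul, map_sub, map_mul, map_mul, h0, zero_mul, map_one] at h1
    exact zero_ne_one h1
  set T' : Set A₀ := {a | (a : L) ∈ T} with hT'
  have hT'f : T'.Finite := Set.Finite.preimage Subtype.val_injective.injOn hT
  obtain ⟨S0, hS0⟩ := fg_int σ T' hT'f
  have hfinal := miss_nf hgE hd hNE hW (fun a => σ (α' a)) (fun a => σ (β' a)) hne N S0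
  have horbk : ∀ n, (pt fun i => map σ (g' i))^[n] (fun a => σ (t' a)) =
      fun a => σ ((evr g')^[n] t' a) := fun n => evr_iter_map σ g' t' n
  apply hfinal.subset
  rintro n ⟨c, hc0, hc, hrel⟩
  choose c1 hc1 hc2 using fun j => lift_adjoin hTA' (hc j)
  obtain ⟨c', hc'⟩ : ∃ c' : ℕ → A₀, ∀ j, c' j = if j = 0 then 1 else c1 j := ⟨_, fun _ => rfl⟩
  have hc'1 : ∀ j, c' j ∈ Algebra.adjoin ℤ T' := by
    intro j
    rw [hc']
    by_cases hj : j = 0
    · rw [if_pos hj]
      exact one_mem _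
    · rw [if_neg hj]
      exact hc1 j
  have hc'2 : ∀ j, algebraMap A₀ L (c' j) = c j := by
    intro j
    rw [hc']
    by_cases hj : j = 0
    · rw [if_pos hj, map_one, hj, hc0]
    · rw [if_neg hj]
      exact hc2 j
  refine ⟨fun j => σ (c' j), ?_, fun v hv j => hS0 v hv _ (hc'1 j), ?_⟩
  · change σ (c' 0) = 1
    rw [hc', if_pos rfl, map_one]
  · rw [horbk]
    have h1 : ∑ j ∈ Finset.range (N + 1), c' j *
        (α' 0 * (evr g')^[n] t' 1 - α' 1 * (evr g')^[n] t' 0) ^ j *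
        ((evr g')^[n] t' 0 * β' 1 - (evr g')^[n] t' 1 * β' 0) ^ (N - j) = 0 := by
      apply hinj
      rw [map_zero, ← hrel, map_sum]
      refine Finset.sum_congr rfl fun j _ => ?_
      have e0 := congrFun (horb n) 0
      have e1 := congrFun (horb n) 1
      simp only [map_mul, map_pow, map_sub, hα', hβ', hc'2, e0, e1]
    have h2 := congrArg σ h1
    rw [map_sum, map_zero] at h2
    rw [← h2]
    refine Finset.sum_congr rfl fun j _ => ?_
    simp only [map_mul, map_pow, map_sub]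

end core

end Pool.Agent.H422.SK
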