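import Mathlib
import Pool.Agent.H422.SK.SpecC
import Pool.Agent.H422.SK.Gen

set_option autoImplicit false
set_option linter.unusedSectionVars false

/-!
Closed sets of any dimension which miss a fibre.
-/

namespace Pool.Agent.H422.SK

open MvPolynomial
open Pool.Agent.Q170.HG (pt IsEndo)

variable {K : Type} [Field K] [CharZero K] {d M : ℕ} {g : Fin 2 → MvPolynomial (Fin 2) K}

/-- homogeneity in the first two variables, for points over a larger field -/
lemma wh_aeval_smul {L : Type} [Field L] [Algebra K L] {p : ℕ} {F : MvPolynomial (Fin 2 ⊕ Fin M) K}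
    (hF : IsWeightedHomogeneous (Sum.elim (fun _ : Fin 2 => (1 : ℕ)) (fun _ : Fin M => (0 : ℕ))) F p)
    (c : L) (x : Fin 2 → L) (u : Fin M → L) :
    aeval (Sum.elim (c • x) u) F = c ^ p * aeval (Sum.elim x u) F := by
  classical
  have hF' : IsWeightedHomogeneous (Sum.elim (fun _ : Fin 2 => (1 : ℕ)) (fun _ : Fin M => (0 : ℕ)))
      (map (algebraMap K L) F) p := by
    intro m hm
    rw [coeff_map] at hm
    exact hF fun h => hm (by rw [h, map_zero])
  have h1 := wh_smul hF' c x u
  rw [eval_map, eval_map] at h1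
  rw [aeval_def, aeval_def]
  exact h1

/-- Nullstellensatz: no common zeros -/
lemma nss_one {L : Type} [Field L] [IsAlgClosed L] {n : ℕ} (I : Ideal (MvPolynomial (Fin n) L))
    (h : ∀ x : Fin n → L, ∃ p ∈ I, eval x p ≠ 0) : (1 : MvPolynomial (Fin n) L) ∈ I := by
  have h2 : (1 : MvPolynomial (Fin n) L) ∈ I.radical := by
    rw [← vanishingIdeal_zeroLocus_eq_radical (K := L), mem_vanishingIdeal_iff]
    intro y hy
    rw [mem_zeroLocus_iff] at hy
    obtain ⟨p, hp, hpy⟩ := h y
    have h3 := hy p hp
    rw [aeval_eq_eval] at h3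
    exact absurd h3 hpy
  obtain ⟨N, hN⟩ := h2
  rwa [one_pow] at hN

/-- the restriction of an equation to the line through two points -/
noncomputable def lin {L : Type} [Field L] [Algebra K L] (α β : Fin 2 → L)
    (F : MvPolynomial (Fin 2 ⊕ Fin M) K) : Polynomial (MvPolynomial (Fin M) L) :=
  aeval (Sum.elim (fun i => Polynomial.C (C (α i)) + Polynomial.X * Polynomial.C (C (β i)))
    fun j => Polynomial.C (X j)) F

lemma lin_zero {L : Type} [Field L] [Algebra K L] (α β : Fin 2 → L)
    (F : MvPolynomial (Fin 2 ⊕ Fin M) K) :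
    (lin α β F).coeff 0 = aeval (Sum.elim (fun i => C (α i)) fun j => X j) F := by
  rw [Polynomial.coeff_zero_eq_eval_zero, lin]
  have h3 : ∀ Q : MvPolynomial (Fin 2 ⊕ Fin M) K, Polynomial.eval 0
      (aeval (Sum.elim (fun i => Polynomial.C (C (α i)) + Polynomial.X * Polynomial.C (C (β i)))
        fun j => Polynomial.C (X j)) Q : Polynomial (MvPolynomial (Fin M) L)) =
      aeval (Sum.elim (fun i => C (α i)) fun j => X j) Q := by
    intro Q
    induction Q using MvPolynomial.induction_on with
    | C a =>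
      simp only [algHom_C]
      rw [IsScalarTower.algebraMap_apply K (MvPolynomial (Fin M) L)
        (Polynomial (MvPolynomial (Fin M) L)), Polynomial.algebraMap_eq, Polynomial.eval_C]
    | add a b ha hb => rw [map_add, Polynomial.eval_add, ha, hb, map_add]
    | mul_X a i ha =>
      rw [map_mul, Polynomial.eval_mul, ha, map_mul, aeval_X, aeval_X]
      congr 1
      rcases i with i | i
      · simp
      · simp
  exact h3 F

lemma lin_eval {L : Type} [Field L] [Algebra K L] (α β : Fin 2 → L)
    (F : MvPolynomial (Fin 2 ⊕ Fin M) K) (u : Fin M → L) (ε : L) :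
    ((lin α β F).map (eval u)).eval ε = aeval (Sum.elim (fun i => α i + ε * β i) u) F := by
  rw [lin]
  induction F using MvPolynomial.induction_on with
  | C a =>
    simp only [algHom_C]
    rw [IsScalarTower.algebraMap_apply K (MvPolynomial (Fin M) L)
      (Polynomial (MvPolynomial (Fin M) L)), Polynomial.algebraMap_eq, Polynomial.map_C,
      Polynomial.eval_C, IsScalarTower.algebraMap_apply K L (MvPolynomial (Fin M) L),
      MvPolynomial.algebraMap_eq, eval_C]
  | add a b ha hb => rw [map_add, Polynomial.map_add, Polynomial.eval_add, ha, hb, map_add]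
  | mul_X a i ha =>
    rw [map_mul, Polynomial.map_mul, Polynomial.eval_mul, ha, map_mul, aeval_X, aeval_X]
    congr 1
    rcases i with i | i
    · simp only [Sum.elim_inl, Polynomial.map_add, Polynomial.map_mul, Polynomial.map_C, Polynomial.map_X,
        Polynomial.eval_add, Polynomial.eval_mul, Polynomial.eval_C, Polynomial.eval_X, eval_C]
    · simp

/-- **Closed sets of any dimension which miss a fibre.** -/
theorem miss_any (hg : IsEndo d g) (hd : 2 ≤ d) (hE : NoExcept d g) {x : Fin 2 → K} (hx : Wander g x)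
    {W : Set (MvPolynomial (Fin 2 ⊕ Fin M) K)}
    (hW : ∀ F ∈ W, ∃ p : ℕ, IsWeightedHomogeneous
      (Sum.elim (fun _ : Fin 2 => (1 : ℕ)) (fun _ : Fin M => (0 : ℕ))) F p)
    (α : Fin 2 → AlgebraicClosure K) (hα : α ≠ 0)
    (hmiss : ∀ u : Fin M → AlgebraicClosure K, ∃ F ∈ W, aeval (Sum.elim α u) F ≠ 0)
    (T : Set K) (hT : T.Finite) :
    {n | ∃ u : Fin M → K, (∀ i, u i ∈ Algebra.adjoin ℤ T) ∧ Eqs W ((pt g)^[n] x) u}.Finite := by
  classical
  have hx0 : ∀ n, (pt g)^[n] x ≠ 0 := wander_ne' hg.1 hd hx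
  -- normalization of the point
  obtain ⟨i1, hi1⟩ : ∃ i, x i ≠ 0 := by
    by_contra hcon
    push Not at hcon
    exact hx0 0 (funext hcon)
  set c0 : K := (x i1)⁻¹ with hc0
  have hc0' : c0 ≠ 0 := inv_ne_zero hi1
  set t : Fin 2 → K := c0 • x with ht
  have hwt : Wander g t := wander_smul_any hg.1 hx hc0'
  have ht0 : ∀ n, (pt g)^[n] t ≠ 0 := wander_ne' hg.1 hd hwt
  -- the larger field
  set σ : K →+* AlgebraicClosure K := algebraMap K (AlgebraicClosure K) with hσ
  have hσi : Function.Injective σ := σ.injective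
  set gL : Fin 2 → MvPolynomial (Fin 2) (AlgebraicClosure K) := fun i => map σ (g i) with hgL
  have horb : ∀ n, (evr gL)^[n] (fun a => σ (t a)) = fun a => σ ((pt g)^[n] t a) :=
    fun n => evr_iter_map σ g t n
  have hev : ∀ {n : ℕ} (p : MvPolynomial (Fin n) K) (y : Fin n → AlgebraicClosure K),
      aeval y p = eval y (map σ p) := by
    intro n p y
    rw [aeval_def, ← eval_map]
  have b1 : ∀ i, (gL i).IsHomogeneous d := fun i => (hg.1 i).map σ
  have b2 : ∀ y : Fin 2 → AlgebraicClosure K, (∀ i, eval y (gL i) = 0) → y = 0 := by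
    intro y hy
    exact hg.2 y fun i => by
      rw [hev]
      exact hy i
  have hevg : (ev g : (Fin 2 → AlgebraicClosure K) → _) = evr gL := by
    funext y a
    exact hev _ _
  have b3 : ∀ v : Fin 2 → AlgebraicClosure K, v ≠ 0 → ∀ c : AlgebraicClosure K,
      ¬ ∀ y : Fin 2 → AlgebraicClosure K,
      v 0 * (evr gL)^[2] y 0 + v 1 * (evr gL)^[2] y 1 = c * (v 0 * y 0 + v 1 * y 1) ^ d ^ 2 := by
    intro v hv c hid
    rw [← hevg] at hid
    exact hE v c hv hid
  have b6 : σ (t i1) = 1 := by
    rw [ht, Pi.smul_apply, smul_eq_mul, hc0, inv_mul_cancel₀ hi1, map_one]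
  have b7 : ∀ i j : ℕ, i ≠ j → ∀ c : AlgebraicClosure K,
      (evr gL)^[i] (fun a => σ (t a)) ≠ c • (evr gL)^[j] fun a => σ (t a) := by
    intro i j hij c hc
    rw [horb, horb] at hc
    obtain ⟨b, hb⟩ : ∃ b, (pt g)^[j] t b ≠ 0 := by
      by_contra hcon
      push Not at hcon
      exact ht0 j (funext hcon)
    have h1 := congrFun hc b
    rw [Pi.smul_apply, smul_eq_mul] at h1
    have h2 : c = σ ((pt g)^[i] t b / (pt g)^[j] t b) := by
      rw [map_div₀, eq_div_iff ((map_ne_zero _).2 hb)]
      exact h1.symm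
    apply hwt i j hij ((pt g)^[i] t b / (pt g)^[j] t b)
    funext a
    apply hσi
    have h3 := congrFun hc a
    rw [Pi.smul_apply, smul_eq_mul, h2, ← map_mul] at h3
    exact h3
  have b8 : ∀ n, (fun a => σ ((pt g)^[n] t a)) ≠ 0 := by
    intro n h0
    apply ht0 n
    funext a
    apply hσi
    rw [Pi.zero_apply, map_zero]
    exact congrFun h0 a
  -- the second point
  obtain ⟨β, hαβ⟩ : ∃ β : Fin 2 → AlgebraicClosure K, α 0 * β 1 - α 1 * β 0 ≠ 0 := by
    by_cases h0 : α 0 = 0
    · refine ⟨![1, 0], ?_⟩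
      have h1 : α 1 ≠ 0 := by
        intro h1
        apply hα
        funext i
        fin_cases i
        · exact h0
        · exact h1
      simpa [h0] using h1
    · exact ⟨![0, 1], by simpa using h0⟩
  set δ := α 0 * β 1 - α 1 * β 0 with hδ
  have hβ : β ≠ 0 := by
    rintro rfl
    simp [hδ] at hαβ
  -- the certificate
  obtain ⟨a, ha⟩ : ∃ a : W →₀ MvPolynomial (Fin M) (AlgebraicClosure K),
      (a.sum fun F b => b * aeval (Sum.elim (fun i => C (α i)) fun j => X j) F.1) = 1 := by
    have h1 := nss_one (Ideal.span (Set.range fun F : W =>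
      (aeval (Sum.elim (fun i => C (α i)) fun j => X j) F.1 :
        MvPolynomial (Fin M) (AlgebraicClosure K)))) (fun u => by
      obtain ⟨F, hF, hFu⟩ := hmiss u
      refine ⟨_, Ideal.subset_span ⟨⟨F, hF⟩, rfl⟩, ?_⟩
      have h2 : ∀ Q : MvPolynomial (Fin 2 ⊕ Fin M) K,
          eval u (aeval (Sum.elim (fun i => C (α i)) fun j => X j) Q) = aeval (Sum.elim α u) Q := by
        intro Q
        induction Q using MvPolynomial.induction_on with
        | C b =>
          simp only [algHom_C]
          rw [IsScalarTower.algebraMap_apply K (AlgebraicClosure K)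
            (MvPolynomial (Fin M) (AlgebraicClosure K)), MvPolynomial.algebraMap_eq, eval_C]
        | add b c hb hc => rw [map_add, map_add, hb, hc, map_add]
        | mul_X b i hb =>
          rw [map_mul, map_mul, hb, map_mul, aeval_X, aeval_X]
          congr 1
          rcases i with i | i
          · simp
          · simp
      change eval u (aeval (Sum.elim (fun i => C (α i)) fun j => X j) F) ≠ 0
      rw [h2]
      exact hFu)
    exact Finsupp.mem_ideal_span_range_iff_exists_finsupp.mp h1
  set Ψ : Polynomial (MvPolynomial (Fin M) (AlgebraicClosure K)) :=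
    a.sum fun F b => Polynomial.C b * lin α β F.1 with hΨ
  have hΨ0 : Ψ.coeff 0 = 1 := by
    rw [hΨ, Finsupp.sum, Polynomial.finsetSum_coeff, ← ha, Finsupp.sum]
    refine Finset.sum_congr rfl fun F _ => ?_
    rw [Polynomial.coeff_C_mul, lin_zero]
  set N : ℕ := Ψ.natDegree with hN
  set T1 : Set (AlgebraicClosure K) := σ '' T ∪ ⋃ j ∈ Finset.range (N + 1), ((Ψ.coeff j).coeffs : Set _)
    with hT1
  have hT1f : T1.Finite := (hT.image σ).union
    (Set.Finite.biUnion (Finset.finite_toSet _) fun j _ => Finset.finite_toSet _)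
  have hfinal := core_miss hd (g := gL) b1 b2 b3 (t := fun a => σ (t a)) b6 b7 α β hαβ N T1 hT1f
  have f2 : {n | σ ((pt g)^[n] t 0) * β 1 - σ ((pt g)^[n] t 1) * β 0 = 0}.Finite := by
    apply Set.Subsingleton.finite
    intro i hi j hj
    by_contra hij
    obtain ⟨c, hc, h1⟩ := cross (b8 i) hβ (sub_eq_zero.1 hi)
    obtain ⟨c', hc', h2⟩ := cross (b8 j) hβ (sub_eq_zero.1 hj)
    apply b7 i j hij (c * c'⁻¹)
    rw [horb, horb, h1, h2, mul_smul, inv_smul_smul₀ hc']
  apply (hfinal.union f2).subset
  rintro n ⟨u, hu, hn⟩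
  by_cases hm0 : σ ((pt g)^[n] t 0) * β 1 - σ ((pt g)^[n] t 1) * β 0 = 0
  · exact Or.inr hm0
  left
  set uL : Fin M → AlgebraicClosure K := fun i => σ (u i) with huL
  have hcoef : ∀ j, eval uL (Ψ.coeff j) ∈ Algebra.adjoin ℤ T1 := by
    intro j
    by_cases hj : j < N + 1
    · rw [eval_eq']
      refine sum_mem fun μ hμ => mul_mem ?_ (prod_mem fun i _ => pow_mem ?_ _)
      · apply Algebra.subset_adjoin
        rw [hT1]
        right
        rw [Set.mem_iUnion₂]
        exact ⟨j, Finset.mem_range.2 hj, coeff_mem_coeffs μ (mem_support_iff.1 hμ)⟩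
      · exact Algebra.adjoin_mono Set.subset_union_left (adjoin_map σ T (hu i))
    · rw [Polynomial.coeff_eq_zero_of_natDegree_lt (by omega), map_zero]
      exact zero_mem _
  refine ⟨fun j => eval uL (Ψ.coeff j), ?_, hcoef, ?_⟩
  · change eval uL (Ψ.coeff 0) = 1
    rw [hΨ0, map_one]
  · have e1 := horb n
    rw [e1]
    set l := α 0 * σ ((pt g)^[n] t 1) - α 1 * σ ((pt g)^[n] t 0) with hl
    set m := σ ((pt g)^[n] t 0) * β 1 - σ ((pt g)^[n] t 1) * β 0 with hm
    have hpt : (fun i => α i + l / m * β i) = (δ / m) • fun a => σ ((pt g)^[n] t a) := by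
      funext i
      rw [Pi.smul_apply, smul_eq_mul]
      apply mul_left_cancel₀ hm0
      have h1 : m * (α i + l / m * β i) = m * α i + l * β i := by
        field_simp
      have h2 : m * (δ / m * σ ((pt g)^[n] t i)) = δ * σ ((pt g)^[n] t i) := by
        field_simp
      rw [h1, h2, hδ, hm, hl]
      fin_cases i
      · simp only [Fin.zero_eta, Fin.isValue]
        ring
      · simp only [Fin.mk_one, Fin.isValue]
        ring
    have hval : (Ψ.map (eval uL)).eval (l / m) = 0 := by
      rw [hΨ, Finsupp.sum, Polynomial.map_sum, Polynomial.eval_finsetSum]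
      refine Finset.sum_eq_zero fun F _ => ?_
      rw [Polynomial.map_mul, Polynomial.eval_mul, lin_eval, hpt]
      obtain ⟨p, hp⟩ := hW F.1 F.2
      rw [wh_aeval_smul hp]
      have h1 : aeval (Sum.elim (fun a => σ ((pt g)^[n] t a)) uL) F.1 = 0 := by
        have h2 : (Sum.elim (fun a => σ ((pt g)^[n] t a)) uL) =
            algebraMap K (AlgebraicClosure K) ∘ Sum.elim ((pt g)^[n] t) u := by
          funext q
          rcases q with q | q
          · rfl
          · rfl
        rw [h2, aeval_algebraMap_apply, aeval_eq_eval]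
        have h3 : eval (Sum.elim ((pt g)^[n] t) u) F.1 = 0 := by
          have h0 : (pt g)^[n] t = c0 ^ d ^ n • (pt g)^[n] x := iter_smul_any hg.1 c0 x n
          rw [h0, wh_smul hp, hn F.1 F.2, mul_zero]
        rw [h3, map_zero]
      rw [h1, mul_zero, mul_zero]
    rw [Polynomial.eval_map, Polynomial.eval₂_eq_sum_range] at hval
    have h5 : ∑ j ∈ Finset.range (N + 1), eval uL (Ψ.coeff j) * l ^ j * m ^ (N - j) =
        m ^ N * ∑ j ∈ Finset.range (N + 1), eval uL (Ψ.coeff j) * (l / m) ^ j := by
      rw [Finset.mul_sum]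
      refine Finset.sum_congr rfl fun j hj => ?_
      have hj' : j ≤ N := by
        have := Finset.mem_range.1 hj
        omega
      have h2 : m ^ N = m ^ j * m ^ (N - j) := by
        rw [← pow_add]
        congr 1
        omega
      rw [h2, div_pow]
      field_simp
    rw [h5, hval, mul_zero]

end Pool.Agent.H422.SK
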