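import Mathlib
import Pool.Agent.H422.SK.Miss

set_option autoImplicit false
set_option linter.unusedSectionVars false

/-!
The product of a rational function without exceptional points and a rational function with an exceptional
point.
-/

namespace Pool.Agent.H422.SK

open MvPolynomial
open Pool.Agent.Q170.HG (pt IsEndo)

section up

variable {K : Type} [Field K] {d : ℕ}

/-- a point over the algebraic closure of an algebraically closed field -/
lemma lift_pt {L : Type} [Field L] [IsAlgClosed L] {n : ℕ} (y : Fin n → AlgebraicClosure L) :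
    ∃ z : Fin n → L, y = fun i => algebraMap L (AlgebraicClosure L) (z i) := by
  have h := IsAlgClosed.algebraMap_bijective_of_isIntegral (k := L) (K := AlgebraicClosure L)
  choose z hz using fun i => h.2 (y i)
  exact ⟨z, funext fun i => (hz i).symm⟩

lemma up_ev {L : Type} [Field L] [Algebra K L] {n : ℕ} (p : MvPolynomial (Fin n) K) (y : Fin n → L) :
    aeval y p = eval y (map (algebraMap K L) p) := by
  rw [aeval_def, ← eval_map]

lemma up_endo {n : ℕ} {g : Fin n → MvPolynomial (Fin n) K} (hg : IsEndo d g) :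
    IsEndo d fun i => map (algebraMap K (AlgebraicClosure K)) (g i) := by
  refine ⟨fun i => (hg.1 i).map _, fun y hy => ?_⟩
  obtain ⟨z, rfl⟩ := lift_pt y
  have h1 : z = 0 := hg.2 z fun i => by
    have h2 := hy i
    have h3 := aeval_algebraMap_apply (AlgebraicClosure (AlgebraicClosure K)) z
      (map (algebraMap K (AlgebraicClosure K)) (g i))
    have h4 : algebraMap (AlgebraicClosure K) (AlgebraicClosure (AlgebraicClosure K))
        (aeval z (map (algebraMap K (AlgebraicClosure K)) (g i))) = 0 := h3.symm.trans h2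
    rw [map_eq_zero, aeval_eq_eval] at h4
    rw [up_ev]
    exact h4
  rw [h1]
  funext i
  simp

lemma up_noexc {g : Fin 2 → MvPolynomial (Fin 2) K} (hE : NoExcept d g) :
    NoExcept d fun i => map (algebraMap K (AlgebraicClosure K)) (g i) := by
  intro v c hv h
  set L := AlgebraicClosure K with hL
  set gL : Fin 2 → MvPolynomial (Fin 2) L := fun i => map (algebraMap K L) (g i) with hgL
  obtain ⟨v', rfl⟩ := lift_pt v
  obtain ⟨c', rfl⟩ := (IsAlgClosed.algebraMap_bijective_of_isIntegral (k := L)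
    (K := AlgebraicClosure L)).2 c
  apply hE v' c'
  · rintro rfl
    apply hv
    funext i
    simp
  · intro x
    have h1 := h fun i => algebraMap L (AlgebraicClosure L) (x i)
    have h2 : (ev gL)^[2] (fun i => algebraMap L (AlgebraicClosure L) (x i)) =
        fun i => algebraMap L (AlgebraicClosure L) ((ev g)^[2] x i) := by
      have h3 := ev_map (k := L) (Algebra.ofId L (AlgebraicClosure L)) gL x 2
      have h4 : (ev gL : (Fin 2 → L) → _) = ev g := by
        funext y a
        rw [ev, ev, up_ev (g a), aeval_eq_eval]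
      rw [h4] at h3
      exact h3.symm
    rw [h2] at h1
    apply (algebraMap L (AlgebraicClosure L)).injective
    simpa only [map_add, map_mul, map_pow] using h1

end up

section wanderup

variable {K : Type} [Field K] {e : ℕ} {h : Fin 2 → MvPolynomial (Fin 2) K}

lemma pt_zero1 (hh : ∀ i, (h i).IsHomogeneous e) (he : 1 ≤ e) : pt h 0 = 0 :=
  evr_zero (by omega) hh

lemma wander_ne1 (hh : ∀ i, (h i).IsHomogeneous e) (he : 1 ≤ e) {y : Fin 2 → K} (hy : Wander h y)
    (n : ℕ) : (pt h)^[n] y ≠ 0 := by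
  intro h0
  apply hy (n + 1) n (by omega) 0
  rw [Function.iterate_succ_apply', h0, pt_zero1 hh he, zero_smul]

lemma wander_seq (hh : ∀ i, (h i).IsHomogeneous e) (he : 1 ≤ e) {y : Fin 2 → K} (hy : Wander h y)
    {L : Type} [Field L] (σ : K →+* L) (i j : ℕ) (hij : i ≠ j) (c : L) :
    (fun a => σ ((pt h)^[i] y a)) ≠ c • fun a => σ ((pt h)^[j] y a) := by
  intro hc
  obtain ⟨a, ha⟩ : ∃ a, (pt h)^[j] y a ≠ 0 := by
    by_contra hcon
    push Not at hcon
    exact wander_ne1 hh he hy j (funext hcon)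
  have ha' : σ ((pt h)^[j] y a) ≠ 0 := (map_ne_zero _).2 ha
  have h1 : c = σ ((pt h)^[i] y a / (pt h)^[j] y a) := by
    have h2 := congrFun hc a
    rw [Pi.smul_apply, smul_eq_mul] at h2
    rw [map_div₀, h2, mul_div_cancel_right₀ _ ha']
  apply hy i j hij ((pt h)^[i] y a / (pt h)^[j] y a)
  funext b
  apply σ.injective
  have h2 := congrFun hc b
  rw [Pi.smul_apply, smul_eq_mul, h1] at h2
  rw [h2, Pi.smul_apply, smul_eq_mul, map_mul]

lemma wh_map {K L : Type} [Field K] [Field L] (σ : K →+* L) {τ : Type} {w : τ → ℕ}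
    {F : MvPolynomial τ K} {p : ℕ} (hF : IsWeightedHomogeneous w F p) :
    IsWeightedHomogeneous w (map σ F) p := by
  intro m hm
  apply hF
  intro h0
  apply hm
  rw [coeff_map, h0, map_zero]

end wanderup

section main

variable {K : Type} [Field K] [CharZero K] {d e : ℕ} {g h : Fin 2 → MvPolynomial (Fin 2) K}

lemma perp {L : Type} [Field L] {v z w : Fin 2 → L} (hv : v ≠ 0) (hw : w ≠ 0)
    (h1 : v 0 * z 0 + v 1 * z 1 = 0) (h2 : v 0 * w 0 + v 1 * w 1 = 0) : ∃ c : L, z = c • w := by
  have h3 : z 0 * w 1 = z 1 * w 0 := by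
    by_cases h0 : v 0 = 0
    · have h4 : v 1 ≠ 0 := by
        intro h4
        apply hv
        funext i
        fin_cases i
        · exact h0
        · exact h4
      rw [h0, zero_mul, zero_add] at h1 h2
      rw [(mul_eq_zero.1 h1).resolve_left h4, (mul_eq_zero.1 h2).resolve_left h4, zero_mul, mul_zero]
    · have h4 : v 0 * (z 0 * w 1 - z 1 * w 0) = 0 := by linear_combination w 1 * h1 - z 1 * h2
      exact sub_eq_zero.1 ((mul_eq_zero.1 h4).resolve_left h0)
  by_cases h0 : w 0 = 0
  · have h4 : w 1 ≠ 0 := by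
      intro h4
      apply hw
      funext i
      fin_cases i
      · exact h0
      · exact h4
    refine ⟨z 1 / w 1, ?_⟩
    rw [h0, mul_zero] at h3
    funext i
    fin_cases i
    · simp [(mul_eq_zero.1 h3).resolve_right h4, h0]
    · simp [div_mul_cancel₀ _ h4]
  · refine ⟨z 0 / w 0, ?_⟩
    funext i
    fin_cases i
    · simp [div_mul_cancel₀ _ h0]
    · simp only [Fin.mk_one, Fin.isValue, Pi.smul_apply, smul_eq_mul]
      field_simp
      linear_combination -h3

/-- the second orbit in a coordinate in which it is integral -/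
lemma exc_alg {L : Type} [Field L] [Algebra K L] (hh : ∀ i, (h i).IsHomogeneous e) (he : 1 ≤ e)
    {v : Fin 2 → L} {c : L} (hv : v ≠ 0)
    (hid : ∀ z : Fin 2 → L, v 0 * (ev h)^[2] z 0 + v 1 * (ev h)^[2] z 1 =
      c * (v 0 * z 0 + v 1 * z 1) ^ e ^ 2) (Y : ℕ → Fin 2 → L)
    (hY2 : ∀ n, Y (n + 2) = (ev h)^[2] (Y n)) (hYw : ∀ i j : ℕ, i ≠ j → ∀ c : L, Y i ≠ c • Y j) :
    ∃ (a b : Fin 2 → L) (α U : ℕ → L) (T : Set L), T.Finite ∧ (∀ n, α n ≠ 0) ∧
      (∀ n, Y n = α n • fun i => a i + b i * U n) ∧ (∀ n, U n ∈ Algebra.adjoin ℤ T) ∧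
      (∀ i j, i ≠ j → U i ≠ U j) ∧
      ∀ z : Fin 2 → L, v 0 * z 0 + v 1 * z 1 ≠ 0 →
        ∃ u, z = (v 0 * z 0 + v 1 * z 1) • fun i => a i + b i * u := by
  classical
  have hY0 : ∀ n, Y n ≠ 0 := by
    intro n h0
    apply hYw n (n + 1) (by omega) 0
    rw [h0, zero_smul]
  set α : ℕ → L := fun n => v 0 * Y n 0 + v 1 * Y n 1 with hα
  have hα2 : ∀ n, α (n + 2) = c * α n ^ e ^ 2 := by
    intro n
    rw [hα]
    dsimp only
    rw [hY2, hid]
  have hα0 : ∀ n, α n ≠ 0 := by
    intro n h0
    have h1 : α (n + 2) = 0 := by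
      rw [hα2, h0, zero_pow (by positivity), mul_zero]
    obtain ⟨s, hs⟩ := perp hv (hY0 n) h1 h0
    exact hYw (n + 2) n (by omega) s hs
  have hc : c ≠ 0 := by
    rintro rfl
    apply hα0 2
    rw [show (2 : ℕ) = 0 + 2 from rfl, hα2, zero_mul]
  obtain ⟨w, hw⟩ := exists_compl hv
  set D : L := v 0 * w 1 - v 1 * w 0 with hD
  set a : Fin 2 → L := ![w 1 / D, -w 0 / D] with ha
  set b : Fin 2 → L := ![-v 1 / D, v 0 / D] with hb
  set β : ℕ → L := fun n => w 0 * Y n 0 + w 1 * Y n 1 with hβ
  have hdec : ∀ z : Fin 2 → L, z = (v 0 * z 0 + v 1 * z 1) • a + (w 0 * z 0 + w 1 * z 1) • b := by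
    intro z
    funext i
    fin_cases i
    · simp only [ha, hb, Fin.zero_eta, Fin.isValue, Pi.add_apply, Pi.smul_apply,
        Matrix.cons_val_zero, smul_eq_mul]
      field_simp
      rw [hD]
      ring
    · simp only [ha, hb, Fin.mk_one, Fin.isValue, Pi.add_apply, Pi.smul_apply,
        Matrix.cons_val_one, Matrix.cons_val_fin_one, smul_eq_mul]
      field_simp
      rw [hD]
      ring
  have hdec2 : ∀ z : Fin 2 → L, v 0 * z 0 + v 1 * z 1 ≠ 0 →
      z = (v 0 * z 0 + v 1 * z 1) •
        fun i => a i + b i * ((w 0 * z 0 + w 1 * z 1) / (v 0 * z 0 + v 1 * z 1)) := by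
    intro z hz
    conv_lhs => rw [hdec z]
    funext i
    simp only [Pi.add_apply, Pi.smul_apply, smul_eq_mul]
    field_simp
  set U : ℕ → L := fun n => β n / α n with hU
  have hYU : ∀ n, Y n = α n • fun i => a i + b i * U n := fun n => hdec2 (Y n) (hα0 n)
  -- the polynomial
  set z0 : Fin 2 → Polynomial L := fun i => Polynomial.C (a i) + Polynomial.C (b i) * Polynomial.X with hz0
  set p0 : Polynomial L := Polynomial.C (w 0) * (ev h)^[2] z0 0 + Polynomial.C (w 1) * (ev h)^[2] z0 1 with hp0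
  have hp0e : ∀ t : L, p0.eval t = w 0 * (ev h)^[2] (fun i => a i + b i * t) 0 +
      w 1 * (ev h)^[2] (fun i => a i + b i * t) 1 := by
    intro t
    have h1 := ev_map (k := K) ((Polynomial.aeval t : Polynomial L →ₐ[L] L).restrictScalars K) h z0 2
    have h2 : (fun i => ((Polynomial.aeval t : Polynomial L →ₐ[L] L).restrictScalars K) (z0 i)) =
        fun i => a i + b i * t := by
      funext i
      simp [hz0]
    rw [h2] at h1
    have h3 : ∀ i, ((ev h)^[2] z0 i).eval t = (ev h)^[2] (fun i => a i + b i * t) i := by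
      intro i
      rw [← h1]
      simp
    rw [hp0]
    simp only [Polynomial.eval_add, Polynomial.eval_mul, Polynomial.eval_C, h3]
  set P : Polynomial L := Polynomial.C c⁻¹ * p0 with hP
  have hU2 : ∀ n, U (n + 2) = P.eval (U n) := by
    intro n
    have h1 : Y (n + 2) = α n ^ e ^ 2 • (ev h)^[2] fun i => a i + b i * U n := by
      rw [hY2]
      conv_lhs => rw [hYU n]
      exact ev_smul hh _ _ 2
    have h2 : β (n + 2) = α n ^ e ^ 2 * p0.eval (U n) := by
      rw [hp0e, hβ]
      dsimp only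
      rw [h1]
      simp only [Pi.smul_apply, smul_eq_mul]
      ring
    have h3 : U (n + 2) = β (n + 2) / α (n + 2) := rfl
    rw [h3, h2, hα2, hP, Polynomial.eval_mul, Polynomial.eval_C]
    have h4 : α n ^ e ^ 2 ≠ 0 := pow_ne_zero _ (hα0 n)
    field_simp
  set T : Set L := (P.coeffs : Set L) ∪ {U 0, U 1} with hT
  have hmem : ∀ z ∈ Algebra.adjoin ℤ T, P.eval z ∈ Algebra.adjoin ℤ T := by
    intro z hz
    rw [Polynomial.eval_eq_sum, Polynomial.sum_def]
    refine sum_mem fun n hn => mul_mem ?_ (pow_mem hz n)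
    exact Algebra.subset_adjoin (Or.inl (Polynomial.coeff_mem_coeffs (Polynomial.mem_support_iff.1 hn)))
  have hall : ∀ n, U n ∈ Algebra.adjoin ℤ T ∧ U (n + 1) ∈ Algebra.adjoin ℤ T := by
    intro n
    induction n with
    | zero =>
      exact ⟨Algebra.subset_adjoin (Or.inr (Or.inl rfl)), Algebra.subset_adjoin (Or.inr (Or.inr rfl))⟩
    | succ n ih =>
      refine ⟨ih.2, ?_⟩
      rw [show n + 1 + 1 = n + 2 from rfl, hU2]
      exact hmem _ ih.1
  refine ⟨a, b, α, U, T, (Finset.finite_toSet _).union (Set.toFinite _), hα0, hYU,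
    fun n => (hall n).1, fun i j hij hc' => ?_, fun z hz => ⟨_, hdec2 z hz⟩⟩
  apply hYw i j hij (α i / α j)
  have h5 := hα0 j
  rw [hYU i, hYU j, hc', smul_smul, div_mul_cancel₀ _ h5]

/-- **Both points are wandering.** -/
theorem exc_finite (hg : IsEndo d g) (hd : 2 ≤ d) (hE : NoExcept d g) (he : 1 ≤ e) (hh : IsEndo e h)
    (hex : ¬ NoExcept e h) {x y : Fin 2 → K} (hx : Wander g x) (hy : Wander h y)
    (F : MvPolynomial (Fin 2 ⊕ Fin 2) K) (hF0 : F ≠ 0)
    (hF1 : ∃ p : ℕ, IsWeightedHomogeneous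
      (Sum.elim (fun _ : Fin 2 => (1 : ℕ)) (fun _ : Fin 2 => (0 : ℕ))) F p)
    (hF2 : ∃ p : ℕ, IsWeightedHomogeneous
      (Sum.elim (fun _ : Fin 2 => (0 : ℕ)) (fun _ : Fin 2 => (1 : ℕ))) F p) :
    {n | eval (Sum.elim ((pt g)^[n] x) ((pt h)^[n] y)) F = 0}.Finite := by
  classical
  obtain ⟨p, hp⟩ := hF1
  obtain ⟨q, hq⟩ := hF2
  have hinj : Function.Injective (algebraMap K (AlgebraicClosure K)) :=
    (algebraMap K (AlgebraicClosure K)).injective
  have : CharZero (AlgebraicClosure K) := charZero_of_injective_algebraMap hinj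
  -- the exceptional point
  obtain ⟨v, c, hv, hid⟩ : ∃ (v : Fin 2 → AlgebraicClosure K) (c : AlgebraicClosure K), v ≠ 0 ∧
      ∀ z : Fin 2 → AlgebraicClosure K,
      v 0 * (ev h)^[2] z 0 + v 1 * (ev h)^[2] z 1 = c * (v 0 * z 0 + v 1 * z 1) ^ e ^ 2 := by
    by_contra hcon
    push Not at hcon
    apply hex
    intro v c hv hall
    obtain ⟨z, hz⟩ := hcon v c hv
    exact hz (hall z)
  have hYit : ∀ n, (fun i => algebraMap K (AlgebraicClosure K) ((pt h)^[n] y i)) =
      (ev h)^[n] fun i => algebraMap K (AlgebraicClosure K) (y i) := by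
    intro n
    have h1 := ev_map (k := K) (Algebra.ofId K (AlgebraicClosure K)) h y n
    rw [ev_eq_pt] at h1
    exact h1
  obtain ⟨a, b, α, U, T, hT, hα0, hYU, hUT, hUne, hz⟩ := exc_alg (L := AlgebraicClosure K) hh.1 he hv hid
    (fun n i => algebraMap K (AlgebraicClosure K) ((pt h)^[n] y i)) (fun n => by
      rw [hYit, hYit, ← Function.iterate_add_apply, add_comm])
    (fun i j hij c => wander_seq hh.1 he hy _ i j hij c)
  set FL : MvPolynomial (Fin 2 ⊕ Fin 2) (AlgebraicClosure K) := map (algebraMap K (AlgebraicClosure K)) F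
    with hFL
  have hFL0 : FL ≠ 0 := by
    intro h0
    apply hF0
    apply map_injective _ hinj
    rw [map_zero]
    exact h0
  have hpL := wh_map (algebraMap K (AlgebraicClosure K)) hp
  have hqL := wh_map (algebraMap K (AlgebraicClosure K)) hq
  rw [← hFL] at hpL hqL
  set A : Fin 2 → MvPolynomial (Fin 2 ⊕ Fin 1) (AlgebraicClosure K) :=
    fun i => C (a i) + C (b i) * X (Sum.inr 0) with hA
  have hAe : ∀ (z : Fin 2 → AlgebraicClosure K) (u : Fin 1 → AlgebraicClosure K),
      (fun i => eval (Sum.elim z u) (A i)) = fun i => a i + b i * u 0 := by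
    intro z u
    funext i
    simp [hA]
  have hF' : sub2 A FL ≠ 0 := by
    intro h0
    have h1 : (C (v 0) * X (Sum.inr 0) + C (v 1) * X (Sum.inr 1) :
        MvPolynomial (Fin 2 ⊕ Fin 2) (AlgebraicClosure K)) * FL = 0 := by
      apply MvPolynomial.funext
      intro z
      rw [map_mul, map_zero]
      simp only [map_add, map_mul, eval_C, eval_X]
      by_cases hz0 : v 0 * z (Sum.inr 0) + v 1 * z (Sum.inr 1) = 0
      · rw [hz0, zero_mul]
      · obtain ⟨u, hu⟩ := hz (fun i => z (Sum.inr i)) hz0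
        have h2 : z = Sum.elim (fun i => z (Sum.inl i)) fun i => z (Sum.inr i) := by
          funext i
          rcases i with i | i <;> rfl
        have h3 : eval z FL = 0 := by
          rw [h2, hu, wh_smul_snd hqL]
          have h4 := sub2_eval A FL (fun i => z (Sum.inl i)) (fun _ => u)
          rw [h0, map_zero, hAe] at h4
          rw [← h4, mul_zero]
        rw [h3, mul_zero]
    rcases mul_eq_zero.1 h1 with h2 | h2
    · apply hv
      have h3 : ∀ z : Fin 2 ⊕ Fin 2 → AlgebraicClosure K,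
          v 0 * z (Sum.inr 0) + v 1 * z (Sum.inr 1) = 0 := by
        intro z
        have := congrArg (eval z) h2
        simpa using this
      funext i
      fin_cases i
      · simpa using h3 (Sum.elim 0 ![1, 0])
      · simpa using h3 (Sum.elim 0 ![0, 1])
    · exact hFL0 h2
  obtain ⟨P, hP, hPF⟩ := dehom (p := p) hF' (fun c x u => by
    rw [sub2_eval, sub2_eval, hAe, hAe, wh_smul hpL])
  have hwx : Wander (fun i => map (algebraMap K (AlgebraicClosure K)) (g i))
      fun i => algebraMap K (AlgebraicClosure K) (x i) := by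
    intro i j hij c
    have h1 := evr_iter_map (algebraMap K (AlgebraicClosure K)) g x
    have h2 : ∀ n, (pt fun i => map (algebraMap K (AlgebraicClosure K)) (g i))^[n]
        (fun i => algebraMap K (AlgebraicClosure K) (x i)) =
        fun i => algebraMap K (AlgebraicClosure K) ((pt g)^[n] x i) := h1
    rw [h2, h2]
    exact wander_seq hg.1 (by omega) hx _ i j hij c
  have h1 := product_gen (up_endo hg) hd (up_noexc hE) hwx (U := fun n _ => U n) T hT
    (fun n _ => hUT n) (fun i j hij hc => hUne i j hij (congrFun hc (0 : Fin 1)))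
    {q : (Fin 2 → AlgebraicClosure K) × (Fin 1 → AlgebraicClosure K) |
      eval (Sum.elim q.1 q.2) (sub2 A FL) = 0}
    (fun i => by
      refine ⟨P, hP, fun q hq hq0 => ?_⟩
      rw [Subsingleton.elim i 0]
      exact hPF q.1 q.2 hq0 hq)
  apply h1.subset
  intro n hn
  have hn' : eval (Sum.elim ((pt g)^[n] x) ((pt h)^[n] y)) F = 0 := hn
  have h2 : (pt fun i => map (algebraMap K (AlgebraicClosure K)) (g i))^[n]
      (fun i => algebraMap K (AlgebraicClosure K) (x i)) =
      fun i => algebraMap K (AlgebraicClosure K) ((pt g)^[n] x i) :=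
    evr_iter_map (algebraMap K (AlgebraicClosure K)) g x n
  change eval (Sum.elim _ fun _ => U n) (sub2 A FL) = 0
  rw [h2, sub2_eval, hAe]
  have h3 : eval (Sum.elim (fun i => algebraMap K (AlgebraicClosure K) ((pt g)^[n] x i))
      fun i => algebraMap K (AlgebraicClosure K) ((pt h)^[n] y i)) FL = 0 := by
    rw [hFL, eval_map]
    have h4 : (Sum.elim (fun i => algebraMap K (AlgebraicClosure K) ((pt g)^[n] x i))
        fun i => algebraMap K (AlgebraicClosure K) ((pt h)^[n] y i)) =
        (algebraMap K (AlgebraicClosure K)) ∘ Sum.elim ((pt g)^[n] x) ((pt h)^[n] y) := by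
      funext i
      rcases i with i | i <;> rfl
    rw [h4, ← eval₂_comp, hn', map_zero]
  have h5 := hYU n
  rw [h5, wh_smul_snd hqL] at h3
  exact (mul_eq_zero.1 h3).resolve_left (pow_ne_zero _ (hα0 n))

section nz

variable {K : Type} [Field K]

open Classical in
/-- the normalized coordinates of a point -/
noncomputable def nz (z : Fin 2 → K) : Fin 2 → K := if z 0 = 0 then ![0, 1] else ![1, z 1 / z 0]

lemma nz_smul {c : K} (hc : c ≠ 0) (z : Fin 2 → K) : nz (c • z) = nz z := by
  unfold nz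
  by_cases h0 : z 0 = 0
  · rw [if_pos h0, if_pos (by rw [Pi.smul_apply, h0, smul_zero])]
  · rw [if_neg h0, if_neg (by rw [Pi.smul_apply, smul_eq_mul]; exact mul_ne_zero hc h0)]
    simp only [Pi.smul_apply, smul_eq_mul]
    rw [mul_div_mul_left _ _ hc]

lemma nz_spec {z : Fin 2 → K} (hz : z ≠ 0) : ∃ s : K, s ≠ 0 ∧ z = s • nz z := by
  unfold nz
  by_cases h0 : z 0 = 0
  · rw [if_pos h0]
    refine ⟨z 1, fun h1 => hz ?_, ?_⟩
    · funext i
      fin_cases i
      · exact h0
      · exact h1
    · funext i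
      fin_cases i
      · simp [h0]
      · simp
  · rw [if_neg h0]
    refine ⟨z 0, h0, ?_⟩
    funext i
    fin_cases i
    · simp
    · simp [mul_div_cancel₀ _ h0]

end nz

/-- **The complete Dynamical Mordell-Lang property** if the second function has an exceptional point. -/
theorem exc_full (hg : IsEndo d g) (hd : 2 ≤ d) (hE : NoExcept d g) (he : 1 ≤ e) (hh : IsEndo e h)
    (hex : ¬ NoExcept e h) {x y : Fin 2 → K} (hx : x ≠ 0) (hy : y ≠ 0)
    (W : Set (MvPolynomial (Fin 2 ⊕ Fin 2) K))
    (hW1 : ∀ F ∈ W, ∃ p : ℕ, IsWeightedHomogeneous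
      (Sum.elim (fun _ : Fin 2 => (1 : ℕ)) (fun _ : Fin 2 => (0 : ℕ))) F p)
    (hW2 : ∀ F ∈ W, ∃ p : ℕ, IsWeightedHomogeneous
      (Sum.elim (fun _ : Fin 2 => (0 : ℕ)) (fun _ : Fin 2 => (1 : ℕ))) F p) :
    EvPer fun n => ∀ F ∈ W, eval (Sum.elim ((pt g)^[n] x) ((pt h)^[n] y)) F = 0 := by
  classical
  have hx0 := pt_ne hg hx
  have hy0 := pt_ne hh hy
  have hWH : WH W := fun F hF => by
    obtain ⟨p, hp⟩ := hW1 F hF
    exact ⟨p, fun c x u => wh_smul hp c x u⟩
  have e2 : ∀ n, (∀ F ∈ W, eval (Sum.elim ((pt g)^[n] x) ((pt h)^[n] y)) F = 0) ↔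
      Eqs W ((pt g)^[n] x) (nz ((pt h)^[n] y)) := by
    intro n
    obtain ⟨s, hs, h1⟩ := nz_spec (hy0 n)
    refine forall₂_congr fun F hF => ?_
    obtain ⟨q, hq⟩ := hW2 F hF
    conv_lhs => rw [h1, wh_smul_snd hq]
    constructor
    · intro h
      exact (mul_eq_zero.1 h).resolve_left (pow_ne_zero _ hs)
    · intro h
      rw [h, mul_zero]
  by_cases hwx : Wander g x
  · by_cases hwy : Wander h y
    · by_cases hall : ∀ F ∈ W, F = 0
      · exact ⟨0, 1, one_pos, fun n _ => by
          constructor <;> intro _ F hF <;> rw [hall F hF, map_zero]⟩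
      · push Not at hall
        obtain ⟨F, hF, hF0⟩ := hall
        have h1 := exc_finite hg hd hE he hh hex hwx hwy F hF0 (hW1 F hF) (hW2 F hF)
        apply evPer_of (z := fun _ => False) (N := 0) one_pos (fun n _ => Iff.rfl)
          (fun n hn => hn.elim)
        exact h1.subset fun n hn => hn.2 F hF
    · obtain ⟨a, m, hm, hY⟩ := per_first hh hy hwy
      simp only [e2]
      refine evper_second (x := fun n => (pt g)^[n] x) hx0 hwx
        (U := fun n => nz ((pt h)^[n] y)) (a := a) (m := m) hm (fun r n hn => ?_) hWH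
      obtain ⟨c, hc, h1⟩ := hY r n hn
      rw [h1, nz_smul hc]
  · obtain ⟨a, m, hm, hX⟩ := per_first hg hx hwx
    by_cases hwy : Wander h y
    · have e3 : ∀ n, (∀ F ∈ W, eval (Sum.elim ((pt g)^[n] x) ((pt h)^[n] y)) F = 0) ↔
          Eqs ((rename Sum.swap) '' W) ((pt h)^[n] y) (nz ((pt g)^[n] x)) := by
        intro n
        obtain ⟨s, hs, h1⟩ := nz_spec (hx0 n)
        unfold Eqs
        rw [Set.forall_mem_image]
        refine forall₂_congr fun F hF => ?_
        obtain ⟨p, hp⟩ := hW1 F hF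
        have h2 : eval (Sum.elim ((pt h)^[n] y) (nz ((pt g)^[n] x))) (rename Sum.swap F) =
            eval (Sum.elim (nz ((pt g)^[n] x)) ((pt h)^[n] y)) F := by
          rw [eval_rename]
          congr 2
          funext i
          rcases i with i | i <;> rfl
        rw [h2]
        conv_lhs => rw [h1, wh_smul hp]
        constructor
        · intro h
          exact (mul_eq_zero.1 h).resolve_left (pow_ne_zero _ hs)
        · intro h
          rw [h, mul_zero]
      have hWH' : WH ((rename Sum.swap) '' W) := by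
        rintro _ ⟨F, hF, rfl⟩
        obtain ⟨q, hq⟩ := hW2 F hF
        refine ⟨q, fun c x u => ?_⟩
        have h2 : ∀ z w : Fin 2 → K, eval (Sum.elim z w) (rename Sum.swap F) =
            eval (Sum.elim w z) F := by
          intro z w
          rw [eval_rename]
          congr 2
          funext i
          rcases i with i | i <;> rfl
        rw [h2, h2, wh_smul_snd hq]
      simp only [e3]
      refine evper_second (x := fun n => (pt h)^[n] y) hy0 hwy
        (U := fun n => nz ((pt g)^[n] x)) (a := a) (m := m) hm (fun r n hn => ?_) hWH'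
      obtain ⟨c, hc, h1⟩ := hX r n hn
      rw [h1, nz_smul hc]
    · obtain ⟨a', m', hm', hY⟩ := per_first hh hy hwy
      simp only [e2]
      refine evper_both (x := fun n => (pt g)^[n] x) hm hX (U := fun n => nz ((pt h)^[n] y))
        (a' := a') (m' := m') hm' (fun r n hn => ?_) hWH
      obtain ⟨c, hc, h1⟩ := hY r n hn
      rw [h1, nz_smul hc]

end main

end Pool.Agent.H422.SK
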