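import Mathlib
import Pool.Agent.H422.SK.Miss

set_option autoImplicit false
set_option linter.unusedSectionVars false

/-!
Affine systems over a rational function: closed sets which miss a member of the pencil.
-/

namespace Pool.Agent.H422.SK

open MvPolynomial
open Pool.Agent.Q170.HG (pt IsEndo)

variable {K : Type} [Field K] [CharZero K] {d M : ℕ} {g : Fin 2 → MvPolynomial (Fin 2) K}

lemma wh_inr (F : MvPolynomial (Fin M) K) :
    IsWeightedHomogeneous (Sum.elim (fun _ : Fin 2 => (1 : ℕ)) (fun _ : Fin M => (0 : ℕ)))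
      (rename Sum.inr F : MvPolynomial (Fin 2 ⊕ Fin M) K) 0 := by
  induction F using MvPolynomial.induction_on with
  | C a =>
    rw [rename_C]
    exact isWeightedHomogeneous_C _ a
  | add a b ha hb =>
    rw [map_add]
    exact ha.add hb
  | mul_X a i ha =>
    rw [map_mul, rename_X]
    have h1 := ha.mul (isWeightedHomogeneous_X K
      (Sum.elim (fun _ : Fin 2 => (1 : ℕ)) (fun _ : Fin M => (0 : ℕ))) (Sum.inr i))
    simpa using h1

/-- the graph equation -/
noncomputable def gr (A : Fin 2 → MvPolynomial (Fin M) K) : MvPolynomial (Fin 2 ⊕ Fin M) K :=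
  X (Sum.inl 0) * rename Sum.inr (A 1) - X (Sum.inl 1) * rename Sum.inr (A 0)

lemma gr_wh (A : Fin 2 → MvPolynomial (Fin M) K) :
    IsWeightedHomogeneous (Sum.elim (fun _ : Fin 2 => (1 : ℕ)) (fun _ : Fin M => (0 : ℕ)))
      (gr A) 1 := by
  have h1 : ∀ i j, IsWeightedHomogeneous (Sum.elim (fun _ : Fin 2 => (1 : ℕ)) (fun _ : Fin M => (0 : ℕ)))
      (X (Sum.inl i) * rename Sum.inr (A j) : MvPolynomial (Fin 2 ⊕ Fin M) K) 1 := by
    intro i j
    have h1 := (isWeightedHomogeneous_X K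
      (Sum.elim (fun _ : Fin 2 => (1 : ℕ)) (fun _ : Fin M => (0 : ℕ))) (Sum.inl i)).mul (wh_inr (A j))
    simpa using h1
  exact (h1 0 1).sub (h1 1 0)

lemma gr_aeval {L : Type} [Field L] [Algebra K L] (A : Fin 2 → MvPolynomial (Fin M) K)
    (x : Fin 2 → L) (u : Fin M → L) :
    aeval (Sum.elim x u) (gr A) = x 0 * aeval u (A 1) - x 1 * aeval u (A 0) := by
  rw [gr, map_sub, map_mul, map_mul, aeval_X, aeval_X, aeval_rename, aeval_rename]
  simp

/-- the values of the pencil along the orbit -/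
lemma prop_orbit (hg : IsEndo d g)
    (h : Fin M → MvPolynomial (Fin M) K) (A : Fin 2 → MvPolynomial (Fin M) K) (u : Fin M → K)
    (hA0 : ∀ n, (fun a => eval ((pm h)^[n] u) (A a)) ≠ 0)
    (hA : ∀ n, eval ((pm h)^[n + 1] u) (A 0) * pt g (fun a => eval ((pm h)^[n] u) (A a)) 1 =
      eval ((pm h)^[n + 1] u) (A 1) * pt g (fun a => eval ((pm h)^[n] u) (A a)) 0) (n : ℕ) :
    ∃ c : K, c ≠ 0 ∧ (fun a => eval ((pm h)^[n] u) (A a)) = c • (pt g)^[n] fun a => eval u (A a) := by
  induction n with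
  | zero => exact ⟨1, one_ne_zero, by rw [one_smul]; rfl⟩
  | succ n ih =>
    obtain ⟨c, hc, h1⟩ := ih
    have h2 : pt g (fun a => eval ((pm h)^[n] u) (A a)) ≠ 0 := by
      have := pt_ne hg (hA0 n) 1
      exact this
    obtain ⟨c', hc', h3⟩ := cross (hA0 (n + 1)) h2 (hA n)
    refine ⟨c' * c ^ d, mul_ne_zero hc' (pow_ne_zero _ hc), ?_⟩
    rw [h3, h1, mul_smul, Function.iterate_succ_apply']
    congr 1
    have h4 := iter_smul_any hg.1 c ((pt g)^[n] fun a => eval u (A a)) 1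
    rw [pow_one] at h4
    exact h4

/-- **Affine systems: closed sets which miss a member of the pencil.** -/
theorem semi_miss (hg : IsEndo d g) (hd : 2 ≤ d) (hE : NoExcept d g)
    (h : Fin M → MvPolynomial (Fin M) K) (A : Fin 2 → MvPolynomial (Fin M) K) (u : Fin M → K)
    (hx : Wander g fun a => eval u (A a))
    (hA0 : ∀ n, (fun a => eval ((pm h)^[n] u) (A a)) ≠ 0)
    (hA : ∀ n, eval ((pm h)^[n + 1] u) (A 0) * pt g (fun a => eval ((pm h)^[n] u) (A a)) 1 =
      eval ((pm h)^[n + 1] u) (A 1) * pt g (fun a => eval ((pm h)^[n] u) (A a)) 0)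
    (W : Set (MvPolynomial (Fin M) K)) (α : Fin 2 → AlgebraicClosure K) (hα : α ≠ 0)
    (hmiss : ∀ w : Fin M → AlgebraicClosure K, (∀ F ∈ W, aeval w F = 0) →
      α 0 * aeval w (A 1) ≠ α 1 * aeval w (A 0)) :
    {n | ∀ F ∈ W, eval ((pm h)^[n] u) F = 0}.Finite := by
  classical
  obtain ⟨T, hT, hUT⟩ := orbit_fg h u
  have h1 := miss_any hg hd hE hx (W := insert (gr A) (rename Sum.inr '' W)) (by
    rintro F (rfl | ⟨G, hG, rfl⟩)
    · exact ⟨1, gr_wh A⟩
    · exact ⟨0, wh_inr G⟩) α hα (fun w => by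
      by_cases hw : ∀ F ∈ W, aeval w F = 0
      · refine ⟨gr A, Set.mem_insert _ _, ?_⟩
        rw [gr_aeval]
        exact sub_ne_zero.2 (hmiss w hw)
      · push Not at hw
        obtain ⟨F, hF, hFw⟩ := hw
        refine ⟨rename Sum.inr F, Set.mem_insert_of_mem _ ⟨F, hF, rfl⟩, ?_⟩
        rw [aeval_rename, Sum.elim_comp_inr]
        exact hFw) T hT
  apply h1.subset
  intro n hn
  refine ⟨(pm h)^[n] u, hUT n, ?_⟩
  rintro F (rfl | ⟨G, hG, rfl⟩)
  · obtain ⟨c, hc, h2⟩ := prop_orbit hg h A u hA0 hA n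
    have h3 := gr_aeval A ((pt g)^[n] fun a => eval u (A a)) ((pm h)^[n] u)
    rw [aeval_eq_eval, aeval_eq_eval] at h3
    have h3' : eval (Sum.elim ((pt g)^[n] fun a => eval u (A a)) ((pm h)^[n] u)) (gr A) =
        (pt g)^[n] (fun a => eval u (A a)) 0 * eval ((pm h)^[n] u) (A 1) -
          (pt g)^[n] (fun a => eval u (A a)) 1 * eval ((pm h)^[n] u) (A 0) := h3
    rw [h3']
    have e0 : eval ((pm h)^[n] u) (A 0) = c * (pt g)^[n] (fun a => eval u (A a)) 0 := congrFun h2 0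
    have e1 : eval ((pm h)^[n] u) (A 1) = c * (pt g)^[n] (fun a => eval u (A a)) 1 := congrFun h2 1
    rw [e0, e1]
    ring
  · rw [eval_rename, Sum.elim_comp_inr]
    exact hn G hG

end Pool.Agent.H422.SK
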