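import Mathlib
import Pool.Agent.H422.SK.Semi

set_option autoImplicit false
set_option linter.unusedSectionVars false

/-!
Endomorphisms of projective space which preserve a pencil and a hyperplane.
-/

namespace Pool.Agent.H422.SK

open MvPolynomial
open Pool.Agent.Q170.HG (pt IsEndo)

variable {K : Type} [Field K] [CharZero K] {d m N : ℕ} {g : Fin 2 → MvPolynomial (Fin 2) K}

/-- dehomogenization -/
noncomputable def dh (F : MvPolynomial (Fin (N + 1)) K) : MvPolynomial (Fin N) K :=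
  aeval (Fin.cons 1 X : Fin (N + 1) → MvPolynomial (Fin N) K) F

lemma dh_aeval {L : Type} [Field L] [Algebra K L] (F : MvPolynomial (Fin (N + 1)) K) (u : Fin N → L) :
    aeval u (dh F) = aeval (Fin.cons 1 u : Fin (N + 1) → L) F := by
  rw [dh, ← AlgHom.comp_apply, comp_aeval]
  congr 2
  funext q
  refine Fin.cases ?_ (fun i => ?_) q
  · simp
  · simp

lemma dh_eval (F : MvPolynomial (Fin (N + 1)) K) (u : Fin N → K) :
    eval u (dh F) = eval (Fin.cons 1 u : Fin (N + 1) → K) F := by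
  rw [← aeval_eq_eval, ← aeval_eq_eval, dh_aeval]

lemma cons_smul' (x : Fin (N + 1) → K) (hx : x 0 ≠ 0) :
    x = x 0 • (Fin.cons 1 (fun i : Fin N => x i.succ / x 0) : Fin (N + 1) → K) := by
  funext q
  refine Fin.cases ?_ (fun i => ?_) q
  · simp
  · simp [mul_div_cancel₀ _ hx]

lemma smul_hom {M : ℕ} {p : MvPolynomial (Fin M) K} {e : ℕ} (hp : p.IsHomogeneous e) (c : K)
    (x : Fin M → K) : eval (c • x) p = c ^ e * eval x p := by
  rw [← aeval_eq_eval, ← aeval_eq_eval]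
  exact aeval_smul_hom hp c x

section

variable {F : Fin (N + 1) → MvPolynomial (Fin (N + 1)) K} {A : Fin 2 → MvPolynomial (Fin (N + 1)) K}

/-- the affine map -/
noncomputable def fa (F : Fin (N + 1) → MvPolynomial (Fin (N + 1)) K) (c : K) :
    Fin N → MvPolynomial (Fin N) K :=
  fun i => C c⁻¹ * dh (F i.succ)

lemma fa_orbit (hF : ∀ i, (F i).IsHomogeneous d) {c : K} (hc : c ≠ 0) (hF0 : F 0 = C c * X 0 ^ d)
    {P : Fin (N + 1) → K} (hP : P 0 ≠ 0) (n : ℕ) :
    ∃ l : K, l ≠ 0 ∧ (pt F)^[n] P =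
      l • (Fin.cons 1 ((pm (fa F c))^[n] fun i : Fin N => P i.succ / P 0) : Fin (N + 1) → K) := by
  induction n with
  | zero => exact ⟨P 0, hP, cons_smul' P hP⟩
  | succ n ih =>
    obtain ⟨l, hl, h1⟩ := ih
    refine ⟨l ^ d * c, mul_ne_zero (pow_ne_zero _ hl) hc, ?_⟩
    rw [Function.iterate_succ_apply', h1, Function.iterate_succ_apply']
    funext q
    change eval _ (F q) = _
    rw [smul_hom (hF q), Pi.smul_apply, smul_eq_mul]
    refine Fin.cases ?_ (fun i => ?_) q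
    · rw [hF0, map_mul, eval_C, map_pow, eval_X]
      simp
    · simp only [Fin.cons_succ]
      change _ = l ^ d * c * eval _ (C c⁻¹ * dh (F i.succ))
      rw [map_mul, eval_C, dh_eval, mul_assoc, ← mul_assoc c, mul_inv_cancel₀ hc, one_mul]

lemma fa_pencil (hA : ∀ i, bind₁ F (A i) = bind₁ A (g i)) (hF : ∀ i, (F i).IsHomogeneous d)
    (hAh : ∀ i, (A i).IsHomogeneous m) {c : K} (hc : c ≠ 0) (hF0 : F 0 = C c * X 0 ^ d)
    (u : Fin N → K) (a : Fin 2) :
    eval (pm (fa F c) u) (dh (A a)) = c⁻¹ ^ m * pt g (fun a => eval u (dh (A a))) a := by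
  have h1 : (Fin.cons 1 (pm (fa F c) u) : Fin (N + 1) → K) =
      c⁻¹ • pt F (Fin.cons 1 u : Fin (N + 1) → K) := by
    funext q
    refine Fin.cases ?_ (fun i => ?_) q
    · rw [Fin.cons_zero, Pi.smul_apply, smul_eq_mul]
      change 1 = c⁻¹ * eval _ (F 0)
      rw [hF0, map_mul, eval_C, map_pow, eval_X, Fin.cons_zero, one_pow, mul_one, inv_mul_cancel₀ hc]
    · rw [Fin.cons_succ, Pi.smul_apply, smul_eq_mul]
      change eval u (C c⁻¹ * dh (F i.succ)) = c⁻¹ * eval _ (F i.succ)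
      rw [map_mul, eval_C, dh_eval]
  rw [dh_eval, h1, smul_hom (hAh a)]
  congr 1
  have h2 := congrArg (eval (Fin.cons 1 u : Fin (N + 1) → K)) (hA a)
  rw [← aeval_eq_eval, aeval_bind₁, aeval_bind₁] at h2
  have h3 : (fun i => aeval (Fin.cons 1 u : Fin (N + 1) → K) (F i)) =
      pt F (Fin.cons 1 u : Fin (N + 1) → K) := by
    funext i
    rw [aeval_eq_eval]
    rfl
  have h4 : (fun i => aeval (Fin.cons 1 u : Fin (N + 1) → K) (A i)) =
      fun a => eval u (dh (A a)) := by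
    funext i
    rw [aeval_eq_eval, dh_eval]
  rw [h3, h4] at h2
  rw [← aeval_eq_eval]
  refine h2.trans ?_
  rw [aeval_eq_eval]
  rfl

/-- **Endomorphisms of projective space which preserve a pencil and a hyperplane.** -/
theorem pn (hF : ∀ i, (F i).IsHomogeneous d) (hd : 2 ≤ d) (hg : IsEndo d g) (hE : NoExcept d g)
    (hAh : ∀ i, (A i).IsHomogeneous m) (hA : ∀ i, bind₁ F (A i) = bind₁ A (g i))
    {c : K} (hc : c ≠ 0) (hF0 : F 0 = C c * X 0 ^ d) {P : Fin (N + 1) → K} (hP : P 0 ≠ 0)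
    (hw : Wander g fun a => eval P (A a)) (W : Set (MvPolynomial (Fin (N + 1)) K))
    (hW : ∀ G ∈ W, ∃ e : ℕ, G.IsHomogeneous e) :
    ((∀ i j l, ∃ Q : MvPolynomial (Fin 2) K, Q ≠ 0 ∧ ∀ x : Fin (N + 1) → K, (∀ G ∈ W, eval x G = 0) →
      x l ≠ 0 → eval ![x i / x l, x j / x l] Q = 0) →
      {n | ∀ G ∈ W, eval ((pt F)^[n] P) G = 0}.Finite) ∧
    (∀ α : Fin 2 → AlgebraicClosure K, α ≠ 0 → (∀ x : Fin (N + 1) → AlgebraicClosure K, x 0 ≠ 0 →
      (∀ G ∈ W, aeval x G = 0) → α 0 * aeval x (A 1) ≠ α 1 * aeval x (A 0)) →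
      {n | ∀ G ∈ W, eval ((pt F)^[n] P) G = 0}.Finite) := by
  classical
  set u : Fin N → K := fun i => P i.succ / P 0 with hu
  set h := fa F c with hh
  set A' : Fin 2 → MvPolynomial (Fin N) K := fun a => dh (A a) with hA'
  have hPu : P = P 0 • (Fin.cons 1 u : Fin (N + 1) → K) := cons_smul' P hP
  have hpen : (fun a => eval P (A a)) = P 0 ^ m • fun a => eval u (A' a) := by
    funext a
    rw [Pi.smul_apply, smul_eq_mul, hA', dh_eval]
    conv_lhs => rw [hPu]
    rw [smul_hom (hAh a)]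
  have hx : Wander g fun a => eval u (A' a) := by
    have h1 := wander_smul_any hg.1 hw (inv_ne_zero (pow_ne_zero m hP))
    rw [hpen, inv_smul_smul₀ (pow_ne_zero _ hP)] at h1
    exact h1
  have hstep : ∀ n, (fun a => eval ((pm h)^[n + 1] u) (A' a)) =
      c⁻¹ ^ m • pt g fun a => eval ((pm h)^[n] u) (A' a) := by
    intro n
    funext a
    rw [Function.iterate_succ_apply', Pi.smul_apply, smul_eq_mul]
    exact fa_pencil hA hF hAh hc hF0 _ a
  have hA0 : ∀ n, (fun a => eval ((pm h)^[n] u) (A' a)) ≠ 0 := by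
    intro n
    induction n with
    | zero => exact wander_ne' hg.1 hd hx 0
    | succ n ih =>
      rw [hstep n]
      have h1 : pt g (fun a => eval ((pm h)^[n] u) (A' a)) ≠ 0 := pt_ne hg ih 1
      exact smul_ne_zero (pow_ne_zero _ (inv_ne_zero hc)) h1
  have hAx : ∀ n, eval ((pm h)^[n + 1] u) (A' 0) * pt g (fun a => eval ((pm h)^[n] u) (A' a)) 1 =
      eval ((pm h)^[n + 1] u) (A' 1) * pt g (fun a => eval ((pm h)^[n] u) (A' a)) 0 := by
    intro n
    have e0 := congrFun (hstep n) 0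
    have e1 := congrFun (hstep n) 1
    rw [Pi.smul_apply, smul_eq_mul] at e0 e1
    rw [e0, e1]
    ring
  have hret : ∀ n, (∀ G ∈ W, eval ((pt F)^[n] P) G = 0) → ∀ G ∈ W, eval ((pm h)^[n] u) (dh G) = 0 := by
    intro n hn G hG
    obtain ⟨l, hl, h1⟩ := fa_orbit hF hc hF0 hP n
    obtain ⟨e, he⟩ := hW G hG
    have h2 := hn G hG
    rw [h1, smul_hom he] at h2
    rw [dh_eval]
    exact (mul_eq_zero.1 h2).resolve_left (pow_ne_zero _ hl)
  constructor
  · intro hV
    have h1 := semi hg hd hE h A' u hx hA0 hAx {w | ∀ G ∈ W, eval w (dh G) = 0} (fun i j => by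
      obtain ⟨Q, hQ, hQV⟩ := hV i.succ j.succ 0
      refine ⟨Q, hQ, fun w hw => ?_⟩
      have h2 := hQV (Fin.cons 1 w) (fun G hG => by
        rw [← dh_eval]
        exact hw G hG) (by simp)
      simpa using h2)
    apply h1.subset
    intro n hn
    exact hret n hn
  · intro α hα hm
    have h1 := semi_miss hg hd hE h A' u hx hA0 hAx (dh '' W) α hα (fun w hw => by
      rw [hA', dh_aeval, dh_aeval]
      apply hm (Fin.cons 1 w) (by simp)
      intro G hG
      rw [← dh_aeval]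
      exact hw _ ⟨G, hG, rfl⟩)
    apply h1.subset
    rintro n hn _ ⟨G, hG, rfl⟩
    exact hret n hn G hG

end

end Pool.Agent.H422.SK
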