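import Mathlib
import Pool.Agent.H422.SK.Fib

set_option autoImplicit false
set_option linter.unusedSectionVars false

/-!
Proper closed subsets of the plane have dimension at most one.
-/

namespace Pool.Agent.H422.SK

open MvPolynomial

lemma plane {L : Type} [Field L] [Infinite L] {e : ℕ} (G : MvPolynomial (Fin 3) L)
    (hG : G.IsHomogeneous e) (hG0 : G ≠ 0) : CurveLike {x | eval x G = 0} := by
  classical
  intro i j l
  by_cases hil : i = l
  · subst hil
    refine ⟨X 0 - 1, ?_, fun x _ hx => ?_⟩
    · intro h0
      have := congrArg (eval ![0, 0]) h0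
      simp at this
    · simp [div_self hx]
  by_cases hjl : j = l
  · subst hjl
    refine ⟨X 1 - 1, ?_, fun x _ hx => ?_⟩
    · intro h0
      have := congrArg (eval ![0, 0]) h0
      simp at this
    · simp [div_self hx]
  by_cases hij : i = j
  · subst hij
    refine ⟨X 0 - X 1, ?_, fun x _ hx => ?_⟩
    · intro h0
      have := congrArg (eval ![1, 0]) h0
      simp at this
    · simp
  have hall : ∀ q : Fin 3, q = i ∨ q = j ∨ q = l := by
    have : ∀ i j l q : Fin 3, i ≠ l → j ≠ l → i ≠ j → q = i ∨ q = j ∨ q = l := by decide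
    exact fun q => this i j l q hil hjl hij
  set w : Fin 3 → MvPolynomial (Fin 2) L := fun q => if q = i then X 0 else if q = j then X 1 else 1
    with hw
  have key : ∀ x : Fin 3 → L, x l ≠ 0 → eval x G = x l ^ e * eval ![x i / x l, x j / x l] (aeval w G) := by
    intro x hx
    have h1 : eval ![x i / x l, x j / x l] (aeval w G) = eval (fun q => x q / x l) G := by
      rw [← aeval_eq_eval, ← AlgHom.comp_apply, comp_aeval, ← aeval_eq_eval]
      congr 2
      funext q
      rcases hall q with rfl | rfl | rfl
      · simp [hw]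
      · simp [hw, Ne.symm hij]
      · simp [hw, Ne.symm hil, Ne.symm hjl, div_self hx]
    rw [h1]
    have h2 := aeval_smul_hom hG (x l) (fun q => x q / x l)
    rw [aeval_eq_eval, aeval_eq_eval] at h2
    rw [← h2]
    congr 1
    congr 1
    funext q
    rw [Pi.smul_apply, smul_eq_mul, mul_div_cancel₀ _ hx]
  refine ⟨aeval w G, ?_, fun x hx hxl => ?_⟩
  · intro h0
    have h1 : X l * G = 0 := by
      apply MvPolynomial.funext
      intro x
      rw [map_mul, eval_X, map_zero]
      by_cases hx : x l = 0
      · rw [hx, zero_mul]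
      · rw [key x hx, h0, map_zero, mul_zero, mul_zero]
    rcases mul_eq_zero.1 h1 with h | h
    · exact X_ne_zero l h
    · exact hG0 h
  · have h1 := key x hxl
    rw [Set.mem_ofPred_eq] at hx
    rw [hx] at h1
    exact (mul_eq_zero.1 h1.symm).resolve_left (pow_ne_zero _ hxl)

end Pool.Agent.H422.SK
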